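import Mathlib

/-!
# Payment lemmas (smoothed Hirsch, MP_4a5c02_co)

* `pay`: one payment: a family of maps which does not lose mass, leaves the later events invariant
  and confines the parameter.
* `quasi`: a map which preserves a reference measure and changes the density by a bounded factor.
* `skew_pi`: translating some coordinates by a function of the others preserves Lebesgue measure.
* `pi_gauss_withDensity`, `gauss_quasi`: the Gaussian case.
* `box_slice`: a parameter confined to a small interval in each coordinate.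
-/

set_option autoImplicit false

open MeasureTheory ProbabilityTheory
open scoped ENNReal NNReal

namespace Pool.Agent.Lib.SHirsch.Pay

/-- One payment. -/
theorem pay {Ω T : Type*} [MeasurableSpace Ω] [MeasurableSpace T] (μ : Measure Ω) [SFinite μ]
    (τ : Measure T) [SFinite τ] (S : T → Ω → Ω) (E E' : Set Ω) (B : Set T)
    (hB : MeasurableSet B) (hE' : MeasurableSet E')
    (hmeas : MeasurableSet {p : T × Ω | S p.1 p.2 ∈ E}) (ρ η : ℝ≥0∞)
    (hq : ∀ t ∈ B, μ E ≤ ρ * μ (S t ⁻¹' E))
    (hinv : ∀ t ∈ B, ∀ ω, S t ω ∈ E → ω ∈ E')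
    (hslice : ∀ ω ∈ E', τ {t | t ∈ B ∧ S t ω ∈ E} ≤ η) :
    τ B * μ E ≤ ρ * η * μ E' := by
  have hX : MeasurableSet {p : T × Ω | p.1 ∈ B ∧ S p.1 p.2 ∈ E} :=
    (measurable_fst hB).inter hmeas
  have h1 : τ B * μ E ≤ ρ * ∫⁻ t in B, μ (S t ⁻¹' E) ∂τ := by
    have : τ B * μ E = ∫⁻ _ in B, μ E ∂τ := by
      rw [setLIntegral_const, mul_comm]
    rw [this]
    have hm : Measurable (fun t => μ (S t ⁻¹' E)) := by
      have := measurable_measure_prodMk_left (ν := μ) hmeas
      exact this
    rw [← lintegral_const_mul _ hm]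
    exact setLIntegral_mono' hB fun t ht => hq t ht
  have h2 : ∫⁻ t in B, μ (S t ⁻¹' E) ∂τ = ∫⁻ ω, τ {t | t ∈ B ∧ S t ω ∈ E} ∂μ := by
    have e1 : (τ.prod μ) {p : T × Ω | p.1 ∈ B ∧ S p.1 p.2 ∈ E} =
        ∫⁻ t in B, μ (S t ⁻¹' E) ∂τ := by
      rw [Measure.prod_apply hX, ← lintegral_indicator hB]
      refine lintegral_congr fun t => ?_
      by_cases ht : t ∈ B
      · rw [Set.indicator_of_mem ht]
        congr 1
        ext ω
        simp [ht]
      · rw [Set.indicator_of_notMem ht]
        have : (Prod.mk t ⁻¹' {p : T × Ω | p.1 ∈ B ∧ S p.1 p.2 ∈ E}) = ∅ := by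
          ext ω; simp [ht]
        rw [this, measure_empty]
    have e2 : (τ.prod μ) {p : T × Ω | p.1 ∈ B ∧ S p.1 p.2 ∈ E} =
        ∫⁻ ω, τ {t | t ∈ B ∧ S t ω ∈ E} ∂μ := by
      rw [Measure.prod_apply_symm hX]
      rfl
    rw [← e1, e2]
  have h3 : ∫⁻ ω, τ {t | t ∈ B ∧ S t ω ∈ E} ∂μ ≤ η * μ E' := by
    have : ∫⁻ ω, τ {t | t ∈ B ∧ S t ω ∈ E} ∂μ ≤ ∫⁻ ω, E'.indicator (fun _ => η) ω ∂μ := by
      refine lintegral_mono fun ω => ?_
      by_cases hω : ω ∈ E'
      · rw [Set.indicator_of_mem hω]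
        exact hslice ω hω
      · rw [Set.indicator_of_notMem hω]
        have : {t | t ∈ B ∧ S t ω ∈ E} = ∅ := by
          ext t
          simp only [Set.mem_ofPred_eq, Set.mem_empty_iff_false, iff_false, not_and]
          intro ht hS
          exact hω (hinv t ht ω hS)
        rw [this, measure_empty]
    refine this.trans ?_
    rw [lintegral_indicator_const hE']
  calc τ B * μ E ≤ ρ * ∫⁻ t in B, μ (S t ⁻¹' E) ∂τ := h1
    _ = ρ * ∫⁻ ω, τ {t | t ∈ B ∧ S t ω ∈ E} ∂μ := by rw [h2]
    _ ≤ ρ * (η * μ E') := by gcongr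
    _ = ρ * η * μ E' := by rw [mul_assoc]

/-- A map preserving a reference measure `lam` and changing the density by at most the factor `ρ`. -/
theorem quasi {Ω : Type*} [MeasurableSpace Ω] (lam : Measure Ω) (p : Ω → ℝ≥0∞)
    (hp : Measurable p) (S : Ω → Ω) (hS : MeasurePreserving S lam lam) (E : Set Ω)
    (hE : MeasurableSet E) (ρ : ℝ≥0∞) (h : ∀ ω, S ω ∈ E → p (S ω) ≤ ρ * p ω) :
    (lam.withDensity p) E ≤ ρ * (lam.withDensity p) (S ⁻¹' E) := by
  rw [withDensity_apply _ hE, withDensity_apply _ (hS.measurable hE)]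
  have h1 : ∫⁻ ω in E, p ω ∂lam = ∫⁻ ω in S ⁻¹' E, p (S ω) ∂lam :=
    (hS.setLIntegral_comp_preimage hE hp).symm
  rw [h1, ← lintegral_const_mul _ hp]
  exact setLIntegral_mono' (hS.measurable hE) fun ω hω => h ω hω

/-- Translating the coordinates outside `p` by a function of the coordinates in `p` preserves
Lebesgue measure. -/
theorem skew_pi {ι : Type*} [Fintype ι] (M : ι → Prop) [DecidablePred M]
    (φ : (ι → ℝ) → ι → ℝ) (hφ : Measurable φ)
    (hdep : ∀ ω ω', (∀ i, ¬ M i → ω i = ω' i) → φ ω = φ ω')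
    (hsupp : ∀ ω i, ¬ M i → φ ω i = 0) :
    MeasurePreserving (fun ω : ι → ℝ => ω + φ ω) volume volume := by
  have he := volume_preserving_piEquivPiSubtypeProd (fun _ : ι => ℝ) M
  set e := MeasurableEquiv.piEquivPiSubtypeProd (fun _ : ι => ℝ) M with he_def
  -- the skew product
  let ψ : ({i : ι // ¬ M i} → ℝ) → ({i : ι // M i} → ℝ) := fun v i => φ (e.symm (0, v)) i
  have hψ : Measurable ψ := by
    refine measurable_pi_lambda _ fun i => ?_
    exact (measurable_pi_apply _).comp (hφ.comp (e.symm.measurable.comp measurable_prodMk_left))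
  have hsk : MeasurePreserving
      (fun q : ({i : ι // ¬ M i} → ℝ) × ({i : ι // M i} → ℝ) => (q.1, q.2 + ψ q.1))
      (volume.prod volume) (volume.prod volume) := by
    refine MeasurePreserving.skew_product (f := id) (g := fun v w => w + ψ v)
      (MeasurePreserving.id _) ?_ ?_
    · exact measurable_snd.add (hψ.comp measurable_fst)
    · refine Filter.Eventually.of_forall fun v => ?_
      exact (measurePreserving_add_right volume (ψ v)).map_eq
  have hsw : MeasurePreserving (Prod.swap (α := {i : ι // M i} → ℝ) (β := {i : ι // ¬ M i} → ℝ))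
      (volume.prod volume) (volume.prod volume) := Measure.measurePreserving_swap
  have hsw' : MeasurePreserving (Prod.swap (α := {i : ι // ¬ M i} → ℝ) (β := {i : ι // M i} → ℝ))
      (volume.prod volume) (volume.prod volume) := Measure.measurePreserving_swap
  have htot := (he.symm e).comp (hsw'.comp (hsk.comp (hsw.comp he)))
  have heq : (fun ω : ι → ℝ => ω + φ ω) =
      (e.symm ∘ (Prod.swap ∘ ((fun q : ({i : ι // ¬ M i} → ℝ) × ({i : ι // M i} → ℝ) =>
        (q.1, q.2 + ψ q.1)) ∘ (Prod.swap ∘ e)))) := by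
    funext ω
    have hdep' : φ (e.symm (0, (e ω).2)) = φ ω := by
      apply hdep
      intro i hi
      simp only [he_def]
      simp [MeasurableEquiv.piEquivPiSubtypeProd, Equiv.piEquivPiSubtypeProd, hi]
    apply e.injective
    simp only [Function.comp_apply, MeasurableEquiv.apply_symm_apply]
    refine Prod.ext ?_ ?_
    · funext i
      change (ω + φ ω) i.1 = (e ω).1 i + φ (e.symm (0, (e ω).2)) i.1
      rw [hdep']
      rfl
    · funext i
      change (ω + φ ω) i.1 = (e ω).2 i
      rw [Pi.add_apply, hsupp ω i.1 i.2, add_zero]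
      rfl
  rw [heq]
  exact htot

/-- The product of Gaussians has the product density. -/
theorem pi_gauss_withDensity {ι : Type*} [Fintype ι] (c : ι → ℝ) (v : ι → ℝ≥0)
    (hv : ∀ i, v i ≠ 0) :
    Measure.pi (fun i => gaussianReal (c i) (v i)) =
      (volume : Measure (ι → ℝ)).withDensity
        (fun ω => ENNReal.ofReal (∏ i, gaussianPDFReal (c i) (v i) (ω i))) := by
  refine Measure.pi_eq fun s hs => ?_
  rw [withDensity_apply _ (MeasurableSet.univ_pi hs), ← lintegral_indicator
    (MeasurableSet.univ_pi hs)]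
  have h1 : ∀ x : ι → ℝ, (Set.univ.pi s).indicator
      (fun x => ENNReal.ofReal (∏ j, gaussianPDFReal (c j) (v j) (x j))) x =
      ENNReal.ofReal (∏ j, (s j).indicator (gaussianPDFReal (c j) (v j)) (x j)) := by
    intro x
    by_cases hx : x ∈ Set.univ.pi s
    · rw [Set.indicator_of_mem hx]
      congr 1
      refine Finset.prod_congr rfl fun j _ => ?_
      rw [Set.indicator_of_mem (hx j (Set.mem_univ j))]
    · rw [Set.indicator_of_notMem hx]
      obtain ⟨j, hj⟩ : ∃ j, x j ∉ s j := by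
        by_contra hcon
        push Not at hcon
        exact hx fun j _ => hcon j
      rw [Finset.prod_eq_zero (Finset.mem_univ j) (Set.indicator_of_notMem hj _),
        ENNReal.ofReal_zero]
  have hint : ∀ j, Integrable ((s j).indicator (gaussianPDFReal (c j) (v j))) := fun j =>
    (integrable_gaussianPDFReal (c j) (v j)).indicator (hs j)
  have hnn : ∀ j p, 0 ≤ (s j).indicator (gaussianPDFReal (c j) (v j)) p := fun j p =>
    Set.indicator_nonneg (fun p _ => gaussianPDFReal_nonneg (c j) (v j) p) p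
  have h5 : Integrable (fun x : ι → ℝ => ∏ j, (s j).indicator (gaussianPDFReal (c j) (v j)) (x j))
      volume := Integrable.fintype_prod
        (f := fun j => (s j).indicator (gaussianPDFReal (c j) (v j))) hint
  have h6 : ∫⁻ x : ι → ℝ, ENNReal.ofReal
      (∏ j, (s j).indicator (gaussianPDFReal (c j) (v j)) (x j)) =
      ENNReal.ofReal (∫ x : ι → ℝ, ∏ j, (s j).indicator (gaussianPDFReal (c j) (v j)) (x j)) :=
    (ofReal_integral_eq_lintegral_ofReal h5
      (Filter.Eventually.of_forall fun x => Finset.prod_nonneg fun j _ => hnn j _)).symm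
  rw [lintegral_congr h1, h6,
    integral_fintype_prod_volume_eq_prod (fun j => (s j).indicator (gaussianPDFReal (c j) (v j))),
    ENNReal.ofReal_prod_of_nonneg (fun j _ => integral_nonneg (hnn j))]
  refine Finset.prod_congr rfl fun j _ => ?_
  rw [ofReal_integral_eq_lintegral_ofReal (hint j) (Filter.Eventually.of_forall (hnn j)),
    gaussianReal_of_var_ne_zero _ (hv j), withDensity_apply _ (hs j), ← lintegral_indicator (hs j)]
  refine lintegral_congr fun p => ?_
  by_cases hp : p ∈ s j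
  · rw [Set.indicator_of_mem hp, Set.indicator_of_mem hp]
    rfl
  · rw [Set.indicator_of_notMem hp, Set.indicator_of_notMem hp, ENNReal.ofReal_zero]

/-- The ratio of two values of a Gaussian density. -/
theorem pdf_ratio {c x h R : ℝ} {v : ℝ≥0} (hv : v ≠ 0) (hx : |x + h - c| ≤ R) :
    gaussianPDFReal c v (x + h) ≤ Real.exp (|h| * (2 * R + |h|) / (2 * v)) *
      gaussianPDFReal c v x := by
  unfold gaussianPDFReal
  have hv' : (0 : ℝ) < v := by
    have := pos_iff_ne_zero.mpr hv
    exact_mod_cast this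
  rw [mul_left_comm]
  refine mul_le_mul_of_nonneg_left ?_ (by positivity)
  rw [← Real.exp_add]
  refine Real.exp_le_exp.mpr ?_
  rw [← add_div]
  refine div_le_div_of_nonneg_right ?_ (by positivity)
  have h1 : |h| * (2 * R + |h|) ≥ 2 * |h| * |x + h - c| + |h| ^ 2 := by
    nlinarith [abs_nonneg h]
  have h2 : |h| * |x + h - c| ≥ -(h * (x + h - c)) := by
    rw [← abs_mul]
    exact neg_le_abs _
  nlinarith [sq_abs h]

/-- The Gaussian case: a skew translation changes the measure by at most `exp κ`. -/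
theorem gauss_quasi {ι : Type*} [Fintype ι] (c : ι → ℝ) (v : ι → ℝ≥0) (hv : ∀ i, v i ≠ 0)
    (M : ι → Prop) [DecidablePred M] (φ : (ι → ℝ) → ι → ℝ) (hφ : Measurable φ)
    (hdep : ∀ ω ω', (∀ i, ¬ M i → ω i = ω' i) → φ ω = φ ω')
    (hsupp : ∀ ω i, ¬ M i → φ ω i = 0) (E : Set (ι → ℝ)) (hE : MeasurableSet E)
    (R : ι → ℝ) (κ : ℝ)
    (hR : ∀ ω, ω + φ ω ∈ E → ∀ i, φ ω i ≠ 0 → |ω i + φ ω i - c i| ≤ R i)
    (hκ : ∀ ω, ω + φ ω ∈ E → ∑ i, |φ ω i| * (2 * R i + |φ ω i|) / (2 * v i) ≤ κ) :
    Measure.pi (fun i => gaussianReal (c i) (v i)) E ≤ ENNReal.ofReal (Real.exp κ) *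
      Measure.pi (fun i => gaussianReal (c i) (v i)) {ω | ω + φ ω ∈ E} := by
  rw [pi_gauss_withDensity c v hv]
  refine quasi volume _ ?_ (fun ω => ω + φ ω) (skew_pi M φ hφ hdep hsupp) E hE _ ?_
  · exact ENNReal.measurable_ofReal.comp (Finset.measurable_prod _ fun i _ =>
      (measurable_gaussianPDFReal (c i) (v i)).comp (measurable_pi_apply i))
  intro ω hω
  rw [← ENNReal.ofReal_mul (Real.exp_nonneg _)]
  refine ENNReal.ofReal_le_ofReal ?_
  calc ∏ i, gaussianPDFReal (c i) (v i) ((ω + φ ω) i)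
      ≤ ∏ i, (Real.exp (|φ ω i| * (2 * R i + |φ ω i|) / (2 * v i)) *
          gaussianPDFReal (c i) (v i) (ω i)) := by
        refine Finset.prod_le_prod (fun i _ => gaussianPDFReal_nonneg _ _ _) fun i _ => ?_
        by_cases hi : φ ω i = 0
        · simp [hi]
        · exact pdf_ratio (hv i) (hR ω hω i hi)
    _ = Real.exp (∑ i, |φ ω i| * (2 * R i + |φ ω i|) / (2 * v i)) *
          ∏ i, gaussianPDFReal (c i) (v i) (ω i) := by
        rw [Finset.prod_mul_distrib, Real.exp_sum]
    _ ≤ Real.exp κ * ∏ i, gaussianPDFReal (c i) (v i) (ω i) := by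
        refine mul_le_mul_of_nonneg_right (Real.exp_le_exp.mpr (hκ ω hω)) ?_
        exact Finset.prod_nonneg fun i _ => gaussianPDFReal_nonneg _ _ _

/-- A parameter confined to an interval of length `ε j` in each coordinate. -/
theorem box_slice {J : Type*} [Fintype J] (X : Set (J → ℝ)) (ε : J → ℝ)
    (h : ∀ t ∈ X, ∀ t' ∈ X, ∀ j, |t j - t' j| ≤ ε j) :
    volume X ≤ ENNReal.ofReal (∏ j, (2 * ε j)) := by
  rcases X.eq_empty_or_nonempty with rfl | ⟨t₀, ht₀⟩
  · simp
  have hε : ∀ j, 0 ≤ ε j := fun j => (abs_nonneg _).trans (h t₀ ht₀ t₀ ht₀ j)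
  have hsub : X ⊆ Set.Icc (fun j => t₀ j - ε j) (fun j => t₀ j + ε j) := by
    intro t ht
    refine ⟨fun j => ?_, fun j => ?_⟩
    · have := h t ht t₀ ht₀ j
      rw [abs_le] at this
      change t₀ j - ε j ≤ t j
      linarith [this.1]
    · have := h t ht t₀ ht₀ j
      rw [abs_le] at this
      change t j ≤ t₀ j + ε j
      linarith [this.2]
  refine (measure_mono hsub).trans ?_
  rw [Real.volume_Icc_pi, ENNReal.ofReal_prod_of_nonneg (fun j _ => by have := hε j; positivity)]
  refine le_of_eq (Finset.prod_congr rfl fun j _ => ?_)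
  congr 1
  ring

end Pool.Agent.Lib.SHirsch.Pay
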