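import Pool.Agent.Lib.SHirsch.Defs

/-!
# RCv: the cross product (180 lines)

`cv_dot`: both sides are linear in `v` (determinant as a function of row `0`: `Matrix.det_updateRow_add`, `Matrix.det_updateRow_smul`, or
expand along row `0`: `Matrix.det_succ_row_zero`; the matrix `of (Fin.cons v g)` is `updateRow` of any other at row `0`), and for `v = Pi.single j 1` it is
the definition (`Matrix.dotProduct` with `Pi.single`: `single_dotProduct`). E.g. `det_succ_row_zero` for `of (Fin.cons v g)`: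
`Σ_j (-1)^j v j det (minor j)` where the minors depend only on `g`; the same for `v = Pi.single j 1` gives `cv g j = (-1)^j det (minor j)`.
`cv_orth`: `g k ⬝ᵥ cv g = det` of a matrix with rows `0` and `k+1` equal (`Matrix.det_zero_of_row_eq`).
`cv_ne_zero`: extend the independent family `g` to a basis: there is `v` with `LinearIndependent ℝ (Fin.cons v g)` (span of `n` vectors is not everything,
`linearIndependent_fin_cons`/`linearIndependent_finCons`), so the determinant is nonzero (`Matrix.linearIndependent_rows_iff_isUnit`) and `cv g ≠ 0` by `cv_dot`.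
`cv_line`: `q` and `cv g` both are orthogonal to the `n` independent vectors `g k`; the orthogonal space is one-dimensional (rank nullity for `x ↦ (g k ⬝ᵥ x)_k`, which is surjective onto `Fin n → ℝ`).
`cv_measurable`: entries of a determinant of continuous functions (`Continuous.matrix_det`, `Finset.sum` of products); `Fin.cons` componentwise.
-/

set_option autoImplicit false

namespace Pool.Agent.Lib.SHirsch

private theorem rcv_expand {n : ℕ} (g : Fin n → Fin (n + 1) → ℝ) (v : Fin (n + 1) → ℝ) :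
    (Matrix.of (Fin.cons v g : Fin (n + 1) → Fin (n + 1) → ℝ)).det =
      ∑ j : Fin (n + 1), (-1) ^ (j : ℕ) * v j *
        ((Matrix.of g : Matrix (Fin n) (Fin (n + 1)) ℝ).submatrix id j.succAbove).det := by
  rw [Matrix.det_succ_row_zero]
  refine Finset.sum_congr rfl fun j _ => ?_
  congr 1

private theorem rcv_cv {n : ℕ} (g : Fin n → Fin (n + 1) → ℝ) (i : Fin (n + 1)) :
    cv g i = (-1) ^ (i : ℕ) *
        ((Matrix.of g : Matrix (Fin n) (Fin (n + 1)) ℝ).submatrix id i.succAbove).det := by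
  unfold cv
  rw [rcv_expand]
  rw [Finset.sum_eq_single i]
  · simp
  · intro j _ hj
    simp [hj]
  · intro h
    exact absurd (Finset.mem_univ i) h

theorem cv_dot {n : ℕ} (g : Fin n → Fin (n + 1) → ℝ) (v : Fin (n + 1) → ℝ) :
    v ⬝ᵥ cv g = (Matrix.of (Fin.cons v g : Fin (n + 1) → Fin (n + 1) → ℝ)).det := by
  rw [rcv_expand]
  unfold dotProduct
  refine Finset.sum_congr rfl fun j _ => ?_
  rw [rcv_cv]
  ring

theorem cv_orth {n : ℕ} (g : Fin n → Fin (n + 1) → ℝ) (k : Fin n) : g k ⬝ᵥ cv g = 0 := by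
  rw [cv_dot]
  refine Matrix.det_zero_of_row_eq (i := 0) (j := k.succ) (Fin.succ_ne_zero k).symm ?_
  rfl

theorem cv_ne_zero {n : ℕ} {g : Fin n → Fin (n + 1) → ℝ} (hg : LinearIndependent ℝ g) :
    cv g ≠ 0 := by
  have hex : ∃ v : Fin (n + 1) → ℝ, v ∉ Submodule.span ℝ (Set.range g) := by
    by_contra hcon
    push Not at hcon
    have htop : Submodule.span ℝ (Set.range g) = ⊤ := by
      rw [eq_top_iff]
      intro x _
      exact hcon x
    have h1 : Module.finrank ℝ (Submodule.span ℝ (Set.range g)) = n := by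
      rw [finrank_span_eq_card hg, Fintype.card_fin]
    rw [htop, finrank_top, Module.finrank_fin_fun] at h1
    omega
  obtain ⟨v, hv⟩ := hex
  have hli : LinearIndependent ℝ (Fin.cons v g : Fin (n + 1) → Fin (n + 1) → ℝ) :=
    linearIndependent_finCons.2 ⟨hg, hv⟩
  have hu : IsUnit (Matrix.of (Fin.cons v g : Fin (n + 1) → Fin (n + 1) → ℝ)) := by
    rw [← Matrix.linearIndependent_rows_iff_isUnit]
    exact hli
  have hdet := (Matrix.isUnit_iff_isUnit_det _).1 hu
  intro h0
  rw [← cv_dot, h0, dotProduct_zero] at hdet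
  exact not_isUnit_zero hdet

theorem cv_line {n : ℕ} {g : Fin n → Fin (n + 1) → ℝ} (hg : LinearIndependent ℝ g)
    {q : Fin (n + 1) → ℝ} (hq : ∀ k, g k ⬝ᵥ q = 0) : ∃ c : ℝ, q = c • cv g := by
  obtain ⟨u, hu⟩ : ∃ u, u = cv g := ⟨_, rfl⟩
  have hne : u ≠ 0 := by rw [hu]; exact cv_ne_zero hg
  have hpos : u ⬝ᵥ u ≠ 0 := by
    intro h
    exact hne (dotProduct_self_eq_zero.1 h)
  refine ⟨(u ⬝ᵥ q) / (u ⬝ᵥ u), ?_⟩
  rw [← hu]
  have hdet : (Matrix.of (Fin.cons u g : Fin (n + 1) → Fin (n + 1) → ℝ)).det ≠ 0 := by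
    rw [← cv_dot, ← hu]
    exact hpos
  have hz : (Matrix.of (Fin.cons u g : Fin (n + 1) → Fin (n + 1) → ℝ)).mulVec
      (q - ((u ⬝ᵥ q) / (u ⬝ᵥ u)) • u) = 0 := by
    funext i
    show (Fin.cons u g : Fin (n + 1) → Fin (n + 1) → ℝ) i ⬝ᵥ
      (q - ((u ⬝ᵥ q) / (u ⬝ᵥ u)) • u) = 0
    rw [dotProduct_sub, dotProduct_smul, smul_eq_mul]
    refine Fin.cases ?_ (fun k => ?_) i
    · rw [Fin.cons_zero, div_mul_cancel₀ _ hpos, sub_self]
    · rw [Fin.cons_succ, hq k]
      have h1 : g k ⬝ᵥ u = 0 := by rw [hu]; exact cv_orth g k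
      rw [h1]
      ring
  have h1 := Matrix.eq_zero_of_mulVec_eq_zero hdet hz
  exact sub_eq_zero.1 h1

theorem cv_measurable {ι : Type} [Fintype ι] {n : ℕ} (I : Fin n → ι) :
    Measurable (fun ω : ι → Fin (n + 1) → ℝ => cv (fun k => ω (I k))) := by
  apply measurable_pi_iff.2
  intro j
  apply Continuous.measurable
  unfold cv
  apply Continuous.matrix_det
  apply continuous_matrix
  intro i j'
  refine Fin.cases ?_ (fun k => ?_) i
  · simp only [Matrix.of_apply, Fin.cons_zero]
    exact continuous_const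
  · simp only [Matrix.of_apply, Fin.cons_succ]
    fun_prop

theorem ray_measurable {ι : Type} [Fintype ι] {n : ℕ} (α : (Fin n → ι) × Bool) :
    Measurable (fun ω : ι → Fin (n + 1) → ℝ => ray ω α) := by
  unfold ray
  exact (cv_measurable α.1).const_smul (if α.2 then (1 : ℝ) else (-1 : ℝ))

theorem ray_congr {ι : Type} {n : ℕ} (α : (Fin n → ι) × Bool)
    {ω ω' : ι → Fin (n + 1) → ℝ} (h : ∀ k, ω (α.1 k) = ω' (α.1 k)) : ray ω α = ray ω' α := by
  unfold ray
  have : (fun k => ω (α.1 k)) = fun k => ω' (α.1 k) := funext h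
  rw [this]

end Pool.Agent.Lib.SHirsch
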