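import Mathlib

/-!
# Gaussian tails relative to feasibility (smoothed Hirsch, MP_4a5c02)

* `half_lower`: a one dimensional lower bound for `P(b ≥ 0)`.
* `pi_half_lower`: the product bound `7^(-m) exp (-1/σ²)`.
* `gauss_tail`, `pi_tail`: upper bounds for the tails.
-/

set_option autoImplicit false

open MeasureTheory ProbabilityTheory
open scoped ENNReal NNReal

namespace Pool.Agent.Lib.SHirsch.Pay

private lemma tail_pdf_lower {σ x : ℝ} (hσ : 0 < σ) {c β : ℝ} (hc : |c| ≤ β) (hx0 : 0 ≤ x)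
    (hx : x ≤ σ) :
    (7 * σ)⁻¹ * Real.exp (-(β ^ 2 / σ ^ 2)) ≤ gaussianPDFReal c (σ ^ 2).toNNReal x := by
  have hb : 0 ≤ β := (abs_nonneg c).trans hc
  have hs2 : ((σ ^ 2).toNNReal : ℝ) = σ ^ 2 := Real.coe_toNNReal _ (by positivity)
  unfold gaussianPDFReal
  rw [hs2]
  have e1 : Real.sqrt (2 * Real.pi * σ ^ 2) = Real.sqrt (2 * Real.pi) * σ := by
    rw [Real.sqrt_mul (by positivity), Real.sqrt_sq hσ.le]
  rw [e1]
  have h2 : (x - c) ^ 2 ≤ 2 * β ^ 2 + 2 * σ ^ 2 := by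
    have h3 : c ^ 2 ≤ β ^ 2 := sq_le_sq' (by linarith [neg_le_of_abs_le hc]) (le_of_abs_le hc)
    nlinarith [sq_nonneg (x + c)]
  have h4 : Real.exp (-(β ^ 2 / σ ^ 2)) * Real.exp (-1) ≤
      Real.exp (-(x - c) ^ 2 / (2 * σ ^ 2)) := by
    rw [← Real.exp_add]
    refine Real.exp_le_exp.mpr ?_
    have hs : (0 : ℝ) < 2 * σ ^ 2 := by positivity
    rw [le_div_iff₀ hs]
    have : β ^ 2 / σ ^ 2 * (2 * σ ^ 2) = 2 * β ^ 2 := by field_simp
    nlinarith
  have h5 : (1 : ℝ) / 7 ≤ (Real.sqrt (2 * Real.pi))⁻¹ * Real.exp (-1) := by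
    have h6 : Real.sqrt (2 * Real.pi) ≤ 2.51 := by
      rw [Real.sqrt_le_left (by norm_num)]
      have := Real.pi_lt_d2
      nlinarith
    have h7 : Real.exp 1 < 2.7182818286 := Real.exp_one_lt_d9
    have h8 : Real.exp (-1) = (Real.exp 1)⁻¹ := Real.exp_neg 1
    rw [h8, ← mul_inv, ← one_div]
    have h9 : 0 < Real.sqrt (2 * Real.pi) := Real.sqrt_pos.mpr (by positivity)
    have h10 : 0 < Real.exp 1 := Real.exp_pos 1
    refine one_div_le_one_div_of_le (by positivity) ?_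
    nlinarith
  calc (7 * σ)⁻¹ * Real.exp (-(β ^ 2 / σ ^ 2))
      = σ⁻¹ * (1 / 7) * Real.exp (-(β ^ 2 / σ ^ 2)) := by
        rw [mul_inv]; ring
    _ ≤ σ⁻¹ * ((Real.sqrt (2 * Real.pi))⁻¹ * Real.exp (-1)) *
          Real.exp (-(β ^ 2 / σ ^ 2)) := by
        gcongr
    _ = (Real.sqrt (2 * Real.pi) * σ)⁻¹ *
          (Real.exp (-(β ^ 2 / σ ^ 2)) * Real.exp (-1)) := by
        rw [mul_inv]; ring
    _ ≤ _ := by gcongr

/-- A one dimensional lower bound. -/
theorem half_lower {σ : ℝ} (hσ : 0 < σ) (c : ℝ) :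
    ENNReal.ofReal (1 / 7 * Real.exp (-(c ^ 2 / σ ^ 2))) ≤
      gaussianReal c (σ ^ 2).toNNReal (Set.Ici 0) := by
  have hv : (σ ^ 2).toNNReal ≠ 0 := by
    simp only [ne_eq, Real.toNNReal_eq_zero, not_le]
    positivity
  have hsub : Set.Icc 0 σ ⊆ Set.Ici (0 : ℝ) := fun x hx => hx.1
  refine le_trans ?_ (measure_mono hsub)
  rw [gaussianReal_apply _ hv]
  have h1 : ∀ x ∈ Set.Icc (0 : ℝ) σ, ENNReal.ofReal ((7 * σ)⁻¹ * Real.exp (-(c ^ 2 / σ ^ 2))) ≤
      gaussianPDF c (σ ^ 2).toNNReal x := by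
    intro x hx
    rw [gaussianPDF_def]
    refine ENNReal.ofReal_le_ofReal ?_
    have := tail_pdf_lower hσ (c := c) (β := |c|) le_rfl hx.1 hx.2
    rwa [sq_abs] at this
  calc ENNReal.ofReal (1 / 7 * Real.exp (-(c ^ 2 / σ ^ 2)))
      = ∫⁻ _ in Set.Icc (0 : ℝ) σ,
          ENNReal.ofReal ((7 * σ)⁻¹ * Real.exp (-(c ^ 2 / σ ^ 2))) := by
        rw [setLIntegral_const, Real.volume_Icc, sub_zero, ← ENNReal.ofReal_mul (by positivity)]
        congr 1
        field_simp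
    _ ≤ ∫⁻ x in Set.Icc (0 : ℝ) σ, gaussianPDF c (σ ^ 2).toNNReal x :=
        setLIntegral_mono' measurableSet_Icc h1

/-- The product lower bound. -/
theorem pi_half_lower {ι : Type*} [Fintype ι] {σ : ℝ} (hσ : 0 < σ) (c : ι → ℝ)
    (hc : ∑ i, c i ^ 2 ≤ 1) :
    ENNReal.ofReal ((1 / 7) ^ Fintype.card ι * Real.exp (-(1 / σ ^ 2))) ≤
      Measure.pi (fun i => gaussianReal (c i) (σ ^ 2).toNNReal) {b | ∀ i, 0 ≤ b i} := by
  have hset : {b : ι → ℝ | ∀ i, 0 ≤ b i} = Set.univ.pi fun _ => Set.Ici 0 := by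
    ext b
    simp only [Set.mem_ofPred_eq, Set.mem_univ_pi, Set.mem_Ici]
  rw [hset, Measure.pi_pi]
  calc ENNReal.ofReal ((1 / 7) ^ Fintype.card ι * Real.exp (-(1 / σ ^ 2)))
      ≤ ENNReal.ofReal (∏ i : ι, (1 / 7 * Real.exp (-(c i ^ 2 / σ ^ 2)))) := by
        refine ENNReal.ofReal_le_ofReal ?_
        rw [Finset.prod_mul_distrib, Finset.prod_const, Finset.card_univ, ← Real.exp_sum]
        refine mul_le_mul_of_nonneg_left (Real.exp_le_exp.mpr ?_) (by positivity)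
        rw [Finset.sum_neg_distrib, ← Finset.sum_div]
        refine neg_le_neg ?_
        gcongr
    _ = ∏ i : ι, ENNReal.ofReal (1 / 7 * Real.exp (-(c i ^ 2 / σ ^ 2))) := by
        rw [ENNReal.ofReal_prod_of_nonneg (fun i _ => by positivity)]
    _ ≤ _ := Finset.prod_le_prod' fun i _ => half_lower hσ (c i)

private lemma tail_sub {c : ℝ} {v : ℝ≥0} :
    HasSubgaussianMGF (fun x : ℝ => x - c) v (gaussianReal c v) := by
  have hmap : (gaussianReal c v).map (fun x : ℝ => x - c) = gaussianReal 0 v := by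
    rw [gaussianReal_map_sub_const, sub_self]
  refine ⟨fun t => ?_, fun t => ?_⟩
  · have h := (integrable_exp_mul_gaussianReal (μ := c) (v := v) t).mul_const (Real.exp (-(t * c)))
    refine h.congr (Filter.Eventually.of_forall fun x => ?_)
    change Real.exp (t * x) * Real.exp (-(t * c)) = Real.exp (t * (x - c))
    rw [← Real.exp_add]
    congr 1
    ring
  · rw [mgf_gaussianReal hmap]
    simp

/-- The upper tail of one coordinate. -/
theorem gauss_tail {v : ℝ≥0} (c R : ℝ) (hR : 0 ≤ R) :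
    gaussianReal c v {x | R ≤ |x - c|} ≤
      ENNReal.ofReal (2 * Real.exp (-R ^ 2 / (2 * v))) := by
  have h1 := (tail_sub (c := c) (v := v)).measure_ge_le hR
  have h2 := (tail_sub (c := c) (v := v)).neg.measure_ge_le hR
  have hsub : {x : ℝ | R ≤ |x - c|} ⊆ {x | R ≤ x - c} ∪ {x | R ≤ (-fun x : ℝ => x - c) x} := by
    intro x hx
    have hx' : R ≤ |x - c| := hx
    rcases le_abs'.mp hx' with h | h
    · right
      change R ≤ -(x - c)
      linarith
    · left
      exact h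
  refine (measure_mono hsub).trans ((measure_union_le _ _).trans ?_)
  rw [two_mul, ENNReal.ofReal_add (Real.exp_nonneg _) (Real.exp_nonneg _)]
  refine add_le_add ?_ ?_
  · rw [← ENNReal.ofReal_toReal (measure_ne_top (gaussianReal c v) {x | R ≤ x - c})]
    exact ENNReal.ofReal_le_ofReal h1
  · rw [← ENNReal.ofReal_toReal (measure_ne_top (gaussianReal c v)
      {x | R ≤ (-fun x : ℝ => x - c) x})]
    exact ENNReal.ofReal_le_ofReal h2

/-- The tail of a product of Gaussians. -/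
theorem pi_tail {ι : Type*} [Fintype ι] (c : ι → ℝ) (v : ι → ℝ≥0) (R : ι → ℝ)
    (hR : ∀ i, 0 ≤ R i) :
    Measure.pi (fun i => gaussianReal (c i) (v i)) {ω | ∃ i, R i ≤ |ω i - c i|} ≤
      ∑ i, ENNReal.ofReal (2 * Real.exp (-R i ^ 2 / (2 * v i))) := by
  have hset : {ω : ι → ℝ | ∃ i, R i ≤ |ω i - c i|} =
      ⋃ i ∈ (Finset.univ : Finset ι), {ω | R i ≤ |ω i - c i|} := by
    ext ω
    simp
  rw [hset]
  refine (measure_biUnion_finset_le _ _).trans (Finset.sum_le_sum fun i _ => ?_)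
  have hm : MeasurableSet {x : ℝ | R i ≤ |x - c i|} :=
    measurableSet_le measurable_const (by fun_prop)
  have := (measurePreserving_eval (fun i => gaussianReal (c i) (v i)) i).measure_preimage
    hm.nullMeasurableSet
  change Measure.pi (fun i => gaussianReal (c i) (v i))
    (Function.eval i ⁻¹' {x : ℝ | R i ≤ |x - c i|}) ≤ _
  rw [this]
  exact gauss_tail (c i) (R i) (hR i)

open Classical in
/-- The lower bound for a subset of the coordinates. -/
theorem pi_half_lower_sub {ι : Type*} [Fintype ι] {σ : ℝ} (hσ : 0 < σ) (c : ι → ℝ) (v : ι → ℝ≥0)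
    (B : Finset ι) (hv : ∀ i ∈ B, v i = (σ ^ 2).toNNReal) (hc : ∑ i ∈ B, c i ^ 2 ≤ 1) :
    ENNReal.ofReal ((1 / 7) ^ B.card * Real.exp (-(1 / σ ^ 2))) ≤
      Measure.pi (fun i => gaussianReal (c i) (v i)) {b | ∀ i ∈ B, 0 ≤ b i} := by
  have hset : {b : ι → ℝ | ∀ i ∈ B, 0 ≤ b i} =
      Set.univ.pi fun i => if i ∈ B then Set.Ici 0 else Set.univ := by
    ext b
    simp only [Set.mem_ofPred_eq, Set.mem_univ_pi]
    refine forall_congr' fun i => ?_
    by_cases hi : i ∈ B <;> simp [hi]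
  rw [hset, Measure.pi_pi]
  calc ENNReal.ofReal ((1 / 7) ^ B.card * Real.exp (-(1 / σ ^ 2)))
      ≤ ENNReal.ofReal (∏ i ∈ B, (1 / 7 * Real.exp (-(c i ^ 2 / σ ^ 2)))) := by
        refine ENNReal.ofReal_le_ofReal ?_
        rw [Finset.prod_mul_distrib, Finset.prod_const, ← Real.exp_sum]
        refine mul_le_mul_of_nonneg_left (Real.exp_le_exp.mpr ?_) (by positivity)
        rw [Finset.sum_neg_distrib, ← Finset.sum_div]
        refine neg_le_neg ?_
        gcongr
    _ = ∏ i ∈ B, ENNReal.ofReal (1 / 7 * Real.exp (-(c i ^ 2 / σ ^ 2))) := by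
        rw [ENNReal.ofReal_prod_of_nonneg (fun i _ => by positivity)]
    _ = ∏ i, (if i ∈ B then ENNReal.ofReal (1 / 7 * Real.exp (-(c i ^ 2 / σ ^ 2))) else 1) := by
        rw [Finset.prod_ite_mem, Finset.univ_inter]
    _ ≤ _ := by
        refine Finset.prod_le_prod' fun i _ => ?_
        by_cases hi : i ∈ B
        · rw [if_pos hi, if_pos hi, hv i hi]
          exact half_lower hσ (c i)
        · rw [if_neg hi, if_neg hi, measure_univ]

/-- A one dimensional lower bound, the other sign. -/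
theorem half_lower_neg {σ : ℝ} (hσ : 0 < σ) (c : ℝ) :
    ENNReal.ofReal (1 / 7 * Real.exp (-(c ^ 2 / σ ^ 2))) ≤
      gaussianReal c (σ ^ 2).toNNReal (Set.Iic 0) := by
  have h := half_lower hσ (-c)
  rw [neg_sq] at h
  have h2 : gaussianReal (-c) (σ ^ 2).toNNReal (Set.Ici 0) =
      gaussianReal c (σ ^ 2).toNNReal (Set.Iic 0) := by
    rw [← gaussianReal_map_neg, Measure.map_apply (by fun_prop) measurableSet_Ici]
    congr 1
    ext x
    simp
  rwa [h2] at h

open Classical in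
/-- The lower bound for a subset of the coordinates, the other sign. -/
theorem pi_half_lower_sub_neg {ι : Type*} [Fintype ι] {σ : ℝ} (hσ : 0 < σ) (c : ι → ℝ)
    (v : ι → ℝ≥0) (B : Finset ι) (hv : ∀ i ∈ B, v i = (σ ^ 2).toNNReal)
    (hc : ∑ i ∈ B, c i ^ 2 ≤ 1) :
    ENNReal.ofReal ((1 / 7) ^ B.card * Real.exp (-(1 / σ ^ 2))) ≤
      Measure.pi (fun i => gaussianReal (c i) (v i)) {b | ∀ i ∈ B, b i ≤ 0} := by
  have hset : {b : ι → ℝ | ∀ i ∈ B, b i ≤ 0} =
      Set.univ.pi fun i => if i ∈ B then Set.Iic 0 else Set.univ := by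
    ext b
    simp only [Set.mem_ofPred_eq, Set.mem_univ_pi]
    refine forall_congr' fun i => ?_
    by_cases hi : i ∈ B <;> simp [hi]
  rw [hset, Measure.pi_pi]
  calc ENNReal.ofReal ((1 / 7) ^ B.card * Real.exp (-(1 / σ ^ 2)))
      ≤ ENNReal.ofReal (∏ i ∈ B, (1 / 7 * Real.exp (-(c i ^ 2 / σ ^ 2)))) := by
        refine ENNReal.ofReal_le_ofReal ?_
        rw [Finset.prod_mul_distrib, Finset.prod_const, ← Real.exp_sum]
        refine mul_le_mul_of_nonneg_left (Real.exp_le_exp.mpr ?_) (by positivity)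
        rw [Finset.sum_neg_distrib, ← Finset.sum_div]
        refine neg_le_neg ?_
        gcongr
    _ = ∏ i ∈ B, ENNReal.ofReal (1 / 7 * Real.exp (-(c i ^ 2 / σ ^ 2))) := by
        rw [ENNReal.ofReal_prod_of_nonneg (fun i _ => by positivity)]
    _ = ∏ i, (if i ∈ B then ENNReal.ofReal (1 / 7 * Real.exp (-(c i ^ 2 / σ ^ 2))) else 1) := by
        rw [Finset.prod_ite_mem, Finset.univ_inter]
    _ ≤ _ := by
        refine Finset.prod_le_prod' fun i _ => ?_
        by_cases hi : i ∈ B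
        · rw [if_pos hi, if_pos hi, hv i hi]
          exact half_lower_neg hσ (c i)
        · rw [if_neg hi, if_neg hi, measure_univ]

/-- **Sizes**, from any lower bound for the reference event. -/
theorem sizes_of_lower {ι : Type*} [Fintype ι] {σ : ℝ} (c : ι → ℝ) (v : ι → ℝ≥0) (k : ℕ)
    (F : Set (ι → ℝ))
    (hF : ENNReal.ofReal ((1 / 7) ^ k * Real.exp (-(1 / σ ^ 2))) ≤
      Measure.pi (fun i => gaussianReal (c i) (v i)) F)
    (R : ι → ℝ) (hR : ∀ i, 0 ≤ R i) (K : ℝ)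
    (hK : ∀ i, K + 2 * (Fintype.card ι : ℝ) + 2 * (k : ℝ) + 1 / σ ^ 2 ≤
      R i ^ 2 / (2 * v i)) :
    Measure.pi (fun i => gaussianReal (c i) (v i)) {ω | ∃ i, R i ≤ |ω i - c i|} ≤
      ENNReal.ofReal (Real.exp (-K)) * Measure.pi (fun i => gaussianReal (c i) (v i)) F := by
  have h1 := pi_tail c v R hR
  refine h1.trans (le_trans ?_ (mul_le_mul_right hF _))
  rw [← ENNReal.ofReal_mul (Real.exp_nonneg _)]
  rw [← ENNReal.ofReal_sum_of_nonneg (fun i _ => by positivity)]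
  refine ENNReal.ofReal_le_ofReal ?_
  have h3 : ∀ i ∈ (Finset.univ : Finset ι), 2 * Real.exp (-R i ^ 2 / (2 * v i)) ≤
      2 * Real.exp (-(K + 2 * (Fintype.card ι : ℝ) + 2 * (k : ℝ) + 1 / σ ^ 2)) := by
    intro i _
    have := hK i
    rw [neg_div]
    gcongr
  refine (Finset.sum_le_sum h3).trans ?_
  rw [Finset.sum_const, Finset.card_univ, nsmul_eq_mul]
  set N : ℝ := (Fintype.card ι : ℝ) with hN
  have hN0 : 0 ≤ N := Nat.cast_nonneg _
  have e1 : Real.exp (-(K + 2 * N + 2 * (k : ℝ) + 1 / σ ^ 2)) =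
      Real.exp (-K) * Real.exp (-(2 * N)) * Real.exp (-(2 * (k : ℝ))) *
        Real.exp (-(1 / σ ^ 2)) := by
    rw [← Real.exp_add, ← Real.exp_add, ← Real.exp_add]
    congr 1
    ring
  rw [e1]
  have h4 : N * 2 * Real.exp (-(2 * N)) ≤ 1 := by
    have h5 : 2 * N + 1 ≤ Real.exp (2 * N) := Real.add_one_le_exp _
    rw [Real.exp_neg]
    have h6 := Real.exp_pos (2 * N)
    rw [mul_inv_le_iff₀ h6]
    linarith
  have h7 : Real.exp (-(2 * (k : ℝ))) ≤ (1 / 7) ^ k := by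
    have h8 : Real.exp (-2) ≤ 1 / 7 := by
      have h9 : (7 : ℝ) ≤ Real.exp 2 := by
        have := Real.exp_one_gt_d9
        have h10 : Real.exp 2 = Real.exp 1 * Real.exp 1 := by
          rw [← Real.exp_add]; norm_num
        nlinarith
      rw [Real.exp_neg, ← one_div]
      exact one_div_le_one_div_of_le (by norm_num) h9
    have h11 : Real.exp (-(2 * (k : ℝ))) = Real.exp (-2) ^ k := by
      rw [← Real.exp_nat_mul]
      congr 1
      ring
    rw [h11]
    exact pow_le_pow_left₀ (Real.exp_nonneg _) h8 _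
  calc N * (2 * (Real.exp (-K) * Real.exp (-(2 * N)) * Real.exp (-(2 * (k : ℝ))) *
        Real.exp (-(1 / σ ^ 2))))
      = (N * 2 * Real.exp (-(2 * N))) * (Real.exp (-K) * (Real.exp (-(2 * (k : ℝ))) *
        Real.exp (-(1 / σ ^ 2)))) := by ring
    _ ≤ 1 * (Real.exp (-K) * ((1 / 7) ^ k * Real.exp (-(1 / σ ^ 2)))) := by
        gcongr
    _ = _ := by ring

end Pool.Agent.Lib.SHirsch.Pay
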