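import Pool.Agent.Lib.SHirsch.Defs

/-!
# PProd: integrating out independent rows (120 lines)

Induction on `R`. `R = insert i R'`: put `F ω = f ω * ∏ j ∈ R', h j ω (ω j)`, which does not depend on the coordinate `ω i` (`i ∉ T`, `i ∉ R'`), and `h i ω v` does not depend on `ω i` either (`i ∉ T`). One-coordinate Fubini:
`∫ F ω * h i ω (ω i) = ∫ F ω * (∫ h i ω v dν_i(v))`. With `lmarginal`: `lintegral_eq_lmarginal_univ`, `lmarginal_erase` (univ = erase + singleton), `lmarginal_singleton`: `∫⋯∫⁻_{i}, g = fun ω => ∫⁻ v, g (Function.update ω i v) ∂(ν i)`; for `g ω = F ω * h i ω (ω i)` this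
is `F ω * ∫⁻ v, h i ω v ∂ν_i`, and for `g ω = F ω * H ω`, `H ω = ∫⁻ v, h i ω v ∂ν_i` (independent of `ω i`), it is the same because `ν i` is a probability measure. Then apply the induction hypothesis with `f * H` (measurable by `Measurable.lintegral_prod_right'`, depends only on `T`)
instead of `f`.
-/

set_option autoImplicit false

open MeasureTheory

namespace Pool.Agent.Lib.SHirsch

private theorem resample {ι : Type} [Fintype ι] [DecidableEq ι] {V : Type} [MeasurableSpace V]
    (ν : ι → Measure V) [∀ i, IsProbabilityMeasure (ν i)] (i : ι)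
    (g : (ι → V) → ENNReal) (hg : Measurable g) :
    ∫⁻ ω, g ω ∂(Measure.pi ν) =
      ∫⁻ ω, (∫⁻ v, g (Function.update ω i v) ∂(ν i)) ∂(Measure.pi ν) := by
  rcases isEmpty_or_nonempty (ι → V) with hE | ⟨⟨x⟩⟩
  · simp
  · have hmeas : Measurable (fun p : (ι → V) × V => g (Function.update p.1 i p.2)) := by
      apply hg.comp
      exact measurable_update'
    have hG : Measurable (fun ω : ι → V => ∫⁻ v, g (Function.update ω i v) ∂(ν i)) :=
      hmeas.lintegral_prod_right'
    rw [lintegral_eq_lmarginal_univ x, lintegral_eq_lmarginal_univ x,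
      lmarginal_erase' g hg (Finset.mem_univ i), lmarginal_erase' _ hG (Finset.mem_univ i)]
    congr 2
    funext ω
    simp only [Function.update_idem]
    rw [lintegral_const, measure_univ, mul_one]

theorem prod_lemma {ι : Type} [Fintype ι] [DecidableEq ι] {V : Type} [MeasurableSpace V]
    (ν : ι → Measure V) [∀ i, IsProbabilityMeasure (ν i)] (T R : Finset ι) (hTR : Disjoint T R)
    (f : (ι → V) → ENNReal) (hf : Measurable f)
    (hfT : ∀ ω ω' : ι → V, (∀ i ∈ T, ω i = ω' i) → f ω = f ω')
    (h : ι → (ι → V) → V → ENNReal)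
    (hh : ∀ i, Measurable (fun p : (ι → V) × V => h i p.1 p.2))
    (hhT : ∀ i v, ∀ ω ω' : ι → V, (∀ j ∈ T, ω j = ω' j) → h i ω v = h i ω' v) :
    ∫⁻ ω, f ω * ∏ i ∈ R, h i ω (ω i) ∂(Measure.pi ν) =
      ∫⁻ ω, f ω * ∏ i ∈ R, (∫⁻ v, h i ω v ∂(ν i)) ∂(Measure.pi ν) := by
  induction R using Finset.induction generalizing f with
  | empty => simp
  | insert i R' hi ih =>
    have hTR' : Disjoint T R' := by
      rw [Finset.disjoint_left] at hTR ⊢
      intro a ha hb
      exact hTR ha (Finset.mem_insert_of_mem hb)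
    have hiT : i ∉ T := fun h' => (Finset.disjoint_left.1 hTR) h' (Finset.mem_insert_self _ _)
    have hcoord : ∀ j, Measurable (fun ω : ι → V => h j ω (ω j)) := fun j =>
      (hh j).comp (measurable_id.prodMk (measurable_pi_apply j))
    have hP : Measurable (fun ω : ι → V => ∏ j ∈ R', h j ω (ω j)) :=
      Finset.measurable_fun_prod _ (fun j _ => hcoord j)
    have hH : Measurable (fun ω : ι → V => ∫⁻ v, h i ω v ∂(ν i)) :=
      (hh i).lintegral_prod_right'
    have hupd : ∀ (ω : ι → V) (v : V), ∀ j ∈ T, Function.update ω i v j = ω j := by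
      intro ω v j hj
      refine Function.update_of_ne ?_ _ _
      rintro rfl
      exact hiT hj
    have key : ∫⁻ ω, f ω * ∏ j ∈ insert i R', h j ω (ω j) ∂(Measure.pi ν) =
        ∫⁻ ω, (f ω * ∫⁻ v, h i ω v ∂(ν i)) * ∏ j ∈ R', h j ω (ω j) ∂(Measure.pi ν) := by
      rw [resample ν i (fun ω => f ω * ∏ j ∈ insert i R', h j ω (ω j))
        (hf.mul (Finset.measurable_fun_prod _ (fun j _ => hcoord j)))]
      apply lintegral_congr
      intro ω
      have e1 : ∀ v, f (Function.update ω i v) *
          ∏ j ∈ insert i R', h j (Function.update ω i v) (Function.update ω i v j) =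
          (f ω * ∏ j ∈ R', h j ω (ω j)) * h i ω v := by
        intro v
        rw [hfT _ ω (hupd ω v), Finset.prod_insert hi, hhT i _ _ ω (hupd ω v),
          Function.update_self]
        have e2 : ∏ j ∈ R', h j (Function.update ω i v) (Function.update ω i v j) =
            ∏ j ∈ R', h j ω (ω j) := by
          apply Finset.prod_congr rfl
          intro j hj
          have hji : j ≠ i := fun h' => hi (h' ▸ hj)
          rw [hhT j _ _ ω (hupd ω v), Function.update_of_ne hji]
        rw [e2]
        ring
      simp_rw [e1]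
      rw [lintegral_const_mul]
      · ring
      · exact (hh i).comp (measurable_const.prodMk measurable_id)
    rw [key]
    rw [ih hTR' (fun ω => f ω * ∫⁻ v, h i ω v ∂(ν i)) (hf.mul hH)]
    · apply lintegral_congr
      intro ω
      rw [Finset.prod_insert hi, mul_assoc]
    · intro ω ω' hω
      show f ω * ∫⁻ v, h i ω v ∂(ν i) = f ω' * ∫⁻ v, h i ω' v ∂(ν i)
      rw [hfT ω ω' hω]
      congr 1
      apply lintegral_congr
      intro v
      exact hhT i v ω ω' hω

end Pool.Agent.Lib.SHirsch
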