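import Pool.Agent.Lib.SHirsch.TDefs
import Pool.Agent.Lib.S3.Larman
import Pool.Agent.Lib.S3.Assemble

/-!
# The deterministic side of the thin part (MP_4a5c02_co)

`det_thin`: if the margin of all rows is at most `ρ` and no labelled event `ET D j e ρ` with
`|D| = p` holds, then the diameter is at most `4 ^ (2p) * m`.
-/

set_option autoImplicit false

open MeasureTheory ProbabilityTheory

namespace Pool.Agent.Lib.SHirsch.Thin

open Pool.Agent.Lib.SHirsch

/-- The rows `(-b, a)` as a point of `Fin m × Fin (n+1) → ℝ`. -/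
def rw' {m n : ℕ} (a : Fin m → Fin n → ℝ) (b : Fin m → ℝ) : Fin m × Fin (n + 1) → ℝ :=
  fun i => (Fin.cons (-(b i.1)) (a i.1) : Fin (n + 1) → ℝ) i.2

theorem ev_rw {m n : ℕ} (a : Fin m → Fin n → ℝ) (b : Fin m → ℝ) (r : Fin m) (t : ℝ)
    (x : Fin n → ℝ) : ev (rw' a b) r (Fin.cons t x) = a r ⬝ᵥ x - b r * t := by
  unfold ev rw'
  rw [Fin.sum_univ_succ]
  simp [dotProduct]
  ring

theorem ev_smul {m n : ℕ} (ω : Fin m × Fin (n + 1) → ℝ) (r : Fin m) (c : ℝ)
    (X : Fin (n + 1) → ℝ) : ev ω r (c • X) = c * ev ω r X := by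
  unfold ev
  rw [Finset.mul_sum]
  refine Finset.sum_congr rfl fun k _ => ?_
  rw [Pi.smul_apply, smul_eq_mul]; ring

theorem box_convex (n : ℕ) : Convex ℝ (Box n) := by
  have h1 : Box n = Set.pi Set.univ (fun _ : Fin (n + 1) => Set.Icc (-1 : ℝ) 1) ∩ {X | 0 ≤ X 0} := by
    ext X
    simp only [Box, Set.mem_ofPred_eq, Set.mem_inter_iff, Set.mem_univ_pi, Set.mem_Icc, abs_le]
  rw [h1]
  refine (convex_pi fun _ _ => convex_Icc _ _).inter ?_
  intro x hx y hy s t hs ht _
  change 0 ≤ s * x 0 + t * y 0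
  have hx' : 0 ≤ x 0 := hx
  have hy' : 0 ≤ y 0 := hy
  positivity

/-- Helly's theorem: the margin is determined by `n + 2` rows. -/
theorem helly {m n : ℕ} {ρ : ℝ} {ω : Fin m × Fin (n + 1) → ℝ}
    (h : ThinOn ρ Finset.univ ω) : ∃ F : Finset (Fin m), F.card ≤ n + 2 ∧ ThinOn ρ F ω := by
  set C : Fin m → Set (Fin (n + 1) → ℝ) := fun r => {X | X ∈ Box n ∧ ev ω r X < -ρ} with hC
  have hconv : ∀ r ∈ (Finset.univ : Finset (Fin m)), Convex ℝ (C r) := by
    intro r _ x hx y hy s t hs ht hst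
    refine ⟨box_convex n hx.1 hy.1 hs ht hst, ?_⟩
    have e1 : ev ω r (s • x + t • y) = s * ev ω r x + t * ev ω r y := by
      unfold ev
      rw [Finset.mul_sum, Finset.mul_sum, ← Finset.sum_add_distrib]
      refine Finset.sum_congr rfl fun k _ => ?_
      simp only [Pi.add_apply, Pi.smul_apply, smul_eq_mul]; ring
    rw [e1]
    rcases hs.eq_or_lt with h0 | h0
    · have ht1 : t = 1 := by linarith
      rw [← h0, ht1]
      linarith [hy.2]
    · have k1 : s * ev ω r x < s * (-ρ) := mul_lt_mul_of_pos_left hx.2 h0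
      have k2 : t * ev ω r y ≤ t * (-ρ) := mul_le_mul_of_nonneg_left hy.2.le ht
      have k3 : s * (-ρ) + t * (-ρ) = -ρ := by rw [← add_mul, hst, one_mul]
      linarith
  by_contra hcon
  push Not at hcon
  have hinter : ∀ I ⊆ (Finset.univ : Finset (Fin m)),
      I.card ≤ Module.finrank ℝ (Fin (n + 1) → ℝ) + 1 → (⋂ i ∈ I, C i).Nonempty := by
    intro I _ hI
    rw [Module.finrank_fintype_fun_eq_card, Fintype.card_fin] at hI
    have h1 := hcon I (by omega)
    unfold ThinOn at h1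
    push Not at h1
    obtain ⟨X, hX, h2⟩ := h1
    exact ⟨X, Set.mem_iInter₂.mpr fun i hi => ⟨hX, h2 i hi⟩⟩
  obtain ⟨X, hX⟩ := Convex.helly_theorem' hconv hinter
  rw [Set.mem_iInter₂] at hX
  -- there is at least one row
  by_cases hm : (Finset.univ : Finset (Fin m)).Nonempty
  · obtain ⟨r0, hr0⟩ := hm
    have hXB : X ∈ Box n := (hX r0 hr0).1
    obtain ⟨r, hr, h1⟩ := h X hXB
    exact absurd (hX r hr).2 (not_lt.mpr h1)
  · have h0 : (0 : Fin (n + 1) → ℝ) ∈ Box n := ⟨fun j => by simp, by simp⟩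
    obtain ⟨r, hr, _⟩ := h 0 h0
    exact hm ⟨r, hr⟩

/-- A vertex with many rows outside `F` gives a labelled event. -/
theorem vert_et {m n : ℕ} {a : Fin m → Fin n → ℝ} {b : Fin m → ℝ} {ρ : ℝ}
    {F D : Finset (Fin m)} (hF : ThinOn ρ F (rw' a b)) {x : Fin n → ℝ}
    (hx : Vert a b ∅ Finset.univ x) (hD : D ⊆ tt a b Finset.univ x) (hDF : Disjoint D F) :
    ∃ j : Fin (n + 1), ∃ e : ℝ, |e| = 1 ∧ ET D j e ρ (rw' a b) := by
  set X : Fin (n + 1) → ℝ := Fin.cons 1 x with hX
  have hle : ∀ r, ev (rw' a b) r X ≤ 0 := by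
    intro r
    rw [hX, ev_rw]
    have := hx.1.2 r (Finset.mem_univ _)
    linarith
  have heq : ∀ r ∈ D, ev (rw' a b) r X = 0 := by
    intro r hr
    rw [hX, ev_rw]
    have := (mem_tt.1 (hD hr)).2
    linarith
  obtain ⟨j, -, hj⟩ := Finset.exists_max_image Finset.univ (fun j => |X j|)
    ⟨(0 : Fin (n + 1)), Finset.mem_univ _⟩
  have hX0 : X 0 = 1 := by rw [hX, Fin.cons_zero]
  have hpos : 0 < |X j| := by
    have := hj 0 (Finset.mem_univ _)
    simp only [hX0, abs_one] at this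
    linarith
  have hXj : X j ≠ 0 := abs_pos.mp hpos
  refine ⟨j, |X j| * (X j)⁻¹, ?_, ?_, |X j|⁻¹ • X, ⟨fun k => ?_, ?_⟩, ?_, ?_, ?_⟩
  · rw [abs_mul, abs_abs, abs_inv, mul_inv_cancel₀ hpos.ne']
  · intro Y hY
    obtain ⟨r, hr, h1⟩ := hF Y hY
    exact ⟨r, Finset.mem_compl.mpr fun hrD => (Finset.disjoint_left.mp hDF hrD) hr, h1⟩
  · rw [Pi.smul_apply, smul_eq_mul, abs_mul, abs_inv, abs_abs, inv_mul_le_iff₀ hpos, mul_one]
    exact hj k (Finset.mem_univ _)
  · rw [Pi.smul_apply, smul_eq_mul, hX0]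
    positivity
  · rw [Pi.smul_apply, smul_eq_mul]
    field_simp
  · intro r hr
    rw [ev_smul, heq r hr, mul_zero]
  · intro r
    rw [ev_smul]
    exact mul_nonpos_of_nonneg_of_nonpos (by positivity) (hle r)

/-- The deterministic side of the thin part. -/
theorem det_thin {m n : ℕ} {a : Fin m → Fin n → ℝ} {b : Fin m → ℝ} (hG : GPos a b) {ρ : ℝ}
    {p : ℕ} (_hp : 1 ≤ p) (hthin : ThinOn ρ Finset.univ (rw' a b))
    (hno : ∀ D : Finset (Fin m), D.card = p → ∀ j : Fin (n + 1), ∀ e : ℝ, |e| = 1 →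
      ¬ ET D j e ρ (rw' a b)) :
    dm (Pol a b ∅ Finset.univ) ≤ ((4 ^ (2 * p) * m : ℕ) : ℕ∞) := by
  classical
  obtain ⟨F, hFc, hF⟩ := helly hthin
  have hfew : ∀ x, Vert a b ∅ Finset.univ x → (tt a b Finset.univ x \ F).card < p := by
    intro x hx
    by_contra hcon
    rw [not_lt] at hcon
    obtain ⟨D, hD, hDc⟩ := Finset.exists_subset_card_eq hcon
    obtain ⟨j, e, he, h1⟩ := vert_et hF hx (D := D)
      (fun i hi => (Finset.mem_sdiff.mp (hD hi)).1)
      (Finset.disjoint_left.mpr fun i hi => (Finset.mem_sdiff.mp (hD hi)).2)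
    exact hno D hDc j e he h1
  refine Pool.Agent.Lib.S3.dm_le_of_reach hG Finset.univ _ fun u v hu hv => ?_
  refine Pool.Agent.Lib.S3.larman_common hG ∅ Finset.univ u v hu hv (2 * p) m
    (by rw [Finset.card_univ, Fintype.card_fin]) ?_
  rw [Finset.empty_union]
  have hcu : (tt a b Finset.univ u).card = n := by
    have := hu.2; rwa [Finset.empty_union] at this
  have hcv : (tt a b Finset.univ v).card = n := by
    have := hv.2; rwa [Finset.empty_union] at this
  have h1 := hfew u hu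
  have h2 := hfew v hv
  have e1 := Finset.card_sdiff_add_card_inter (tt a b Finset.univ u) F
  have e2 := Finset.card_sdiff_add_card_inter (tt a b Finset.univ v) F
  have e3 : ((tt a b Finset.univ u ∩ F) ∪ (tt a b Finset.univ v ∩ F)).card ≤ F.card :=
    Finset.card_le_card (Finset.union_subset Finset.inter_subset_right Finset.inter_subset_right)
  have e4 := Finset.card_union_add_card_inter (tt a b Finset.univ u ∩ F)
    (tt a b Finset.univ v ∩ F)
  have e5 : ((tt a b Finset.univ u ∩ F) ∩ (tt a b Finset.univ v ∩ F)).card ≤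
      (tt a b Finset.univ u ∩ tt a b Finset.univ v).card :=
    Finset.card_le_card (Finset.inter_subset_inter Finset.inter_subset_left
      Finset.inter_subset_left)
  omega

end Pool.Agent.Lib.SHirsch.Thin
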