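import Mathlib

/-!
# Definitions for the quasi-polynomial bound in the smoothed Hirsch problem (MP_4a5c02_co)

Paper: /team-store/MP_4a5c02_co_paper.md
-/

set_option autoImplicit false

open MeasureTheory

namespace Pool.Agent.Lib.SHirsch

/-! ### Polyhedra -/

/-- The polyhedron with equality rows `T` and inequality rows `S`. -/
def Pol {m n : ℕ} (a : Fin m → Fin n → ℝ) (b : Fin m → ℝ) (T S : Finset (Fin m)) :
    Set (Fin n → ℝ) :=
  {x | (∀ i ∈ T, a i ⬝ᵥ x = b i) ∧ ∀ i ∈ S, a i ⬝ᵥ x ≤ b i}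

open Classical in
/-- The rows of `R` that are tight at `x`. -/
noncomputable def tt {m n : ℕ} (a : Fin m → Fin n → ℝ) (b : Fin m → ℝ) (R : Finset (Fin m))
    (x : Fin n → ℝ) : Finset (Fin m) :=
  R.filter (fun i => a i ⬝ᵥ x = b i)

theorem mem_tt {m n : ℕ} {a : Fin m → Fin n → ℝ} {b : Fin m → ℝ} {R : Finset (Fin m)}
    {x : Fin n → ℝ} {i : Fin m} : i ∈ tt a b R x ↔ i ∈ R ∧ a i ⬝ᵥ x = b i := by
  unfold tt; simp

/-- General position of the rows `(a, b)`. -/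
structure GPos {m n : ℕ} (a : Fin m → Fin n → ℝ) (b : Fin m → ℝ) : Prop where
  al : ∀ x : Fin n → ℝ, (tt a b Finset.univ x).card ≤ n
  be : ∀ J : Finset (Fin m), J.card ≤ n → LinearIndependent ℝ (fun i : J => a i)

/-- Vertices: points of the polyhedron with exactly `n` tight rows. -/
def Vert {m n : ℕ} (a : Fin m → Fin n → ℝ) (b : Fin m → ℝ) (T S : Finset (Fin m))
    (x : Fin n → ℝ) : Prop :=
  x ∈ Pol a b T S ∧ (tt a b (T ∪ S) x).card = n

/-- Adjacent: different, with at least `n - 1` common tight rows. -/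
def Adj {m n : ℕ} (a : Fin m → Fin n → ℝ) (b : Fin m → ℝ) (T S : Finset (Fin m))
    (x y : Fin n → ℝ) : Prop :=
  x ≠ y ∧ n ≤ (tt a b (T ∪ S) x ∩ tt a b (T ∪ S) y).card + 1

/-- `Reach a b T S r x y`: a walk of length at most `r` from the vertex `x` to the vertex `y`. -/
def Reach {m n : ℕ} (a : Fin m → Fin n → ℝ) (b : Fin m → ℝ) (T S : Finset (Fin m)) :
    ℕ → (Fin n → ℝ) → (Fin n → ℝ) → Prop
  | 0, x, y => Vert a b T S x ∧ x = y
  | r + 1, x, y => ∃ z, Reach a b T S r x z ∧ Vert a b T S y ∧ (z = y ∨ Adj a b T S z y)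

/-- The Kalai-Kleitman bound. -/
def KB (d s : ℕ) : ℕ := if s = 0 then 0 else (4 * d) ^ (Nat.log 2 s + 1)

/-- The (extended) diameter of the graph of a convex set: nodes are the extreme points, edges the
extreme segments. -/
noncomputable def dm {n : ℕ} (P : Set (Fin n → ℝ)) : ℕ∞ :=
  ((SimpleGraph.fromRel (fun u v : Fin n → ℝ => IsExtreme ℝ P (segment ℝ u v))).induce
    (Set.extremePoints ℝ P)).ediam

/-! ### Cones -/

/-- The cross product of `n` vectors of `ℝ^(n+1)`. -/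
noncomputable def cv {n : ℕ} (g : Fin n → Fin (n + 1) → ℝ) : Fin (n + 1) → ℝ := fun j =>
  (Matrix.of (Fin.cons (Pi.single j (1 : ℝ)) g : Fin (n + 1) → Fin (n + 1) → ℝ)).det

/-- General position of the rows `ω` in `ℝ^(n+1)`. -/
def GPc {ι : Type} {n : ℕ} (ω : ι → Fin (n + 1) → ℝ) : Prop :=
  ∀ J : Fin (n + 1) → ι, Function.Injective J →
    (Matrix.of (fun k => ω (J k)) : Matrix (Fin (n + 1)) (Fin (n + 1)) ℝ).det ≠ 0

/-- The cone of the rows `S`. -/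
def Cn {ι : Type} {n : ℕ} (ω : ι → Fin (n + 1) → ℝ) (S : Finset ι) : Set (Fin (n + 1) → ℝ) :=
  {y | ∀ i ∈ S, ω i ⬝ᵥ y ≤ 0}

/-- The ray orthogonal to the rows of the tuple `α.1`, with sign `α.2`. -/
noncomputable def ray {ι : Type} {n : ℕ} (ω : ι → Fin (n + 1) → ℝ)
    (α : (Fin n → ι) × Bool) : Fin (n + 1) → ℝ :=
  (if α.2 then (1 : ℝ) else (-1 : ℝ)) • cv (fun k => ω (α.1 k))

/-- `α` uses no row of `K` and gives a nonzero vector of the cone of the rows outside `K`. -/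
def RayIn {ι : Type} [Fintype ι] [DecidableEq ι] {n : ℕ} (K : Finset ι)
    (α : (Fin n → ι) × Bool) (ω : ι → Fin (n + 1) → ℝ) : Prop :=
  (∀ k, α.1 k ∉ K) ∧ ray ω α ≠ 0 ∧ ray ω α ∈ Cn ω Kᶜ

/-- The cone of the rows `S` is nonzero. -/
def Fea {ι : Type} {n : ℕ} (S : Finset ι) (ω : ι → Fin (n + 1) → ℝ) : Prop :=
  ∃ y ∈ Cn ω S, y ≠ 0

/-- Every hyperplane of `K` meets the cone of the rows outside `K` in a nonzero vector. -/
def Hit {ι : Type} [Fintype ι] [DecidableEq ι] {n : ℕ} (K : Finset ι)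
    (ω : ι → Fin (n + 1) → ℝ) : Prop :=
  ∀ i ∈ K, ∃ z ∈ Cn ω Kᶜ, z ≠ 0 ∧ ω i ⬝ᵥ z = 0

/-- Euclidean length. -/
noncomputable def nrm {d : ℕ} (v : Fin d → ℝ) : ℝ := Real.sqrt (v ⬝ᵥ v)

/-- Chordal distance of the directions of `u` and `w`. -/
noncomputable def chd {d : ℕ} (u w : Fin d → ℝ) : ℝ :=
  nrm ((nrm u)⁻¹ • u - (nrm w)⁻¹ • w)

/-- The three properties of the law of a light row that are used. -/
structure LightLaw {d : ℕ} (ν : Measure (Fin d → ℝ)) : Prop where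
  half : ∀ y : Fin d → ℝ, y ≠ 0 → ENNReal.ofReal (1 / 10) ≤ ν {v | v ⬝ᵥ y ≤ 0}
  two : ∀ y y' : Fin d → ℝ, y ≠ 0 → y' ≠ 0 →
    ν {v | v ⬝ᵥ y ≤ 0 ∧ v ⬝ᵥ y' ≤ 0} ≤
      ENNReal.ofReal (1 - chd y y' / 10000) * ν {v | v ⬝ᵥ y ≤ 0}
  slab : ∀ y : Fin d → ℝ, y ≠ 0 → ∀ θ : ℝ, 0 ≤ θ →
    ν {v | |v ⬝ᵥ y| ≤ θ * (nrm v * nrm y)} ≤ ENNReal.ofReal (5 * (d : ℝ) ^ 2 * θ)

/-! ### The concrete rows -/

/-- The rows of the homogenised system `A x ≤ b`; `none` is the row `-t ≤ 0`. -/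
def Gr {m n : ℕ} (a : Fin m → Fin n → ℝ) (b : Fin m → ℝ) : Option (Fin m) → Fin (n + 1) → ℝ
  | none => Fin.cons (-1) 0
  | some i => Fin.cons (-(b i)) (a i)

/-- The law of the rows. -/
noncomputable def rowLaw {m n : ℕ} (Abar : Fin m → Fin n → ℝ) (bbar : Fin m → ℝ) (σ : ℝ) :
    Option (Fin m) → Measure (Fin (n + 1) → ℝ)
  | none => Measure.dirac (Fin.cons (-1) 0)
  | some i => Measure.pi (fun j => ProbabilityTheory.gaussianReal
      ((Fin.cons (-(bbar i)) (Abar i) : Fin (n + 1) → ℝ) j) (σ ^ 2).toNNReal)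

instance {m n : ℕ} (Abar : Fin m → Fin n → ℝ) (bbar : Fin m → ℝ) (σ : ℝ) (o : Option (Fin m)) :
    IsProbabilityMeasure (rowLaw Abar bbar σ o) := by
  cases o <;> unfold rowLaw <;> infer_instance

/-- The law of the noise of the problem. -/
noncomputable def noise (m n : ℕ) (σ : ℝ) : Measure ((Fin m → Fin n → ℝ) × (Fin m → ℝ)) :=
  (Measure.pi fun _ : Fin m => Measure.pi fun _ : Fin n =>
      ProbabilityTheory.gaussianReal 0 (σ ^ 2).toNNReal).prod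
    (Measure.pi fun _ : Fin m => ProbabilityTheory.gaussianReal 0 (σ ^ 2).toNNReal)

/-- The heavy rows. -/
noncomputable def heavy {m n : ℕ} (Abar : Fin m → Fin n → ℝ) (bbar : Fin m → ℝ) (σ : ℝ) :
    Finset (Fin m) :=
  Finset.univ.filter (fun i => σ ^ 2 < ∑ j, Abar i j ^ 2 + bbar i ^ 2)

/-- The light rows. -/
noncomputable def light {m n : ℕ} (Abar : Fin m → Fin n → ℝ) (bbar : Fin m → ℝ) (σ : ℝ) :
    Finset (Fin m) :=
  Finset.univ.filter (fun i => ∑ j, Abar i j ^ 2 + bbar i ^ 2 ≤ σ ^ 2)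

end Pool.Agent.Lib.SHirsch
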