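import Pool.Agent.Lib.SHirsch.Defs

/-!
# GGp: Gaussian rows are in general position almost surely (200 lines)

There are finitely many `J : Fin (n+1) → Option (Fin m)`, so fix an injective `J` (`MeasureTheory.ae_all_iff`, `eventually_countable_forall`). `V = Fin (n+1) → ℝ`, `P = Measure.pi (rowLaw Abar bbar σ)`.
Choose fixed vectors `f : Fin (n+1) → V` with `det f ≠ 0` and `f k = Fin.cons (-1) 0` if `J k = none` (at most one `k`). Claim by induction on the finset `A` of positions with `none ∉ J '' A`: almost surely
`det (fun k => if k ∈ A then ω (J k) else f k) ≠ 0`: in the step the determinant is a nonzero linear functional of the new row, whose kernel is a null set.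
-/

set_option autoImplicit false

open MeasureTheory ProbabilityTheory

namespace Pool.Agent.Lib.SHirsch

/-- A measurable set all of whose sections in direction `i` are null is null. -/
private theorem gg_null {ι V : Type} [Fintype ι] [DecidableEq ι] [MeasurableSpace V]
    (ν : ι → Measure V) [∀ i, SigmaFinite (ν i)] (i : ι) {E : Set (ι → V)}
    (hE : MeasurableSet E) (h : ∀ ω : ι → V, ν i {v | Function.update ω i v ∈ E} = 0) :
    (Measure.pi ν) E = 0 := by
  classical
  have hm : Measurable (E.indicator (fun _ => (1 : ENNReal))) := measurable_const.indicator hE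
  have h1 : (Measure.pi ν) E = ∫⁻ ω, E.indicator (fun _ => (1 : ENNReal)) ω ∂(Measure.pi ν) := by
    rw [lintegral_indicator hE]; simp
  by_cases hne : Nonempty (ι → V)
  · obtain ⟨ω0⟩ := hne
    rw [h1, lintegral_eq_lmarginal_univ ω0, lmarginal_erase' _ hm (Finset.mem_univ i)]
    have h2 : (fun ω : ι → V => ∫⁻ v, (E.indicator (fun _ => (1 : ENNReal)))
        (Function.update ω i v) ∂(ν i)) = fun _ => 0 := by
      funext ω
      have : (fun v => E.indicator (fun _ => (1 : ENNReal)) (Function.update ω i v)) =
          {v | Function.update ω i v ∈ E}.indicator (fun _ => (1 : ENNReal)) := by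
        funext v
        by_cases hv : Function.update ω i v ∈ E
        · have hv' : v ∈ {v | Function.update ω i v ∈ E} := hv
          rw [Set.indicator_of_mem hv, Set.indicator_of_mem hv']
        · have hv' : v ∉ {v | Function.update ω i v ∈ E} := hv
          rw [Set.indicator_of_notMem hv, Set.indicator_of_notMem hv']
      rw [this]
      refine le_antisymm ((lintegral_indicator_const_le _ _).trans ?_) bot_le
      rw [h ω]; simp
    rw [h2]
    simp [lmarginal]
  · have : IsEmpty (ι → V) := not_nonempty_iff.mp hne
    rw [show E = ∅ from Set.eq_empty_of_isEmpty E]; simp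

/-- The kernel of a nonzero functional is null for a nondegenerate Gaussian product. -/
private theorem gg_ker {d : ℕ} (μ : Fin d → ℝ) (v : NNReal) (hv : v ≠ 0)
    (φ : (Fin d → ℝ) →ₗ[ℝ] ℝ) (hφ : φ ≠ 0) :
    (Measure.pi (fun j => gaussianReal (μ j) v)) {x | φ x = 0} = 0 := by
  classical
  obtain ⟨j, hj⟩ : ∃ j, φ (Pi.single j 1) ≠ 0 := by
    by_contra hcon
    push Not at hcon
    apply hφ
    refine LinearMap.pi_ext' fun j => ?_
    ext
    simpa using hcon j
  have hcont : Continuous φ := LinearMap.continuous_of_finiteDimensional φ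
  refine gg_null (fun j => gaussianReal (μ j) v) j
    (measurableSet_eq_fun hcont.measurable measurable_const) ?_
  intro x
  have hup : ∀ t : ℝ, Function.update x j t = Function.update x j 0 + t • Pi.single j 1 := by
    intro t
    funext l
    by_cases hl : l = j
    · subst hl; simp
    · simp [Function.update_of_ne hl, Pi.single_eq_of_ne hl]
  have hsub : {t : ℝ | Function.update x j t ∈ {x | φ x = 0}} ⊆
      {-(φ (Function.update x j 0)) / φ (Pi.single j 1)} := by
    intro t ht
    have h1 : φ (Function.update x j t) = 0 := ht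
    rw [hup t, map_add, map_smul, smul_eq_mul] at h1
    rw [Set.mem_singleton_iff, eq_div_iff hj]
    linarith
  have : NullSingletonClass (gaussianReal (μ j) v) := nullSingletonClass_gaussianReal hv
  exact measure_mono_null hsub (measure_singleton _)

/-- An invertible matrix with a prescribed row `-e_0`. -/
private theorem gg_frame {n : ℕ} (k0 : Fin (n + 1)) :
    ∃ f : Fin (n + 1) → Fin (n + 1) → ℝ, (Matrix.of f).det ≠ 0 ∧
      f k0 = (Fin.cons (-1) 0 : Fin (n + 1) → ℝ) := by
  let M0 : Matrix (Fin (n + 1)) (Fin (n + 1)) ℝ :=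
    (1 : Matrix (Fin (n + 1)) (Fin (n + 1)) ℝ).submatrix (Equiv.swap 0 k0) id
  have hM0 : M0.det ≠ 0 := by
    show (Matrix.submatrix _ _ _).det ≠ 0
    rw [Matrix.det_permute]
    simp
  have hrow : (Fin.cons (-1) 0 : Fin (n + 1) → ℝ) = (-1 : ℝ) • M0 k0 := by
    funext j
    show (Fin.cons (-1) 0 : Fin (n + 1) → ℝ) j =
      (-1 : ℝ) * (1 : Matrix (Fin (n + 1)) (Fin (n + 1)) ℝ) (Equiv.swap 0 k0 k0) j
    rw [Equiv.swap_apply_right]
    refine Fin.cases ?_ (fun j' => ?_) j
    · simp
    · simp [(Fin.succ_ne_zero j').symm]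
  refine ⟨M0.updateRow k0 (Fin.cons (-1) 0), ?_, ?_⟩
  · show (M0.updateRow k0 (Fin.cons (-1) 0)).det ≠ 0
    rw [hrow, Matrix.det_updateRow_smul, Matrix.updateRow_eq_self]
    simp [hM0]
  · exact Matrix.updateRow_self

private theorem gg_one {m n : ℕ} (Abar : Fin m → Fin n → ℝ) (bbar : Fin m → ℝ) {σ : ℝ}
    (hσ : 0 < σ) (J : Fin (n + 1) → Option (Fin m)) (hJ : Function.Injective J)
    (f : Fin (n + 1) → Fin (n + 1) → ℝ) (hf : (Matrix.of f).det ≠ 0) (A : Finset (Fin (n + 1)))
    (hA : ∀ k ∈ A, J k ≠ none) :
    (Measure.pi (rowLaw Abar bbar σ))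
      {ω | (Matrix.of (fun k => if k ∈ A then ω (J k) else f k)).det = 0} = 0 := by
  classical
  have hmeas : ∀ A : Finset (Fin (n + 1)), Continuous
      (fun ω : Option (Fin m) → Fin (n + 1) → ℝ =>
        (Matrix.of (fun k => if k ∈ A then ω (J k) else f k)).det) := by
    intro A
    refine Continuous.matrix_det ?_
    refine continuous_pi fun k => ?_
    show Continuous fun ω : Option (Fin m) → Fin (n + 1) → ℝ =>
      (if k ∈ A then ω (J k) else f k)
    by_cases hk : k ∈ A
    · simp only [hk, if_true]; exact continuous_apply _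
    · simp only [hk, if_false]; exact continuous_const
  induction A using Finset.induction_on with
  | empty => simp [hf]
  | insert k A hkA ih =>
    have ih' := ih (fun l hl => hA l (Finset.mem_insert_of_mem hl))
    obtain ⟨i, hi⟩ : ∃ i, J k = some i :=
      Option.ne_none_iff_exists'.mp (hA k (Finset.mem_insert_self k A))
    -- the matrix with row `k` replaced
    have hupd : ∀ (ω : Option (Fin m) → Fin (n + 1) → ℝ) (v : Fin (n + 1) → ℝ),
        (Matrix.of (fun l => if l ∈ insert k A then (Function.update ω (J k) v) (J l) else f l)) =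
          (Matrix.of (fun l => if l ∈ A then ω (J l) else f l)).updateRow k v := by
      intro ω v
      ext l c
      by_cases hlk : l = k
      · subst hlk; simp
      · have hJl : J l ≠ J k := fun h => hlk (hJ h)
        rw [Matrix.updateRow_ne hlk]
        simp [Finset.mem_insert, hlk, Function.update_of_ne hJl]
    have hupd' : ∀ (ω : Option (Fin m) → Fin (n + 1) → ℝ) (v : Fin (n + 1) → ℝ),
        (Matrix.of (fun l => if l ∈ A then (Function.update ω (J k) v) (J l) else f l)) =
          (Matrix.of (fun l => if l ∈ A then ω (J l) else f l)) := by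
      intro ω v
      ext l c
      by_cases hlk : l = k
      · subst hlk; simp [hkA]
      · have hJl : J l ≠ J k := fun h => hlk (hJ h)
        simp [Function.update_of_ne hJl]
    let E : Set (Option (Fin m) → Fin (n + 1) → ℝ) :=
      {ω | (Matrix.of (fun l => if l ∈ A then ω (J l) else f l)).det ≠ 0 ∧
        (Matrix.of (fun l => if l ∈ insert k A then ω (J l) else f l)).det = 0}
    have hE : MeasurableSet E := by
      refine MeasurableSet.inter ?_ ?_
      · exact (measurableSet_eq_fun (hmeas A).measurable measurable_const).compl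
      · exact measurableSet_eq_fun (hmeas (insert k A)).measurable measurable_const
    have hE0 : (Measure.pi (rowLaw Abar bbar σ)) E = 0 := by
      refine gg_null (rowLaw Abar bbar σ) (J k) hE ?_
      intro ω
      by_cases hd : (Matrix.of (fun l => if l ∈ A then ω (J l) else f l)).det = 0
      · have : {v | Function.update ω (J k) v ∈ E} = ∅ := by
          ext v
          simp only [E, Set.mem_ofPred_eq, hupd', hd, ne_eq, not_true_eq_false, false_and,
            Set.mem_empty_iff_false]
        rw [this]; simp
      · let φ : (Fin (n + 1) → ℝ) →ₗ[ℝ] ℝ :=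
          { toFun := fun v => ((Matrix.of (fun l => if l ∈ A then ω (J l) else f l)).updateRow k v).det
            map_add' := fun x y => Matrix.det_updateRow_add _ _ _ _
            map_smul' := fun c x => by
              rw [Matrix.det_updateRow_smul]; rfl }
        have hφ : φ ≠ 0 := by
          intro h0
          apply hd
          have h1 : φ (f k) = 0 := by rw [h0]; rfl
          have h2 : (Matrix.of (fun l => if l ∈ A then ω (J l) else f l)).updateRow k (f k) =
              (Matrix.of (fun l => if l ∈ A then ω (J l) else f l)) := by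
            ext l c
            by_cases hlk : l = k
            · subst hlk; simp [hkA]
            · rw [Matrix.updateRow_ne hlk]
          rw [← h2]
          exact h1
        have hlaw : rowLaw Abar bbar σ (J k) = Measure.pi (fun j => gaussianReal
            ((Fin.cons (-(bbar i)) (Abar i) : Fin (n + 1) → ℝ) j) (σ ^ 2).toNNReal) := by
          rw [hi]; rfl
        rw [hlaw]
        refine measure_mono_null ?_ (gg_ker (fun j => (Fin.cons (-(bbar i)) (Abar i) :
          Fin (n + 1) → ℝ) j) (σ ^ 2).toNNReal ?_ φ hφ)
        · intro v hv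
          have h3 : (Matrix.of (fun l => if l ∈ insert k A then
              (Function.update ω (J k) v) (J l) else f l)).det = 0 := hv.2
          rw [hupd] at h3
          exact h3
        · have : 0 < σ ^ 2 := by positivity
          simpa [Real.toNNReal_eq_zero, not_le] using this.ne'
    refine measure_mono_null ?_ (measure_union_null ih' hE0)
    intro ω hω
    by_cases hd : (Matrix.of (fun l => if l ∈ A then ω (J l) else f l)).det = 0
    · exact Or.inl hd
    · exact Or.inr ⟨hd, hω⟩

theorem gp_ae {m n : ℕ} (Abar : Fin m → Fin n → ℝ) (bbar : Fin m → ℝ) {σ : ℝ} (hσ : 0 < σ) :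
    ∀ᵐ ω ∂(Measure.pi (rowLaw Abar bbar σ)), GPc ω := by
  classical
  have hnone : ∀ᵐ ω ∂(Measure.pi (rowLaw Abar bbar σ)),
      ω none = (Fin.cons (-1) 0 : Fin (n + 1) → ℝ) := by
    have h1 : ∀ᵐ v ∂(rowLaw Abar bbar σ none), v = (Fin.cons (-1) 0 : Fin (n + 1) → ℝ) := by
      show ∀ᵐ v ∂(Measure.dirac (Fin.cons (-1) 0 : Fin (n + 1) → ℝ)), _
      rw [ae_dirac_eq]
      exact Filter.eventually_pure.mpr rfl
    exact (Measure.tendsto_eval_ae_ae (μ := rowLaw Abar bbar σ) (i := none)).eventually h1
  have hall : ∀ J : Fin (n + 1) → Option (Fin m), Function.Injective J →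
      ∀ᵐ ω ∂(Measure.pi (rowLaw Abar bbar σ)),
        (Matrix.of (fun k => ω (J k)) : Matrix (Fin (n + 1)) (Fin (n + 1)) ℝ).det ≠ 0 := by
    intro J hJ
    obtain ⟨f, hf, hf0⟩ : ∃ f : Fin (n + 1) → Fin (n + 1) → ℝ, (Matrix.of f).det ≠ 0 ∧
        ∀ k, J k = none → f k = (Fin.cons (-1) 0 : Fin (n + 1) → ℝ) := by
      by_cases hex : ∃ k0, J k0 = none
      · obtain ⟨k0, hk0⟩ := hex
        obtain ⟨f, hf, hfk⟩ := gg_frame k0
        refine ⟨f, hf, fun k hk => ?_⟩
        have : k = k0 := hJ (hk.trans hk0.symm)
        rw [this, hfk]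
      · push Not at hex
        refine ⟨(1 : Matrix (Fin (n + 1)) (Fin (n + 1)) ℝ), ?_, fun k hk => absurd hk (hex k)⟩
        show (1 : Matrix (Fin (n + 1)) (Fin (n + 1)) ℝ).det ≠ 0
        simp
    have h2 := gg_one Abar bbar hσ J hJ f hf (Finset.univ.filter (fun k => J k ≠ none))
      (fun k hk => (Finset.mem_filter.mp hk).2)
    have h3 : ∀ᵐ ω ∂(Measure.pi (rowLaw Abar bbar σ)), ¬ (Matrix.of (fun k =>
        if k ∈ Finset.univ.filter (fun k => J k ≠ none) then ω (J k) else f k)).det = 0 := by
      rw [ae_iff]
      simpa using h2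
    filter_upwards [h3, hnone] with ω hω hn
    intro hdet
    apply hω
    rw [← hdet]
    congr 1
    ext k c
    by_cases hk : J k = none
    · simp [hk, hn, hf0 k hk]
    · simp [hk]
  unfold GPc
  rw [ae_all_iff]
  intro J
  by_cases hJ : Function.Injective J
  · filter_upwards [hall J hJ] with ω hω _ using hω
  · exact Filter.Eventually.of_forall fun ω h => absurd h hJ

end Pool.Agent.Lib.SHirsch
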