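import Pool.Agent.Lib.SHirsch.GBas

/-!
# GSlab: a light row is rarely almost orthogonal to a given direction

Scale `y` to a unit vector. For `θ > 1/2` the claim is trivial. For `θ ≤ 1/2` use the vectors
`f i = e i - y i • y`, orthogonal to `y` and of length at most one:
`nrm v ≤ |v ⬝ᵥ y| + ∑ i, |v ⬝ᵥ f i|`, so that `|v ⬝ᵥ y| ≤ 2 θ d |v ⬝ᵥ f i|` for some `i`; then `pair_law`.
-/

set_option autoImplicit false

open MeasureTheory ProbabilityTheory

namespace Pool.Agent.Lib.SHirsch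

private theorem nrm_nonneg' {d : ℕ} (v : Fin d → ℝ) : 0 ≤ nrm v := Real.sqrt_nonneg _

private theorem dot_self_nonneg {d : ℕ} (v : Fin d → ℝ) : 0 ≤ v ⬝ᵥ v := by
  simp only [dotProduct]; exact Finset.sum_nonneg fun j _ => mul_self_nonneg _

private theorem nrm_sq {d : ℕ} (v : Fin d → ℝ) : nrm v ^ 2 = v ⬝ᵥ v :=
  Real.sq_sqrt (dot_self_nonneg v)

private theorem nrm_pos {d : ℕ} {v : Fin d → ℝ} (hv : v ≠ 0) : 0 < nrm v := by
  apply Real.sqrt_pos.mpr
  rcases (dot_self_nonneg v).lt_or_eq with h | h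
  · exact h
  · exact absurd (dotProduct_self_eq_zero.mp h.symm) hv

private theorem abs_dot_le {d : ℕ} (v w : Fin d → ℝ) : |v ⬝ᵥ w| ≤ nrm v * nrm w := by
  have h : (v ⬝ᵥ w) ^ 2 ≤ (v ⬝ᵥ v) * (w ⬝ᵥ w) := by
    have := Finset.sum_mul_sq_le_sq_mul_sq Finset.univ v w
    simpa [dotProduct, pow_two] using this
  rw [← nrm_sq, ← nrm_sq, ← mul_pow] at h
  exact abs_le_of_sq_le_sq h (mul_nonneg (nrm_nonneg' v) (nrm_nonneg' w))

private theorem nrm_smul {d : ℕ} (c : ℝ) (v : Fin d → ℝ) : nrm (c • v) = |c| * nrm v := by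
  unfold nrm
  rw [smul_dotProduct, dotProduct_smul, smul_eq_mul, smul_eq_mul, ← mul_assoc,
    Real.sqrt_mul (mul_self_nonneg c), Real.sqrt_mul_self_eq_abs]

private theorem nrm_le_sum {d : ℕ} (v : Fin d → ℝ) : nrm v ≤ ∑ i, |v i| := by
  have h : nrm v ^ 2 ≤ (∑ i, |v i|) ^ 2 := by
    rw [nrm_sq, pow_two, Finset.sum_mul_sum]
    simp only [dotProduct]
    refine Finset.sum_le_sum fun i _ => ?_
    calc v i * v i = |v i| * |v i| := (abs_mul_abs_self _).symm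
      _ ≤ ∑ j, |v i| * |v j| :=
        Finset.single_le_sum (f := fun j => |v i| * |v j|)
          (fun j _ => mul_nonneg (abs_nonneg _) (abs_nonneg _)) (Finset.mem_univ i)
  exact le_of_sq_le_sq' h (Finset.sum_nonneg fun i _ => abs_nonneg _)
where
  le_of_sq_le_sq' {a b : ℝ} (h : a ^ 2 ≤ b ^ 2) (hb : 0 ≤ b) : a ≤ b :=
    le_of_pow_le_pow_left₀ two_ne_zero hb h

private theorem nrm_add_le {d : ℕ} (v w : Fin d → ℝ) : nrm (v + w) ≤ nrm v + nrm w := by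
  have h : nrm (v + w) ^ 2 ≤ (nrm v + nrm w) ^ 2 := by
    have h1 := nrm_sq (v + w)
    have h2 := nrm_sq v
    have h3 := nrm_sq w
    have h4 := (le_abs_self _).trans (abs_dot_le v w)
    rw [add_dotProduct, dotProduct_add, dotProduct_add, dotProduct_comm w v] at h1
    nlinarith
  exact le_of_pow_le_pow_left₀ two_ne_zero (add_nonneg (nrm_nonneg' v) (nrm_nonneg' w)) h

/-- The pair event. -/
private theorem pair_event {d : ℕ} (μ : Fin d → ℝ) {σ : ℝ} (hσ : 0 < σ)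
    (hμ : ∑ j, μ j ^ 2 ≤ σ ^ 2) (y e : Fin d → ℝ) (hy : y ⬝ᵥ y = 1) (he : e ⬝ᵥ e = 1)
    (hye : y ⬝ᵥ e = 0) (κ : ℝ) (hκ : 0 ≤ κ) :
    (Measure.pi (fun j => gaussianReal (μ j) (σ ^ 2).toNNReal))
        {v | |v ⬝ᵥ y| ≤ κ * |v ⬝ᵥ e|} ≤ ENNReal.ofReal (6 / 5 * κ) := by
  have hmeas : MeasurableSet {p : ℝ × ℝ | |p.1| ≤ κ * |p.2|} :=
    measurableSet_le (by fun_prop) (by fun_prop)
  have hdot : ∀ z : Fin d → ℝ, Measurable (fun v : Fin d → ℝ => v ⬝ᵥ z) := by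
    intro z
    unfold dotProduct
    fun_prop
  have hset : {v : Fin d → ℝ | |v ⬝ᵥ y| ≤ κ * |v ⬝ᵥ e|} =
      (fun v => (v ⬝ᵥ y, v ⬝ᵥ e)) ⁻¹' {p : ℝ × ℝ | |p.1| ≤ κ * |p.2|} := rfl
  rw [hset, ← Measure.map_apply ((hdot y).prodMk (hdot e)) hmeas,
    pair_law μ _ y e hy he hye, Measure.prod_apply_symm hmeas]
  set m1 := μ ⬝ᵥ y
  set m2 := μ ⬝ᵥ e
  have hm2 : m2 ^ 2 ≤ σ ^ 2 := by
    have h1 := abs_dot_le μ e
    have h2 : nrm e = 1 := by unfold nrm; rw [he, Real.sqrt_one]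
    have h3 : nrm μ ^ 2 ≤ σ ^ 2 := by
      rw [nrm_sq]; simpa [dotProduct, pow_two] using hμ
    rw [h2, mul_one] at h1
    calc m2 ^ 2 = |m2| ^ 2 := (sq_abs _).symm
      _ ≤ nrm μ ^ 2 := pow_le_pow_left₀ (abs_nonneg _) h1 2
      _ ≤ σ ^ 2 := h3
  have hL2 : MemLp (fun b : ℝ => b) 2 (gaussianReal m2 (σ ^ 2).toNNReal) :=
    memLp_id_gaussianReal' 2 (by norm_num)
  have hsqint : Integrable (fun b : ℝ => b ^ 2) (gaussianReal m2 (σ ^ 2).toNNReal) :=
    hL2.integrable_sq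
  have hE2 : ∫ b, b ^ 2 ∂(gaussianReal m2 (σ ^ 2).toNNReal) ≤ 2 * σ ^ 2 := by
    have h := variance_eq_sub hL2
    rw [variance_fun_id_gaussianReal] at h
    simp only [integral_id_gaussianReal] at h
    have h' : ((σ ^ 2).toNNReal : ℝ) = σ ^ 2 := Real.coe_toNNReal _ (by positivity)
    rw [h'] at h
    have h2 : ∫ b, b ^ 2 ∂(gaussianReal m2 (σ ^ 2).toNNReal) =
        ∫ b, ((fun b : ℝ => b) ^ 2) b ∂(gaussianReal m2 (σ ^ 2).toNNReal) := rfl
    rw [h2]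
    linarith
  calc ∫⁻ b, gaussianReal m1 (σ ^ 2).toNNReal ((fun x => (x, b)) ⁻¹' {p : ℝ × ℝ | |p.1| ≤ κ * |p.2|})
        ∂(gaussianReal m2 (σ ^ 2).toNNReal)
      ≤ ∫⁻ b, ENNReal.ofReal (4 * κ / (5 * σ) * ((b ^ 2 / σ + σ) / 2))
          ∂(gaussianReal m2 (σ ^ 2).toNNReal) := by
        apply lintegral_mono
        intro b
        have hs : ((fun x => (x, b)) ⁻¹' {p : ℝ × ℝ | |p.1| ≤ κ * |p.2|}) =
            Set.Icc (-(κ * |b|)) (κ * |b|) := by
          ext x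
          simp [abs_le]
        have hb : 0 ≤ κ * |b| := mul_nonneg hκ (abs_nonneg _)
        simp only [hs]
        refine (gauss_interval hσ (by linarith)).trans (ENNReal.ofReal_le_ofReal ?_)
        have e1 : 2 * (κ * |b| - -(κ * |b|)) / (5 * σ) = 4 * κ / (5 * σ) * |b| := by ring
        rw [e1]
        apply mul_le_mul_of_nonneg_left _ (by positivity)
        have : |b| * (2 * σ) ≤ b ^ 2 + σ ^ 2 := by
          have := sq_nonneg (|b| - σ)
          have h2 := sq_abs b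
          nlinarith
        have h3 : (b ^ 2 / σ + σ) / 2 = (b ^ 2 + σ ^ 2) / (2 * σ) := by field_simp
        rw [h3, le_div_iff₀ (by positivity)]
        exact this
    _ = ENNReal.ofReal (∫ b, 4 * κ / (5 * σ) * ((b ^ 2 / σ + σ) / 2)
          ∂(gaussianReal m2 (σ ^ 2).toNNReal)) := by
        rw [ofReal_integral_eq_lintegral_ofReal]
        · apply Integrable.const_mul
          apply Integrable.div_const
          exact (hsqint.div_const σ).add (integrable_const σ)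
        · exact Filter.Eventually.of_forall fun b => by positivity
    _ ≤ ENNReal.ofReal (6 / 5 * κ) := by
        apply ENNReal.ofReal_le_ofReal
        rw [integral_const_mul, integral_div, integral_add (hsqint.div_const σ)
          (integrable_const σ), integral_div, integral_const]
        simp only [probReal_univ, one_smul]
        have h1 : (∫ b, b ^ 2 ∂(gaussianReal m2 (σ ^ 2).toNNReal)) / σ ≤ 2 * σ := by
          rw [div_le_iff₀ hσ]; nlinarith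
        calc 4 * κ / (5 * σ) * (((∫ b, b ^ 2 ∂(gaussianReal m2 (σ ^ 2).toNNReal)) / σ + σ) / 2)
            ≤ 4 * κ / (5 * σ) * ((2 * σ + σ) / 2) := by
              apply mul_le_mul_of_nonneg_left _ (by positivity)
              linarith
          _ = 6 / 5 * κ := by field_simp; ring

private theorem slab_unit {d : ℕ} (μ : Fin d → ℝ) {σ : ℝ} (hσ : 0 < σ)
    (hμ : ∑ j, μ j ^ 2 ≤ σ ^ 2) (y : Fin d → ℝ) (hy : y ⬝ᵥ y = 1) (hd : 2 ≤ d)
    (θ : ℝ) (hθ : 0 ≤ θ) (hθ2 : θ ≤ 1 / 2) :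
    (Measure.pi (fun j => gaussianReal (μ j) (σ ^ 2).toNNReal))
        {v | |v ⬝ᵥ y| ≤ θ * nrm v} ≤ ENNReal.ofReal (5 * (d : ℝ) ^ 2 * θ) := by
  classical
  set γ := Measure.pi (fun j => gaussianReal (μ j) (σ ^ 2).toNNReal) with hγ
  let f : Fin d → Fin d → ℝ := fun i => Pi.single i 1 - y i • y
  have hnrmy : nrm y = 1 := by unfold nrm; rw [hy, Real.sqrt_one]
  have hfy : ∀ i, y ⬝ᵥ f i = 0 := by
    intro i
    simp only [f, dotProduct_sub, dotProduct_smul, hy, dotProduct_single, smul_eq_mul]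
    ring
  have hff : ∀ i, f i ⬝ᵥ f i ≤ 1 := by
    intro i
    have h1 : f i ⬝ᵥ f i = 1 - y i ^ 2 := by
      have h2 := hfy i
      calc f i ⬝ᵥ f i = (Pi.single i 1 : Fin d → ℝ) ⬝ᵥ f i - y i * (y ⬝ᵥ f i) := by
            conv_lhs => rw [show f i = Pi.single i 1 - y i • y from rfl, sub_dotProduct,
              smul_dotProduct]
            rfl
        _ = 1 - y i ^ 2 := by
            rw [h2, mul_zero, sub_zero, single_dotProduct, one_mul]
            simp only [f, Pi.sub_apply, Pi.smul_apply, Pi.single_eq_same, smul_eq_mul]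
            ring
    rw [h1]; nlinarith [sq_nonneg (y i)]
  have hdec : ∀ v : Fin d → ℝ, nrm v ≤ |v ⬝ᵥ y| + ∑ i, |v ⬝ᵥ f i| := by
    intro v
    have h1 : v = (v ⬝ᵥ y) • y + (fun i => v ⬝ᵥ f i) := by
      ext i
      simp only [f, dotProduct_sub, dotProduct_smul, dotProduct_single, smul_eq_mul,
        Pi.add_apply, Pi.smul_apply]
      ring
    calc nrm v = nrm ((v ⬝ᵥ y) • y + (fun i => v ⬝ᵥ f i)) := by rw [← h1]
      _ ≤ nrm ((v ⬝ᵥ y) • y) + nrm (fun i => v ⬝ᵥ f i) := nrm_add_le _ _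
      _ ≤ |v ⬝ᵥ y| + ∑ i, |v ⬝ᵥ f i| := by
          rw [nrm_smul, hnrmy, mul_one]
          exact add_le_add le_rfl (nrm_le_sum _)
  have hdpos : (0 : ℝ) < d := by
    have : 0 < d := by omega
    exact_mod_cast this
  have hsub : {v : Fin d → ℝ | |v ⬝ᵥ y| ≤ θ * nrm v} ⊆
      ⋃ i, {v : Fin d → ℝ | |v ⬝ᵥ y| ≤ 2 * θ * d * |v ⬝ᵥ f i|} := by
    intro v hv
    simp only [Set.mem_ofPred_eq] at hv
    by_contra hcon
    simp only [Set.mem_iUnion, Set.mem_ofPred_eq, not_exists, not_le] at hcon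
    have h1 : |v ⬝ᵥ y| ≤ 2 * θ * ∑ i, |v ⬝ᵥ f i| := by
      have h2 := hdec v
      have h3 : θ * nrm v ≤ θ * (|v ⬝ᵥ y| + ∑ i, |v ⬝ᵥ f i|) :=
        mul_le_mul_of_nonneg_left h2 hθ
      have h4 : θ * |v ⬝ᵥ y| ≤ 1 / 2 * |v ⬝ᵥ y| :=
        mul_le_mul_of_nonneg_right hθ2 (abs_nonneg _)
      nlinarith
    have hne : (Finset.univ : Finset (Fin d)).Nonempty :=
      ⟨⟨0, by omega⟩, Finset.mem_univ _⟩
    have h5 : ∑ i : Fin d, 2 * θ * d * |v ⬝ᵥ f i| < ∑ _i : Fin d, |v ⬝ᵥ y| :=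
      Finset.sum_lt_sum_of_nonempty hne fun i _ => hcon i
    rw [← Finset.mul_sum, Finset.sum_const, Finset.card_univ, Fintype.card_fin,
      nsmul_eq_mul] at h5
    have h6 : (d : ℝ) * |v ⬝ᵥ y| ≤ d * (2 * θ * ∑ i, |v ⬝ᵥ f i|) :=
      mul_le_mul_of_nonneg_left h1 hdpos.le
    nlinarith
  have hone : ∀ i, γ {v : Fin d → ℝ | |v ⬝ᵥ y| ≤ 2 * θ * d * |v ⬝ᵥ f i|} ≤
      ENNReal.ofReal (6 / 5 * (2 * θ * d)) := by
    intro i
    by_cases hfi : f i = 0
    · -- degenerate: `v ⬝ᵥ y = 0`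
      have hz : {v : Fin d → ℝ | |v ⬝ᵥ y| ≤ 2 * θ * d * |v ⬝ᵥ f i|} ⊆
          (fun v : Fin d → ℝ => v ⬝ᵥ y) ⁻¹' (Set.Icc 0 0) := by
        intro v hv
        simp only [hfi, Set.mem_ofPred_eq, dotProduct_zero, abs_zero, mul_zero] at hv
        have : v ⬝ᵥ y = 0 := abs_eq_zero.mp (le_antisymm hv (abs_nonneg _))
        simp [this]
      refine (measure_mono hz).trans ?_
      have hdot : Measurable (fun v : Fin d → ℝ => v ⬝ᵥ y) := by
        unfold dotProduct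
        fun_prop
      rw [← Measure.map_apply hdot measurableSet_Icc, hγ, dot_law μ _ y hy]
      refine (gauss_interval hσ le_rfl).trans (ENNReal.ofReal_le_ofReal ?_)
      rw [sub_self, mul_zero, zero_div]
      positivity
    · have hn := nrm_pos hfi
      have hn1 : nrm (f i) ≤ 1 := by
        unfold nrm
        rw [Real.sqrt_le_one]
        exact hff i
      set e : Fin d → ℝ := (nrm (f i))⁻¹ • f i with he
      have hee : e ⬝ᵥ e = 1 := by
        rw [he, smul_dotProduct, dotProduct_smul, ← nrm_sq, smul_eq_mul, smul_eq_mul]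
        field_simp
      have hye : y ⬝ᵥ e = 0 := by
        rw [he, dotProduct_smul, hfy, smul_zero]
      refine le_trans (measure_mono ?_) (pair_event μ hσ hμ y e hy hee hye (2 * θ * d)
        (by positivity))
      intro v hv
      simp only [Set.mem_ofPred_eq] at hv ⊢
      refine hv.trans (mul_le_mul_of_nonneg_left ?_ (by positivity))
      rw [he, dotProduct_smul, smul_eq_mul, abs_mul, abs_of_pos (inv_pos.mpr hn)]
      have : 1 ≤ (nrm (f i))⁻¹ := (one_le_inv₀ hn).mpr hn1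
      nlinarith [abs_nonneg (v ⬝ᵥ f i)]
  calc γ {v : Fin d → ℝ | |v ⬝ᵥ y| ≤ θ * nrm v}
      ≤ γ (⋃ i, {v : Fin d → ℝ | |v ⬝ᵥ y| ≤ 2 * θ * d * |v ⬝ᵥ f i|}) := measure_mono hsub
    _ ≤ ∑ i, γ {v : Fin d → ℝ | |v ⬝ᵥ y| ≤ 2 * θ * d * |v ⬝ᵥ f i|} :=
        measure_iUnion_fintype_le _ _
    _ ≤ ∑ _i : Fin d, ENNReal.ofReal (6 / 5 * (2 * θ * d)) :=
        Finset.sum_le_sum fun i _ => hone i
    _ = ENNReal.ofReal (d * (6 / 5 * (2 * θ * d))) := by
        rw [Finset.sum_const, Finset.card_univ, Fintype.card_fin, nsmul_eq_mul,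
          ENNReal.ofReal_mul (Nat.cast_nonneg d), ENNReal.ofReal_natCast]
    _ ≤ ENNReal.ofReal (5 * (d : ℝ) ^ 2 * θ) := by
        apply ENNReal.ofReal_le_ofReal
        nlinarith [mul_nonneg hθ (sq_nonneg (d : ℝ))]

theorem light_slab {d : ℕ} (hd : 2 ≤ d) (μ : Fin d → ℝ) {σ : ℝ} (hσ : 0 < σ)
    (hμ : ∑ j, μ j ^ 2 ≤ σ ^ 2) (y : Fin d → ℝ) (hy : y ≠ 0) (θ : ℝ) (hθ : 0 ≤ θ) :
    (Measure.pi (fun j => gaussianReal (μ j) (σ ^ 2).toNNReal))
        {v | |v ⬝ᵥ y| ≤ θ * (nrm v * nrm y)} ≤ ENNReal.ofReal (5 * (d : ℝ) ^ 2 * θ) := by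
  by_cases hθ2 : θ ≤ 1 / 2
  · have hn := nrm_pos hy
    set z : Fin d → ℝ := (nrm y)⁻¹ • y with hz
    have hzz : z ⬝ᵥ z = 1 := by
      rw [hz, smul_dotProduct, dotProduct_smul, ← nrm_sq, smul_eq_mul, smul_eq_mul]
      field_simp
    refine le_trans (measure_mono ?_) (slab_unit μ hσ hμ z hzz hd θ hθ hθ2)
    intro v hv
    simp only [Set.mem_ofPred_eq] at hv ⊢
    rw [hz, dotProduct_smul, smul_eq_mul, abs_mul, abs_of_pos (inv_pos.mpr hn),
      inv_mul_le_iff₀ hn]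
    linarith
  · push Not at hθ2
    refine prob_le_one.trans ?_
    rw [← ENNReal.ofReal_one]
    apply ENNReal.ofReal_le_ofReal
    have h2 : (2 : ℝ) ≤ d := by exact_mod_cast hd
    nlinarith

end Pool.Agent.Lib.SHirsch
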