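import Pool.Agent.Lib.SHirsch.GTwo
import Pool.Agent.Lib.SHirsch.GSlab

/-!
# GLight: light rows of the problem satisfy `LightLaw`, and there are few heavy rows (60 lines)

`rowLaw Abar bbar σ (some i)` is the product of the laws `N(μ_j, σ²)` with `μ = Fin.cons (-(bbar i)) (Abar i)`, `Σ μ_j² = bbar i ^ 2 + Σ_j Abar i j ^ 2 ≤ σ²` for light `i`; `d = n + 1 ≥ 2`.
`heavy_card`: `σ² |heavy| ≤ Σ_{i heavy} (Σ_j Abar i j ^ 2 + bbar i ^ 2) ≤ 2`. `light_heavy`: the two filters are complementary.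
-/

set_option autoImplicit false

open MeasureTheory ProbabilityTheory

namespace Pool.Agent.Lib.SHirsch

theorem lightLaw_row {m n : ℕ} (hn : 1 ≤ n) (Abar : Fin m → Fin n → ℝ) (bbar : Fin m → ℝ)
    {σ : ℝ} (hσ : 0 < σ) {i : Fin m} (hi : i ∈ light Abar bbar σ) :
    LightLaw (rowLaw Abar bbar σ (some i)) := by
  have h1 : ∑ j, (Fin.cons (-(bbar i)) (Abar i) : Fin (n + 1) → ℝ) j ^ 2 ≤ σ ^ 2 := by
    rw [Fin.sum_univ_succ]
    simp only [Fin.cons_zero, Fin.cons_succ, neg_sq]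
    have h2 := (Finset.mem_filter.1 hi).2
    linarith
  exact ⟨fun y hy => light_half _ hσ h1 y hy, fun y y' hy hy' => light_two _ hσ h1 y y' hy hy',
    fun y hy θ hθ => light_slab (by omega) _ hσ h1 y hy θ hθ⟩

theorem heavy_card {m n : ℕ} (Abar : Fin m → Fin n → ℝ) (bbar : Fin m → ℝ) {σ : ℝ}
    (hσ : 0 < σ) (hA : ∑ i, ∑ j, Abar i j ^ 2 ≤ 1) (hb : ∑ i, bbar i ^ 2 ≤ 1) :
    ((heavy Abar bbar σ).card : ℝ) ≤ 2 / σ ^ 2 := by
  rw [le_div_iff₀ (by positivity)]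
  calc ((heavy Abar bbar σ).card : ℝ) * σ ^ 2
      = ∑ _i ∈ heavy Abar bbar σ, σ ^ 2 := by rw [Finset.sum_const, nsmul_eq_mul]
    _ ≤ ∑ i ∈ heavy Abar bbar σ, (∑ j, Abar i j ^ 2 + bbar i ^ 2) :=
        Finset.sum_le_sum fun i hi => (Finset.mem_filter.1 hi).2.le
    _ ≤ ∑ i, (∑ j, Abar i j ^ 2 + bbar i ^ 2) :=
        Finset.sum_le_sum_of_subset_of_nonneg (Finset.subset_univ _) fun i _ _ => by positivity
    _ = ∑ i, ∑ j, Abar i j ^ 2 + ∑ i, bbar i ^ 2 := Finset.sum_add_distrib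
    _ ≤ 2 := by linarith

theorem light_heavy {m n : ℕ} (Abar : Fin m → Fin n → ℝ) (bbar : Fin m → ℝ) (σ : ℝ) :
    (light Abar bbar σ).card + (heavy Abar bbar σ).card = m ∧
      ∀ i, i ∈ light Abar bbar σ ∨ i ∈ heavy Abar bbar σ := by
  have h1 : heavy Abar bbar σ =
      Finset.univ.filter (fun i => ¬ (∑ j, Abar i j ^ 2 + bbar i ^ 2 ≤ σ ^ 2)) := by
    unfold heavy
    simp only [not_le]
  constructor
  · rw [h1]
    unfold light
    rw [Finset.card_filter_add_card_filter_not, Finset.card_univ, Fintype.card_fin]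
  · intro i
    rcases le_or_gt (∑ j, Abar i j ^ 2 + bbar i ^ 2) (σ ^ 2) with h | h
    · exact Or.inl (Finset.mem_filter.2 ⟨Finset.mem_univ _, h⟩)
    · exact Or.inr (Finset.mem_filter.2 ⟨Finset.mem_univ _, h⟩)

end Pool.Agent.Lib.SHirsch
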