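import Pool.Agent.Lib.SHirsch.Defs

/-!
# GTr: the rows of the problem have the law `Measure.pi (rowLaw ..)`
-/

set_option autoImplicit false

open MeasureTheory ProbabilityTheory

namespace Pool.Agent.Lib.SHirsch

/-- Adding a constant coordinate. -/
private lemma add_none {m : ℕ} {V : Type} [MeasurableSpace V] (c : V)
    (ν : Fin m → Measure V) [∀ i, IsProbabilityMeasure (ν i)]
    (ν' : Option (Fin m) → Measure V) [∀ o, IsProbabilityMeasure (ν' o)]
    (h0 : ν' none = Measure.dirac c) (h1 : ∀ i, ν' (some i) = ν i) :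
    MeasurePreserving (fun (v : Fin m → V) (o : Option (Fin m)) => o.elim c v)
      (Measure.pi ν) (Measure.pi ν') := by
  have hm : Measurable (fun (v : Fin m → V) (o : Option (Fin m)) => o.elim c v) := by
    refine measurable_pi_lambda _ (fun o => ?_)
    cases o with
    | none => exact measurable_const
    | some i => exact measurable_pi_apply i
  refine ⟨hm, (Measure.pi_eq (fun s hs => ?_)).symm⟩
  rw [Measure.map_apply hm (MeasurableSet.univ_pi hs), Fintype.prod_option, h0,
    Measure.dirac_apply' _ (hs none)]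
  by_cases hc : c ∈ s none
  · have : (fun (v : Fin m → V) (o : Option (Fin m)) => o.elim c v) ⁻¹' Set.univ.pi s =
        Set.univ.pi (fun i => s (some i)) := by
      ext v
      simp only [Set.mem_preimage, Set.mem_univ_pi]
      constructor
      · intro h i
        exact h (some i)
      · intro h o
        cases o with
        | none => exact hc
        | some i => exact h i
    rw [this, Measure.pi_pi, Set.indicator_of_mem hc]
    simp [h1]
  · have : (fun (v : Fin m → V) (o : Option (Fin m)) => o.elim c v) ⁻¹' Set.univ.pi s = ∅ := by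
      ext v
      simp only [Set.mem_preimage, Set.mem_univ_pi, Set.mem_empty_iff_false, iff_false]
      intro h
      exact hc (h none)
    rw [this, measure_empty, Set.indicator_of_notMem hc, zero_mul]

/-- One row. -/
private lemma one_row {n : ℕ} (a : Fin n → ℝ) (b : ℝ) (v : NNReal) :
    MeasurePreserving (fun p : (Fin n → ℝ) × ℝ =>
        (Fin.cons (-(b + p.2)) (fun j => a j + p.1 j) : Fin (n + 1) → ℝ))
      ((Measure.pi fun _ : Fin n => gaussianReal 0 v).prod (gaussianReal 0 v))
      (Measure.pi fun j => gaussianReal ((Fin.cons (-b) a : Fin (n + 1) → ℝ) j) v) := by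
  have hm : Measurable (fun p : (Fin n → ℝ) × ℝ =>
      (Fin.cons (-(b + p.2)) (fun j => a j + p.1 j) : Fin (n + 1) → ℝ)) := by
    refine measurable_pi_lambda _ (fun j => ?_)
    refine Fin.cases ?_ (fun j => ?_) j
    · simp only [Fin.cons_zero]
      fun_prop
    · simp only [Fin.cons_succ]
      fun_prop
  refine ⟨hm, (Measure.pi_eq (fun s hs => ?_)).symm⟩
  rw [Measure.map_apply hm (MeasurableSet.univ_pi hs)]
  have h1 : (fun p : (Fin n → ℝ) × ℝ =>
      (Fin.cons (-(b + p.2)) (fun j => a j + p.1 j) : Fin (n + 1) → ℝ)) ⁻¹' Set.univ.pi s =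
      (Set.univ.pi fun j : Fin n => (fun x : ℝ => a j + x) ⁻¹' s j.succ) ×ˢ
        ((fun x : ℝ => b + x) ⁻¹' ((fun x : ℝ => -x) ⁻¹' s 0)) := by
    ext p
    simp only [Set.mem_preimage, Set.mem_univ_pi, Set.mem_prod]
    constructor
    · intro h
      exact ⟨fun j => by simpa using h j.succ, by simpa using h 0⟩
    · rintro ⟨h2, h3⟩ j
      refine Fin.cases ?_ (fun j => ?_) j
      · simpa using h3
      · simpa using h2 j
  have ha : ∀ j : Fin n, gaussianReal 0 v ((fun x : ℝ => a j + x) ⁻¹' s j.succ) =
      gaussianReal (a j) v (s j.succ) := by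
    intro j
    rw [← Measure.map_apply (by fun_prop) (hs _), gaussianReal_map_const_add, zero_add]
  have hb : gaussianReal 0 v ((fun x : ℝ => b + x) ⁻¹' ((fun x : ℝ => -x) ⁻¹' s 0)) =
      gaussianReal (-b) v (s 0) := by
    rw [← Measure.map_apply (by fun_prop) ((hs 0).preimage (by fun_prop)),
      gaussianReal_map_const_add, zero_add, ← Measure.map_apply (by fun_prop) (hs 0),
      gaussianReal_map_neg]
  rw [h1, Measure.prod_prod, Measure.pi_pi, hb, Fin.prod_univ_succ, mul_comm]
  simp only [Fin.cons_zero, Fin.cons_succ]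
  congr 1
  exact Finset.prod_congr rfl (fun j _ => ha j)

theorem rows_law {m n : ℕ} (Abar : Fin m → Fin n → ℝ) (bbar : Fin m → ℝ) (σ : ℝ) :
    MeasurePreserving
      (fun ω : (Fin m → Fin n → ℝ) × (Fin m → ℝ) =>
        Gr (fun i j => Abar i j + ω.1 i j) (fun i => bbar i + ω.2 i))
      (noise m n σ) (Measure.pi (rowLaw Abar bbar σ)) := by
  set v := (σ ^ 2).toNNReal with hv
  have h1 := (measurePreserving_arrowProdEquivProdArrow (Fin n → ℝ) ℝ (Fin m)
    (fun _ => Measure.pi fun _ : Fin n => gaussianReal 0 v) (fun _ => gaussianReal 0 v)).symm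
  have h2 := measurePreserving_pi
    (fun _ : Fin m => (Measure.pi fun _ : Fin n => gaussianReal 0 v).prod (gaussianReal 0 v))
    (fun i : Fin m => Measure.pi fun j =>
      gaussianReal ((Fin.cons (-(bbar i)) (Abar i) : Fin (n + 1) → ℝ) j) v)
    (fun i => one_row (Abar i) (bbar i) v)
  have h3 := add_none (Fin.cons (-1) 0 : Fin (n + 1) → ℝ)
    (fun i : Fin m => Measure.pi fun j =>
      gaussianReal ((Fin.cons (-(bbar i)) (Abar i) : Fin (n + 1) → ℝ) j) v)
    (rowLaw Abar bbar σ) rfl (fun i => rfl)
  have h4 := h3.comp (h2.comp h1)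
  convert h4 using 1
  · funext ω o
    cases o with
    | none => rfl
    | some i => rfl
  · rfl

end Pool.Agent.Lib.SHirsch
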