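import Pool.Agent.Lib.SHirsch.RRay

/-!
# PSel: the first ray (120 lines)

`rayIn_measurable`: finitely many rows; `{ω | ray ω α ≠ 0}` and `{ω | ω i ⬝ᵥ ray ω α ≤ 0}` are measurable (`ray_measurable`); `rayIn_congr`: `ray_congr`, and `Kᶜ` contains all rows that matter.
`select`: enumerate the finite type `(Fin n → ι) × Bool` (`Fintype.equivFin` or any linear order) and let `B α = {RayIn K α} \ ⋃_{β < α} {RayIn K β}` (`disjointed`-like; `disjoint_disjointed`, `iUnion_disjointed` for a family indexed by `ℕ` or `Fin N`, transported).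
`fea_ae`: `⊇`: `ray ω α` is a nonzero element of the cone. `⊆` for `ω` with `GPc ω`: `exists_ray` with `S = Kᶜ`, `w = 0`.
-/

set_option autoImplicit false

open MeasureTheory

namespace Pool.Agent.Lib.SHirsch

theorem rayIn_measurable {ι : Type} [Fintype ι] [DecidableEq ι] {n : ℕ} (K : Finset ι)
    (α : (Fin n → ι) × Bool) :
    MeasurableSet {ω : ι → Fin (n + 1) → ℝ | RayIn K α ω} := by
  unfold RayIn
  have h1 : MeasurableSet {ω : ι → Fin (n + 1) → ℝ | ray ω α ≠ 0} := by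
    have h : MeasurableSet {ω : ι → Fin (n + 1) → ℝ | ray ω α = 0} :=
      measurableSet_eq_fun (ray_measurable α) measurable_const
    exact h.compl
  have h2 : MeasurableSet {ω : ι → Fin (n + 1) → ℝ | ray ω α ∈ Cn ω Kᶜ} := by
    have h : {ω : ι → Fin (n + 1) → ℝ | ray ω α ∈ Cn ω Kᶜ} =
        ⋂ i ∈ Kᶜ, {ω : ι → Fin (n + 1) → ℝ | ω i ⬝ᵥ ray ω α ≤ 0} := by
      ext ω
      simp [Cn]
    rw [h]
    apply Finset.measurableSet_biInter
    intro i _
    apply measurableSet_le _ measurable_const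
    unfold dotProduct
    apply Finset.measurable_fun_sum
    intro j _
    apply Measurable.mul
    · exact (measurable_pi_apply j).comp (measurable_pi_apply i)
    · exact (measurable_pi_apply j).comp (ray_measurable α)
  by_cases h : ∀ k, α.1 k ∉ K
  · have h3 : {ω : ι → Fin (n + 1) → ℝ | (∀ k, α.1 k ∉ K) ∧ ray ω α ≠ 0 ∧ ray ω α ∈ Cn ω Kᶜ} =
        {ω : ι → Fin (n + 1) → ℝ | ray ω α ≠ 0} ∩
          {ω : ι → Fin (n + 1) → ℝ | ray ω α ∈ Cn ω Kᶜ} := by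
      ext ω
      exact ⟨fun h4 => h4.2, fun h4 => ⟨h, h4⟩⟩
    rw [h3]
    exact h1.inter h2
  · have h3 : {ω : ι → Fin (n + 1) → ℝ | (∀ k, α.1 k ∉ K) ∧ ray ω α ≠ 0 ∧ ray ω α ∈ Cn ω Kᶜ} =
        ∅ := by
      ext ω
      exact ⟨fun h4 => absurd h4.1 h, fun h4 => absurd h4 (Set.notMem_empty ω)⟩
    rw [h3]
    exact MeasurableSet.empty

theorem rayIn_congr {ι : Type} [Fintype ι] [DecidableEq ι] {n : ℕ} (K : Finset ι)
    (α : (Fin n → ι) × Bool) {ω ω' : ι → Fin (n + 1) → ℝ} (h : ∀ i ∈ Kᶜ, ω i = ω' i) :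
    RayIn K α ω ↔ RayIn K α ω' := by
  unfold RayIn
  by_cases hK : ∀ k, α.1 k ∉ K
  · have hr : ray ω α = ray ω' α := ray_congr α (fun k => h _ (Finset.mem_compl.2 (hK k)))
    have hC : Cn ω Kᶜ = Cn ω' Kᶜ := by
      ext y
      constructor
      · intro hy i hi
        rw [← h i hi]
        exact hy i hi
      · intro hy i hi
        rw [h i hi]
        exact hy i hi
    rw [hr, hC]
  · constructor
    · intro h1; exact absurd h1.1 hK
    · intro h1; exact absurd h1.1 hK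

theorem select {ι : Type} [Fintype ι] [DecidableEq ι] (n : ℕ) (K : Finset ι) :
    ∃ B : ((Fin n → ι) × Bool) → Set (ι → Fin (n + 1) → ℝ),
      (∀ α, MeasurableSet (B α)) ∧ (∀ α, ∀ ω ∈ B α, RayIn K α ω) ∧
      (∀ α β, α ≠ β → Disjoint (B α) (B β)) ∧
      (∀ ω, (∃ α, ω ∈ B α) ↔ ∃ α, RayIn K α ω) ∧
      (∀ α, ∀ ω ω' : ι → Fin (n + 1) → ℝ, (∀ i ∈ Kᶜ, ω i = ω' i) → (ω ∈ B α ↔ ω' ∈ B α)) := by
  classical
  obtain ⟨N, ⟨e⟩⟩ : ∃ N : ℕ, Nonempty (((Fin n → ι) × Bool) ≃ Fin N) :=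
    ⟨_, ⟨Fintype.equivFin _⟩⟩
  refine ⟨fun α => {ω | RayIn K α ω ∧ ∀ β, e β < e α → ¬ RayIn K β ω}, ?_, ?_, ?_, ?_, ?_⟩
  · intro α
    have h : {ω : ι → Fin (n + 1) → ℝ | RayIn K α ω ∧ ∀ β, e β < e α → ¬ RayIn K β ω} =
        {ω : ι → Fin (n + 1) → ℝ | RayIn K α ω} ∩
          ⋂ β : (Fin n → ι) × Bool, ⋂ _ : e β < e α,
            {ω : ι → Fin (n + 1) → ℝ | RayIn K β ω}ᶜ := by
      ext ω
      simp
    show MeasurableSet {ω : ι → Fin (n + 1) → ℝ | RayIn K α ω ∧ ∀ β, e β < e α → ¬ RayIn K β ω}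
    rw [h]
    apply (rayIn_measurable K α).inter
    apply MeasurableSet.iInter
    intro β
    apply MeasurableSet.iInter
    intro _
    exact (rayIn_measurable K β).compl
  · intro α ω hω
    exact hω.1
  · intro α β hab
    rw [Set.disjoint_left]
    intro ω h1 h2
    have hne : e α ≠ e β := fun h => hab (e.injective h)
    rcases lt_or_gt_of_ne hne with h | h
    · exact h2.2 α h h1.1
    · exact h1.2 β h h2.1
  · intro ω
    constructor
    · rintro ⟨α, hα⟩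
      exact ⟨α, hα.1⟩
    · rintro ⟨α, hα⟩
      obtain ⟨β, hβ, hmin⟩ := Finset.exists_min_image
        (Finset.univ.filter (fun β => RayIn K β ω)) e ⟨α, by simp [hα]⟩
      refine ⟨β, (Finset.mem_filter.1 hβ).2, ?_⟩
      intro γ hγ hR
      exact absurd (hmin γ (by simp [hR])) (not_le.2 hγ)
  · intro α ω ω' h
    constructor
    · rintro ⟨h1, h2⟩
      refine ⟨(rayIn_congr K α h).1 h1, fun β hβ h3 => h2 β hβ ((rayIn_congr K β h).2 h3)⟩
    · rintro ⟨h1, h2⟩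
      refine ⟨(rayIn_congr K α h).2 h1, fun β hβ h3 => h2 β hβ ((rayIn_congr K β h).1 h3)⟩

theorem fea_iff_ray {ι : Type} [Fintype ι] [DecidableEq ι] {n : ℕ} {K : Finset ι}
    (hK : n + 1 ≤ Kᶜ.card) {ω : ι → Fin (n + 1) → ℝ} (hω : GPc ω) :
    Fea Kᶜ ω ↔ ∃ α, RayIn K α ω := by
  constructor
  · rintro ⟨y, hy, hy0⟩
    obtain ⟨α, h1, h2, h3, _⟩ := exists_ray hω hK hy hy0 (w := 0) (by simp)
    exact ⟨α, fun k => Finset.mem_compl.1 (h1 k), h2, h3⟩
  · rintro ⟨α, _, h2, h3⟩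
    exact ⟨ray ω α, h3, h2⟩

theorem fea_sum {ι : Type} [Fintype ι] [DecidableEq ι] {n : ℕ}
    (ν : ι → Measure (Fin (n + 1) → ℝ)) [∀ i, IsProbabilityMeasure (ν i)] {K : Finset ι}
    (hK : n + 1 ≤ Kᶜ.card) (hGP : ∀ᵐ ω ∂(Measure.pi ν), GPc ω)
    {B : ((Fin n → ι) × Bool) → Set (ι → Fin (n + 1) → ℝ)} (hB : ∀ α, MeasurableSet (B α))
    (hdis : ∀ α β, α ≠ β → Disjoint (B α) (B β))
    (hun : ∀ ω, (∃ α, ω ∈ B α) ↔ ∃ α, RayIn K α ω) :
    ∑ α, (Measure.pi ν) (B α) = (Measure.pi ν) {ω | Fea Kᶜ ω} := by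
  have h1 : (Measure.pi ν) (⋃ α ∈ (Finset.univ : Finset ((Fin n → ι) × Bool)), B α) =
      ∑ α, (Measure.pi ν) (B α) := by
    apply measure_biUnion_finset
    · intro α _ β _ hab
      exact hdis α β hab
    · intro α _
      exact hB α
  rw [← h1]
  apply measure_congr
  filter_upwards [hGP] with ω hω
  apply propext
  show (ω ∈ ⋃ α ∈ (Finset.univ : Finset ((Fin n → ι) × Bool)), B α) ↔ Fea Kᶜ ω
  rw [fea_iff_ray hK hω, ← hun ω]
  simp

end Pool.Agent.Lib.SHirsch
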