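import Pool.Agent.Lib.SHirsch.PTwo
import Pool.Agent.Lib.SHirsch.PSel

/-!
# PHit: given light rows all cut the cone with small probability (250 lines)

Lemma 8 of the paper. `Bad = ⋃_{α, β} {RayIn K α, RayIn K β, θ ≤ chd (ray α) (ray β)}`; by `two_rays` and `μ {RayIn K α} ≤ μ {Fea Kᶜ}` (the ray is a nonzero element): `μ Bad ≤ (2 M^n)^2 ofReal(1 - θ/10000)^((L \ K).card - 2 n) μ {Fea Kᶜ}`, `M = Fintype.card ι`
(`Fintype.card ((Fin n → ι) × Bool) = M^n * 2`).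
`sep`: deterministic: let `GPc ω`, `RayIn K α ω`, `ω ∉ Bad`, `i ∈ K` and `z ∈ Cn ω Kᶜ`, `z ≠ 0`, `ω i ⬝ᵥ z = 0`. Put `w = ω i` if `ω i ⬝ᵥ ray ω α ≥ 0`, `w = - ω i` otherwise; `exists_ray` with `S = Kᶜ` gives `β` with `RayIn K β ω` and `w ⬝ᵥ ray ω β ≤ 0`. With the unit vectors
`p = (nrm (ray α))⁻¹ • ray α`, `q` likewise for `β`: `ω i ⬝ᵥ p` and `ω i ⬝ᵥ q` have opposite (weak) signs, so `|ω i ⬝ᵥ p| ≤ |ω i ⬝ᵥ (p - q)| ≤ nrm (ω i) * chd ≤ θ nrm (ω i)` (Cauchy-Schwarz), i.e. `|ω i ⬝ᵥ ray ω α| ≤ θ (nrm (ω i) * nrm (ray ω α))`.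
So, up to the null set where `GPc` fails, `Hit K ∩ Fea Kᶜ ⊆ Bad ∪ ⋃_α (B α ∩ {∀ i ∈ K, |ω i ⬝ᵥ ray ω α| ≤ θ (nrm (ω i) * nrm (ray ω α))})` (`B` from `select n K`, `fea_iff_ray`). By `prod_lemma` (`T = Kᶜ`, `R = K`, `f` = indicator of `B α`) and `LightLaw.slab` the piece of `α` has measure
`≤ ofReal (5 (n+1)^2 θ)^K.card * μ (B α)`; sum with `fea_sum`.
-/

set_option autoImplicit false

open MeasureTheory

namespace Pool.Agent.Lib.SHirsch

private theorem cs {d : ℕ} (u v : Fin d → ℝ) : u ⬝ᵥ v ≤ nrm u * nrm v := by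
  unfold nrm
  simp only [dotProduct]
  have h := Real.sum_mul_le_sqrt_mul_sqrt Finset.univ u v
  simp only [pow_two] at h
  exact h

private theorem nrm_neg' {d : ℕ} (u : Fin d → ℝ) : nrm (-u) = nrm u := by
  unfold nrm
  rw [neg_dotProduct_neg]

private theorem nrm_pos' {d : ℕ} {u : Fin d → ℝ} (hu : u ≠ 0) : 0 < nrm u := by
  unfold nrm
  apply Real.sqrt_pos.mpr
  have h1 : 0 ≤ u ⬝ᵥ u := by
    simp only [dotProduct]
    exact Finset.sum_nonneg (fun i _ => mul_self_nonneg _)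
  have h2 : u ⬝ᵥ u ≠ 0 := by
    intro h
    exact hu (dotProduct_self_eq_zero.mp h)
  exact lt_of_le_of_ne h1 (Ne.symm h2)

private theorem dot_meas {Ω : Type} [MeasurableSpace Ω] {d : ℕ} {u w : Ω → Fin d → ℝ}
    (hu : Measurable u) (hw : Measurable w) : Measurable (fun ω => u ω ⬝ᵥ w ω) := by
  simp only [dotProduct]
  exact Finset.measurable_sum _ (fun i _ =>
    ((measurable_pi_apply i).comp hu).mul ((measurable_pi_apply i).comp hw))

private theorem nrm_meas {Ω : Type} [MeasurableSpace Ω] {d : ℕ} {u : Ω → Fin d → ℝ}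
    (hu : Measurable u) : Measurable (fun ω => nrm (u ω)) := by
  unfold nrm
  exact (dot_meas hu hu).sqrt

theorem sep {ι : Type} [Fintype ι] [DecidableEq ι] {n : ℕ} {K : Finset ι}
    (hK : n + 1 ≤ Kᶜ.card) {ω : ι → Fin (n + 1) → ℝ} (hω : GPc ω) {θ : ℝ}
    {α : (Fin n → ι) × Bool} (hα : RayIn K α ω)
    (hbad : ∀ β, RayIn K β ω → chd (ray ω α) (ray ω β) < θ) (hhit : Hit K ω) :
    ∀ i ∈ K, |ω i ⬝ᵥ ray ω α| ≤ θ * (nrm (ω i) * nrm (ray ω α)) := by
  intro i hi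
  obtain ⟨z, hz, hz0, hzi⟩ := hhit i hi
  -- the signed row
  obtain ⟨w, hw1, hw2, hw3⟩ : ∃ w : Fin (n + 1) → ℝ, w ⬝ᵥ z = 0 ∧ nrm w = nrm (ω i) ∧
      w ⬝ᵥ ray ω α = |ω i ⬝ᵥ ray ω α| := by
    rcases le_or_gt 0 (ω i ⬝ᵥ ray ω α) with h | h
    · exact ⟨ω i, hzi, rfl, (abs_of_nonneg h).symm⟩
    · refine ⟨-ω i, ?_, nrm_neg' _, ?_⟩
      · rw [neg_dotProduct, hzi, neg_zero]
      · rw [neg_dotProduct, abs_of_neg h]
  obtain ⟨β, hβK, hβ0, hβC, hβw⟩ := exists_ray hω hK hz hz0 (le_of_eq hw1)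
  have hβR : RayIn K β ω := ⟨fun k => Finset.mem_compl.mp (hβK k), hβ0, hβC⟩
  have hchd := hbad β hβR
  have ha := nrm_pos' hα.2.1
  have hb := nrm_pos' hβ0
  have h1 : w ⬝ᵥ ((nrm (ray ω α))⁻¹ • ray ω α - (nrm (ray ω β))⁻¹ • ray ω β) ≤
      nrm w * chd (ray ω α) (ray ω β) := cs _ _
  rw [dotProduct_sub, dotProduct_smul, dotProduct_smul, smul_eq_mul, smul_eq_mul, hw2, hw3] at h1
  have h2 : (nrm (ray ω β))⁻¹ * (w ⬝ᵥ ray ω β) ≤ 0 :=
    mul_nonpos_of_nonneg_of_nonpos (inv_nonneg.mpr hb.le) hβw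
  have h3 : nrm (ω i) * chd (ray ω α) (ray ω β) ≤ nrm (ω i) * θ :=
    mul_le_mul_of_nonneg_left hchd.le (Real.sqrt_nonneg _)
  have h4 : (nrm (ray ω α))⁻¹ * |ω i ⬝ᵥ ray ω α| ≤ nrm (ω i) * θ := by linarith
  have h5 := mul_le_mul_of_nonneg_left h4 ha.le
  rw [← mul_assoc, mul_inv_cancel₀ ha.ne', one_mul] at h5
  linarith

theorem hit_bound {ι : Type} [Fintype ι] [DecidableEq ι] {n : ℕ}
    (ν : ι → Measure (Fin (n + 1) → ℝ)) [∀ i, IsProbabilityMeasure (ν i)] (L K : Finset ι)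
    (hL : ∀ i ∈ L, LightLaw (ν i)) (hKL : K ⊆ L) (hK : n + 1 ≤ Kᶜ.card)
    (hGP : ∀ᵐ ω ∂(Measure.pi ν), GPc ω) (θ : ℝ) (hθ : 0 ≤ θ) :
    (Measure.pi ν) {ω | Hit K ω ∧ Fea Kᶜ ω} ≤
      (ENNReal.ofReal (5 * ((n : ℝ) + 1) ^ 2 * θ) ^ K.card +
        4 * (Fintype.card ι : ENNReal) ^ (2 * n) *
          ENNReal.ofReal (1 - θ / 10000) ^ ((L \ K).card - 2 * n)) *
        (Measure.pi ν) {ω | Fea Kᶜ ω} := by
  classical
  set μ := Measure.pi ν with hμ
  obtain ⟨B, hBm, hBR, hBd, hBun, hBT⟩ := select n K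
  set q : ENNReal := ENNReal.ofReal (1 - θ / 10000) with hq
  set c : ENNReal := ENNReal.ofReal (5 * ((n : ℝ) + 1) ^ 2 * θ) with hc
  set N := (L \ K).card - 2 * n with hN
  set Bad : (((Fin n → ι) × Bool) × ((Fin n → ι) × Bool)) → Set (ι → Fin (n + 1) → ℝ) :=
    fun x => {ω | RayIn K x.1 ω ∧ RayIn K x.2 ω ∧ θ ≤ chd (ray ω x.1) (ray ω x.2)} with hBad
  set Good : ((Fin n → ι) × Bool) → Set (ι → Fin (n + 1) → ℝ) :=
    fun α => {ω | ω ∈ B α ∧ ∀ i ∈ K, |ω i ⬝ᵥ ray ω α| ≤ θ * (nrm (ω i) * nrm (ray ω α))} with hGood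
  have hcover : {ω | Hit K ω ∧ Fea Kᶜ ω} ⊆ {ω | ¬ GPc ω} ∪ ((⋃ x, Bad x) ∪ ⋃ α, Good α) := by
    rintro ω ⟨hH, hF⟩
    by_cases hG : GPc ω
    · obtain ⟨α, hα⟩ := (hBun ω).mpr ((fea_iff_ray hK hG).mp hF)
      have hαR := hBR α ω hα
      right
      by_cases hb : ∃ β, RayIn K β ω ∧ θ ≤ chd (ray ω α) (ray ω β)
      · obtain ⟨β, hβ1, hβ2⟩ := hb
        left
        exact Set.mem_iUnion.mpr ⟨(α, β), hαR, hβ1, hβ2⟩
      · push Not at hb
        right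
        exact Set.mem_iUnion.mpr ⟨α, hα, sep hK hG hαR hb hH⟩
    · exact Or.inl hG
  have hgp : μ {ω | ¬ GPc ω} = 0 := hGP
  have hfea : ∀ α, μ {ω | RayIn K α ω} ≤ μ {ω | Fea Kᶜ ω} := fun α =>
    measure_mono (fun ω hω => ⟨ray ω α, hω.2.2, hω.2.1⟩)
  have hbad : ∀ x, μ (Bad x) ≤ q ^ N * μ {ω | Fea Kᶜ ω} := fun x =>
    (two_rays ν L K hL x.1 x.2 θ hθ).trans (mul_le_mul_right (hfea x.1) _)
  have hgood : ∀ α, μ (Good α) ≤ c ^ K.card * μ (B α) := by
    intro α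
    by_cases hαK : ∀ k, α.1 k ∉ K
    swap
    · have h0 : Good α = ∅ := by
        ext ω
        simp only [hGood, Set.mem_ofPred_eq, Set.mem_empty_iff_false, iff_false]
        rintro ⟨h1, _⟩
        exact hαK (hBR α ω h1).1
      rw [h0, measure_empty]
      exact zero_le
    have hma := ray_measurable (n := n) α
    set f : (ι → Fin (n + 1) → ℝ) → ENNReal := (B α).indicator 1 with hf
    have hfm : Measurable f := measurable_one.indicator (hBm α)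
    have hfT : ∀ ω ω' : ι → Fin (n + 1) → ℝ, (∀ i ∈ Kᶜ, ω i = ω' i) → f ω = f ω' := by
      intro ω ω' h
      simp only [hf, Set.indicator_apply, hBT α ω ω' h]
      rfl
    set P : Set ((ι → Fin (n + 1) → ℝ) × (Fin (n + 1) → ℝ)) :=
      {p | |p.2 ⬝ᵥ ray p.1 α| ≤ θ * (nrm p.2 * nrm (ray p.1 α))} with hP
    have hPm : MeasurableSet P := by
      have hr : Measurable (fun p : (ι → Fin (n + 1) → ℝ) × (Fin (n + 1) → ℝ) => ray p.1 α) :=
        hma.comp measurable_fst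
      exact measurableSet_le (dot_meas measurable_snd hr).abs
        (((nrm_meas measurable_snd).mul (nrm_meas hr)).const_mul θ)
    set h : ι → (ι → Fin (n + 1) → ℝ) → (Fin (n + 1) → ℝ) → ENNReal :=
      fun _ ω v => P.indicator 1 (ω, v) with hh
    have hhm : ∀ i, Measurable (fun p : (ι → Fin (n + 1) → ℝ) × (Fin (n + 1) → ℝ) =>
        h i p.1 p.2) := fun i => measurable_one.indicator hPm
    have hhT : ∀ i v, ∀ ω ω' : ι → Fin (n + 1) → ℝ, (∀ j ∈ Kᶜ, ω j = ω' j) →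
        h i ω v = h i ω' v := by
      intro i v ω ω' hω
      have hr : ray ω α = ray ω' α :=
        ray_congr α (fun k => hω _ (Finset.mem_compl.mpr (hαK k)))
      simp only [hh, hP, Set.indicator_apply, Set.mem_ofPred_eq, hr]
      rfl
    have hp := prod_lemma ν Kᶜ K (disjoint_compl_left) f hfm hfT h hhm hhT
    have hhi : ∀ i ω, ∫⁻ v, h i ω v ∂(ν i) =
        ν i {v | |v ⬝ᵥ ray ω α| ≤ θ * (nrm v * nrm (ray ω α))} := by
      intro i ω
      have h1 : MeasurableSet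
          {v : Fin (n + 1) → ℝ | |v ⬝ᵥ ray ω α| ≤ θ * (nrm v * nrm (ray ω α))} :=
        measurableSet_le (dot_meas measurable_id measurable_const).abs
          (((nrm_meas measurable_id).mul measurable_const).const_mul θ)
      rw [← lintegral_indicator_one h1]
      apply lintegral_congr
      intro v
      simp only [hh, hP, Set.indicator_apply, Set.mem_ofPred_eq]
      rfl
    have hup : μ (Good α) ≤ ∫⁻ ω, f ω * ∏ i ∈ K, h i ω (ω i) ∂μ := by
      have hFm : Measurable (fun ω : ι → Fin (n + 1) → ℝ => f ω * ∏ i ∈ K, h i ω (ω i)) := by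
        apply hfm.mul
        apply Finset.measurable_prod
        intro i _
        exact (hhm i).comp (measurable_id.prodMk (measurable_pi_apply i))
      have h1 := mul_meas_ge_le_lintegral (μ := μ) hFm 1
      rw [one_mul] at h1
      refine le_trans (measure_mono ?_) h1
      rintro ω ⟨hA, hB⟩
      rw [Set.mem_ofPred_eq]
      have hfe : f ω = 1 := by
        rw [hf, Set.indicator_of_mem hA]
        rfl
      have hhe : ∏ i ∈ K, h i ω (ω i) = 1 := by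
        apply Finset.prod_eq_one
        intro i hi
        simp only [hh]
        rw [Set.indicator_of_mem]
        · rfl
        · exact hB i hi
      rw [hfe, hhe, one_mul]
    have hlow : ∀ ω, f ω * ∏ i ∈ K, (∫⁻ v, h i ω v ∂(ν i)) ≤ c ^ K.card * f ω := by
      intro ω
      by_cases hω : ω ∈ B α
      swap
      · have h1 : f ω = 0 := by
          rw [hf, Set.indicator_of_notMem hω]
        rw [h1, zero_mul]
        exact zero_le
      have h1 : ∏ i ∈ K, (∫⁻ v, h i ω v ∂(ν i)) ≤ ∏ i ∈ K, c := by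
        apply Finset.prod_le_prod'
        intro i hi
        rw [hhi]
        refine le_trans ((hL i (hKL hi)).slab _ (hBR α ω hω).2.1 θ hθ) (le_of_eq ?_)
        rw [hc]
        push_cast
        rfl
      rw [Finset.prod_const] at h1
      calc f ω * ∏ i ∈ K, (∫⁻ v, h i ω v ∂(ν i)) ≤ f ω * c ^ K.card := mul_le_mul_right h1 _
        _ = c ^ K.card * f ω := mul_comm _ _
    calc μ (Good α) ≤ ∫⁻ ω, f ω * ∏ i ∈ K, h i ω (ω i) ∂μ := hup
      _ = ∫⁻ ω, f ω * ∏ i ∈ K, (∫⁻ v, h i ω v ∂(ν i)) ∂μ := hp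
      _ ≤ ∫⁻ ω, c ^ K.card * f ω ∂μ := lintegral_mono hlow
      _ = c ^ K.card * ∫⁻ ω, f ω ∂μ :=
          lintegral_const_mul' _ _ (ENNReal.pow_ne_top ENNReal.ofReal_ne_top)
      _ = c ^ K.card * μ (B α) := by
          rw [hf, lintegral_indicator_one (hBm α)]
  have hsumB := fea_sum ν hK hGP hBm hBd hBun
  calc μ {ω | Hit K ω ∧ Fea Kᶜ ω}
      ≤ μ ({ω | ¬ GPc ω} ∪ ((⋃ x, Bad x) ∪ ⋃ α, Good α)) := measure_mono hcover
    _ ≤ μ {ω | ¬ GPc ω} + (μ (⋃ x, Bad x) + μ (⋃ α, Good α)) :=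
        (measure_union_le _ _).trans (add_le_add_right (measure_union_le _ _) _)
    _ ≤ 0 + (∑ x, μ (Bad x) + ∑ α, μ (Good α)) := by
        rw [hgp]
        exact add_le_add_right (add_le_add (measure_iUnion_fintype_le _ _)
          (measure_iUnion_fintype_le _ _)) _
    _ ≤ 0 + (∑ _x : (((Fin n → ι) × Bool) × ((Fin n → ι) × Bool)),
          q ^ N * μ {ω | Fea Kᶜ ω} + ∑ α, c ^ K.card * μ (B α)) :=
        add_le_add_right (add_le_add (Finset.sum_le_sum (fun x _ => hbad x))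
          (Finset.sum_le_sum (fun α _ => hgood α))) _
    _ = (c ^ K.card + 4 * (Fintype.card ι : ENNReal) ^ (2 * n) * q ^ N) *
          μ {ω | Fea Kᶜ ω} := by
        have hs2 : ∑ α, c ^ K.card * μ (B α) = c ^ K.card * μ {ω | Fea Kᶜ ω} := by
          rw [← Finset.mul_sum, hsumB]
        rw [zero_add, hs2, Finset.sum_const, Finset.card_univ,
          Fintype.card_prod, Fintype.card_prod, Fintype.card_fun, Fintype.card_fin,
          Fintype.card_bool, nsmul_eq_mul]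
        push_cast
        rw [pow_mul']
        ring

end Pool.Agent.Lib.SHirsch
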