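import Pool.Agent.Lib.SHirsch.PDel
import Pool.Agent.Lib.SHirsch.PHit

/-!
# PMom: factorial moments of the number of light rows that are tight (180 lines)

Prop 9 of the paper. `M = Fintype.card ι`, `l = L.card ≥ 2 (k + 2 n)`, `l ≤ M`, `θ = 20000 (2 n + k) log M / l`. For `K ⊆ L`, `K.card = k ≥ 1`: `Hit K ω` implies `Fea Kᶜ ω`; `Kᶜ.card = M - k ≥ n + 1` (as `M ≥ l ≥ 2 k + 4 n`, and if `n = 0` then `M ≥ 2 k ≥ k + 1`); `(L \ K).card - 2 n = l - k - 2 n ≥ l / 2`.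
`ofReal (1 - x) ≤ ofReal (exp (-x))`, so `ofReal (1 - θ/10000)^(l-k-2n) ≤ ofReal (exp (-(θ/10000) (l/2))) = ofReal (exp (-(2n+k) log M)) = M^(-(2n+k))`, the second term is `≤ 4 M^(-k)`. With `deletion`: `μ {Hit K} ≤ 10^k (ofReal(5 (n+1)^2 θ)^k + 4 M^(-k)) μ {Fea univ}`. There are `≤ l^k` sets `K`
(`Nat.choose_le_pow`, `Finset.card_powersetCard`), `l^k θ^k = (20000 (2n+k) log M)^k`, `l^k M^(-k) ≤ 1`: the sum is `≤ 10^k ((10^5 (n+1)^2 (2n+k) log M)^k + 4) μ {Fea univ}`, and `10^5 (n+1)^2 (2n+k) log M ≥ 1` because `M ≥ 2` (`log 2 ≥ 0.69`), so `≤ 5 (10^6 (n+1)^2 (2n+k) log M)^k`.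
-/

set_option autoImplicit false

open MeasureTheory

namespace Pool.Agent.Lib.SHirsch

private theorem pm_real (n k l M N : ℕ) (hk : 1 ≤ k) (hl : 2 * (k + 2 * n) ≤ l) (hM : l ≤ M)
    (hN : N = l - k - 2 * n) :
    (l : ℝ) ^ k * ((5 * ((n : ℝ) + 1) ^ 2 * (20000 * (2 * n + k) * Real.log M / l)) ^ k +
      4 * (M : ℝ) ^ (2 * n) *
        Real.exp (-((20000 * (2 * n + k) * Real.log M / l) / 10000)) ^ N) * 10 ^ k ≤
      5 * (10 ^ 6 * ((n : ℝ) + 1) ^ 2 * (2 * n + k) * Real.log M) ^ k := by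
  have hl1 : 1 ≤ l := by omega
  have hl0 : (0 : ℝ) < l := by exact_mod_cast hl1
  have hM2 : (2 : ℝ) ≤ M := by
    have : 2 ≤ M := by omega
    exact_mod_cast this
  have hM0 : (0 : ℝ) < M := by linarith
  have hlogM : 1 / 2 ≤ Real.log M := by
    have h1 : Real.log 2 ≤ Real.log M := Real.log_le_log (by norm_num) hM2
    have h2 := Real.log_two_gt_d9
    linarith
  have hlog0 : 0 ≤ Real.log M := by linarith
  have hk' : (1 : ℝ) ≤ k := by exact_mod_cast hk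
  have hn0 : (0 : ℝ) ≤ n := Nat.cast_nonneg n
  obtain ⟨Y, hY⟩ : ∃ Y : ℝ, Y = ((n : ℝ) + 1) ^ 2 * (2 * n + k) * Real.log M := ⟨_, rfl⟩
  have hY1 : 1 ≤ 10 ^ 5 * Y := by
    have h1 : 1 ≤ ((n : ℝ) + 1) ^ 2 := one_le_pow₀ (by linarith)
    have h2 : 1 ≤ (2 * (n : ℝ) + k) := by linarith
    have h3 : 1 ≤ ((n : ℝ) + 1) ^ 2 * (2 * n + k) := by nlinarith
    have h4 : 1 / 2 ≤ Y := by
      rw [hY]
      nlinarith
    linarith
  have e1 : (l : ℝ) ^ k * (5 * ((n : ℝ) + 1) ^ 2 * (20000 * (2 * n + k) * Real.log M / l)) ^ k =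
      (10 ^ 5 * Y) ^ k := by
    rw [← mul_pow]
    congr 1
    rw [hY]
    field_simp
    ring
  have e2 : (l : ℝ) ^ k * ((M : ℝ) ^ (2 * n) *
      Real.exp (-((20000 * (2 * n + k) * Real.log M / l) / 10000)) ^ N) ≤ 1 := by
    have hNl : (l : ℝ) / 2 ≤ N := by
      have h1 : l ≤ 2 * N := by omega
      have h2 : (l : ℝ) ≤ 2 * N := by exact_mod_cast h1
      linarith
    have h3 : Real.exp (-((20000 * (2 * n + k) * Real.log M / l) / 10000)) ^ N ≤
        Real.exp (-((2 * n + k : ℕ) * Real.log M)) := by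
      rw [← Real.exp_nat_mul]
      apply Real.exp_le_exp.mpr
      have h4 : (N : ℝ) * -((20000 * (2 * n + k) * Real.log M / l) / 10000) =
          -((N : ℝ) * (2 * ((2 * n + k) * Real.log M) / l)) := by ring
      rw [h4]
      apply neg_le_neg
      have h5 : (l : ℝ) / 2 * (2 * ((2 * n + k) * Real.log M) / l) = (2 * n + k) * Real.log M := by
        field_simp
      have h6 : 0 ≤ 2 * ((2 * (n : ℝ) + k) * Real.log M) / l := by positivity
      have h7 := mul_le_mul_of_nonneg_right hNl h6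
      push_cast
      linarith
    have h8 : Real.exp (-((2 * n + k : ℕ) * Real.log M)) * (M : ℝ) ^ (2 * n + k) = 1 := by
      rw [Real.exp_neg, Real.exp_nat_mul, Real.exp_log hM0]
      exact inv_mul_cancel₀ (pow_ne_zero _ hM0.ne')
    have h9 : (l : ℝ) ^ k ≤ (M : ℝ) ^ k := pow_le_pow_left₀ hl0.le (by exact_mod_cast hM) k
    calc (l : ℝ) ^ k * ((M : ℝ) ^ (2 * n) *
          Real.exp (-((20000 * (2 * n + k) * Real.log M / l) / 10000)) ^ N)
        ≤ (M : ℝ) ^ k * ((M : ℝ) ^ (2 * n) * Real.exp (-((2 * n + k : ℕ) * Real.log M))) := by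
          apply mul_le_mul h9 _ (by positivity) (by positivity)
          exact mul_le_mul_of_nonneg_left h3 (by positivity)
      _ = Real.exp (-((2 * n + k : ℕ) * Real.log M)) * (M : ℝ) ^ (2 * n + k) := by
          rw [pow_add]
          ring
      _ = 1 := h8
  have e3 : 1 ≤ (10 ^ 5 * Y) ^ k := one_le_pow₀ hY1
  calc (l : ℝ) ^ k * ((5 * ((n : ℝ) + 1) ^ 2 * (20000 * (2 * n + k) * Real.log M / l)) ^ k +
      4 * (M : ℝ) ^ (2 * n) *
        Real.exp (-((20000 * (2 * n + k) * Real.log M / l) / 10000)) ^ N) * 10 ^ k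
      = ((l : ℝ) ^ k * (5 * ((n : ℝ) + 1) ^ 2 * (20000 * (2 * n + k) * Real.log M / l)) ^ k +
        4 * ((l : ℝ) ^ k * ((M : ℝ) ^ (2 * n) *
          Real.exp (-((20000 * (2 * n + k) * Real.log M / l) / 10000)) ^ N))) * 10 ^ k := by ring
    _ ≤ (5 * (10 ^ 5 * Y) ^ k) * 10 ^ k := by
        apply mul_le_mul_of_nonneg_right _ (by positivity)
        rw [e1]
        have h5 : ∀ u v : ℝ, 1 ≤ u → v ≤ 1 → u + 4 * v ≤ 5 * u := fun u v hu hv => by linarith
        exact h5 _ _ e3 e2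
    _ = 5 * (10 ^ 6 * ((n : ℝ) + 1) ^ 2 * (2 * n + k) * Real.log M) ^ k := by
        rw [mul_assoc, ← mul_pow, hY]
        congr 2
        ring

private theorem pm_conv (l M N k n : ℕ) (a e : ℝ) (ha : 0 ≤ a) (he : 0 ≤ e) :
    (l : ENNReal) ^ k * (ENNReal.ofReal a ^ k + 4 * (M : ENNReal) ^ (2 * n) * ENNReal.ofReal e ^ N) *
        10 ^ k = ENNReal.ofReal ((l : ℝ) ^ k * (a ^ k + 4 * (M : ℝ) ^ (2 * n) * e ^ N) * 10 ^ k) := by
  have h4 : (4 : ENNReal) = ENNReal.ofReal 4 := by norm_num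
  have h10 : (10 : ENNReal) = ENNReal.ofReal 10 := by norm_num
  rw [ENNReal.ofReal_mul (by positivity), ENNReal.ofReal_mul (by positivity),
    ENNReal.ofReal_add (by positivity) (by positivity), ENNReal.ofReal_mul (by positivity),
    ENNReal.ofReal_mul (by norm_num), ENNReal.ofReal_pow (Nat.cast_nonneg _),
    ENNReal.ofReal_pow ha, ENNReal.ofReal_pow (Nat.cast_nonneg _), ENNReal.ofReal_pow he,
    ENNReal.ofReal_pow (by norm_num), ENNReal.ofReal_natCast, ENNReal.ofReal_natCast, h4, h10]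

theorem moments {ι : Type} [Fintype ι] [DecidableEq ι] {n : ℕ}
    (ν : ι → Measure (Fin (n + 1) → ℝ)) [∀ i, IsProbabilityMeasure (ν i)] (L : Finset ι)
    (hL : ∀ i ∈ L, LightLaw (ν i)) (hGP : ∀ᵐ ω ∂(Measure.pi ν), GPc ω) (k : ℕ) (hk : 1 ≤ k)
    (hLk : 2 * (k + 2 * n) ≤ L.card) :
    ∑ K ∈ L.powersetCard k, (Measure.pi ν) {ω | Hit K ω} ≤
      ENNReal.ofReal (5 * (10 ^ 6 * ((n : ℝ) + 1) ^ 2 * (2 * n + k) *
        Real.log (Fintype.card ι)) ^ k) *
        (Measure.pi ν) {ω | Fea (Finset.univ : Finset ι) ω} := by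
  have hLM : L.card ≤ Fintype.card ι := Finset.card_le_univ L
  have hM0 : 0 ≤ Real.log (Fintype.card ι) := by
    apply Real.log_nonneg
    have : 1 ≤ Fintype.card ι := by omega
    exact_mod_cast this
  obtain ⟨θ, hθ⟩ : ∃ θ : ℝ, θ = 20000 * (2 * n + k) * Real.log (Fintype.card ι) / L.card := ⟨_, rfl⟩
  have hθ0 : 0 ≤ θ := by
    rw [hθ]
    positivity
  obtain ⟨N, hN⟩ : ∃ N, N = L.card - k - 2 * n := ⟨_, rfl⟩
  have hK : ∀ K ∈ L.powersetCard k, (Measure.pi ν) {ω | Hit K ω} ≤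
      (ENNReal.ofReal (5 * ((n : ℝ) + 1) ^ 2 * θ) ^ k +
        4 * (Fintype.card ι : ENNReal) ^ (2 * n) * ENNReal.ofReal (Real.exp (-(θ / 10000))) ^ N) *
        (10 ^ k * (Measure.pi ν) {ω | Fea (Finset.univ : Finset ι) ω}) := by
    intro K hK
    obtain ⟨hKL, hKc⟩ := Finset.mem_powersetCard.mp hK
    have hc : n + 1 ≤ Kᶜ.card := by
      rw [Finset.card_compl, hKc]
      omega
    have hsd : (L \ K).card - 2 * n = N := by
      rw [Finset.card_sdiff_of_subset hKL, hKc, hN]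
    have h1 : (Measure.pi ν) {ω | Hit K ω} ≤ (Measure.pi ν) {ω | Hit K ω ∧ Fea Kᶜ ω} := by
      apply measure_mono
      intro ω hω
      refine ⟨hω, ?_⟩
      have hne : K.Nonempty := by
        rw [← Finset.card_pos]
        omega
      obtain ⟨i, hi⟩ := hne
      obtain ⟨z, hz1, hz2, -⟩ := hω i hi
      exact ⟨z, hz1, hz2⟩
    have h2 := hit_bound ν L K hL hKL hc hGP θ hθ0
    have h3 := deletion ν L K hL hKL hc hGP
    rw [hKc] at h2 h3
    rw [hsd] at h2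
    refine h1.trans (h2.trans ?_)
    apply mul_le_mul' _ h3
    apply add_le_add le_rfl
    apply mul_le_mul' le_rfl
    apply pow_le_pow_left' _ N
    apply ENNReal.ofReal_le_ofReal
    have := Real.add_one_le_exp (-(θ / 10000))
    linarith
  have hsum : ∑ K ∈ L.powersetCard k, (Measure.pi ν) {ω | Hit K ω} ≤
      (L.card : ENNReal) ^ k * ((ENNReal.ofReal (5 * ((n : ℝ) + 1) ^ 2 * θ) ^ k +
        4 * (Fintype.card ι : ENNReal) ^ (2 * n) * ENNReal.ofReal (Real.exp (-(θ / 10000))) ^ N) *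
        (10 ^ k * (Measure.pi ν) {ω | Fea (Finset.univ : Finset ι) ω})) := by
    refine (Finset.sum_le_card_nsmul _ _ _ hK).trans ?_
    rw [nsmul_eq_mul, Finset.card_powersetCard]
    apply mul_le_mul' _ le_rfl
    have : L.card.choose k ≤ L.card ^ k := Nat.choose_le_pow L.card k
    exact_mod_cast this
  refine hsum.trans ?_
  have hreal := pm_real n k L.card (Fintype.card ι) N hk hLk hLM hN
  rw [← hθ] at hreal
  have e1 : (L.card : ENNReal) ^ k * ((ENNReal.ofReal (5 * ((n : ℝ) + 1) ^ 2 * θ) ^ k +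
        4 * (Fintype.card ι : ENNReal) ^ (2 * n) * ENNReal.ofReal (Real.exp (-(θ / 10000))) ^ N) *
        (10 ^ k * (Measure.pi ν) {ω | Fea (Finset.univ : Finset ι) ω})) =
      ((L.card : ENNReal) ^ k * (ENNReal.ofReal (5 * ((n : ℝ) + 1) ^ 2 * θ) ^ k +
        4 * (Fintype.card ι : ENNReal) ^ (2 * n) * ENNReal.ofReal (Real.exp (-(θ / 10000))) ^ N) *
        10 ^ k) * (Measure.pi ν) {ω | Fea (Finset.univ : Finset ι) ω} := by ring
  rw [e1]
  apply mul_le_mul' _ le_rfl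
  have e2 := pm_conv L.card (Fintype.card ι) N k n (5 * ((n : ℝ) + 1) ^ 2 * θ)
    (Real.exp (-(θ / 10000))) (by positivity) (Real.exp_pos _).le
  rw [e2]
  exact ENNReal.ofReal_le_ofReal hreal

end Pool.Agent.Lib.SHirsch
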