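import Pool.Agent.Lib.SHirsch.FPt
import Pool.Agent.Lib.SHirsch.PMom
import Pool.Agent.Lib.SHirsch.GLight
import Pool.Agent.Lib.SHirsch.GGp
import Pool.Agent.Lib.SHirsch.GTr

/-!
# FInt: the expected diameter (200 lines)

`Φ ω = Gr (Abar + ω.1) (bbar + ω.2)`, `P = Measure.pi (rowLaw Abar bbar σ)`, `rows_law`: `Φ` is measure preserving. `gp_ae`: `GPc (Φ ω)` for a.e. `ω` (`MeasurePreserving.quasiMeasurePreserving.ae`).
`fea_measure`: `P {Fea univ} ≤ noise {ω | ∃ x, ..}`: `{Fea univ} ⊆ ⋃_α {RayIn ∅ α}` up to a null set (`fea_iff_ray` with `K = ∅`, `m + 1 ≥ n + 1`), a measurable set whose preimage under `Φ` is, up to a null set, contained in `{ω | ∃ x, ..}` (a ray is a nonzero element of the cone of all rows; `fea_iff`).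
`int_small`: `lintegral_mono_ae` with `point_small`; the indicator of `{Fea univ}` is bounded by the indicator of the measurable superset `toMeasurable P {Fea univ}` (same measure), `MeasurePreserving.lintegral_comp`.
`int_big`: the same with `point_big` (`Lt = light`, `Hv = heavy`, `light_heavy`), measurable supersets `toMeasurable P {Hit K}`, `lintegral_finset_sum`, `moments` for `ι = Option (Fin m)`, `L = light.map some` (`lightLaw_row`), `k = κ`, `Fintype.card (Option (Fin m)) = m + 1`; `κ ≥ 1` since `4 n ≥ 2`.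
-/

set_option autoImplicit false

open MeasureTheory

namespace Pool.Agent.Lib.SHirsch

private theorem gp_noise {m n : ℕ} (Abar : Fin m → Fin n → ℝ) (bbar : Fin m → ℝ)
    {σ : ℝ} (hσ : 0 < σ) :
    ∀ᵐ ω ∂(noise m n σ),
      GPc (Gr (fun i j => Abar i j + ω.1 i j) (fun i => bbar i + ω.2 i)) :=
  (rows_law Abar bbar σ).quasiMeasurePreserving.ae (gp_ae Abar bbar hσ)

theorem fea_measure {m n : ℕ} (hmn : n ≤ m) (Abar : Fin m → Fin n → ℝ) (bbar : Fin m → ℝ)
    {σ : ℝ} (hσ : 0 < σ) :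
    (Measure.pi (rowLaw Abar bbar σ)) {ω | Fea (Finset.univ : Finset (Option (Fin m))) ω} ≤
      noise m n σ {ω | ∃ x : Fin n → ℝ, ∀ i,
        (fun j => Abar i j + ω.1 i j) ⬝ᵥ x ≤ bbar i + ω.2 i} := by
  classical
  have hcard : n + 1 ≤ ((∅ : Finset (Option (Fin m)))ᶜ).card := by
    rw [Finset.compl_empty, Finset.card_univ, Fintype.card_option, Fintype.card_fin]
    omega
  set R : Set (Option (Fin m) → Fin (n + 1) → ℝ) :=
    ⋃ α : (Fin n → Option (Fin m)) × Bool, {ω | RayIn ∅ α ω} with hR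
  have hRm : MeasurableSet R := MeasurableSet.iUnion fun α => rayIn_measurable ∅ α
  have h1 : (Measure.pi (rowLaw Abar bbar σ))
      {ω | Fea (Finset.univ : Finset (Option (Fin m))) ω} ≤
      (Measure.pi (rowLaw Abar bbar σ)) R := by
    apply measure_mono_ae
    filter_upwards [gp_ae Abar bbar hσ] with ω hω hf
    have hf' : Fea ((∅ : Finset (Option (Fin m)))ᶜ) ω := by
      rw [Finset.compl_empty]; exact hf
    obtain ⟨α, hα⟩ := (fea_iff_ray hcard hω).1 hf'
    exact Set.mem_iUnion.2 ⟨α, hα⟩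
  refine h1.trans ?_
  rw [← (rows_law Abar bbar σ).measure_preimage hRm.nullMeasurableSet]
  apply measure_mono_ae
  filter_upwards [gp_noise Abar bbar hσ] with ω hω hf
  have hf1 : Gr (fun i j => Abar i j + ω.1 i j) (fun i => bbar i + ω.2 i) ∈ R := hf
  obtain ⟨α, hα⟩ := Set.mem_iUnion.1 hf1
  have h2 := (fea_iff_ray hcard hω).2 ⟨α, hα⟩
  rw [Finset.compl_empty] at h2
  exact (fea_iff hmn hω).1 h2

private theorem ind_le {m n : ℕ} (Abar : Fin m → Fin n → ℝ) (bbar : Fin m → ℝ)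
    (σ : ℝ) (F : Set (Option (Fin m) → Fin (n + 1) → ℝ)) :
    ∃ g : (Fin m → Fin n → ℝ) × (Fin m → ℝ) → ENNReal, Measurable g ∧
      (∀ ω, F.indicator (fun _ => (1 : ENNReal))
        (Gr (fun i j => Abar i j + ω.1 i j) (fun i => bbar i + ω.2 i)) ≤ g ω) ∧
      ∫⁻ ω, g ω ∂(noise m n σ) = (Measure.pi (rowLaw Abar bbar σ)) F := by
  set P := Measure.pi (rowLaw Abar bbar σ) with hP
  have hTm : MeasurableSet (toMeasurable P F) := measurableSet_toMeasurable P F
  have hgm : Measurable ((toMeasurable P F).indicator (fun _ => (1 : ENNReal))) :=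
    measurable_const.indicator hTm
  refine ⟨fun ω => (toMeasurable P F).indicator (fun _ => (1 : ENNReal))
        (Gr (fun i j => Abar i j + ω.1 i j) (fun i => bbar i + ω.2 i)),
    hgm.comp (rows_law Abar bbar σ).measurable, ?_, ?_⟩
  · intro ω
    exact Set.indicator_le_indicator_of_subset (subset_toMeasurable P F)
      (fun _ => zero_le_one) _
  · have h1 := (rows_law Abar bbar σ).lintegral_comp hgm
    rw [h1, lintegral_indicator_const hTm, one_mul, measure_toMeasurable]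

theorem int_small {m n : ℕ} (hn : 1 ≤ n) (hmn : n ≤ m) (Abar : Fin m → Fin n → ℝ)
    (bbar : Fin m → ℝ) {σ : ℝ} (hσ : 0 < σ) :
    ∫⁻ ω, ENat.toENNReal (dm (Pol (fun i j => Abar i j + ω.1 i j) (fun i => bbar i + ω.2 i)
        ∅ Finset.univ)) ∂(noise m n σ) ≤
      ((4 * n * m ^ Nat.clog 2 (4 * n) : ℕ) : ENNReal) *
        noise m n σ {ω | ∃ x : Fin n → ℝ, ∀ i,
          (fun j => Abar i j + ω.1 i j) ⬝ᵥ x ≤ bbar i + ω.2 i} := by
  obtain ⟨g, hg, hle, hint⟩ := ind_le (n := n) Abar bbar σ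
    {ω | Fea (Finset.univ : Finset (Option (Fin m))) ω}
  calc ∫⁻ ω, ENat.toENNReal (dm (Pol (fun i j => Abar i j + ω.1 i j)
        (fun i => bbar i + ω.2 i) ∅ Finset.univ)) ∂(noise m n σ)
      ≤ ∫⁻ ω, ((4 * n * m ^ Nat.clog 2 (4 * n) : ℕ) : ENNReal) * g ω ∂(noise m n σ) := by
        apply lintegral_mono_ae
        filter_upwards [gp_noise Abar bbar hσ] with ω hω
        exact (point_small hn hmn hω).trans (mul_le_mul_right (hle ω) _)
    _ = ((4 * n * m ^ Nat.clog 2 (4 * n) : ℕ) : ENNReal) *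
          (Measure.pi (rowLaw Abar bbar σ))
            {ω | Fea (Finset.univ : Finset (Option (Fin m))) ω} := by
        rw [lintegral_const_mul _ hg, hint]
    _ ≤ _ := mul_le_mul_right (fea_measure hmn Abar bbar hσ) _

theorem int_big {m n : ℕ} (hn : 1 ≤ n) (hmn : n ≤ m) (Abar : Fin m → Fin n → ℝ)
    (bbar : Fin m → ℝ) {σ : ℝ} (hσ : 0 < σ) (κ : ℕ) (hκ : κ = Nat.clog 2 (4 * n))
    (hL : 2 * (κ + 2 * n) ≤ (light Abar bbar σ).card) :
    ∫⁻ ω, ENat.toENNReal (dm (Pol (fun i j => Abar i j + ω.1 i j) (fun i => bbar i + ω.2 i)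
        ∅ Finset.univ)) ∂(noise m n σ) ≤
      (((4 * n * 2 ^ κ * ((heavy Abar bbar σ).card ^ κ + (2 * κ) ^ κ) : ℕ) : ENNReal) +
        ((4 * n * 2 ^ κ * (2 * κ) ^ κ : ℕ) : ENNReal) *
          ENNReal.ofReal (5 * (10 ^ 6 * ((n : ℝ) + 1) ^ 2 * (2 * n + κ) *
            Real.log ((m : ℝ) + 1)) ^ κ)) *
        noise m n σ {ω | ∃ x : Fin n → ℝ, ∀ i,
          (fun j => Abar i j + ω.1 i j) ⬝ᵥ x ≤ bbar i + ω.2 i} := by
  classical
  set C1 : ENNReal := ((4 * n * 2 ^ κ * ((heavy Abar bbar σ).card ^ κ + (2 * κ) ^ κ) : ℕ) :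
    ENNReal) with hC1
  set C2 : ENNReal := ((4 * n * 2 ^ κ * (2 * κ) ^ κ : ℕ) : ENNReal) with hC2
  set D : ENNReal := ENNReal.ofReal (5 * (10 ^ 6 * ((n : ℝ) + 1) ^ 2 * (2 * n + κ) *
            Real.log ((m : ℝ) + 1)) ^ κ) with hD
  set P := Measure.pi (rowLaw Abar bbar σ) with hP
  set F : Set (Option (Fin m) → Fin (n + 1) → ℝ) :=
    {ω | Fea (Finset.univ : Finset (Option (Fin m))) ω} with hF
  set LS : Finset (Option (Fin m)) :=
    (light Abar bbar σ).map Function.Embedding.some with hLS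
  obtain ⟨g, hg, hle, hint⟩ := ind_le (n := n) Abar bbar σ F
  have hex : ∀ K : Finset (Option (Fin m)), ∃ g : (Fin m → Fin n → ℝ) × (Fin m → ℝ) → ENNReal,
      Measurable g ∧
      (∀ ω, Set.indicator {ω : Option (Fin m) → Fin (n + 1) → ℝ | Hit K ω}
        (fun _ => (1 : ENNReal))
        (Gr (fun i j => Abar i j + ω.1 i j) (fun i => bbar i + ω.2 i)) ≤ g ω) ∧
      ∫⁻ ω, g ω ∂(noise m n σ) = P {ω | Hit K ω} := fun K => ind_le (n := n) Abar bbar σ _
  choose G hG hGle hGint using hex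
  have hκ1 : 1 ≤ κ := by
    rw [hκ]
    apply Nat.clog_pos (by norm_num)
    omega
  have hmom : ∑ K ∈ LS.powersetCard κ, P {ω | Hit K ω} ≤ D * P F := by
    have h := moments (n := n) (rowLaw Abar bbar σ) LS (by
      intro i hi
      rw [hLS, Finset.mem_map] at hi
      obtain ⟨j, hj, rfl⟩ := hi
      exact lightLaw_row hn Abar bbar hσ hj) (gp_ae Abar bbar hσ) κ hκ1 (by
      rw [hLS, Finset.card_map]; exact hL)
    rw [Fintype.card_option, Fintype.card_fin] at h
    rw [hD]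
    push_cast at h ⊢
    exact h
  calc ∫⁻ ω, ENat.toENNReal (dm (Pol (fun i j => Abar i j + ω.1 i j)
        (fun i => bbar i + ω.2 i) ∅ Finset.univ)) ∂(noise m n σ)
      ≤ ∫⁻ ω, (C1 * g ω + C2 * ∑ K ∈ LS.powersetCard κ, G K ω) ∂(noise m n σ) := by
        apply lintegral_mono_ae
        filter_upwards [gp_noise Abar bbar hσ] with ω hω
        refine (point_big hn hmn hω (light Abar bbar σ) (heavy Abar bbar σ)
          (light_heavy Abar bbar σ).2 κ hκ).trans ?_
        refine add_le_add (mul_le_mul_right (hle ω) _) (mul_le_mul_right ?_ _)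
        exact Finset.sum_le_sum fun K _ => hGle K ω
    _ = C1 * P F + C2 * ∑ K ∈ LS.powersetCard κ, P {ω | Hit K ω} := by
        rw [lintegral_add_left (hg.const_mul _), lintegral_const_mul _ hg, hint,
          lintegral_const_mul _ (Finset.measurable_fun_sum _ fun K _ => hG K),
          lintegral_finsetSum _ fun K _ => hG K]
        congr 2
        exact Finset.sum_congr rfl fun K _ => hGint K
    _ ≤ C1 * P F + C2 * (D * P F) :=
        add_le_add le_rfl (mul_le_mul_right hmom _)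
    _ = (C1 + C2 * D) * P F := by ring
    _ ≤ _ := mul_le_mul_right (fea_measure hmn Abar bbar hσ) _

end Pool.Agent.Lib.SHirsch
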