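import Mathlib

/-!
# FNum: the constants (150 lines; only Mathlib)

`X = 1 + n + log(1+m) + 1/σ ≥ 2.69`, `p = 1 + Nat.log 2 (1+n) ≥ 2`, `κ = Nat.clog 2 (4n) ≤ 3 + Nat.log 2 n ≤ min (2 p) (3 + n) `, so `κ ≤ 3 X`, `κ ≤ 2 p`; `4 n ≤ 4 X`; `h ≤ 2/σ² ≤ 2 X²`; `W = 10^6 (n+1)^2 (2n+κ) log(m+1) ≤ 5·10^6 X^4`; `2κ ≤ 6X`.
`num_big`: the left side is `4 n 2^κ (h^κ + (2κ)^κ + 5 (2κ W)^κ) ≤ 4 X 2^κ 7 (3·10^7 X^5)^κ = 28 X (6·10^7 X^5)^κ ≤ 28 X (6·10^7 X^5)^(2p) ≤ (2·10^8)^(2p) X^(11 p) ≤ (10^9 X)^(11 p) ≤ (10^9 X)^(10^9 p)` (`28 · 0.3^4 ≤ 1`).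
`num_small`: `m = light + heavy ≤ 2(κ + 2n) + 2 X² ≤ 10 X + 2 X² ≤ 12 X²`, `4 n m^κ ≤ 4 X (12 X²)^(2p) ≤ (10^9 X)^(11 p)`.
-/

set_option autoImplicit false

namespace Pool.Agent.Lib.SHirsch

private theorem fn_kap (n : ℕ) (hn : 1 ≤ n) :
    Nat.clog 2 (4 * n) ≤ 2 * (1 + Nat.log 2 (1 + n)) ∧ Nat.clog 2 (4 * n) ≤ 3 + n := by
  have h1 : Nat.clog 2 (4 * n) ≤ 3 + Nat.log 2 n := by
    apply Nat.clog_le_of_le_pow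
    have h2 : n < 2 ^ (Nat.log 2 n + 1) := Nat.lt_pow_succ_log_self (by norm_num) n
    have h3 : 2 ^ (3 + Nat.log 2 n) = 4 * 2 ^ (Nat.log 2 n + 1) := by ring
    omega
  have h4 : Nat.log 2 n ≤ Nat.log 2 (1 + n) := Nat.log_mono_right (by omega)
  have h5 : 1 ≤ Nat.log 2 (1 + n) := by
    apply Nat.le_log_of_pow_le (by norm_num)
    omega
  have h6 : Nat.log 2 n ≤ n := Nat.log_le_self 2 n
  omega

private theorem fn_final (X : ℝ) (hX : 1 ≤ X) (p κ : ℕ) (hp : 1 ≤ p) (hκ : κ ≤ 2 * p) (T a : ℝ)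
    (ha0 : 0 ≤ a) (ha : a ≤ (10 ^ 9 * X) ^ 5) (hT : T ≤ 28 * X * a ^ κ) (ha1 : 1 ≤ a) :
    T ≤ (10 ^ 9 * X) ^ (10 ^ 9 * p) := by
  have hB : 1 ≤ 10 ^ 9 * X := by nlinarith
  have h1 : a ^ κ ≤ (10 ^ 9 * X) ^ (10 * p) := by
    calc a ^ κ ≤ a ^ (2 * p) := pow_le_pow_right₀ ha1 hκ
      _ ≤ ((10 ^ 9 * X) ^ 5) ^ (2 * p) := pow_le_pow_left₀ ha0 ha _
      _ = (10 ^ 9 * X) ^ (10 * p) := by
        rw [← pow_mul]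
        congr 1
        ring
  have h2 : 28 * X ≤ (10 ^ 9 * X) ^ p := by
    calc 28 * X ≤ (10 ^ 9 * X) ^ 1 := by
          rw [pow_one]
          nlinarith
      _ ≤ (10 ^ 9 * X) ^ p := pow_le_pow_right₀ hB hp
  calc T ≤ 28 * X * a ^ κ := hT
    _ ≤ (10 ^ 9 * X) ^ p * (10 ^ 9 * X) ^ (10 * p) :=
      mul_le_mul h2 h1 (pow_nonneg ha0 _) (pow_nonneg (by linarith) _)
    _ = (10 ^ 9 * X) ^ (11 * p) := by
      rw [← pow_add]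
      congr 1
      ring
    _ ≤ (10 ^ 9 * X) ^ (10 ^ 9 * p) := by
      apply pow_le_pow_right₀ hB
      exact Nat.mul_le_mul_right p (by norm_num)

theorem num_big (m n h : ℕ) (hn : 1 ≤ n) (hm : 1 ≤ m) (σ : ℝ) (hσ : 0 < σ)
    (hh : (h : ℝ) ≤ 2 / σ ^ 2) (κ : ℕ) (hκ : κ = Nat.clog 2 (4 * n)) :
    ((4 * n * 2 ^ κ * (h ^ κ + (2 * κ) ^ κ) : ℕ) : ℝ) +
      ((4 * n * 2 ^ κ * (2 * κ) ^ κ : ℕ) : ℝ) *
        (5 * (10 ^ 6 * ((n : ℝ) + 1) ^ 2 * (2 * n + κ) * Real.log ((m : ℝ) + 1)) ^ κ) ≤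
    ((10 ^ 9 : ℝ) * (1 + n + Real.log (1 + m) + 1 / σ)) ^ (10 ^ 9 * (1 + Nat.log 2 (1 + n))) := by
  obtain ⟨hk1, hk2⟩ := fn_kap n hn
  rw [← hκ] at hk1 hk2
  have hn' : (1 : ℝ) ≤ n := by exact_mod_cast hn
  have hm' : (1 : ℝ) ≤ m := by exact_mod_cast hm
  have hlog : 0 ≤ Real.log (1 + m) := Real.log_nonneg (by linarith)
  have hs : 0 < 1 / σ := by positivity
  obtain ⟨X, hX⟩ : ∃ X : ℝ, X = 1 + n + Real.log (1 + m) + 1 / σ := ⟨_, rfl⟩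
  rw [← hX]
  have hX2 : 2 ≤ X := by linarith
  have hnX : (n : ℝ) + 1 ≤ X := by linarith
  have hlX : Real.log ((m : ℝ) + 1) ≤ X := by
    rw [add_comm (m : ℝ) 1]
    linarith
  have hl0 : 0 ≤ Real.log ((m : ℝ) + 1) := by
    rw [add_comm (m : ℝ) 1]
    exact hlog
  have hkX : (κ : ℝ) ≤ 3 * X := by
    have : (κ : ℝ) ≤ 3 + n := by exact_mod_cast hk2
    linarith
  have hhX : (h : ℝ) ≤ 2 * X ^ 2 := by
    have h1 : 1 / σ ≤ X := by linarith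
    have h2 : (1 / σ) ^ 2 ≤ X ^ 2 := pow_le_pow_left₀ hs.le h1 2
    have h3 : 2 / σ ^ 2 = 2 * (1 / σ) ^ 2 := by
      field_simp
    rw [h3] at hh
    linarith
  have hk0 : (0 : ℝ) ≤ κ := Nat.cast_nonneg κ
  have hX1 : 1 ≤ X := by linarith
  have hX5 : X ≤ X ^ 5 := by
    calc X = X ^ 1 := (pow_one X).symm
      _ ≤ X ^ 5 := pow_le_pow_right₀ hX1 (by norm_num)
  have hX25 : X ^ 2 ≤ X ^ 5 := pow_le_pow_right₀ hX1 (by norm_num)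
  have hX50 : 1 ≤ X ^ 5 := one_le_pow₀ hX1
  have hW : 10 ^ 6 * ((n : ℝ) + 1) ^ 2 * (2 * n + κ) * Real.log ((m : ℝ) + 1) ≤ 5 * 10 ^ 6 * X ^ 4 := by
    have h1 : ((n : ℝ) + 1) ^ 2 ≤ X ^ 2 := pow_le_pow_left₀ (by linarith) hnX 2
    have h2 : 2 * (n : ℝ) + κ ≤ 5 * X := by linarith
    have h3 : ((n : ℝ) + 1) ^ 2 * (2 * n + κ) ≤ X ^ 2 * (5 * X) :=
      mul_le_mul h1 h2 (by positivity) (by positivity)
    have h4 : ((n : ℝ) + 1) ^ 2 * (2 * n + κ) * Real.log ((m : ℝ) + 1) ≤ X ^ 2 * (5 * X) * X :=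
      mul_le_mul h3 hlX hl0 (by positivity)
    nlinarith
  have hW0 : 0 ≤ 10 ^ 6 * ((n : ℝ) + 1) ^ 2 * (2 * n + κ) * Real.log ((m : ℝ) + 1) := by positivity
  have b1 : (h : ℝ) ^ κ ≤ (3 * 10 ^ 7 * X ^ 5) ^ κ :=
    pow_le_pow_left₀ (Nat.cast_nonneg h) (by linarith) κ
  have b2 : (2 * (κ : ℝ)) ^ κ ≤ (3 * 10 ^ 7 * X ^ 5) ^ κ :=
    pow_le_pow_left₀ (by positivity) (by linarith) κ
  have b3 : (2 * (κ : ℝ)) ^ κ *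
      (10 ^ 6 * ((n : ℝ) + 1) ^ 2 * (2 * n + κ) * Real.log ((m : ℝ) + 1)) ^ κ ≤
      (3 * 10 ^ 7 * X ^ 5) ^ κ := by
    rw [← mul_pow]
    apply pow_le_pow_left₀ (by positivity)
    calc 2 * (κ : ℝ) * (10 ^ 6 * ((n : ℝ) + 1) ^ 2 * (2 * n + κ) * Real.log ((m : ℝ) + 1))
        ≤ (6 * X) * (5 * 10 ^ 6 * X ^ 4) := mul_le_mul (by linarith) hW hW0 (by positivity)
      _ = 3 * 10 ^ 7 * X ^ 5 := by ring
  refine fn_final X hX1 (1 + Nat.log 2 (1 + n)) κ (by omega) hk1 _ (6 * 10 ^ 7 * X ^ 5) (by positivity)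
    ?_ ?_ ?_
  · rw [mul_pow]
    apply mul_le_mul_of_nonneg_right _ (by positivity)
    norm_num
  · push_cast
    have e1 : (4 * (n : ℝ) * 2 ^ κ * ((h : ℝ) ^ κ + (2 * (κ : ℝ)) ^ κ)) +
        (4 * (n : ℝ) * 2 ^ κ * (2 * (κ : ℝ)) ^ κ) *
        (5 * (10 ^ 6 * ((n : ℝ) + 1) ^ 2 * (2 * n + κ) * Real.log ((m : ℝ) + 1)) ^ κ) =
        (4 * (n : ℝ) * 2 ^ κ) * ((h : ℝ) ^ κ + (2 * (κ : ℝ)) ^ κ + 5 * ((2 * (κ : ℝ)) ^ κ *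
        (10 ^ 6 * ((n : ℝ) + 1) ^ 2 * (2 * n + κ) * Real.log ((m : ℝ) + 1)) ^ κ)) := by ring
    rw [e1]
    calc (4 * (n : ℝ) * 2 ^ κ) * ((h : ℝ) ^ κ + (2 * (κ : ℝ)) ^ κ + 5 * ((2 * (κ : ℝ)) ^ κ *
        (10 ^ 6 * ((n : ℝ) + 1) ^ 2 * (2 * n + κ) * Real.log ((m : ℝ) + 1)) ^ κ))
        ≤ (4 * (n : ℝ) * 2 ^ κ) * (7 * (3 * 10 ^ 7 * X ^ 5) ^ κ) :=
          mul_le_mul_of_nonneg_left (by linarith) (by positivity)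
      _ ≤ (4 * X * 2 ^ κ) * (7 * (3 * 10 ^ 7 * X ^ 5) ^ κ) := by
          apply mul_le_mul_of_nonneg_right _ (by positivity)
          apply mul_le_mul_of_nonneg_right _ (by positivity)
          linarith
      _ = 28 * X * (6 * 10 ^ 7 * X ^ 5) ^ κ := by
          have : (6 * 10 ^ 7 * X ^ 5) ^ κ = 2 ^ κ * (3 * 10 ^ 7 * X ^ 5) ^ κ := by
            rw [← mul_pow]
            congr 1
            ring
          rw [this]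
          ring
  · linarith

theorem num_small (m n h l : ℕ) (hn : 1 ≤ n) (hm : 1 ≤ m) (σ : ℝ) (hσ : 0 < σ)
    (hh : (h : ℝ) ≤ 2 / σ ^ 2) (hlh : l + h = m) (hl : l < 2 * (Nat.clog 2 (4 * n) + 2 * n)) :
    ((4 * n * m ^ Nat.clog 2 (4 * n) : ℕ) : ℝ) ≤
    ((10 ^ 9 : ℝ) * (1 + n + Real.log (1 + m) + 1 / σ)) ^ (10 ^ 9 * (1 + Nat.log 2 (1 + n))) := by
  obtain ⟨hk1, hk2⟩ := fn_kap n hn
  have hn' : (1 : ℝ) ≤ n := by exact_mod_cast hn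
  have hm' : (1 : ℝ) ≤ m := by exact_mod_cast hm
  have hlog : 0 ≤ Real.log (1 + m) := Real.log_nonneg (by linarith)
  have hs : 0 < 1 / σ := by positivity
  obtain ⟨X, hX⟩ : ∃ X : ℝ, X = 1 + n + Real.log (1 + m) + 1 / σ := ⟨_, rfl⟩
  rw [← hX]
  have hX2 : 2 ≤ X := by linarith
  have hnX : (n : ℝ) + 1 ≤ X := by linarith
  have hkX : ((Nat.clog 2 (4 * n) : ℕ) : ℝ) ≤ 3 * X := by
    have : ((Nat.clog 2 (4 * n) : ℕ) : ℝ) ≤ 3 + n := by exact_mod_cast hk2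
    linarith
  have hhX : (h : ℝ) ≤ 2 * X ^ 2 := by
    have h1 : 1 / σ ≤ X := by linarith
    have h2 : (1 / σ) ^ 2 ≤ X ^ 2 := pow_le_pow_left₀ hs.le h1 2
    have h3 : 2 / σ ^ 2 = 2 * (1 / σ) ^ 2 := by
      field_simp
    rw [h3] at hh
    linarith
  have hX1 : 1 ≤ X := by linarith
  have hmX : (m : ℝ) ≤ 12 * X ^ 2 := by
    have h1 : (m : ℝ) = l + h := by exact_mod_cast hlh.symm
    have h2 : (l : ℝ) ≤ 2 * ((Nat.clog 2 (4 * n) : ℕ) + 2 * n) := by exact_mod_cast hl.le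
    nlinarith
  have hX5 : X ^ 2 ≤ X ^ 5 := pow_le_pow_right₀ hX1 (by norm_num)
  have hX50 : 1 ≤ X ^ 5 := one_le_pow₀ hX1
  refine fn_final X hX1 (1 + Nat.log 2 (1 + n)) (Nat.clog 2 (4 * n)) (by omega) hk1 _ (12 * X ^ 5)
    (by positivity) ?_ ?_ ?_
  · rw [mul_pow]
    apply mul_le_mul_of_nonneg_right _ (by positivity)
    norm_num
  · push_cast
    have h1 : (m : ℝ) ^ Nat.clog 2 (4 * n) ≤ (12 * X ^ 5) ^ Nat.clog 2 (4 * n) :=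
      pow_le_pow_left₀ (Nat.cast_nonneg m) (by linarith) _
    calc 4 * (n : ℝ) * (m : ℝ) ^ Nat.clog 2 (4 * n) ≤ 28 * X * (12 * X ^ 5) ^ Nat.clog 2 (4 * n) :=
          mul_le_mul (by linarith) h1 (by positivity) (by positivity)
      _ = 28 * X * (12 * X ^ 5) ^ Nat.clog 2 (4 * n) := rfl
  · linarith

end Pool.Agent.Lib.SHirsch
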