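import Mathlib

/-!
# FPoly: from the quasi-polynomial bound to the polynomial one (150 lines; only Mathlib)

`X0 = 1 + n + 1/σ ≥ 1`, `p = 1 + Nat.log 2 (1+n)`, `L = log(1+m)`. `(C (X0 + L))^(C p) ≤ (C)^(C p) (X0 (1 + L))^(C p)` (as `X0 ≥ 1`: `X0 + L ≤ X0 (1 + L)`).
Hypothesis `X0^(D p) ≤ m` with `D` large (depending on `C` only; `D ≥ 4 C`, ...), so `m ≥ 1` and `X0^(C p) ≤ m^(C/D) ≤ m^(1/4)`.
`n = 0`: `p = 1`; `C^C (1 + L)^C ≤ D m^(3/4)`-type bound: `(1 + log(1+m))^C ≤ K_C m^(1/4)` for `m ≥ 1` (`Real.log_le_rpow_div`, or `isLittleO_log_rpow_atTop`).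
`n ≥ 1`: `1 + n ≥ 2^(p-1)`, `p ≥ 2`, so `X0 ≥ 2^(p/2)`, `m ≥ 2^(D p²/2)`, `log2 m ≥ D p²/2 ≥ 2 D`. `C^(C p) = 2^(C log2(C) p) ≤ m^(1/4)` if `D ≥ 8 C log2 C`. `(1 + L)^(C p) ≤ m^(1/4)`: `1 + L ≤ 2 + log2 m`, with `y = log2 m`, `C p ≤ C sqrt(2 y/D)`,
`log2(2 + y) ≤ 2 sqrt y` (`y ≥ 1`), so `C p log2(2 + y) ≤ 2 C sqrt(2/D) y ≤ y/4` if `D ≥ 128 C²`. So the left side is `≤ m^(3/4) ≤ m`.
(Any other elementary way is fine; only the statement matters.)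
-/

set_option autoImplicit false

namespace Pool.Agent.Lib.SHirsch

theorem quasi_to_poly (C : ℕ) : ∃ D : ℕ, ∀ m n : ℕ, ∀ σ : ℝ, 0 < σ →
    (1 + (n : ℝ) + 1 / σ) ^ (D * (1 + Nat.log 2 (1 + n))) ≤ m →
    ((C : ℝ) * (1 + n + Real.log (1 + m) + 1 / σ)) ^ (C * (1 + Nat.log 2 (1 + n))) ≤
      D * (m : ℝ) := by
  refine ⟨⌈Real.exp (3 * (C : ℝ) ^ 2 + 1)⌉₊ + 256 * C ^ 2 + 4 * C + 2, ?_⟩
  intro m n σ hσ h
  obtain ⟨D, hD⟩ : ∃ D : ℕ, D = ⌈Real.exp (3 * (C : ℝ) ^ 2 + 1)⌉₊ + 256 * C ^ 2 + 4 * C + 2 :=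
    ⟨_, rfl⟩
  rw [← hD] at h ⊢
  obtain ⟨p, hp⟩ : ∃ p : ℕ, p = 1 + Nat.log 2 (1 + n) := ⟨_, rfl⟩
  rw [← hp] at h ⊢
  have hDr : (D : ℝ) = (⌈Real.exp (3 * (C : ℝ) ^ 2 + 1)⌉₊ : ℝ) + 256 * (C : ℝ) ^ 2 + 4 * C + 2 := by
    rw [hD]; push_cast; ring
  have hce : Real.exp (3 * (C : ℝ) ^ 2 + 1) ≤ (⌈Real.exp (3 * (C : ℝ) ^ 2 + 1)⌉₊ : ℝ) :=
    Nat.le_ceil _
  have hC0 : (0 : ℝ) ≤ (C : ℝ) := Nat.cast_nonneg C
  have hC2 : (0 : ℝ) ≤ (C : ℝ) ^ 2 := by positivity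
  have hexp : 0 < Real.exp (3 * (C : ℝ) ^ 2 + 1) := Real.exp_pos _
  have hD1 : Real.exp (3 * (C : ℝ) ^ 2 + 1) ≤ (D : ℝ) := by rw [hDr]; linarith
  have hD2 : 256 * (C : ℝ) ^ 2 ≤ (D : ℝ) := by rw [hDr]; linarith
  have hD3 : 4 * (C : ℝ) ≤ (D : ℝ) := by rw [hDr]; linarith
  have hD4 : 2 ≤ (D : ℝ) := by rw [hDr]; linarith
  have hD0 : 0 < (D : ℝ) := by linarith
  obtain ⟨X, hX⟩ : ∃ X : ℝ, X = 1 + (n : ℝ) + 1 / σ := ⟨_, rfl⟩
  rw [← hX] at h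
  have hn0 : (0 : ℝ) ≤ (n : ℝ) := Nat.cast_nonneg n
  have hσi : 0 < 1 / σ := by positivity
  have hX1 : 1 ≤ X := by rw [hX]; linarith
  have hX0 : 0 < X := by linarith
  have hm1 : (1 : ℝ) ≤ (m : ℝ) := le_trans (one_le_pow₀ hX1) h
  have hm0 : (0 : ℝ) < (m : ℝ) := by linarith
  obtain ⟨y, hy⟩ : ∃ y : ℝ, y = Real.log (m : ℝ) := ⟨_, rfl⟩
  have hy0 : 0 ≤ y := by rw [hy]; exact Real.log_nonneg hm1
  obtain ⟨x, hx⟩ : ∃ x : ℝ, x = Real.log X := ⟨_, rfl⟩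
  have hx0 : 0 ≤ x := by rw [hx]; exact Real.log_nonneg hX1
  have hp1 : (1 : ℝ) ≤ (p : ℝ) := by
    rw [hp]; push_cast
    have : (0 : ℝ) ≤ (Nat.log 2 (1 + n) : ℝ) := Nat.cast_nonneg _
    linarith
  have hyx : (D : ℝ) * p * x ≤ y := by
    have h1 := Real.log_le_log (by positivity) h
    rw [Real.log_pow, ← hx, ← hy] at h1
    push_cast at h1
    exact h1
  obtain ⟨L, hL⟩ : ∃ L : ℝ, L = Real.log (1 + (m : ℝ)) := ⟨_, rfl⟩
  have hL0 : 0 ≤ L := by rw [hL]; exact Real.log_nonneg (by linarith)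
  have hL1 : 1 + L ≤ 2 + y := by
    have h1 : L ≤ Real.log (2 * (m : ℝ)) := by
      rw [hL]
      exact Real.log_le_log (by linarith) (by linarith)
    rw [Real.log_mul (by norm_num) hm0.ne', ← hy] at h1
    have h2 : Real.log 2 ≤ 1 := by
      have := Real.log_le_sub_one_of_pos (show (0 : ℝ) < 2 by norm_num)
      linarith
    linarith
  obtain ⟨s, hs⟩ : ∃ s : ℝ, s = Real.sqrt (2 + y) := ⟨_, rfl⟩
  have hs2 : s ^ 2 = 2 + y := by rw [hs]; exact Real.sq_sqrt (by linarith)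
  have hs0 : 0 < s := by rw [hs]; exact Real.sqrt_pos.mpr (by linarith)
  have hlog1 : Real.log (1 + L) ≤ 2 * s := by
    have h1 : Real.log (1 + L) ≤ Real.log (s ^ 2) := by
      apply Real.log_le_log (by linarith)
      rw [hs2]; exact hL1
    rw [Real.log_pow] at h1
    have h2 := Real.log_le_sub_one_of_pos hs0
    push_cast at h1
    linarith
  have hbase : (C : ℝ) * (1 + n + Real.log (1 + m) + 1 / σ) = C * (X + L) := by
    rw [hX, hL]; ring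
  rw [hbase]
  rcases Nat.eq_zero_or_pos C with hC | hC
  · subst hC
    rw [zero_mul, pow_zero]
    exact one_le_mul_of_one_le_of_one_le (by linarith) hm1
  have hCpos : (1 : ℝ) ≤ (C : ℝ) := by exact_mod_cast hC
  have hXL : 0 < X + L := by linarith
  have hlogZ : Real.log ((C : ℝ) * (X + L)) ≤ C + x + 2 * s := by
    rw [Real.log_mul (by linarith) hXL.ne']
    have h1 : Real.log (C : ℝ) ≤ C := Real.log_le_self hC0
    have h2 : Real.log (X + L) ≤ Real.log (X * (1 + L)) := by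
      apply Real.log_le_log hXL
      have h3 : L ≤ X * L := le_mul_of_one_le_left hL0 hX1
      linarith
    rw [Real.log_mul hX0.ne' (by linarith), ← hx] at h2
    linarith
  have hZ0 : 0 < ((C : ℝ) * (X + L)) ^ (C * p) := by positivity
  rw [← Real.log_le_log_iff hZ0 (by positivity), Real.log_pow, Real.log_mul hD0.ne' hm0.ne', ← hy]
  push_cast
  have hlogD : 3 * (C : ℝ) ^ 2 + 1 ≤ Real.log D := by
    rw [← Real.log_exp (3 * (C : ℝ) ^ 2 + 1)]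
    exact Real.log_le_log hexp hD1
  have hCp0 : 0 ≤ (C : ℝ) * p := by positivity
  have hmain : (C : ℝ) * p * Real.log ((C : ℝ) * (X + L)) ≤ C * p * (C + x + 2 * s) :=
    mul_le_mul_of_nonneg_left hlogZ hCp0
  refine le_trans hmain ?_
  have hpx0 : 0 ≤ (p : ℝ) * x := by positivity
  have hxq : (C : ℝ) * p * x ≤ y / 4 := by
    have h1 : 4 * (C : ℝ) * (p * x) ≤ D * (p * x) := mul_le_mul_of_nonneg_right hD3 hpx0
    linarith
  rcases Nat.eq_zero_or_pos n with hn | hn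
  · have hpe : (p : ℝ) = 1 := by
      rw [hp, hn]; norm_num
    rw [hpe] at hxq ⊢
    have h1 : 2 * (C : ℝ) * s ≤ s ^ 2 / 2 + 2 * (C : ℝ) ^ 2 := by
      linarith [sq_nonneg (s - 2 * (C : ℝ))]
    rw [hs2] at h1
    linarith
  · -- n ≥ 1
    have hp2 : (2 : ℝ) ≤ (p : ℝ) := by
      have h1 : 1 ≤ Nat.log 2 (1 + n) := by
        apply Nat.log_pos (by norm_num)
        omega
      rw [hp]; push_cast
      have h2 : (1 : ℝ) ≤ (Nat.log 2 (1 + n) : ℝ) := by exact_mod_cast h1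
      linarith
    have hxlow : ((p : ℝ) - 1) * (1 / 2) ≤ x := by
      have h1 : 2 ^ Nat.log 2 (1 + n) ≤ 1 + n := Nat.pow_log_le_self 2 (by omega)
      have h2 : ((2 : ℝ) ^ Nat.log 2 (1 + n)) ≤ X := by
        have h3 : ((2 ^ Nat.log 2 (1 + n) : ℕ) : ℝ) ≤ ((1 + n : ℕ) : ℝ) := by exact_mod_cast h1
        push_cast at h3
        rw [hX]
        linarith
      have h4 := Real.log_le_log (by positivity) h2
      rw [Real.log_pow, ← hx] at h4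
      have h5 : (1 / 2 : ℝ) ≤ Real.log 2 := by
        have := Real.log_two_gt_d9
        linarith
      have h6 : ((p : ℝ) - 1) = (Nat.log 2 (1 + n) : ℝ) := by
        rw [hp]; push_cast; ring
      rw [h6]
      refine le_trans ?_ h4
      exact mul_le_mul_of_nonneg_left h5 (Nat.cast_nonneg _)
    have hxlow2 : (p : ℝ) / 4 ≤ x := by linarith
    have hyp : (D : ℝ) * (p : ℝ) ^ 2 / 4 ≤ y := by
      have h1 : (D : ℝ) * p * ((p : ℝ) / 4) ≤ D * p * x :=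
        mul_le_mul_of_nonneg_left hxlow2 (by positivity)
      linarith
    have hp4 : (4 : ℝ) ≤ (p : ℝ) ^ 2 := by
      have h1 := mul_le_mul hp2 hp2 (by norm_num) (by linarith)
      linarith
    have hyD : (D : ℝ) ≤ y := by
      have h1 := mul_le_mul_of_nonneg_left hp4 hD0.le
      linarith
    have hy2 : 2 ≤ y := by linarith
    have hC2y : 64 * (C : ℝ) ^ 2 * (p : ℝ) ^ 2 ≤ y := by
      have h1 : 256 * (C : ℝ) ^ 2 * (p : ℝ) ^ 2 ≤ D * (p : ℝ) ^ 2 :=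
        mul_le_mul_of_nonneg_right hD2 (by positivity)
      linarith
    have hi : (C : ℝ) * p * C ≤ y / 64 := by
      have h1 : (C : ℝ) ^ 2 * (p : ℝ) ≤ (C : ℝ) ^ 2 * (p : ℝ) ^ 2 := by
        apply mul_le_mul_of_nonneg_left _ hC2
        have h2 : (p : ℝ) * 1 ≤ p * p := mul_le_mul_of_nonneg_left hp1 (by linarith)
        linarith
      linarith
    have hii : 2 * ((C : ℝ) * p) * s ≤ s ^ 2 / 8 + 8 * ((C : ℝ) * p) ^ 2 := by
      linarith [sq_nonneg (s - 8 * ((C : ℝ) * p))]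
    rw [hs2, mul_pow] at hii
    have hlogD0 : 0 ≤ Real.log D := by linarith
    linarith

end Pool.Agent.Lib.SHirsch
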