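import Pool.Agent.Lib.SHirsch.FInt
import Pool.Agent.Lib.SHirsch.FNum
import Pool.Agent.Lib.SHirsch.FPoly

/-!
# FMain: assembly (120 lines)

`main_int`: if `n = 0` or `m < n` the integrand is zero (`dm_zero`). Otherwise `1 ≤ n ≤ m`; `κ = Nat.clog 2 (4 n)`, `h = heavy.card ≤ 2/σ²` (`heavy_card`), `l = light.card`, `l + h = m` (`light_heavy`). If `2 (κ + 2 n) ≤ l` use `int_big` and `num_big` (`ENNReal.ofReal_natCast`, `ENNReal.ofReal_add`,
`ENNReal.ofReal_mul`), else `int_small` and `num_small`.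
-/

set_option autoImplicit false

open MeasureTheory

namespace Pool.Agent.Lib.SHirsch

theorem main_int (m n : ℕ) (σ : ℝ) (hσ : 0 < σ) (Abar : Fin m → Fin n → ℝ) (bbar : Fin m → ℝ)
    (hA : ∑ i, ∑ j, Abar i j ^ 2 ≤ 1) (hb : ∑ i, bbar i ^ 2 ≤ 1) :
    ∫⁻ ω, ENat.toENNReal (dm (Pol (fun i j => Abar i j + ω.1 i j) (fun i => bbar i + ω.2 i)
        ∅ Finset.univ)) ∂(noise m n σ) ≤
      ENNReal.ofReal (((10 ^ 9 : ℝ) * (1 + n + Real.log (1 + m) + 1 / σ)) ^
        (10 ^ 9 * (1 + Nat.log 2 (1 + n)))) *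
        noise m n σ {ω | ∃ x : Fin n → ℝ, ∀ i,
          (fun j => Abar i j + ω.1 i j) ⬝ᵥ x ≤ bbar i + ω.2 i} := by
  by_cases hz : m < n ∨ n = 0
  · have h0 : ∀ ω : (Fin m → Fin n → ℝ) × (Fin m → ℝ),
        ENat.toENNReal (dm (Pol (fun i j => Abar i j + ω.1 i j) (fun i => bbar i + ω.2 i)
          ∅ Finset.univ)) = 0 := by
      intro ω
      rw [dm_zero _ _ hz]
      simp
    rw [lintegral_congr h0]
    simp
  · rw [not_or, not_lt] at hz
    have hn : 1 ≤ n := Nat.one_le_iff_ne_zero.mpr hz.2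
    have hmn : n ≤ m := hz.1
    have hm : 1 ≤ m := hn.trans hmn
    have hh := heavy_card Abar bbar hσ hA hb
    have hlh := (light_heavy Abar bbar σ).1
    by_cases hL : 2 * (Nat.clog 2 (4 * n) + 2 * n) ≤ (light Abar bbar σ).card
    · refine (int_big hn hmn Abar bbar hσ _ rfl hL).trans (mul_le_mul_left ?_ _)
      have hc : (0 : ℝ) ≤ 5 * (10 ^ 6 * ((n : ℝ) + 1) ^ 2 * (2 * n + (Nat.clog 2 (4 * n) : ℕ)) *
          Real.log ((m : ℝ) + 1)) ^ Nat.clog 2 (4 * n) := by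
        have : 0 ≤ Real.log ((m : ℝ) + 1) := Real.log_nonneg (by
          have : (0 : ℝ) ≤ m := Nat.cast_nonneg _
          linarith)
        positivity
      rw [← ENNReal.ofReal_natCast, ← ENNReal.ofReal_natCast, ← ENNReal.ofReal_mul (Nat.cast_nonneg _),
        ← ENNReal.ofReal_add (Nat.cast_nonneg _) (mul_nonneg (Nat.cast_nonneg _) hc)]
      exact ENNReal.ofReal_le_ofReal (num_big m n _ hn hm σ hσ hh _ rfl)
    · refine (int_small hn hmn Abar bbar hσ).trans (mul_le_mul_left ?_ _)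
      rw [← ENNReal.ofReal_natCast]
      exact ENNReal.ofReal_le_ofReal
        (num_small m n _ _ hn hm σ hσ hh hlh (not_le.mp hL))

private theorem fm_dm_eq {m n : ℕ} (a : Fin m → Fin n → ℝ) (b : Fin m → ℝ) :
    dm (Pol a b ∅ Finset.univ) =
      ((SimpleGraph.fromRel (fun u v : Fin n → ℝ =>
          IsExtreme ℝ {x : Fin n → ℝ | ∀ i, ∑ j, a i j * x j ≤ b i} (segment ℝ u v))).induce
        (Set.extremePoints ℝ {x : Fin n → ℝ | ∀ i, ∑ j, a i j * x j ≤ b i})).ediam := by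
  have h : Pol a b ∅ Finset.univ = {x : Fin n → ℝ | ∀ i, ∑ j, a i j * x j ≤ b i} := by
    ext x
    simp [Pol, dotProduct]
  rw [h]
  rfl

private theorem fm_main (m n : ℕ) (σ : ℝ) (hσ : 0 < σ) (Abar : Fin m → Fin n → ℝ)
    (bbar : Fin m → ℝ) (hA : ∑ i, ∑ j, Abar i j ^ 2 ≤ 1) (hb : ∑ i, bbar i ^ 2 ≤ 1) (K : ℝ)
    (hK : ((10 ^ 9 : ℝ) * (1 + n + Real.log (1 + m) + 1 / σ)) ^
        (10 ^ 9 * (1 + Nat.log 2 (1 + n))) ≤ K) :
      ∫⁻ ω : (Fin m → Fin n → ℝ) × (Fin m → ℝ),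
          ENat.toENNReal
            (((SimpleGraph.fromRel (fun u v : Fin n → ℝ =>
                IsExtreme ℝ
                  {x : Fin n → ℝ | ∀ i, ∑ j, (Abar i j + ω.1 i j) * x j ≤ bbar i + ω.2 i}
                  (segment ℝ u v))).induce
              (Set.extremePoints ℝ
                {x : Fin n → ℝ | ∀ i, ∑ j, (Abar i j + ω.1 i j) * x j ≤ bbar i + ω.2 i})).ediam)
        ∂((Measure.pi fun _ : Fin m => Measure.pi fun _ : Fin n =>
              ProbabilityTheory.gaussianReal 0 (σ ^ 2).toNNReal).prod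
            (Measure.pi fun _ : Fin m => ProbabilityTheory.gaussianReal 0 (σ ^ 2).toNNReal))
      ≤ ENNReal.ofReal K *
        ((Measure.pi fun _ : Fin m => Measure.pi fun _ : Fin n =>
              ProbabilityTheory.gaussianReal 0 (σ ^ 2).toNNReal).prod
            (Measure.pi fun _ : Fin m => ProbabilityTheory.gaussianReal 0 (σ ^ 2).toNNReal))
          {ω : (Fin m → Fin n → ℝ) × (Fin m → ℝ) |
            ∃ x : Fin n → ℝ, ∀ i, ∑ j, (Abar i j + ω.1 i j) * x j ≤ bbar i + ω.2 i} := by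
  have h := main_int m n σ hσ Abar bbar hA hb
  have e : ∀ ω : (Fin m → Fin n → ℝ) × (Fin m → ℝ),
      ENat.toENNReal (dm (Pol (fun i j => Abar i j + ω.1 i j) (fun i => bbar i + ω.2 i)
        ∅ Finset.univ)) = ENat.toENNReal
            (((SimpleGraph.fromRel (fun u v : Fin n → ℝ =>
                IsExtreme ℝ
                  {x : Fin n → ℝ | ∀ i, ∑ j, (Abar i j + ω.1 i j) * x j ≤ bbar i + ω.2 i}
                  (segment ℝ u v))).induce
              (Set.extremePoints ℝ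
                {x : Fin n → ℝ | ∀ i, ∑ j, (Abar i j + ω.1 i j) * x j ≤ bbar i + ω.2 i})).ediam) := by
    intro ω
    rw [fm_dm_eq]
  rw [lintegral_congr e] at h
  exact h.trans (mul_le_mul_left (ENNReal.ofReal_le_ofReal hK) _)


/-- The explicit form of the frozen statement with another right-hand side. -/
theorem main_result : ∃ C : ℕ,
    (∀ m n : ℕ, ∀ σ : ℝ, 0 < σ → ∀ Abar : Fin m → Fin n → ℝ, ∀ bbar : Fin m → ℝ,
      ∑ i, ∑ j, Abar i j ^ 2 ≤ 1 → ∑ i, bbar i ^ 2 ≤ 1 →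
      ∫⁻ ω : (Fin m → Fin n → ℝ) × (Fin m → ℝ),
          ENat.toENNReal
            (((SimpleGraph.fromRel (fun u v : Fin n → ℝ =>
                IsExtreme ℝ
                  {x : Fin n → ℝ | ∀ i, ∑ j, (Abar i j + ω.1 i j) * x j ≤ bbar i + ω.2 i}
                  (segment ℝ u v))).induce
              (Set.extremePoints ℝ
                {x : Fin n → ℝ | ∀ i, ∑ j, (Abar i j + ω.1 i j) * x j ≤ bbar i + ω.2 i})).ediam)
        ∂((Measure.pi fun _ : Fin m => Measure.pi fun _ : Fin n =>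
              ProbabilityTheory.gaussianReal 0 (σ ^ 2).toNNReal).prod
            (Measure.pi fun _ : Fin m => ProbabilityTheory.gaussianReal 0 (σ ^ 2).toNNReal))
      ≤ ENNReal.ofReal (((C : ℝ) * (1 + n + Real.log (1 + m) + 1 / σ)) ^
            (C * (1 + Nat.log 2 (1 + n)))) *
        ((Measure.pi fun _ : Fin m => Measure.pi fun _ : Fin n =>
              ProbabilityTheory.gaussianReal 0 (σ ^ 2).toNNReal).prod
            (Measure.pi fun _ : Fin m => ProbabilityTheory.gaussianReal 0 (σ ^ 2).toNNReal))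
          {ω : (Fin m → Fin n → ℝ) × (Fin m → ℝ) |
            ∃ x : Fin n → ℝ, ∀ i, ∑ j, (Abar i j + ω.1 i j) * x j ≤ bbar i + ω.2 i}) ∧
    (∀ m n : ℕ, ∀ σ : ℝ, 0 < σ →
      (1 + (n : ℝ) + 1 / σ) ^ (C * (1 + Nat.log 2 (1 + n))) ≤ m →
      ∀ Abar : Fin m → Fin n → ℝ, ∀ bbar : Fin m → ℝ,
      ∑ i, ∑ j, Abar i j ^ 2 ≤ 1 → ∑ i, bbar i ^ 2 ≤ 1 →
      ∫⁻ ω : (Fin m → Fin n → ℝ) × (Fin m → ℝ),
          ENat.toENNReal
            (((SimpleGraph.fromRel (fun u v : Fin n → ℝ =>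
                IsExtreme ℝ
                  {x : Fin n → ℝ | ∀ i, ∑ j, (Abar i j + ω.1 i j) * x j ≤ bbar i + ω.2 i}
                  (segment ℝ u v))).induce
              (Set.extremePoints ℝ
                {x : Fin n → ℝ | ∀ i, ∑ j, (Abar i j + ω.1 i j) * x j ≤ bbar i + ω.2 i})).ediam)
        ∂((Measure.pi fun _ : Fin m => Measure.pi fun _ : Fin n =>
              ProbabilityTheory.gaussianReal 0 (σ ^ 2).toNNReal).prod
            (Measure.pi fun _ : Fin m => ProbabilityTheory.gaussianReal 0 (σ ^ 2).toNNReal))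
      ≤ ENNReal.ofReal (C * (m : ℝ)) *
        ((Measure.pi fun _ : Fin m => Measure.pi fun _ : Fin n =>
              ProbabilityTheory.gaussianReal 0 (σ ^ 2).toNNReal).prod
            (Measure.pi fun _ : Fin m => ProbabilityTheory.gaussianReal 0 (σ ^ 2).toNNReal))
          {ω : (Fin m → Fin n → ℝ) × (Fin m → ℝ) |
            ∃ x : Fin n → ℝ, ∀ i, ∑ j, (Abar i j + ω.1 i j) * x j ≤ bbar i + ω.2 i}) := by
  obtain ⟨D, hD⟩ := quasi_to_poly (10 ^ 9)
  refine ⟨max (10 ^ 9) D, ?_, ?_⟩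
  · intro m n σ hσ Abar bbar hA hb
    refine fm_main m n σ hσ Abar bbar hA hb _ ?_
    have hlog : 0 ≤ Real.log (1 + (m : ℝ)) := Real.log_nonneg (by
      have : (0 : ℝ) ≤ m := Nat.cast_nonneg _
      linarith)
    have hsig : 0 ≤ 1 / σ := by positivity
    have hnn : (0 : ℝ) ≤ n := Nat.cast_nonneg _
    have hX : (1 : ℝ) ≤ 1 + n + Real.log (1 + m) + 1 / σ := by linarith
    have hC : (10 ^ 9 : ℝ) ≤ ((max (10 ^ 9) D : ℕ) : ℝ) := by
      have : (10 ^ 9 : ℕ) ≤ max (10 ^ 9) D := le_max_left _ _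
      exact_mod_cast this
    have hb1 : (10 ^ 9 : ℝ) * (1 + n + Real.log (1 + m) + 1 / σ) ≤
        ((max (10 ^ 9) D : ℕ) : ℝ) * (1 + n + Real.log (1 + m) + 1 / σ) :=
      mul_le_mul_of_nonneg_right hC (by linarith)
    have hb2 : (1 : ℝ) ≤ ((max (10 ^ 9) D : ℕ) : ℝ) * (1 + n + Real.log (1 + m) + 1 / σ) := by
      have : (1 : ℝ) ≤ (10 ^ 9 : ℝ) * (1 + n + Real.log (1 + m) + 1 / σ) := by linarith
      exact this.trans hb1
    calc ((10 ^ 9 : ℝ) * (1 + n + Real.log (1 + m) + 1 / σ)) ^ (10 ^ 9 * (1 + Nat.log 2 (1 + n)))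
        ≤ (((max (10 ^ 9) D : ℕ) : ℝ) * (1 + n + Real.log (1 + m) + 1 / σ)) ^
            (10 ^ 9 * (1 + Nat.log 2 (1 + n))) :=
          pow_le_pow_left₀ (by linarith) hb1 _
      _ ≤ (((max (10 ^ 9) D : ℕ) : ℝ) * (1 + n + Real.log (1 + m) + 1 / σ)) ^
            (max (10 ^ 9) D * (1 + Nat.log 2 (1 + n))) :=
          pow_le_pow_right₀ hb2 (Nat.mul_le_mul_right _ (le_max_left _ _))
  · intro m n σ hσ hm Abar bbar hA hb
    refine fm_main m n σ hσ Abar bbar hA hb _ ?_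
    have hsig : 0 ≤ 1 / σ := by positivity
    have hnn : (0 : ℝ) ≤ n := Nat.cast_nonneg _
    have hX : (1 : ℝ) ≤ 1 + (n : ℝ) + 1 / σ := by linarith
    have h1 : (1 + (n : ℝ) + 1 / σ) ^ (D * (1 + Nat.log 2 (1 + n))) ≤ m :=
      (pow_le_pow_right₀ hX (Nat.mul_le_mul_right _ (le_max_right _ _))).trans hm
    have h2 := hD m n σ hσ h1
    have h3 : (D : ℝ) ≤ ((max (10 ^ 9) D : ℕ) : ℝ) := by
      exact_mod_cast le_max_right _ _
    have h4 : (D : ℝ) * m ≤ ((max (10 ^ 9) D : ℕ) : ℝ) * m :=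
      mul_le_mul_of_nonneg_right h3 (Nat.cast_nonneg _)
    rw [Nat.cast_pow, Nat.cast_ofNat] at h2
    exact h2.trans h4

end Pool.Agent.Lib.SHirsch
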