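import Pool.Agent.Lib.SHirsch.RCv

/-!
# RReal: the homogenised system
-/

set_option autoImplicit false

namespace Pool.Agent.Lib.SHirsch

theorem Gr_none_dot {m n : ℕ} (a : Fin m → Fin n → ℝ) (b : Fin m → ℝ) (t : ℝ)
    (x : Fin n → ℝ) : Gr a b none ⬝ᵥ (Fin.cons t x : Fin (n + 1) → ℝ) = -t := by
  simp [Gr, dotProduct, Fin.sum_univ_succ]

theorem Gr_some_dot {m n : ℕ} (a : Fin m → Fin n → ℝ) (b : Fin m → ℝ) (i : Fin m) (t : ℝ)
    (x : Fin n → ℝ) :
    Gr a b (some i) ⬝ᵥ (Fin.cons t x : Fin (n + 1) → ℝ) = a i ⬝ᵥ x - b i * t := by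
  simp [Gr, dotProduct, Fin.sum_univ_succ]
  ring

private theorem det_zero_of {n : ℕ} (r : Fin (n + 1) → Fin (n + 1) → ℝ) (y : Fin (n + 1) → ℝ)
    (hy : y ≠ 0) (h : ∀ k, r k ⬝ᵥ y = 0) :
    (Matrix.of r : Matrix (Fin (n + 1)) (Fin (n + 1)) ℝ).det = 0 := by
  rw [← Matrix.exists_mulVec_eq_zero_iff]
  refine ⟨y, hy, ?_⟩
  funext k
  exact h k

private theorem cons_one_ne {n : ℕ} (x : Fin n → ℝ) : (Fin.cons 1 x : Fin (n + 1) → ℝ) ≠ 0 := by
  intro h
  have := congrFun h 0
  simp at this

private theorem be_aux {m n : ℕ} {a : Fin m → Fin n → ℝ} {b : Fin m → ℝ}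
    (hω : GPc (Gr a b)) (e : Fin n → Fin m) (he : Function.Injective e) :
    LinearIndependent ℝ (fun k : Fin n => a (e k)) := by
  have hinj : Function.Injective
      (Fin.cons none (fun k => some (e k)) : Fin (n + 1) → Option (Fin m)) := by
    rw [Fin.cons_injective_iff]
    refine ⟨by simp, fun k l hkl => he (by simpa using hkl)⟩
  have hdet := hω _ hinj
  have hli := Matrix.linearIndependent_rows_of_det_ne_zero hdet
  rw [Fintype.linearIndependent_iff] at hli ⊢
  intro g hg
  have h1 := hli (Fin.cons (-(∑ k, g k * b (e k))) g) ?_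
  · intro k
    have := h1 k.succ
    simpa using this
  · funext j
    rw [Finset.sum_apply, Fin.sum_univ_succ]
    refine Fin.cases ?_ (fun j => ?_) j
    · simp [Gr]
    · have := congrFun hg j
      simp only [Finset.sum_apply, Pi.smul_apply, smul_eq_mul, Pi.zero_apply] at this
      simp [Gr, this]

theorem gpos_of_gpc {m n : ℕ} (hmn : n ≤ m) {a : Fin m → Fin n → ℝ} {b : Fin m → ℝ}
    (hω : GPc (Gr a b)) : GPos a b := by
  classical
  constructor
  · intro x
    by_contra hcon
    push Not at hcon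
    obtain ⟨s, hs, hsc⟩ := Finset.exists_subset_card_eq (show n + 1 ≤ _ from hcon)
    have hinj : Function.Injective (fun k => some (s.orderEmbOfFin hsc k)) := by
      intro k l hkl
      exact (s.orderEmbOfFin hsc).injective (by simpa using hkl)
    refine hω _ hinj (det_zero_of _ (Fin.cons 1 x) (cons_one_ne x) ?_)
    intro k
    rw [Gr_some_dot]
    have h1 := (mem_tt.1 (hs (s.orderEmbOfFin_mem hsc k))).2
    rw [h1]; ring
  · intro J hJ
    obtain ⟨J', hJJ', _, hJ'⟩ := Finset.exists_subsuperset_card_eq (Finset.subset_univ J) hJ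
      (by simpa using hmn)
    have h1 := be_aux hω (fun k => J'.orderEmbOfFin hJ' k) (J'.orderEmbOfFin hJ').injective
    have h2 : Function.Injective
        (fun i : J => (J'.orderIsoOfFin hJ').symm ⟨i, hJJ' i.2⟩) := by
      intro i j hij
      have := (J'.orderIsoOfFin hJ').symm.injective hij
      exact Subtype.ext (by simpa using this)
    have h3 := h1.comp _ h2
    have h4 : (fun i : J => a i) = (fun k : Fin n => a (J'.orderEmbOfFin hJ' k)) ∘
        (fun i : J => (J'.orderIsoOfFin hJ').symm ⟨i, hJJ' i.2⟩) := by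
      funext i
      simp only [Function.comp]
      congr 1
      rw [← Finset.coe_orderIsoOfFin_apply, OrderIso.apply_symm_apply]
    rw [h4]
    exact h3

theorem fea_iff {m n : ℕ} (hmn : n ≤ m) {a : Fin m → Fin n → ℝ} {b : Fin m → ℝ}
    (hω : GPc (Gr a b)) :
    Fea (Finset.univ : Finset (Option (Fin m))) (Gr a b) ↔
      ∃ x : Fin n → ℝ, ∀ i, a i ⬝ᵥ x ≤ b i := by
  classical
  constructor
  · rintro ⟨y, hy, hy0⟩
    set T : Finset (Option (Fin m)) := Finset.univ.filter (fun i => Gr a b i ⬝ᵥ y = 0) with hT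
    have hTc : T.card ≤ n + 1 := by
      by_contra hcon
      push Not at hcon
      obtain ⟨s, hs, hsc⟩ := Finset.exists_subset_card_eq hcon.le
      have e := (Fintype.equivFinOfCardEq (by rw [Fintype.card_coe]; exact hsc : Fintype.card s = n + 1))
      refine hω (fun k => (e.symm k : Option (Fin m))) ?_ (det_zero_of _ y hy0 ?_)
      · intro k l hkl
        exact e.symm.injective (Subtype.ext hkl)
      · intro k
        have := hs (e.symm k).2
        rw [hT, Finset.mem_filter] at this
        exact this.2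
    obtain ⟨T', hTT', _, hT'⟩ := Finset.exists_subsuperset_card_eq (Finset.subset_univ T) hTc
      (by simp [hmn])
    have e := (Fintype.equivFinOfCardEq
      (by rw [Fintype.card_coe]; exact hT' : Fintype.card T' = n + 1))
    set M : Matrix (Fin (n + 1)) (Fin (n + 1)) ℝ :=
      Matrix.of (fun k => Gr a b (e.symm k : Option (Fin m))) with hM
    have hdet : M.det ≠ 0 := by
      refine hω (fun k => (e.symm k : Option (Fin m))) ?_
      intro k l hkl
      exact e.symm.injective (Subtype.ext hkl)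
    set u : Fin (n + 1) → ℝ := M⁻¹.mulVec (fun _ => -1) with hu
    have hMu : M.mulVec u = fun _ => -1 := by
      rw [hu, Matrix.mulVec_mulVec, Matrix.mul_nonsing_inv _ (Ne.isUnit hdet),
        Matrix.one_mulVec]
    have huT : ∀ i ∈ T, Gr a b i ⬝ᵥ u = -1 := by
      intro i hi
      have h1 := congrFun hMu (e ⟨i, hTT' hi⟩)
      simpa [Matrix.mulVec, hM] using h1
    have hev : ∀ᶠ ε in nhdsWithin (0 : ℝ) (Set.Ioi 0),
        ∀ i : Option (Fin m), Gr a b i ⬝ᵥ (y + ε • u) < 0 := by
      rw [Filter.eventually_all]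
      intro i
      by_cases hi : i ∈ T
      · have h1 : Gr a b i ⬝ᵥ y = 0 := by
          rw [hT, Finset.mem_filter] at hi
          exact hi.2
        filter_upwards [self_mem_nhdsWithin] with ε hε
        rw [dotProduct_add, dotProduct_smul, h1, huT i hi, smul_eq_mul]
        have : (0 : ℝ) < ε := hε
        linarith
      · have h1 : Gr a b i ⬝ᵥ y < 0 := by
          refine lt_of_le_of_ne (hy i (Finset.mem_univ i)) fun h2 => hi ?_
          rw [hT, Finset.mem_filter]
          exact ⟨Finset.mem_univ i, h2⟩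
        have hc : Filter.Tendsto (fun ε : ℝ => Gr a b i ⬝ᵥ y + ε * (Gr a b i ⬝ᵥ u))
            (nhds 0) (nhds (Gr a b i ⬝ᵥ y + 0 * (Gr a b i ⬝ᵥ u))) :=
          Continuous.tendsto (by fun_prop) 0
        rw [zero_mul, add_zero] at hc
        have h2 := hc.eventually (gt_mem_nhds h1)
        filter_upwards [nhdsWithin_le_nhds h2] with ε hε
        rw [dotProduct_add, dotProduct_smul, smul_eq_mul]
        exact hε
    obtain ⟨ε, hε⟩ := hev.exists
    set v : Fin (n + 1) → ℝ := y + ε • u with hv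
    have hvc : v = Fin.cons (v 0) (Fin.tail v) := (Fin.cons_self_tail v).symm
    have ht : 0 < v 0 := by
      have := hε none
      rw [hvc, Gr_none_dot] at this
      linarith
    refine ⟨(v 0)⁻¹ • Fin.tail v, fun i => ?_⟩
    have h1 := hε (some i)
    rw [hvc, Gr_some_dot] at h1
    rw [dotProduct_smul, smul_eq_mul]
    have h2 : a i ⬝ᵥ Fin.tail v ≤ b i * v 0 := by linarith
    calc (v 0)⁻¹ * (a i ⬝ᵥ Fin.tail v) ≤ (v 0)⁻¹ * (b i * v 0) :=
          mul_le_mul_of_nonneg_left h2 (inv_nonneg.2 ht.le)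
      _ = b i := by field_simp
  · rintro ⟨x, hx⟩
    refine ⟨Fin.cons 1 x, ?_, cons_one_ne x⟩
    intro i _
    cases i with
    | none => rw [Gr_none_dot]; norm_num
    | some i =>
      rw [Gr_some_dot]
      have := hx i
      linarith

theorem hit_of_tight {m n : ℕ} {a : Fin m → Fin n → ℝ} {b : Fin m → ℝ}
    {K : Finset (Option (Fin m))} (hK : none ∉ K)
    (h : ∀ i : Fin m, some i ∈ K → ∃ x : Fin n → ℝ, a i ⬝ᵥ x = b i ∧ ∀ j, a j ⬝ᵥ x ≤ b j) :
    Hit K (Gr a b) := by
  intro i hi
  cases i with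
  | none => exact absurd hi hK
  | some i =>
    obtain ⟨x, hx, hxj⟩ := h i hi
    refine ⟨Fin.cons 1 x, ?_, cons_one_ne x, ?_⟩
    · intro j _
      cases j with
      | none => rw [Gr_none_dot]; norm_num
      | some j =>
        rw [Gr_some_dot]
        have := hxj j
        linarith
    · rw [Gr_some_dot, hx]; ring

end Pool.Agent.Lib.SHirsch
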