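import Pool.Agent.Lib.SHirsch.KDet
import Pool.Agent.Lib.SHirsch.RReal

/-!
# FPt: the pointwise bound (200 lines)

`P = Pol a b ∅ univ`, `κ = Nat.clog 2 (4 n)`. If there is no feasible point, `P` is empty, there is no extreme point and `dm P = 0` (supremum over an empty type). Otherwise `Fea univ (Gr a b)` (`fea_iff`), `gpos_of_gpc`, and `det_bound` gives `F0`; `f = F0.card`, `dm P ≤ KB n f ≤ 4 n f^κ` (`KB_le`).
`point_small`: `f ≤ m`.
`point_big`: every row is in `Lt` or `Hv`, so `f ≤ Hv.card + g`, `g = (F0 ∩ Lt).card`; `f^κ ≤ 2^κ (h^κ + g^κ)` (`(x + y)^κ ≤ (2 max x y)^κ`); `g^κ ≤ (2κ)^κ (1 + g.choose κ)`: if `g < 2κ` clear; else `(g + 1 - κ)^κ ≤ κ! * g.choose κ` (`Nat.pow_sub_le_descFactorial`/`Nat.pow_le_choose`),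
`g ≤ 2 (g + 1 - κ)`, `κ! ≤ κ^κ`. And `g.choose κ` = number of `K ⊆ F0 ∩ Lt` with `κ` elements ≤ number of `K ∈ (Lt.map some).powersetCard κ` with `Hit K (Gr a b)` (`K ↦ K.map some` is injective; `hit_of_tight`).
-/

set_option autoImplicit false

namespace Pool.Agent.Lib.SHirsch

private theorem pow_split (h g κ : ℕ) : (h + g) ^ κ ≤ 2 ^ κ * (h ^ κ + g ^ κ) := by
  have h1 : h + g ≤ 2 * max h g := by
    have := le_max_left h g
    have := le_max_right h g
    omega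
  calc (h + g) ^ κ ≤ (2 * max h g) ^ κ := Nat.pow_le_pow_left h1 κ
    _ = 2 ^ κ * (max h g) ^ κ := by rw [mul_pow]
    _ ≤ 2 ^ κ * (h ^ κ + g ^ κ) := by
        refine Nat.mul_le_mul_left _ ?_
        rcases max_choice h g with h2 | h2
        · rw [h2]
          exact Nat.le_add_right _ _
        · rw [h2]
          exact Nat.le_add_left _ _

private theorem pow_choose (g κ : ℕ) : g ^ κ ≤ (2 * κ) ^ κ * (1 + g.choose κ) := by
  rcases Nat.lt_or_ge g (2 * κ) with h | h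
  · calc g ^ κ ≤ (2 * κ) ^ κ := Nat.pow_le_pow_left h.le κ
      _ = (2 * κ) ^ κ * 1 := (mul_one _).symm
      _ ≤ (2 * κ) ^ κ * (1 + g.choose κ) := Nat.mul_le_mul_left _ (Nat.le_add_right _ _)
  · have h1 : g ≤ 2 * (g + 1 - κ) := by omega
    calc g ^ κ ≤ (2 * (g + 1 - κ)) ^ κ := Nat.pow_le_pow_left h1 κ
      _ = 2 ^ κ * (g + 1 - κ) ^ κ := by rw [mul_pow]
      _ ≤ 2 ^ κ * g.descFactorial κ := Nat.mul_le_mul_left _ (Nat.pow_sub_le_descFactorial g κ)
      _ = 2 ^ κ * (κ.factorial * g.choose κ) := by rw [Nat.descFactorial_eq_factorial_mul_choose]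
      _ ≤ 2 ^ κ * (κ ^ κ * g.choose κ) :=
          Nat.mul_le_mul_left _ (Nat.mul_le_mul_right _ (Nat.factorial_le_pow κ))
      _ = (2 * κ) ^ κ * g.choose κ := by rw [mul_pow, mul_assoc]
      _ ≤ (2 * κ) ^ κ * (1 + g.choose κ) := Nat.mul_le_mul_left _ (Nat.le_add_left _ _)

private theorem core {m n : ℕ} (hn : 1 ≤ n) (hmn : n ≤ m) {a : Fin m → Fin n → ℝ}
    {b : Fin m → ℝ} (hω : GPc (Gr a b)) (C D : ENNReal)
    (h : ∀ F0 : Finset (Fin m),
      (∀ i ∈ F0, ∃ x : Fin n → ℝ, a i ⬝ᵥ x = b i ∧ ∀ j, a j ⬝ᵥ x ≤ b j) →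
      ((4 * n * F0.card ^ Nat.clog 2 (4 * n) : ℕ) : ENNReal) ≤ C + D) :
    ENat.toENNReal (dm (Pol a b ∅ Finset.univ)) ≤
      C * {ω : Option (Fin m) → Fin (n + 1) → ℝ | Fea Finset.univ ω}.indicator
          (fun _ => (1 : ENNReal)) (Gr a b) + D := by
  by_cases hf : ∃ x : Fin n → ℝ, ∀ i, a i ⬝ᵥ x ≤ b i
  · have h1 : Fea (Finset.univ : Finset (Option (Fin m))) (Gr a b) := (fea_iff hmn hω).2 hf
    rw [Set.indicator_of_mem (by exact h1), mul_one]
    obtain ⟨F0, hF, hd⟩ := det_bound (gpos_of_gpc hmn hω) hf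
    refine le_trans ?_ (h F0 hF)
    have h2 : dm (Pol a b ∅ Finset.univ) ≤
        ((4 * n * F0.card ^ Nat.clog 2 (4 * n) : ℕ) : ℕ∞) :=
      hd.trans (by exact_mod_cast KB_le n hn F0.card)
    have h3 := ENat.toENNReal_mono h2
    rwa [ENat.toENNReal_coe] at h3
  · have h1 : dm (Pol a b ∅ (Finset.univ : Finset (Fin m))) = 0 := by
      unfold dm
      have : Subsingleton
          (Set.extremePoints ℝ (Pol a b ∅ (Finset.univ : Finset (Fin m)))) := by
        constructor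
        rintro ⟨u, hu⟩
        exact absurd ⟨u, fun i => hu.1.2 i (Finset.mem_univ i)⟩ hf
      exact SimpleGraph.ediam_eq_zero_of_subsingleton
    rw [h1, ENat.toENNReal_zero]
    exact zero_le

theorem point_small {m n : ℕ} (hn : 1 ≤ n) (hmn : n ≤ m) {a : Fin m → Fin n → ℝ}
    {b : Fin m → ℝ} (hω : GPc (Gr a b)) :
    ENat.toENNReal (dm (Pol a b ∅ Finset.univ)) ≤
      ((4 * n * m ^ Nat.clog 2 (4 * n) : ℕ) : ENNReal) *
        {ω : Option (Fin m) → Fin (n + 1) → ℝ | Fea Finset.univ ω}.indicator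
          (fun _ => (1 : ENNReal)) (Gr a b) := by
  have h := core hn hmn hω ((4 * n * m ^ Nat.clog 2 (4 * n) : ℕ) : ENNReal) 0
    (fun F0 _ => by
      rw [add_zero]
      have h1 : F0.card ≤ m := by
        have := Finset.card_le_univ F0
        rwa [Fintype.card_fin] at this
      exact_mod_cast Nat.mul_le_mul_left (4 * n) (Nat.pow_le_pow_left h1 _))
  rwa [add_zero] at h

theorem point_big {m n : ℕ} (hn : 1 ≤ n) (hmn : n ≤ m) {a : Fin m → Fin n → ℝ}
    {b : Fin m → ℝ} (hω : GPc (Gr a b)) (Lt Hv : Finset (Fin m))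
    (hLH : ∀ i, i ∈ Lt ∨ i ∈ Hv) (κ : ℕ) (hκ : κ = Nat.clog 2 (4 * n)) :
    ENat.toENNReal (dm (Pol a b ∅ Finset.univ)) ≤
      ((4 * n * 2 ^ κ * (Hv.card ^ κ + (2 * κ) ^ κ) : ℕ) : ENNReal) *
        {ω : Option (Fin m) → Fin (n + 1) → ℝ | Fea Finset.univ ω}.indicator
          (fun _ => (1 : ENNReal)) (Gr a b) +
      ((4 * n * 2 ^ κ * (2 * κ) ^ κ : ℕ) : ENNReal) *
        ∑ K ∈ (Lt.map Function.Embedding.some).powersetCard κ,
          {ω : Option (Fin m) → Fin (n + 1) → ℝ | Hit K ω}.indicator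
            (fun _ => (1 : ENNReal)) (Gr a b) := by
  refine core hn hmn hω _ _ fun F0 hF => ?_
  set g := (F0 ∩ Lt).card with hg
  have h1 : F0.card ≤ Hv.card + g := by
    have h2 : F0 ⊆ Hv ∪ (F0 ∩ Lt) := by
      intro i hi
      rcases hLH i with h3 | h3
      · exact Finset.mem_union_right _ (Finset.mem_inter.2 ⟨hi, h3⟩)
      · exact Finset.mem_union_left _ h3
    exact (Finset.card_le_card h2).trans (Finset.card_union_le _ _)
  have h2 : 4 * n * F0.card ^ κ ≤ 4 * n * 2 ^ κ * (Hv.card ^ κ + (2 * κ) ^ κ) +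
      4 * n * 2 ^ κ * (2 * κ) ^ κ * g.choose κ := by
    calc 4 * n * F0.card ^ κ ≤ 4 * n * (Hv.card + g) ^ κ :=
          Nat.mul_le_mul_left _ (Nat.pow_le_pow_left h1 κ)
      _ ≤ 4 * n * (2 ^ κ * (Hv.card ^ κ + g ^ κ)) := Nat.mul_le_mul_left _ (pow_split _ _ _)
      _ ≤ 4 * n * (2 ^ κ * (Hv.card ^ κ + (2 * κ) ^ κ * (1 + g.choose κ))) :=
          Nat.mul_le_mul_left _ (Nat.mul_le_mul_left _ (Nat.add_le_add_left (pow_choose g κ) _))
      _ = _ := by ring
  have h3 : ((g.choose κ : ℕ) : ENNReal) ≤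
      ∑ K ∈ (Lt.map Function.Embedding.some).powersetCard κ,
          {ω : Option (Fin m) → Fin (n + 1) → ℝ | Hit K ω}.indicator
            (fun _ => (1 : ENNReal)) (Gr a b) := by
    have h4 : (F0 ∩ Lt).map Function.Embedding.some ⊆ Lt.map Function.Embedding.some :=
      Finset.map_subset_map.2 Finset.inter_subset_right
    refine le_trans ?_ (Finset.sum_le_sum_of_subset (Finset.powersetCard_mono h4))
    rw [Finset.sum_congr rfl (g := fun _ => (1 : ENNReal))]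
    · rw [Finset.sum_const, Finset.card_powersetCard, Finset.card_map, nsmul_eq_mul, mul_one]
    · intro K hK
      rw [Finset.mem_powersetCard] at hK
      refine Set.indicator_of_mem ?_ _
      show Hit K (Gr a b)
      refine hit_of_tight (fun h5 => ?_) fun i hi => ?_
      · have h6 := hK.1 h5
        rw [Finset.mem_map] at h6
        obtain ⟨i, -, h7⟩ := h6
        exact Option.some_ne_none i h7
      · have h6 := hK.1 hi
        rw [Finset.mem_map] at h6
        obtain ⟨i', h8, h7⟩ := h6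
        have h9 : i' = i := Option.some_injective _ h7
        rw [h9] at h8
        exact hF i (Finset.mem_inter.1 h8).1
  rw [← hκ]
  calc ((4 * n * F0.card ^ κ : ℕ) : ENNReal) ≤
      ((4 * n * 2 ^ κ * (Hv.card ^ κ + (2 * κ) ^ κ) +
      4 * n * 2 ^ κ * (2 * κ) ^ κ * g.choose κ : ℕ) : ENNReal) := by exact_mod_cast h2
    _ = ((4 * n * 2 ^ κ * (Hv.card ^ κ + (2 * κ) ^ κ) : ℕ) : ENNReal) +
      ((4 * n * 2 ^ κ * (2 * κ) ^ κ : ℕ) : ENNReal) * ((g.choose κ : ℕ) : ENNReal) := by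
        push_cast
        ring
    _ ≤ _ := by
        gcongr

end Pool.Agent.Lib.SHirsch
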