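import Pool.Agent.Lib.SHirsch.Defs

/-!
# GBas: the law of scalar products under a Gaussian product measure

`γ = Measure.pi (fun j => gaussianReal (μ j) v)` on `Fin d → ℝ`. Characteristic functions
(`charFunDual_pi`, `charFunDual_prod`, `Measure.ext_of_charFunDual`).
-/

set_option autoImplicit false

open MeasureTheory ProbabilityTheory

namespace Pool.Agent.Lib.SHirsch

private theorem charFunDual_gauss (m : ℝ) (v : NNReal) (L : StrongDual ℝ ℝ) :
    charFunDual (gaussianReal m v) L =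
      Complex.exp ((L 1 : ℂ) * m * Complex.I - v * (L 1 : ℂ) ^ 2 / 2) := by
  have h : charFunDual (gaussianReal m v) L = charFun (gaussianReal m v) (L 1) := by
    rw [charFunDual_apply, charFun_apply_real]
    congr 1
    ext x
    congr 2
    have : L x = x * L 1 := by
      have := L.map_smul x (1 : ℝ)
      simpa using this
    rw [this]; push_cast; ring
  rw [h, charFun_gaussianReal]

/-- The linear functional `x ↦ x ⬝ᵥ y`. -/
private noncomputable def dotL {d : ℕ} (y : Fin d → ℝ) : (Fin d → ℝ) →L[ℝ] ℝ :=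
  LinearMap.toContinuousLinearMap
    { toFun := fun x => x ⬝ᵥ y
      map_add' := fun a b => add_dotProduct a b y
      map_smul' := fun c a => by simp [smul_dotProduct] }

private theorem dotL_apply {d : ℕ} (y x : Fin d → ℝ) : dotL y x = x ⬝ᵥ y := rfl

theorem dot_law {d : ℕ} (μ : Fin d → ℝ) (v : NNReal) (y : Fin d → ℝ) (hy : y ⬝ᵥ y = 1) :
    (Measure.pi (fun j => gaussianReal (μ j) v)).map (fun x => x ⬝ᵥ y) =
      gaussianReal (μ ⬝ᵥ y) v := by
  have hL : (fun x : Fin d → ℝ => x ⬝ᵥ y) = ⇑(dotL y) := rfl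
  rw [hL]
  have : IsProbabilityMeasure ((Measure.pi (fun j => gaussianReal (μ j) v)).map (dotL y)) :=
    Measure.isProbabilityMeasure_map (dotL y).continuous.measurable.aemeasurable
  refine Measure.ext_of_charFunDual ?_
  funext M
  rw [charFunDual_map, charFunDual_pi, charFunDual_gauss]
  simp only [charFunDual_gauss]
  rw [← Complex.exp_sum]
  congr 1
  have h1 : ∀ j : Fin d, ((M.comp (dotL y)).comp (ContinuousLinearMap.single ℝ (fun _ => ℝ) j)) 1
      = y j * M 1 := by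
    intro j
    have : dotL y (Pi.single j (1 : ℝ)) = y j := by
      rw [dotL_apply]; simp
    simp only [ContinuousLinearMap.comp_apply, ContinuousLinearMap.single_apply, this]
    have := M.map_smul (y j) (1 : ℝ)
    simpa using this
  simp only [h1]
  have hy' : (∑ j, (y j : ℂ) ^ 2) = 1 := by
    have : ((y ⬝ᵥ y : ℝ) : ℂ) = 1 := by rw [hy]; simp
    rw [← this]; simp [dotProduct, pow_two]
  simp only [dotProduct]
  push_cast
  rw [Finset.sum_sub_distrib]
  have e2 : ∑ x, (v : ℂ) * ((y x : ℂ) * (M 1 : ℂ)) ^ 2 / 2 =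
      (v : ℂ) * (M 1 : ℂ) ^ 2 / 2 * ∑ j, (y j : ℂ) ^ 2 := by
    rw [Finset.mul_sum]; refine Finset.sum_congr rfl fun j _ => ?_; ring
  rw [e2, hy', mul_one, Finset.mul_sum, Finset.sum_mul]
  congr 1
  refine Finset.sum_congr rfl fun j _ => ?_; ring

theorem pair_law {d : ℕ} (μ : Fin d → ℝ) (v : NNReal) (y e : Fin d → ℝ) (hy : y ⬝ᵥ y = 1)
    (he : e ⬝ᵥ e = 1) (hye : y ⬝ᵥ e = 0) :
    (Measure.pi (fun j => gaussianReal (μ j) v)).map (fun x => (x ⬝ᵥ y, x ⬝ᵥ e)) =
      (gaussianReal (μ ⬝ᵥ y) v).prod (gaussianReal (μ ⬝ᵥ e) v) := by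
  have hL : (fun x : Fin d → ℝ => (x ⬝ᵥ y, x ⬝ᵥ e)) = ⇑((dotL y).prod (dotL e)) := rfl
  rw [hL]
  have : IsProbabilityMeasure ((Measure.pi (fun j => gaussianReal (μ j) v)).map
      ((dotL y).prod (dotL e))) :=
    Measure.isProbabilityMeasure_map
      ((dotL y).prod (dotL e)).continuous.measurable.aemeasurable
  refine Measure.ext_of_charFunDual ?_
  funext M
  rw [charFunDual_map, charFunDual_pi, charFunDual_prod, charFunDual_gauss, charFunDual_gauss]
  simp only [charFunDual_gauss]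
  rw [← Complex.exp_sum, ← Complex.exp_add]
  congr 1
  have h1 : ∀ j : Fin d, ((M.comp ((dotL y).prod (dotL e))).comp
      (ContinuousLinearMap.single ℝ (fun _ => ℝ) j)) 1
      = y j * M (1, 0) + e j * M (0, 1) := by
    intro j
    have ey : dotL y (Pi.single j (1 : ℝ)) = y j := by
      rw [dotL_apply]; simp
    have ee : dotL e (Pi.single j (1 : ℝ)) = e j := by
      rw [dotL_apply]; simp
    simp only [ContinuousLinearMap.comp_apply, ContinuousLinearMap.single_apply,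
      ContinuousLinearMap.prod_apply, ey, ee]
    have h : (y j, e j) = y j • ((1 : ℝ), (0 : ℝ)) + e j • ((0 : ℝ), (1 : ℝ)) := by
      simp
    rw [h, map_add, map_smul, map_smul]
    simp
  have h2 : (M.comp (ContinuousLinearMap.inl ℝ ℝ ℝ)) 1 = M (1, 0) := by simp
  have h3 : (M.comp (ContinuousLinearMap.inr ℝ ℝ ℝ)) 1 = M (0, 1) := by simp
  simp only [h1, h2, h3]
  have hy' : (∑ j, (y j : ℂ) ^ 2) = 1 := by
    have : ((y ⬝ᵥ y : ℝ) : ℂ) = 1 := by rw [hy]; simp
    rw [← this]; simp [dotProduct, pow_two]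
  have he' : (∑ j, (e j : ℂ) ^ 2) = 1 := by
    have : ((e ⬝ᵥ e : ℝ) : ℂ) = 1 := by rw [he]; simp
    rw [← this]; simp [dotProduct, pow_two]
  have hye' : (∑ j, (y j : ℂ) * (e j : ℂ)) = 0 := by
    have : ((y ⬝ᵥ e : ℝ) : ℂ) = 0 := by rw [hye]; simp
    rw [← this]; simp [dotProduct]
  simp only [dotProduct]
  push_cast
  rw [Finset.sum_sub_distrib]
  generalize (M (1, 0) : ℂ) = A
  generalize (M (0, 1) : ℂ) = B
  have e2 : ∑ x, (v : ℂ) * ((y x : ℂ) * A + (e x : ℂ) * B) ^ 2 / 2 =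
      (v : ℂ) * A ^ 2 / 2 * (∑ j, (y j : ℂ) ^ 2) + (v : ℂ) * B ^ 2 / 2 * (∑ j, (e j : ℂ) ^ 2)
        + (v : ℂ) * A * B * (∑ j, (y j : ℂ) * (e j : ℂ)) := by
    rw [Finset.mul_sum, Finset.mul_sum, Finset.mul_sum, ← Finset.sum_add_distrib,
      ← Finset.sum_add_distrib]
    refine Finset.sum_congr rfl fun j _ => ?_; ring
  have e1 : ∑ x, ((y x : ℂ) * A + (e x : ℂ) * B) * (μ x : ℂ) * Complex.I =
      A * (∑ x, (μ x : ℂ) * (y x : ℂ)) * Complex.I +
        B * (∑ x, (μ x : ℂ) * (e x : ℂ)) * Complex.I := by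
    rw [Finset.mul_sum, Finset.mul_sum, Finset.sum_mul, Finset.sum_mul,
      ← Finset.sum_add_distrib]
    refine Finset.sum_congr rfl fun j _ => ?_; ring
  rw [e2, e1, hy', he', hye']
  ring

/-! ### Numerical facts -/

private theorem pdf_eq {m σ : ℝ} (hσ : 0 < σ) (x : ℝ) :
    gaussianPDFReal m (σ ^ 2).toNNReal x =
      (Real.sqrt (2 * Real.pi) * σ)⁻¹ * Real.exp (-(x - m) ^ 2 / (2 * σ ^ 2)) := by
  rw [gaussianPDFReal_def]
  have h : ((σ ^ 2).toNNReal : ℝ) = σ ^ 2 := Real.coe_toNNReal _ (by positivity)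
  simp only [h]
  congr 2
  rw [Real.sqrt_mul (by positivity), Real.sqrt_sq hσ.le]

private theorem sqrt_le : Real.sqrt (2 * Real.pi) ≤ 2.507 := by
  rw [show (2.507 : ℝ) = Real.sqrt (2.507 ^ 2) from (Real.sqrt_sq (by norm_num)).symm]
  apply Real.sqrt_le_sqrt
  have := Real.pi_lt_d4
  norm_num
  nlinarith

private theorem le_sqrt : 2.5 ≤ Real.sqrt (2 * Real.pi) := by
  rw [show (2.5 : ℝ) = Real.sqrt (2.5 ^ 2) from (Real.sqrt_sq (by norm_num)).symm]
  apply Real.sqrt_le_sqrt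
  have := Real.pi_gt_d4
  norm_num
  nlinarith

private theorem var_ne {σ : ℝ} (hσ : 0 < σ) : (σ ^ 2).toNNReal ≠ 0 := by
  have : 0 < σ ^ 2 := by positivity
  exact (Real.toNNReal_pos.mpr this).ne'

/-- lower bound for the mass of an open interval -/
private theorem mass_lower {m σ p q c : ℝ} (hσ : 0 < σ) (_hpq : p ≤ q) (hc : 0 ≤ c)
    (h : ∀ x ∈ Set.Ioo p q, c ≤ gaussianPDFReal m (σ ^ 2).toNNReal x) :
    ENNReal.ofReal (c * (q - p)) ≤ gaussianReal m (σ ^ 2).toNNReal (Set.Ioo p q) := by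
  rw [gaussianReal_apply _ (var_ne hσ)]
  calc ENNReal.ofReal (c * (q - p)) = ∫⁻ _ in Set.Ioo p q, ENNReal.ofReal c := by
        rw [setLIntegral_const, Real.volume_Ioo, ENNReal.ofReal_mul hc]
    _ ≤ ∫⁻ x in Set.Ioo p q, gaussianPDF m (σ ^ 2).toNNReal x := by
        apply setLIntegral_mono' measurableSet_Ioo
        intro x hx
        exact ENNReal.ofReal_le_ofReal (h x hx)

private theorem pdf_lower {m σ x r : ℝ} (hσ : 0 < σ) (hx : |x - m| ≤ r * σ) (_hr : 0 ≤ r) :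
    (2.507 * σ)⁻¹ * Real.exp (-r ^ 2 / 2) ≤ gaussianPDFReal m (σ ^ 2).toNNReal x := by
  rw [pdf_eq hσ]
  have h1 : (2.507 * σ)⁻¹ ≤ (Real.sqrt (2 * Real.pi) * σ)⁻¹ := by
    apply inv_anti₀ (by have := le_sqrt; positivity)
    exact mul_le_mul_of_nonneg_right sqrt_le hσ.le
  have h2 : Real.exp (-r ^ 2 / 2) ≤ Real.exp (-(x - m) ^ 2 / (2 * σ ^ 2)) := by
    apply Real.exp_le_exp.mpr
    have h3 : (x - m) ^ 2 ≤ (r * σ) ^ 2 := by
      rw [← sq_abs (x - m)]
      exact pow_le_pow_left₀ (abs_nonneg _) hx 2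
    rw [div_le_div_iff₀ (by norm_num) (by positivity)]
    nlinarith
  exact mul_le_mul h1 h2 (Real.exp_pos _).le (by positivity)

private theorem exp_two : (0.1352 : ℝ) ≤ Real.exp (-2 ^ 2 / 2) := by
  have h : Real.exp (-2 ^ 2 / 2) = (Real.exp 1 ^ 2)⁻¹ := by
    rw [← Real.exp_nat_mul, ← Real.exp_neg]; norm_num
  rw [h]
  have h1 := Real.exp_one_lt_d9
  have h2 : Real.exp 1 ^ 2 ≤ 2.7182818286 ^ 2 :=
    pow_le_pow_left₀ (Real.exp_pos _).le h1.le 2
  have h3 : (0.1352 : ℝ) ≤ (2.7182818286 ^ 2)⁻¹ := by norm_num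
  exact h3.trans (inv_anti₀ (by positivity) h2)

private theorem exp_three : (0.0111 : ℝ) ≤ Real.exp (-3 ^ 2 / 2) := by
  have h : Real.exp (-3 ^ 2 / 2) ^ 2 = (Real.exp 1 ^ 9)⁻¹ := by
    rw [← Real.exp_nat_mul, ← Real.exp_nat_mul, ← Real.exp_neg]; norm_num
  have h1 := Real.exp_one_lt_d9
  have h2 : Real.exp 1 ^ 9 ≤ 2.7182818286 ^ 9 :=
    pow_le_pow_left₀ (Real.exp_pos _).le h1.le 9
  have h3 : (0.0111 : ℝ) ^ 2 ≤ (2.7182818286 ^ 9)⁻¹ := by norm_num
  have h4 : (0.0111 : ℝ) ^ 2 ≤ Real.exp (-3 ^ 2 / 2) ^ 2 := by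
    rw [h]; exact h3.trans (inv_anti₀ (by positivity) h2)
  exact le_of_pow_le_pow_left₀ two_ne_zero (Real.exp_pos _).le h4

/-- Mass of `(-s σ, 0)` under `N(m, σ²)`, `|m| ≤ σ`, `s ≤ 1`. -/
theorem gauss_near {m σ s : ℝ} (hσ : 0 < σ) (hm : |m| ≤ σ) (hs0 : 0 ≤ s) (hs1 : s ≤ 1) :
    ENNReal.ofReal (s / 20) ≤ gaussianReal m (σ ^ 2).toNNReal (Set.Ioo (-(s * σ)) 0) := by
  have hm' := abs_le.mp hm
  have key := mass_lower (m := m) (σ := σ) (p := -(s * σ)) (q := 0)
    (c := (2.507 * σ)⁻¹ * Real.exp (-2 ^ 2 / 2)) hσ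
    (by have := mul_nonneg hs0 hσ.le; linarith) (by positivity) (by
      intro x hx
      apply pdf_lower hσ _ (by norm_num)
      have hx1 := hx.1
      have hx2 := hx.2
      have : s * σ ≤ σ := by nlinarith
      rw [abs_le]
      constructor <;> nlinarith [hm'.1, hm'.2])
  refine le_trans (ENNReal.ofReal_le_ofReal ?_) key
  have e : (2.507 * σ)⁻¹ * Real.exp (-2 ^ 2 / 2) * (0 - -(s * σ)) =
      s * (Real.exp (-2 ^ 2 / 2) / 2.507) := by
    field_simp
    ring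
  rw [e, div_eq_mul_inv]
  apply mul_le_mul_of_nonneg_left _ hs0
  have := exp_two
  rw [le_div_iff₀ (by norm_num)]
  norm_num
  norm_num at this
  linarith

/-- Mass of `(σ, 2σ)` under `N(m, σ²)`, `|m| ≤ σ`. -/
theorem gauss_far {m σ : ℝ} (hσ : 0 < σ) (hm : |m| ≤ σ) :
    ENNReal.ofReal (1 / 240) ≤ gaussianReal m (σ ^ 2).toNNReal (Set.Ioo σ (2 * σ)) := by
  have hm' := abs_le.mp hm
  have key := mass_lower (m := m) (σ := σ) (p := σ) (q := 2 * σ)
    (c := (2.507 * σ)⁻¹ * Real.exp (-3 ^ 2 / 2)) hσ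
    (by linarith) (by positivity) (by
      intro x hx
      apply pdf_lower hσ _ (by norm_num)
      have hx1 := hx.1
      have hx2 := hx.2
      rw [abs_le]
      constructor <;> nlinarith [hm'.1, hm'.2])
  refine le_trans (ENNReal.ofReal_le_ofReal ?_) key
  have e : (2.507 * σ)⁻¹ * Real.exp (-3 ^ 2 / 2) * (2 * σ - σ) =
      Real.exp (-3 ^ 2 / 2) / 2.507 := by
    field_simp
    ring
  rw [e]
  have := exp_three
  rw [le_div_iff₀ (by norm_num)]
  norm_num
  norm_num at this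
  linarith

private theorem exp_pow_le {a b : ℝ} (k : ℕ) (hk : k ≠ 0) (l : ℕ)
    (hb : (k : ℝ) * b = -(l : ℝ)) (h : a ^ k ≤ (2.7182818286 ^ l)⁻¹) : a ≤ Real.exp b := by
  have h1 := Real.exp_one_lt_d9
  have h2 : Real.exp 1 ^ l ≤ 2.7182818286 ^ l :=
    pow_le_pow_left₀ (Real.exp_pos _).le h1.le l
  have h3 : Real.exp b ^ k = (Real.exp 1 ^ l)⁻¹ := by
    rw [← Real.exp_nat_mul, ← Real.exp_nat_mul, ← Real.exp_neg, hb]; congr 1; ring
  have h4 : a ^ k ≤ Real.exp b ^ k := by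
    rw [h3]; exact h.trans (inv_anti₀ (by positivity) h2)
  exact le_of_pow_le_pow_left₀ hk (Real.exp_pos _).le h4

private theorem gauss_half_left {m σ : ℝ} (hσ : 0 < σ) (hm : |m| ≤ σ) :
    ENNReal.ofReal (1 / 10) ≤ gaussianReal m (σ ^ 2).toNNReal (Set.Iio 0) := by
  have hm' := abs_le.mp hm
  have key : ∀ k : ℝ, 0 ≤ k → k ≤ 2 →
      ENNReal.ofReal (Real.exp (-((3 + k) / 2) ^ 2 / 2) / 5.014) ≤
        gaussianReal m (σ ^ 2).toNNReal (Set.Ioo (-((k + 1) / 2 * σ)) (-(k / 2 * σ))) := by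
    intro k hk0 hk2
    have := mass_lower (m := m) (σ := σ) (p := -((k + 1) / 2 * σ)) (q := -(k / 2 * σ))
      (c := (2.507 * σ)⁻¹ * Real.exp (-((3 + k) / 2) ^ 2 / 2)) hσ
      (by nlinarith) (by positivity) (by
        intro x hx
        apply pdf_lower hσ _ (by positivity)
        have hx1 := hx.1
        have hx2 := hx.2
        rw [abs_le]
        constructor
        · nlinarith [hm'.1, hm'.2]
        · have : 0 ≤ k / 2 * σ := by positivity
          nlinarith [hm'.1, hm'.2])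
    refine le_trans (ENNReal.ofReal_le_ofReal (le_of_eq ?_)) this
    field_simp
    norm_num
  have k0 := key 0 le_rfl (by norm_num)
  have k1 := key 1 (by norm_num) (by norm_num)
  have k2 := key 2 (by norm_num) le_rfl
  have e0 : (0.3246 : ℝ) ≤ Real.exp (-((3 + 0) / 2) ^ 2 / 2) :=
    exp_pow_le 8 (by norm_num) 9 (by norm_num) (by norm_num)
  have e1 : (0.1353 : ℝ) ≤ Real.exp (-((3 + 1) / 2) ^ 2 / 2) :=
    exp_pow_le 1 (by norm_num) 2 (by norm_num) (by norm_num)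
  have e2 : (0.0439 : ℝ) ≤ Real.exp (-((3 + 2) / 2) ^ 2 / 2) :=
    exp_pow_le 8 (by norm_num) 25 (by norm_num) (by norm_num)
  have d01 : Disjoint (Set.Ioo (-((0 + 1) / 2 * σ)) (-(0 / 2 * σ)))
      (Set.Ioo (-((1 + 1) / 2 * σ)) (-(1 / 2 * σ))) := by
    rw [Set.disjoint_left]
    intro x hx hx'
    have h1 := hx.1
    have h2 := hx'.2
    nlinarith
  have d012 : Disjoint ((Set.Ioo (-((0 + 1) / 2 * σ)) (-(0 / 2 * σ))) ∪
      (Set.Ioo (-((1 + 1) / 2 * σ)) (-(1 / 2 * σ))))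
      (Set.Ioo (-((2 + 1) / 2 * σ)) (-(2 / 2 * σ))) := by
    rw [Set.disjoint_left]
    rintro x (hx | hx) hx'
    · have h1 := hx.1
      have h2 := hx'.2
      nlinarith
    · have h1 := hx.1
      have h2 := hx'.2
      nlinarith
  have hsub : ((Set.Ioo (-((0 + 1) / 2 * σ)) (-(0 / 2 * σ))) ∪
      (Set.Ioo (-((1 + 1) / 2 * σ)) (-(1 / 2 * σ)))) ∪
      (Set.Ioo (-((2 + 1) / 2 * σ)) (-(2 / 2 * σ))) ⊆ Set.Iio (0 : ℝ) := by
    rintro x ((hx | hx) | hx)
    · have h2 := hx.2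
      simp only [Set.mem_Iio]; nlinarith
    · have h2 := hx.2
      simp only [Set.mem_Iio]; nlinarith
    · have h2 := hx.2
      simp only [Set.mem_Iio]; nlinarith
  refine le_trans ?_ (measure_mono hsub)
  rw [measure_union d012 measurableSet_Ioo, measure_union d01 measurableSet_Ioo]
  refine le_trans ?_ (add_le_add (add_le_add k0 k1) k2)
  rw [← ENNReal.ofReal_add (by positivity) (by positivity),
    ← ENNReal.ofReal_add (by positivity) (by positivity)]
  apply ENNReal.ofReal_le_ofReal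
  rw [← add_div, ← add_div, le_div_iff₀ (by norm_num)]
  norm_num
  norm_num at e0 e1 e2
  linarith

/-- Half lines under `N(m, σ²)`, `|m| ≤ σ`. -/
theorem gauss_half {m σ : ℝ} (hσ : 0 < σ) (hm : |m| ≤ σ) :
    ENNReal.ofReal (1 / 10) ≤ gaussianReal m (σ ^ 2).toNNReal (Set.Iio 0) ∧
      ENNReal.ofReal (1 / 10) ≤ gaussianReal m (σ ^ 2).toNNReal (Set.Ioi 0) := by
  refine ⟨gauss_half_left hσ hm, ?_⟩
  have h := gauss_half_left (m := -m) (σ := σ) hσ (by simpa using hm)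
  have e : gaussianReal m (σ ^ 2).toNNReal = (gaussianReal (-m) (σ ^ 2).toNNReal).map
      (fun x => -x) := by
    rw [gaussianReal_map_neg]; simp
  rw [e, Measure.map_apply measurable_neg measurableSet_Ioi]
  have : (fun x : ℝ => -x) ⁻¹' Set.Ioi 0 = Set.Iio 0 := by
    ext x; simp
  rw [this]
  exact h

/-- Intervals have small mass. -/
theorem gauss_interval {m σ p q : ℝ} (hσ : 0 < σ) (hpq : p ≤ q) :
    gaussianReal m (σ ^ 2).toNNReal (Set.Icc p q) ≤ ENNReal.ofReal (2 * (q - p) / (5 * σ)) := by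
  rw [gaussianReal_apply _ (var_ne hσ)]
  calc ∫⁻ x in Set.Icc p q, gaussianPDF m (σ ^ 2).toNNReal x
      ≤ ∫⁻ _ in Set.Icc p q, ENNReal.ofReal (2 / (5 * σ)) := by
        apply setLIntegral_mono' measurableSet_Icc
        intro x _
        apply ENNReal.ofReal_le_ofReal
        rw [pdf_eq hσ]
        have h1 : (Real.sqrt (2 * Real.pi) * σ)⁻¹ ≤ (2.5 * σ)⁻¹ := by
          apply inv_anti₀ (by positivity)
          exact mul_le_mul_of_nonneg_right le_sqrt hσ.le
        have h2 : Real.exp (-(x - m) ^ 2 / (2 * σ ^ 2)) ≤ 1 := by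
          apply Real.exp_le_one_iff.mpr
          apply div_nonpos_of_nonpos_of_nonneg
          · nlinarith [sq_nonneg (x - m)]
          · positivity
        calc (Real.sqrt (2 * Real.pi) * σ)⁻¹ * Real.exp (-(x - m) ^ 2 / (2 * σ ^ 2))
            ≤ (2.5 * σ)⁻¹ * 1 := mul_le_mul h1 h2 (Real.exp_pos _).le (by positivity)
          _ = 2 / (5 * σ) := by
            rw [mul_one]; field_simp; norm_num
    _ = ENNReal.ofReal (2 * (q - p) / (5 * σ)) := by
        rw [setLIntegral_const, Real.volume_Icc, ← ENNReal.ofReal_mul (by positivity)]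
        congr 1
        field_simp

end Pool.Agent.Lib.SHirsch
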