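import Pool.Agent.Lib.SHirsch.GBas

/-!
# GTwo: a light row separates two directions (220 lines)

`|μ ⬝ᵥ y| ≤ σ` for a unit vector `y` by Cauchy-Schwarz (`Finset.sum_mul_sq_le_sq_mul_sq`).
`light_half`: scale `y` to a unit vector (the event is invariant), `dot_law`, `gauss_half`.
`light_two`: the events and `chd` are invariant under positive scaling of `y`, `y'`; let both be unit vectors. Let `γ` be the law. It is enough to show
`γ {v ⬝ᵥ y ≤ 0 ∧ 0 < v ⬝ᵥ y'} ≥ chd y y' / 10000 =: q`: then `γ(both ≤ 0) = γ(v ⬝ᵥ y ≤ 0) - γ(v ⬝ᵥ y ≤ 0 < v ⬝ᵥ y') ≤ p - q ≤ (1 - q) p`, where `p = γ(v ⬝ᵥ y ≤ 0) ≤ 1`, `q ≤ 1`.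
Put `c = y ⬝ᵥ y'` (`-1 ≤ c ≤ 1`), `w = y' - c y`, `w ⬝ᵥ y = 0`, `w ⬝ᵥ w = 1 - c^2 =: t^2`, `t = sqrt (1 - c^2)`; `chd^2 = 2 - 2 c`.
 * `c ≤ -1` i.e. `t = 0, c = -1`: `y' = -y`, the event is `v ⬝ᵥ y < 0` (up to the null or harmless set), mass `≥ 1/10 ≥ 2/10000`.
 * `t = 0, c = 1`: `chd = 0`, trivial.
 * `t > 0`: `e = t⁻¹ w` unit, orthogonal to `y`; `v ⬝ᵥ y' = c (v ⬝ᵥ y) + t (v ⬝ᵥ e)`; `pair_law`.
    - `c < 0`: on `N0 < 0`, `N1 > 0` the event holds; mass `≥ 1/100 ≥ 2/10000 ≥ q` (`chd ≤ 2`).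
    - `c ≥ 0`: on `N0 ∈ (-(t σ), 0)`, `N1 ∈ (σ, 2 σ)`: `c N0 + t N1 > - c t σ + t σ ≥ 0`; mass `≥ (t/20) (1/240)` (`gauss_near`, `gauss_far`), and
      `t = sqrt ((1-c)(1+c)) ≥ sqrt (1 - c) = chd / sqrt 2 ≥ 0.7 chd`, so mass `≥ 0.7 chd / 4800 ≥ chd / 10000`.
-/

set_option autoImplicit false

open MeasureTheory ProbabilityTheory

namespace Pool.Agent.Lib.SHirsch

private theorem g2_meas_dot {d : ℕ} (y : Fin d → ℝ) :
    Measurable (fun v : Fin d → ℝ => v ⬝ᵥ y) := by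
  unfold dotProduct
  fun_prop

private theorem g2_mean {d : ℕ} (μ : Fin d → ℝ) {σ : ℝ} (hσ : 0 < σ)
    (hμ : ∑ j, μ j ^ 2 ≤ σ ^ 2) (y : Fin d → ℝ) (hy : y ⬝ᵥ y = 1) : |μ ⬝ᵥ y| ≤ σ := by
  apply abs_le_of_sq_le_sq _ hσ.le
  have h := Finset.sum_mul_sq_le_sq_mul_sq Finset.univ μ y
  have hy' : ∑ j, y j ^ 2 = 1 := by
    rw [← hy]
    unfold dotProduct
    exact Finset.sum_congr rfl (fun j _ => by ring)
  rw [hy', mul_one] at h
  exact h.trans hμ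

private theorem g2_self_nonneg {d : ℕ} (y : Fin d → ℝ) : 0 ≤ y ⬝ᵥ y := by
  unfold dotProduct
  exact Finset.sum_nonneg (fun j _ => mul_self_nonneg _)

private theorem g2_nrm_sq {d : ℕ} (y : Fin d → ℝ) : nrm y ^ 2 = y ⬝ᵥ y :=
  Real.sq_sqrt (g2_self_nonneg y)

private theorem g2_nrm_pos {d : ℕ} {y : Fin d → ℝ} (hy : y ≠ 0) : 0 < nrm y := by
  unfold nrm
  apply Real.sqrt_pos.2
  exact lt_of_le_of_ne (g2_self_nonneg y) (fun h => hy (dotProduct_self_eq_zero.1 h.symm))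

private theorem g2_unit {d : ℕ} {y : Fin d → ℝ} (hy : y ≠ 0) :
    ((nrm y)⁻¹ • y) ⬝ᵥ ((nrm y)⁻¹ • y) = 1 := by
  have h := g2_nrm_pos hy
  rw [smul_dotProduct, dotProduct_smul, smul_eq_mul, smul_eq_mul, ← g2_nrm_sq]
  field_simp

private theorem g2_ev {d : ℕ} {y : Fin d → ℝ} (hy : y ≠ 0) (v : Fin d → ℝ) :
    v ⬝ᵥ ((nrm y)⁻¹ • y) ≤ 0 ↔ v ⬝ᵥ y ≤ 0 := by
  have h := inv_pos.2 (g2_nrm_pos hy)
  rw [dotProduct_smul, smul_eq_mul]
  constructor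
  · intro h1
    by_contra h2
    push Not at h2
    have := mul_pos h h2
    linarith
  · intro h1
    exact mul_nonpos_of_nonneg_of_nonpos h.le h1

private theorem g2_half_lt {d : ℕ} (μ : Fin d → ℝ) {σ : ℝ} (hσ : 0 < σ)
    (hμ : ∑ j, μ j ^ 2 ≤ σ ^ 2) (u : Fin d → ℝ) (hu : u ⬝ᵥ u = 1) :
    ENNReal.ofReal (1 / 10) ≤
      (Measure.pi (fun j => gaussianReal (μ j) (σ ^ 2).toNNReal)) {v | v ⬝ᵥ u < 0} := by
  have h1 : {v : Fin d → ℝ | v ⬝ᵥ u < 0} = (fun v => v ⬝ᵥ u) ⁻¹' (Set.Iio 0) := rfl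
  rw [h1, ← Measure.map_apply (g2_meas_dot u) measurableSet_Iio, dot_law μ _ u hu]
  exact (gauss_half hσ (g2_mean μ hσ hμ u hu)).1

private theorem g2_pair {d : ℕ} (μ : Fin d → ℝ) {σ : ℝ}
    (u e : Fin d → ℝ) (hu : u ⬝ᵥ u = 1) (he : e ⬝ᵥ e = 1) (hue : u ⬝ᵥ e = 0)
    (A B : Set ℝ) (hA : MeasurableSet A) (hB : MeasurableSet B) :
    (Measure.pi (fun j => gaussianReal (μ j) (σ ^ 2).toNNReal)) {v | v ⬝ᵥ u ∈ A ∧ v ⬝ᵥ e ∈ B} =
      gaussianReal (μ ⬝ᵥ u) (σ ^ 2).toNNReal A * gaussianReal (μ ⬝ᵥ e) (σ ^ 2).toNNReal B := by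
  have h1 : {v : Fin d → ℝ | v ⬝ᵥ u ∈ A ∧ v ⬝ᵥ e ∈ B} =
      (fun v => (v ⬝ᵥ u, v ⬝ᵥ e)) ⁻¹' (A ×ˢ B) := rfl
  rw [h1, ← Measure.map_apply ((g2_meas_dot u).prodMk (g2_meas_dot e)) (hA.prod hB),
    pair_law μ _ u e hu he hue, Measure.prod_prod]

private theorem g2_main {d : ℕ} (μ : Fin d → ℝ) {σ : ℝ} (hσ : 0 < σ)
    (hμ : ∑ j, μ j ^ 2 ≤ σ ^ 2) (u w : Fin d → ℝ) (hu : u ⬝ᵥ u = 1) (hw : w ⬝ᵥ w = 1) :
    ENNReal.ofReal (nrm (u - w) / 10000) ≤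
      (Measure.pi (fun j => gaussianReal (μ j) (σ ^ 2).toNNReal))
        {v | v ⬝ᵥ u ≤ 0 ∧ 0 < v ⬝ᵥ w} := by
  set c : ℝ := u ⬝ᵥ w with hc
  have hwu : w ⬝ᵥ u = c := by rw [hc, dotProduct_comm]
  have hn2 : nrm (u - w) ^ 2 = 2 - 2 * c := by
    rw [g2_nrm_sq, sub_dotProduct, dotProduct_sub, dotProduct_sub, hu, hw, hwu, ← hc]
    ring
  have hn0 : 0 ≤ nrm (u - w) := Real.sqrt_nonneg _
  have hc2 : c ^ 2 ≤ 1 := by
    have h := Finset.sum_mul_sq_le_sq_mul_sq Finset.univ u w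
    have h1 : ∑ j, u j ^ 2 = 1 := by
      rw [← hu]
      unfold dotProduct
      exact Finset.sum_congr rfl (fun j _ => by ring)
    have h2 : ∑ j, w j ^ 2 = 1 := by
      rw [← hw]
      unfold dotProduct
      exact Finset.sum_congr rfl (fun j _ => by ring)
    rw [h1, h2, mul_one] at h
    exact h
  have hcl : -1 ≤ c := by nlinarith
  have hcu : c ≤ 1 := by nlinarith
  have hn : nrm (u - w) ≤ 2 := by nlinarith
  set z : Fin d → ℝ := w - c • u with hz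
  have hzu : u ⬝ᵥ z = 0 := by
    rw [hz, dotProduct_sub, dotProduct_smul, hu, smul_eq_mul, ← hc]
    ring
  have hzz : z ⬝ᵥ z = 1 - c ^ 2 := by
    rw [hz, sub_dotProduct, dotProduct_sub, dotProduct_sub, smul_dotProduct, smul_dotProduct,
      dotProduct_smul, dotProduct_smul, hu, hw, hwu, ← hc]
    simp only [smul_eq_mul]
    ring
  have hwz : ∀ v : Fin d → ℝ, v ⬝ᵥ w = c * (v ⬝ᵥ u) + v ⬝ᵥ z := by
    intro v
    rw [hz, dotProduct_sub, dotProduct_smul, smul_eq_mul]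
    ring
  rcases hc2.lt_or_eq with hlt | heq
  · -- the two directions are independent
    have ht2 : 0 < 1 - c ^ 2 := by linarith
    set t : ℝ := Real.sqrt (1 - c ^ 2) with ht
    have ht0 : 0 < t := Real.sqrt_pos.2 ht2
    have htt : t ^ 2 = 1 - c ^ 2 := Real.sq_sqrt ht2.le
    have ht1 : t ≤ 1 := by nlinarith [sq_nonneg c]
    set e : Fin d → ℝ := t⁻¹ • z with he
    have hee : e ⬝ᵥ e = 1 := by
      rw [he, smul_dotProduct, dotProduct_smul, smul_eq_mul, smul_eq_mul, hzz, ← htt]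
      field_simp
    have hue : u ⬝ᵥ e = 0 := by
      rw [he, dotProduct_smul, hzu, smul_zero]
    have hze : ∀ v : Fin d → ℝ, v ⬝ᵥ z = t * (v ⬝ᵥ e) := by
      intro v
      rw [he, dotProduct_smul, smul_eq_mul]
      field_simp
    have hmu := g2_mean μ hσ hμ u hu
    have hme := g2_mean μ hσ hμ e hee
    rcases lt_or_ge c 0 with hneg | hpos
    · have h1 := g2_pair (σ := σ) μ u e hu hee hue (Set.Iio 0) (Set.Ioi 0) measurableSet_Iio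
        measurableSet_Ioi
      have h2 : (Measure.pi (fun j => gaussianReal (μ j) (σ ^ 2).toNNReal))
          {v | v ⬝ᵥ u ∈ Set.Iio 0 ∧ v ⬝ᵥ e ∈ Set.Ioi 0} ≤
          (Measure.pi (fun j => gaussianReal (μ j) (σ ^ 2).toNNReal))
            {v | v ⬝ᵥ u ≤ 0 ∧ 0 < v ⬝ᵥ w} := by
        apply measure_mono
        rintro v ⟨hv1, hv2⟩
        simp only [Set.mem_Iio] at hv1
        simp only [Set.mem_Ioi] at hv2
        refine ⟨hv1.le, ?_⟩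
        rw [hwz, hze]
        have h3 : 0 < t * (v ⬝ᵥ e) := mul_pos ht0 hv2
        have h4 : 0 < c * (v ⬝ᵥ u) := mul_pos_of_neg_of_neg hneg hv1
        linarith
      refine le_trans ?_ h2
      rw [h1]
      calc ENNReal.ofReal (nrm (u - w) / 10000)
          ≤ ENNReal.ofReal (1 / 10 * (1 / 10)) := by
            apply ENNReal.ofReal_le_ofReal
            linarith
        _ = ENNReal.ofReal (1 / 10) * ENNReal.ofReal (1 / 10) :=
            ENNReal.ofReal_mul (by norm_num)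
        _ ≤ _ := mul_le_mul' (gauss_half hσ hmu).1 (gauss_half hσ hme).2
    · have h1 := g2_pair (σ := σ) μ u e hu hee hue (Set.Ioo (-(t * σ)) 0) (Set.Ioo σ (2 * σ))
        measurableSet_Ioo measurableSet_Ioo
      have h2 : (Measure.pi (fun j => gaussianReal (μ j) (σ ^ 2).toNNReal))
          {v | v ⬝ᵥ u ∈ Set.Ioo (-(t * σ)) 0 ∧ v ⬝ᵥ e ∈ Set.Ioo σ (2 * σ)} ≤
          (Measure.pi (fun j => gaussianReal (μ j) (σ ^ 2).toNNReal))
            {v | v ⬝ᵥ u ≤ 0 ∧ 0 < v ⬝ᵥ w} := by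
        apply measure_mono
        rintro v ⟨hv1, hv2⟩
        simp only [Set.mem_Ioo] at hv1 hv2
        refine ⟨hv1.2.le, ?_⟩
        rw [hwz, hze]
        have h3 : t * σ < t * (v ⬝ᵥ e) := mul_lt_mul_of_pos_left hv2.1 ht0
        have h4 : -(t * σ) ≤ c * (v ⬝ᵥ u) := by
          have h5 : 0 ≤ (1 - c) * (t * σ) := mul_nonneg (by linarith) (mul_pos ht0 hσ).le
          have h6 : c * (-(t * σ)) ≤ c * (v ⬝ᵥ u) := mul_le_mul_of_nonneg_left hv1.1.le hpos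
          nlinarith
        linarith
      refine le_trans ?_ h2
      rw [h1]
      have h7 : nrm (u - w) / 10000 ≤ t / 20 * (1 / 240) := by
        have h8 : nrm (u - w) ^ 2 ≤ (2 * t) ^ 2 := by nlinarith
        have h9 : nrm (u - w) ≤ 2 * t := by
          nlinarith
        linarith
      calc ENNReal.ofReal (nrm (u - w) / 10000)
          ≤ ENNReal.ofReal (t / 20 * (1 / 240)) := ENNReal.ofReal_le_ofReal h7
        _ = ENNReal.ofReal (t / 20) * ENNReal.ofReal (1 / 240) :=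
            ENNReal.ofReal_mul (by positivity)
        _ ≤ _ := mul_le_mul' (gauss_near hσ hmu ht0.le ht1) (gauss_far hσ hme)
  · have hz0 : z = 0 := by
      apply dotProduct_self_eq_zero.1
      rw [hzz, heq, sub_self]
    rcases lt_or_ge c 0 with hneg | hpos
    · have hc1 : c = -1 := by nlinarith
      have h2 : (Measure.pi (fun j => gaussianReal (μ j) (σ ^ 2).toNNReal))
          {v | v ⬝ᵥ u < 0} ≤
          (Measure.pi (fun j => gaussianReal (μ j) (σ ^ 2).toNNReal))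
            {v | v ⬝ᵥ u ≤ 0 ∧ 0 < v ⬝ᵥ w} := by
        apply measure_mono
        intro v hv
        simp only [Set.mem_setOf_eq] at hv
        refine ⟨hv.le, ?_⟩
        rw [hwz, hz0, dotProduct_zero, hc1]
        linarith
      refine le_trans ?_ h2
      refine le_trans ?_ (g2_half_lt μ hσ hμ u hu)
      apply ENNReal.ofReal_le_ofReal
      linarith
    · have hc1 : c = 1 := by nlinarith
      have h3 : nrm (u - w) = 0 := by
        have : nrm (u - w) ^ 2 = 0 := by rw [hn2, hc1]; norm_num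
        exact pow_eq_zero_iff (two_ne_zero) |>.1 this
      rw [h3]
      simp

private theorem g2_nrm_le {d : ℕ} (u w : Fin d → ℝ) (hu : u ⬝ᵥ u = 1) (hw : w ⬝ᵥ w = 1) :
    nrm (u - w) ≤ 2 := by
  have hn2 : nrm (u - w) ^ 2 = 2 - 2 * (u ⬝ᵥ w) := by
    rw [g2_nrm_sq, sub_dotProduct, dotProduct_sub, dotProduct_sub, hu, hw, dotProduct_comm w u]
    ring
  have hn3 : nrm (u + w) ^ 2 = 2 + 2 * (u ⬝ᵥ w) := by
    rw [g2_nrm_sq, add_dotProduct, dotProduct_add, dotProduct_add, hu, hw, dotProduct_comm w u]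
    ring
  have h0 : 0 ≤ nrm (u - w) := Real.sqrt_nonneg _
  nlinarith [sq_nonneg (nrm (u + w))]

theorem light_half {d : ℕ} (μ : Fin d → ℝ) {σ : ℝ} (hσ : 0 < σ) (hμ : ∑ j, μ j ^ 2 ≤ σ ^ 2)
    (y : Fin d → ℝ) (hy : y ≠ 0) :
    ENNReal.ofReal (1 / 10) ≤
      (Measure.pi (fun j => gaussianReal (μ j) (σ ^ 2).toNNReal)) {v | v ⬝ᵥ y ≤ 0} := by
  have h := g2_half_lt μ hσ hμ _ (g2_unit hy)
  refine h.trans (measure_mono ?_)
  intro v hv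
  exact (g2_ev hy v).1 (le_of_lt hv)

theorem light_two {d : ℕ} (μ : Fin d → ℝ) {σ : ℝ} (hσ : 0 < σ) (hμ : ∑ j, μ j ^ 2 ≤ σ ^ 2)
    (y y' : Fin d → ℝ) (hy : y ≠ 0) (hy' : y' ≠ 0) :
    (Measure.pi (fun j => gaussianReal (μ j) (σ ^ 2).toNNReal)) {v | v ⬝ᵥ y ≤ 0 ∧ v ⬝ᵥ y' ≤ 0} ≤
      ENNReal.ofReal (1 - chd y y' / 10000) *
        (Measure.pi (fun j => gaussianReal (μ j) (σ ^ 2).toNNReal)) {v | v ⬝ᵥ y ≤ 0} := by
  set γ := Measure.pi (fun j => gaussianReal (μ j) (σ ^ 2).toNNReal) with hγ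
  set u : Fin d → ℝ := (nrm y)⁻¹ • y with hu
  set w : Fin d → ℝ := (nrm y')⁻¹ • y' with hw
  have huu : u ⬝ᵥ u = 1 := g2_unit hy
  have hww : w ⬝ᵥ w = 1 := g2_unit hy'
  have e1 : {v : Fin d → ℝ | v ⬝ᵥ y ≤ 0 ∧ v ⬝ᵥ y' ≤ 0} = {v | v ⬝ᵥ u ≤ 0 ∧ v ⬝ᵥ w ≤ 0} := by
    ext v
    simp only [Set.mem_setOf_eq]
    rw [g2_ev hy v, g2_ev hy' v]
  have e2 : {v : Fin d → ℝ | v ⬝ᵥ y ≤ 0} = {v | v ⬝ᵥ u ≤ 0} := by
    ext v
    simp only [Set.mem_setOf_eq]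
    rw [g2_ev hy v]
  have e3 : chd y y' = nrm (u - w) := rfl
  rw [e1, e2, e3]
  have hmain := g2_main μ hσ hμ u w huu hww
  rw [← hγ] at hmain
  have hle := g2_nrm_le u w huu hww
  have hge : 0 ≤ nrm (u - w) := Real.sqrt_nonneg _
  have hm1 : MeasurableSet {v : Fin d → ℝ | v ⬝ᵥ w ≤ 0} :=
    measurableSet_le (g2_meas_dot w) measurable_const
  have hsplit : γ {v | v ⬝ᵥ u ≤ 0 ∧ v ⬝ᵥ w ≤ 0} + γ {v | v ⬝ᵥ u ≤ 0 ∧ 0 < v ⬝ᵥ w} =
      γ {v | v ⬝ᵥ u ≤ 0} := by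
    rw [← measure_inter_add_diff {v : Fin d → ℝ | v ⬝ᵥ u ≤ 0} hm1]
    congr 1
    congr 1
    ext v
    simp only [Set.mem_setOf_eq, Set.mem_diff, not_le]
  have hp1 : γ {v | v ⬝ᵥ u ≤ 0} ≤ 1 := prob_le_one
  set A := γ {v | v ⬝ᵥ u ≤ 0 ∧ v ⬝ᵥ w ≤ 0} with hA
  set B := γ {v | v ⬝ᵥ u ≤ 0 ∧ 0 < v ⬝ᵥ w} with hB
  set P := γ {v | v ⬝ᵥ u ≤ 0} with hP
  set q : ℝ := nrm (u - w) / 10000 with hq
  have hq0 : 0 ≤ q := by positivity
  have hq1 : q ≤ 1 := by linarith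
  have hPt : P ≠ ⊤ := ne_top_of_le_ne_top ENNReal.one_ne_top hp1
  have hAt : A ≠ ⊤ := ne_top_of_le_ne_top hPt (hsplit ▸ le_self_add)
  have hBt : B ≠ ⊤ := ne_top_of_le_ne_top hPt (hsplit ▸ le_add_self)
  have r1 : A.toReal + B.toReal = P.toReal := by
    rw [← hsplit, ENNReal.toReal_add hAt hBt]
  have r2 : q ≤ B.toReal := (ENNReal.ofReal_le_iff_le_toReal hBt).1 hmain
  have r3 : P.toReal ≤ 1 := by
    have := (ENNReal.toReal_le_toReal hPt ENNReal.one_ne_top).2 hp1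
    simpa using this
  have r4 : A.toReal ≤ (1 - q) * P.toReal := by nlinarith
  rw [← ENNReal.ofReal_toReal hAt, ← ENNReal.ofReal_toReal hPt,
    ← ENNReal.ofReal_mul (by linarith)]
  exact ENNReal.ofReal_le_ofReal r4

end Pool.Agent.Lib.SHirsch
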