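import Pool.Agent.Lib.SHirsch.Defs

/-!
# KBas: basic facts on walks (120 lines)

All statements are immediate from the definitions. `Reach` is defined by recursion on the length
(at most `r` steps); `KB d s = 0` for `s = 0` and `(4 d)^(log2 s + 1)` otherwise.

`reach_face`: `insert i T ∪ S.erase i = T ∪ S` for `i ∈ S`, and `Pol (insert i T) (S.erase i)` is contained
in `Pol T S`; so vertices and adjacency are inherited.
`KB_step`: for `s + 1 ≥ 2` put `q = Nat.log 2 (s+1) ≥ 1`, so `Nat.log 2 ((s+1)/2) = q - 1`, `X = 4(d+1)`: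
`(4d)^(q+1) + 2 X^q + 2 ≤ X^(q+1)` since `X^(q+1) = X * X^q = 4d X^q + 4 X^q ≥ (4d)^(q+1) + 4 X^q`
(and `Nat.log 2 s ≤ q`; for `d = 0` the first term is `0`). For `s = 0`: `0 + 0 + 2 ≤ 4(d+1)`.
-/

set_option autoImplicit false

namespace Pool.Agent.Lib.SHirsch

private theorem reach_succ_self {m n : ℕ} {a : Fin m → Fin n → ℝ} {b : Fin m → ℝ}
    {T S : Finset (Fin m)} {r : ℕ} {x y : Fin n → ℝ} (hy : Vert a b T S y)
    (h : Reach a b T S r x y) : Reach a b T S (r + 1) x y :=
  ⟨y, h, hy, Or.inl rfl⟩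

theorem reach_vert {m n : ℕ} {a : Fin m → Fin n → ℝ} {b : Fin m → ℝ} {T S : Finset (Fin m)}
    {r : ℕ} {x y : Fin n → ℝ} (h : Reach a b T S r x y) : Vert a b T S y := by
  cases r with
  | zero =>
    obtain ⟨h1, h2⟩ := h
    subst h2
    exact h1
  | succ r =>
    obtain ⟨z, _, h2, _⟩ := h
    exact h2

theorem reach_vert_left {m n : ℕ} {a : Fin m → Fin n → ℝ} {b : Fin m → ℝ}
    {T S : Finset (Fin m)} {r : ℕ} {x y : Fin n → ℝ} (h : Reach a b T S r x y) :
    Vert a b T S x := by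
  induction r generalizing y with
  | zero => exact h.1
  | succ r ih =>
    obtain ⟨z, h1, _, _⟩ := h
    exact ih h1

theorem reach_mono {m n : ℕ} {a : Fin m → Fin n → ℝ} {b : Fin m → ℝ} {T S : Finset (Fin m)}
    {r r' : ℕ} (hr : r ≤ r') {x y : Fin n → ℝ} (h : Reach a b T S r x y) :
    Reach a b T S r' x y := by
  induction hr with
  | refl => exact h
  | step _ ih => exact reach_succ_self (reach_vert h) ih

theorem reach_trans {m n : ℕ} {a : Fin m → Fin n → ℝ} {b : Fin m → ℝ} {T S : Finset (Fin m)}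
    {r r' : ℕ} {x y z : Fin n → ℝ} (h : Reach a b T S r x y) (h' : Reach a b T S r' y z) :
    Reach a b T S (r + r') x z := by
  induction r' generalizing z with
  | zero =>
    obtain ⟨_, h2⟩ := h'
    subst h2
    exact h
  | succ r' ih =>
    obtain ⟨w, h1, h2, h3⟩ := h'
    exact ⟨w, ih h1, h2, h3⟩

private theorem adj_symm {m n : ℕ} {a : Fin m → Fin n → ℝ} {b : Fin m → ℝ}
    {T S : Finset (Fin m)} {x y : Fin n → ℝ} (h : Adj a b T S x y) : Adj a b T S y x := by
  refine ⟨fun e => h.1 e.symm, ?_⟩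
  have := h.2
  rw [Finset.inter_comm] at this
  exact this

theorem reach_symm {m n : ℕ} {a : Fin m → Fin n → ℝ} {b : Fin m → ℝ} {T S : Finset (Fin m)}
    {r : ℕ} {x y : Fin n → ℝ} (h : Reach a b T S r x y) : Reach a b T S r y x := by
  induction r generalizing y with
  | zero =>
    obtain ⟨h1, h2⟩ := h
    subst h2
    exact ⟨h1, rfl⟩
  | succ r ih =>
    obtain ⟨z, h1, h2, h3⟩ := h
    have h4 : Reach a b T S 1 y z := by
      refine ⟨y, ⟨h2, rfl⟩, reach_vert h1, ?_⟩
      rcases h3 with h3 | h3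
      · exact Or.inl h3.symm
      · exact Or.inr (adj_symm h3)
    have h5 := reach_trans h4 (ih h1)
    rw [Nat.add_comm] at h5
    exact h5

private theorem union_face {m : ℕ} {T S : Finset (Fin m)} {i : Fin m} (hi : i ∈ S) :
    insert i T ∪ S.erase i = T ∪ S := by
  ext j
  simp only [Finset.mem_union, Finset.mem_insert, Finset.mem_erase]
  constructor
  · rintro ((h | h) | h)
    · subst h; exact Or.inr hi
    · exact Or.inl h
    · exact Or.inr h.2
  · rintro (h | h)
    · exact Or.inl (Or.inr h)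
    · by_cases hj : j = i
      · exact Or.inl (Or.inl hj)
      · exact Or.inr ⟨hj, h⟩

theorem vert_face {m n : ℕ} {a : Fin m → Fin n → ℝ} {b : Fin m → ℝ} {T S : Finset (Fin m)}
    {x : Fin n → ℝ} (h : Vert a b T S x) {i : Fin m} (hi : i ∈ S) (hx : a i ⬝ᵥ x = b i) :
    Vert a b (insert i T) (S.erase i) x := by
  obtain ⟨⟨h1, h2⟩, h3⟩ := h
  refine ⟨⟨?_, ?_⟩, ?_⟩
  · intro j hj
    rcases Finset.mem_insert.mp hj with hj | hj
    · subst hj; exact hx
    · exact h1 j hj
  · intro j hj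
    exact h2 j (Finset.mem_of_mem_erase hj)
  · rw [union_face hi]; exact h3

private theorem vert_unface {m n : ℕ} {a : Fin m → Fin n → ℝ} {b : Fin m → ℝ}
    {T S : Finset (Fin m)} {i : Fin m} (hi : i ∈ S) {x : Fin n → ℝ}
    (h : Vert a b (insert i T) (S.erase i) x) : Vert a b T S x := by
  obtain ⟨⟨h1, h2⟩, h3⟩ := h
  rw [union_face hi] at h3
  refine ⟨⟨fun j hj => h1 j (Finset.mem_insert_of_mem hj), fun j hj => ?_⟩, h3⟩
  by_cases hji : j = i
  · subst hji
    exact (h1 j (Finset.mem_insert_self _ _)).le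
  · exact h2 j (Finset.mem_erase.mpr ⟨hji, hj⟩)

theorem reach_face {m n : ℕ} {a : Fin m → Fin n → ℝ} {b : Fin m → ℝ} {T S : Finset (Fin m)}
    {i : Fin m} (hi : i ∈ S) {r : ℕ} {x y : Fin n → ℝ}
    (h : Reach a b (insert i T) (S.erase i) r x y) : Reach a b T S r x y := by
  induction r generalizing y with
  | zero => exact ⟨vert_unface hi h.1, h.2⟩
  | succ r ih =>
    obtain ⟨z, h1, h2, h3⟩ := h
    refine ⟨z, ih h1, vert_unface hi h2, ?_⟩
    rcases h3 with h3 | h3
    · exact Or.inl h3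
    · right
      obtain ⟨h4, h5⟩ := h3
      rw [union_face hi] at h5
      exact ⟨h4, h5⟩

theorem KB_step (d s : ℕ) : KB d s + 2 * KB (d + 1) ((s + 1) / 2) + 2 ≤ KB (d + 1) (s + 1) := by
  rcases Nat.eq_zero_or_pos s with hs | hs
  · subst hs
    simp [KB]
    omega
  · have h1 : (s + 1) / 2 ≠ 0 := by omega
    have h2 : s ≠ 0 := by omega
    have h3 : s + 1 ≠ 0 := by omega
    unfold KB
    rw [if_neg h2, if_neg h1, if_neg h3]
    have hq : Nat.log 2 ((s + 1) / 2) = Nat.log 2 (s + 1) - 1 := Nat.log_div_base 2 (s + 1)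
    have hq1 : 1 ≤ Nat.log 2 (s + 1) := by
      have := Nat.log_pos (b := 2) (n := s + 1) (by norm_num) (by omega)
      omega
    obtain ⟨q, hqq⟩ : ∃ q, Nat.log 2 (s + 1) = q + 1 := ⟨Nat.log 2 (s + 1) - 1, by omega⟩
    rw [hq, hqq, Nat.add_sub_cancel]
    have hls : Nat.log 2 s ≤ q + 1 := by
      rw [← hqq]
      exact Nat.log_mono_right (by omega)
    have hA : (4 * d) ^ (Nat.log 2 s + 1) ≤ 4 * d * (4 * (d + 1)) ^ (q + 1) := by
      rcases Nat.eq_zero_or_pos d with hd | hd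
      · subst hd
        simp
      · calc (4 * d) ^ (Nat.log 2 s + 1) ≤ (4 * d) ^ (q + 1 + 1) :=
              Nat.pow_le_pow_right (by omega) (by omega)
          _ = (4 * d) * (4 * d) ^ (q + 1) := by rw [pow_succ]; ring
          _ ≤ 4 * d * (4 * (d + 1)) ^ (q + 1) :=
              Nat.mul_le_mul_left _ (Nat.pow_le_pow_left (by omega) _)
    have hB : 1 ≤ (4 * (d + 1)) ^ (q + 1) := Nat.one_le_pow _ _ (by omega)
    have hC : (4 * (d + 1)) ^ (q + 1 + 1) = (4 * (d + 1)) ^ (q + 1) * (4 * (d + 1)) := pow_succ _ _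
    rw [hC]
    generalize hX : (4 * (d + 1)) ^ (q + 1) = X at *
    calc (4 * d) ^ (Nat.log 2 s + 1) + 2 * X + 2 ≤ 4 * d * X + 2 * X + 2 * X := by
            have : 2 ≤ 2 * X := by omega
            omega
      _ = X * (4 * (d + 1)) := by ring

theorem KB_mono (d : ℕ) {s s' : ℕ} (h : s ≤ s') : KB d s ≤ KB d s' := by
  unfold KB
  rcases Nat.eq_zero_or_pos s with hs | hs
  · rw [if_pos hs]; exact Nat.zero_le _
  · rw [if_neg (by omega), if_neg (by omega)]
    rcases Nat.eq_zero_or_pos d with hd | hd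
    · subst hd; simp
    · exact Nat.pow_le_pow_right (by omega) (by
        have := Nat.log_mono_right (b := 2) h
        omega)

/-- The numeric form used in the end. -/
theorem KB_le (n : ℕ) (hn : 1 ≤ n) (f : ℕ) : KB n f ≤ 4 * n * f ^ Nat.clog 2 (4 * n) := by
  unfold KB
  rcases Nat.eq_zero_or_pos f with hf | hf
  · rw [if_pos hf]; exact Nat.zero_le _
  · rw [if_neg (by omega), pow_succ, mul_comm]
    apply Nat.mul_le_mul_left
    calc (4 * n) ^ Nat.log 2 f ≤ (2 ^ Nat.clog 2 (4 * n)) ^ Nat.log 2 f :=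
          Nat.pow_le_pow_left (Nat.le_pow_clog (by norm_num) _) _
      _ = (2 ^ Nat.log 2 f) ^ Nat.clog 2 (4 * n) := by
          rw [← pow_mul, ← pow_mul, mul_comm]
      _ ≤ f ^ Nat.clog 2 (4 * n) :=
          Nat.pow_le_pow_left (Nat.pow_log_le_self 2 (by omega)) _

end Pool.Agent.Lib.SHirsch
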