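import Pool.Agent.Lib.SHirsch.KGr

/-!
# KDet: irredundant rows and the deterministic bound
-/

set_option autoImplicit false

namespace Pool.Agent.Lib.SHirsch

theorem det_bound {m n : ℕ} {a : Fin m → Fin n → ℝ} {b : Fin m → ℝ} (hG : GPos a b)
    (hfea : ∃ p : Fin n → ℝ, ∀ i, a i ⬝ᵥ p ≤ b i) :
    ∃ F0 : Finset (Fin m),
      (∀ i ∈ F0, ∃ x : Fin n → ℝ, a i ⬝ᵥ x = b i ∧ ∀ j, a j ⬝ᵥ x ≤ b j) ∧
      dm (Pol a b ∅ Finset.univ) ≤ (KB n F0.card : ℕ∞) := by
  classical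
  obtain ⟨p, hp⟩ := hfea
  obtain ⟨F0, hF0, hmin⟩ := Finset.exists_min_image
    ((Finset.univ : Finset (Finset (Fin m))).filter
      (fun S => Pol a b ∅ S = Pol a b ∅ Finset.univ)) Finset.card
    ⟨Finset.univ, by simp⟩
  simp only [Finset.mem_filter, Finset.mem_univ, true_and] at hF0 hmin
  refine ⟨F0, ?_, ?_⟩
  · intro i hi
    have h1 : Pol a b ∅ (F0.erase i) ≠ Pol a b ∅ Finset.univ := by
      intro he
      have h2 := hmin _ he
      have h3 := Finset.card_erase_lt_of_mem hi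
      omega
    have h2 : Pol a b ∅ F0 ⊆ Pol a b ∅ (F0.erase i) := by
      intro x hx
      exact ⟨hx.1, fun j hj => hx.2 j (Finset.mem_of_mem_erase hj)⟩
    have h3 : ∃ x, x ∈ Pol a b ∅ (F0.erase i) ∧ x ∉ Pol a b ∅ F0 := by
      by_contra hcon
      push Not at hcon
      apply h1
      rw [← hF0]
      exact Set.Subset.antisymm hcon h2
    obtain ⟨x, hx1, hx2⟩ := h3
    have hxi : b i < a i ⬝ᵥ x := by
      by_contra hcon
      push Not at hcon
      apply hx2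
      refine ⟨hx1.1, fun j hj => ?_⟩
      by_cases hji : j = i
      · rw [hji]; exact hcon
      · exact hx1.2 j (Finset.mem_erase.2 ⟨hji, hj⟩)
    have hpi := hp i
    set t : ℝ := (b i - a i ⬝ᵥ p) / (a i ⬝ᵥ x - a i ⬝ᵥ p) with ht
    have hd : 0 < a i ⬝ᵥ x - a i ⬝ᵥ p := by linarith
    have ht0 : 0 ≤ t := div_nonneg (by linarith) hd.le
    have ht1 : t ≤ 1 := by
      rw [ht, div_le_one hd]; linarith
    have hz : ∀ j, a j ⬝ᵥ (p + t • (x - p)) = (1 - t) * (a j ⬝ᵥ p) + t * (a j ⬝ᵥ x) := by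
      intro j
      rw [dotProduct_add, dotProduct_smul, dotProduct_sub, smul_eq_mul]
      ring
    have hzi : a i ⬝ᵥ (p + t • (x - p)) = b i := by
      rw [hz]
      have h4 : t * (a i ⬝ᵥ x - a i ⬝ᵥ p) = b i - a i ⬝ᵥ p := div_mul_cancel₀ _ hd.ne'
      linarith
    have hzP : (p + t • (x - p)) ∈ Pol a b ∅ F0 := by
      refine ⟨by simp, fun j hj => ?_⟩
      by_cases hji : j = i
      · rw [hji, hzi]
      · rw [hz]
        have h5 := hp j
        have h6 := hx1.2 j (Finset.mem_erase.2 ⟨hji, hj⟩)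
        nlinarith
    rw [hF0] at hzP
    exact ⟨_, hzi, fun j => hzP.2 j (Finset.mem_univ j)⟩
  · rw [← hF0]
    exact dm_le hG F0

end Pool.Agent.Lib.SHirsch
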