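import Pool.Agent.Lib.SHirsch.KDir

/-!
# KExit: leaving a polyhedron along an edge direction (180 lines)

Let `w` be a vertex of `Pol T S`, `I` its tight rows (`I.card = n`), `i ∈ I \ T`, `r` with `a i r = -1`, `a j r = 0` for `j ∈ I \ i`.
If `w + τ r` is not in `Pol T S` for some `τ > 0`: equality rows `j ∈ T` are in `I` and different from `i`, so they stay
tight; rows of `I ∩ S` stay satisfied; so some `k ∈ S \ I` is violated: `a k (w + τ r) > b k`, `a k w < b k`, hence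
`a k r > 0`. Among all `k ∈ S \ I` with `a k r > 0` let `j` minimise `τ_k = (b k - a k w)/(a k r) > 0` (`Finset.exists_min_image`), `s = τ_j`.
Then `s < τ`: the violated row `k` has `τ_k < τ`. `z = w + s r` satisfies all rows of `S` (rows with `a k r ≤ 0` trivially), so
`z ∈ Pol T S`; its tight rows contain `(I \ i) ∪ {j}`, of cardinality `n` (`j ∉ I`), and at most `n` rows are tight by `hG.al`, so `z` is a vertex;
`z ≠ w` (`a i z = b i - s ≠ b i = a i w`); the common tight rows contain `I \ i`, so `Adj`.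
-/

set_option autoImplicit false

namespace Pool.Agent.Lib.SHirsch

/-- Points with enough tight rows are vertices. -/
theorem vert_of_subset {m n : ℕ} {a : Fin m → Fin n → ℝ} {b : Fin m → ℝ} (hG : GPos a b)
    {T S : Finset (Fin m)} {x : Fin n → ℝ} (hx : x ∈ Pol a b T S) {I : Finset (Fin m)}
    (hI : I ⊆ tt a b (T ∪ S) x) (hIc : n ≤ I.card) :
    Vert a b T S x ∧ tt a b (T ∪ S) x = I := by
  have h1 : tt a b (T ∪ S) x ⊆ tt a b Finset.univ x := by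
    intro i hi
    rw [mem_tt] at hi ⊢
    exact ⟨Finset.mem_univ i, hi.2⟩
  have h2 : (tt a b (T ∪ S) x).card ≤ n := (Finset.card_le_card h1).trans (hG.al x)
  have h3 : I = tt a b (T ∪ S) x := Finset.eq_of_subset_of_card_le hI (h2.trans hIc)
  refine ⟨⟨hx, le_antisymm h2 ?_⟩, h3.symm⟩
  rw [← h3]
  exact hIc

private theorem ke_dot {n : ℕ} (v w r : Fin n → ℝ) (s : ℝ) :
    v ⬝ᵥ (w + s • r) = v ⬝ᵥ w + s * (v ⬝ᵥ r) := by
  rw [dotProduct_add, dotProduct_smul, smul_eq_mul]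

theorem exit_lemma {m n : ℕ} {a : Fin m → Fin n → ℝ} {b : Fin m → ℝ} (hG : GPos a b)
    {T S : Finset (Fin m)} {w : Fin n → ℝ} (hw : Vert a b T S w)
    {i : Fin m} (hi : i ∈ tt a b (T ∪ S) w) (hiT : i ∉ T) {r : Fin n → ℝ}
    (hr1 : a i ⬝ᵥ r = -1) (hr0 : ∀ j ∈ tt a b (T ∪ S) w, j ≠ i → a j ⬝ᵥ r = 0)
    {τ : ℝ} (hτ : 0 < τ) (hviol : w + τ • r ∉ Pol a b T S) :
    ∃ s : ℝ, 0 < s ∧ s < τ ∧ Vert a b T S (w + s • r) ∧ Adj a b T S w (w + s • r) ∧
      ∃ j ∈ S, j ∉ tt a b (T ∪ S) w ∧ a j ⬝ᵥ (w + s • r) = b j := by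
  classical
  obtain ⟨⟨hwT, hwS⟩, hcard⟩ := hw
  have hib : a i ⬝ᵥ w = b i := (mem_tt.1 hi).2
  -- rows of `T` stay tight
  have hT : ∀ (s : ℝ), ∀ j ∈ T, a j ⬝ᵥ (w + s • r) = b j := by
    intro s j hj
    have h1 : j ∈ tt a b (T ∪ S) w := mem_tt.2 ⟨Finset.mem_union_left _ hj, hwT j hj⟩
    have h2 : j ≠ i := by
      rintro rfl
      exact hiT hj
    rw [ke_dot, hr0 j h1 h2, mul_zero, add_zero, hwT j hj]
  -- tight rows of `S` stay satisfied
  have hI : ∀ (s : ℝ), 0 ≤ s → ∀ j ∈ tt a b (T ∪ S) w, a j ⬝ᵥ (w + s • r) ≤ b j := by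
    intro s hs j hj
    rw [ke_dot, (mem_tt.1 hj).2]
    by_cases h2 : j = i
    · rw [h2, hr1]
      linarith
    · rw [hr0 j hj h2, mul_zero, add_zero]
  -- strict rows
  have hlt : ∀ j ∈ S, j ∉ tt a b (T ∪ S) w → a j ⬝ᵥ w < b j := by
    intro j hj hj'
    refine lt_of_le_of_ne (hwS j hj) fun h => hj' ?_
    exact mem_tt.2 ⟨Finset.mem_union_right _ hj, h⟩
  obtain ⟨k, hkS, hk⟩ : ∃ k ∈ S, b k < a k ⬝ᵥ (w + τ • r) := by
    by_contra hcon
    push Not at hcon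
    exact hviol ⟨hT τ, hcon⟩
  have hkI : k ∉ tt a b (T ∪ S) w := fun h => absurd (hI τ hτ.le k h) (not_le.2 hk)
  have hkw := hlt k hkS hkI
  have hkr : 0 < a k ⬝ᵥ r := by
    rw [ke_dot] at hk
    by_contra hcon
    push Not at hcon
    have := mul_nonpos_of_nonneg_of_nonpos hτ.le hcon
    linarith
  let K : Finset (Fin m) := S.filter fun l => l ∉ tt a b (T ∪ S) w ∧ 0 < a l ⬝ᵥ r
  have hK : ∀ l, l ∈ K ↔ l ∈ S ∧ l ∉ tt a b (T ∪ S) w ∧ 0 < a l ⬝ᵥ r := fun l =>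
    Finset.mem_filter
  obtain ⟨j, hjK, hmin⟩ := Finset.exists_min_image K
    (fun l => (b l - a l ⬝ᵥ w) / (a l ⬝ᵥ r)) ⟨k, (hK k).2 ⟨hkS, hkI, hkr⟩⟩
  obtain ⟨hjS, hjI, hjr⟩ := (hK j).1 hjK
  have hjw := hlt j hjS hjI
  set s : ℝ := (b j - a j ⬝ᵥ w) / (a j ⬝ᵥ r) with hs
  have hs0 : 0 < s := div_pos (by linarith) hjr
  have hjz : a j ⬝ᵥ (w + s • r) = b j := by
    rw [ke_dot, hs, div_mul_cancel₀ _ hjr.ne']
    ring
  have hsτ : s < τ := by
    refine (hmin k ((hK k).2 ⟨hkS, hkI, hkr⟩)).trans_lt ?_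
    rw [div_lt_iff₀ hkr]
    rw [ke_dot] at hk
    linarith
  have hz : w + s • r ∈ Pol a b T S := by
    refine ⟨hT s, fun l hl => ?_⟩
    by_cases h1 : l ∈ tt a b (T ∪ S) w
    · exact hI s hs0.le l h1
    · have h2 := hlt l hl h1
      rcases le_or_gt (a l ⬝ᵥ r) 0 with h3 | h3
      · have := mul_nonpos_of_nonneg_of_nonpos hs0.le h3
        rw [ke_dot]
        linarith
      · have h4 := hmin l ((hK l).2 ⟨hl, h1, h3⟩)
        have h5 : s ≤ (b l - a l ⬝ᵥ w) / (a l ⬝ᵥ r) := h4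
        rw [le_div_iff₀ h3] at h5
        rw [ke_dot]
        linarith
  have hjn : j ∉ (tt a b (T ∪ S) w).erase i := fun h => hjI (Finset.mem_of_mem_erase h)
  have hcard' : ((tt a b (T ∪ S) w).erase i).card + 1 = n := by
    rw [Finset.card_erase_add_one hi, hcard]
  have hsub0 : (tt a b (T ∪ S) w).erase i ⊆ tt a b (T ∪ S) (w + s • r) := by
    intro l hl
    obtain ⟨h1, h2⟩ := Finset.mem_erase.1 hl
    refine mem_tt.2 ⟨(mem_tt.1 h2).1, ?_⟩
    rw [ke_dot, hr0 l h2 h1, mul_zero, add_zero, (mem_tt.1 h2).2]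
  have hsub : insert j ((tt a b (T ∪ S) w).erase i) ⊆ tt a b (T ∪ S) (w + s • r) := by
    intro l hl
    rcases Finset.mem_insert.1 hl with rfl | h1
    · exact mem_tt.2 ⟨Finset.mem_union_right _ hjS, hjz⟩
    · exact hsub0 h1
  have hv := vert_of_subset hG hz hsub (by
    rw [Finset.card_insert_of_notMem hjn, hcard'])
  refine ⟨s, hs0, hsτ, hv.1, ⟨?_, ?_⟩, j, hjS, hjI, hjz⟩
  · intro heq
    have h1 : a i ⬝ᵥ w = a i ⬝ᵥ (w + s • r) := by rw [← heq]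
    rw [ke_dot, hr1] at h1
    linarith
  · have h1 : (tt a b (T ∪ S) w).erase i ⊆ tt a b (T ∪ S) w ∩ tt a b (T ∪ S) (w + s • r) :=
      Finset.subset_inter (Finset.erase_subset _ _) hsub0
    have h2 := Finset.card_le_card h1
    omega

end Pool.Agent.Lib.SHirsch
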