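import Pool.Agent.Lib.SHirsch.KKl

/-!
# KGr: from vertices to extreme points (220 lines)

`extreme_tight` (no general position): if fewer than `n` rows of `S` are tight at the extreme point `x`, `exists_orth` gives `u ≠ 0` orthogonal to them; for small `ε > 0`
`x ± ε u ∈ Pol ∅ S` (finitely many strict inequalities), and `x` is in the open segment between: contradiction.
`vert_extreme`: `x` with `n` tight rows `I`; if `x = s y + t z`, `y, z ∈ Pol`, `s, t > 0`, then all rows of `I` are tight at `y` and `z`, so `y = z = x` (`eq_of_tight`).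
`segment_extreme`: `J` = common tight rows, `|J| ≥ n-1` and `J ≠` all tight rows of `x` (else `x = y`), so `|J| = n - 1`. Let `z ∈ segment x y`, `z ∈ openSegment p q`, `p, q ∈ Pol`. The rows of `J` are tight at `z`, hence at
`p` and `q`. So `p - x` and `y - x ≠ 0` are orthogonal to `a j`, `j ∈ J`: `p = x + c (y - x)` (`line_of_tight`). The row `i` tight at `x`, not at `y`: `a i p ≤ b i` gives `c ≥ 0`; the row tight at `y` and not at `x` gives `c ≤ 1`.
So `p ∈ segment x y`; same for `q`. (`IsExtreme`: check the current definition in Mathlib.)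
`dm_le`: for extreme points `u, v`, `kalai_kleitman` with `T = ∅`, `d = n`, `s = S.card` gives `Reach (KB n S.card) u v`, and a `Reach r` walk gives `edist ≤ r` in the induced graph (induction on `r`: every point of the walk is a vertex, so an extreme point
by `vert_extreme`, and `Adj` gives adjacency by `segment_extreme`; `SimpleGraph.edist_triangle`-type lemma, `SimpleGraph.ediam_le_iff` or `ediam` as supremum of `edist`).
`dm_zero`: no extreme point if `m < n` (`extreme_tight`), or only one point if `n = 0`: then all `edist` are `0`.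
-/

set_option autoImplicit false

namespace Pool.Agent.Lib.SHirsch

private theorem eps_exists {ι : Type} (S : Finset ι) (f g : ι → ℝ) (h : ∀ j ∈ S, 0 < f j) :
    ∃ ε : ℝ, 0 < ε ∧ ∀ j ∈ S, ε * |g j| ≤ f j := by
  classical
  induction S using Finset.induction_on with
  | empty => exact ⟨1, one_pos, by simp⟩
  | insert i S hi ih =>
    obtain ⟨ε, h1, h2⟩ := ih (fun j hj => h j (Finset.mem_insert_of_mem hj))
    have hf := h i (Finset.mem_insert_self i S)
    have hg : 0 < |g i| + 1 := by positivity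
    refine ⟨min ε (f i / (|g i| + 1)), lt_min h1 (by positivity), ?_⟩
    intro j hj
    rw [Finset.mem_insert] at hj
    rcases hj with rfl | hj
    · have h3 : min ε (f j / (|g j| + 1)) ≤ f j / (|g j| + 1) := min_le_right _ _
      calc min ε (f j / (|g j| + 1)) * |g j| ≤ f j / (|g j| + 1) * |g j| :=
            mul_le_mul_of_nonneg_right h3 (abs_nonneg _)
        _ = f j * (|g j| / (|g j| + 1)) := by ring
        _ ≤ f j * 1 := by
            apply mul_le_mul_of_nonneg_left _ hf.le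
            rw [div_le_one hg]
            linarith
        _ = f j := mul_one _
    · exact le_trans (mul_le_mul_of_nonneg_right (min_le_left _ _) (abs_nonneg _)) (h2 j hj)

private theorem tight_open {n : ℕ} {v y z x : Fin n → ℝ} {β : ℝ} (hy : v ⬝ᵥ y ≤ β)
    (hz : v ⬝ᵥ z ≤ β) (hx : v ⬝ᵥ x = β) (h : x ∈ openSegment ℝ y z) : v ⬝ᵥ y = β := by
  obtain ⟨s, t, hs, ht, hst, rfl⟩ := h
  rw [dotProduct_add, dotProduct_smul, dotProduct_smul, smul_eq_mul, smul_eq_mul] at hx
  have ht1 : t = 1 - s := by linarith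
  subst ht1
  apply le_antisymm hy
  have h1 : (1 - s) * (v ⬝ᵥ z) ≤ (1 - s) * β := mul_le_mul_of_nonneg_left hz ht.le
  have h2 : s * β ≤ s * (v ⬝ᵥ y) := by linarith
  exact le_of_mul_le_mul_left h2 hs

private theorem tight_seg {n : ℕ} {v y z x : Fin n → ℝ} {β : ℝ} (hy : v ⬝ᵥ y = β)
    (hz : v ⬝ᵥ z = β) (h : x ∈ segment ℝ y z) : v ⬝ᵥ x = β := by
  obtain ⟨s, t, hs, ht, hst, rfl⟩ := h
  rw [dotProduct_add, dotProduct_smul, dotProduct_smul, smul_eq_mul, smul_eq_mul, hy, hz,
    ← add_mul, hst, one_mul]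

private theorem mem_pol {m n : ℕ} {a : Fin m → Fin n → ℝ} {b : Fin m → ℝ} {S : Finset (Fin m)}
    {x : Fin n → ℝ} : x ∈ Pol a b ∅ S ↔ ∀ i ∈ S, a i ⬝ᵥ x ≤ b i := by
  unfold Pol
  simp

private theorem pol_convex {m n : ℕ} (a : Fin m → Fin n → ℝ) (b : Fin m → ℝ)
    (S : Finset (Fin m)) : Convex ℝ (Pol a b ∅ S) := by
  intro p hp q hq s t hs ht hst
  rw [mem_pol] at hp hq ⊢
  intro i hi
  rw [dotProduct_add, dotProduct_smul, dotProduct_smul, smul_eq_mul, smul_eq_mul]
  have h1 := mul_le_mul_of_nonneg_left (hp i hi) hs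
  have h2 := mul_le_mul_of_nonneg_left (hq i hi) ht
  have h3 : s * b i + t * b i = b i := by rw [← add_mul, hst, one_mul]
  linarith

theorem extreme_tight {m n : ℕ} {a : Fin m → Fin n → ℝ} {b : Fin m → ℝ} {S : Finset (Fin m)}
    {x : Fin n → ℝ} (hx : x ∈ Set.extremePoints ℝ (Pol a b ∅ S)) :
    n ≤ (tt a b S x).card := by
  by_contra hlt
  push Not at hlt
  obtain ⟨u, hu0, hu⟩ := exists_orth a hlt
  classical
  obtain ⟨ε, hε, hb⟩ := eps_exists (S.filter (fun j => a j ⬝ᵥ x ≠ b j))
    (fun j => b j - a j ⬝ᵥ x) (fun j => a j ⬝ᵥ u) (by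
      intro j hj
      rw [Finset.mem_filter] at hj
      have h1 := mem_pol.1 hx.1 j hj.1
      have h2 : a j ⬝ᵥ x < b j := lt_of_le_of_ne h1 hj.2
      linarith)
  have key : ∀ σ : ℝ, |σ| ≤ ε → x + σ • u ∈ Pol a b ∅ S := by
    intro σ hσ
    rw [mem_pol]
    intro i hi
    rw [dotProduct_add, dotProduct_smul, smul_eq_mul]
    by_cases hi2 : a i ⬝ᵥ x = b i
    · rw [hu i (mem_tt.2 ⟨hi, hi2⟩), mul_zero, add_zero, hi2]
    · have h1 := hb i (Finset.mem_filter.2 ⟨hi, hi2⟩)
      have h2 : σ * (a i ⬝ᵥ u) ≤ ε * |a i ⬝ᵥ u| := by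
        calc σ * (a i ⬝ᵥ u) ≤ |σ * (a i ⬝ᵥ u)| := le_abs_self _
          _ = |σ| * |a i ⬝ᵥ u| := abs_mul _ _
          _ ≤ _ := mul_le_mul_of_nonneg_right hσ (abs_nonneg _)
      linarith
  have h1 := key ε (by rw [abs_of_pos hε])
  have h2 := key (-ε) (by rw [abs_neg, abs_of_pos hε])
  have h3 : x ∈ openSegment ℝ (x + ε • u) (x + (-ε) • u) := by
    refine ⟨1 / 2, 1 / 2, by norm_num, by norm_num, by norm_num, ?_⟩
    ext k
    simp only [Pi.add_apply, Pi.smul_apply, smul_eq_mul]
    ring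
  have h4 := hx.2 h1 h2 h3
  have h5 : ε • u = 0 := by simpa using h4
  rcases smul_eq_zero.1 h5 with h | h
  · exact hε.ne' h
  · exact hu0 h

theorem vert_extreme {m n : ℕ} {a : Fin m → Fin n → ℝ} {b : Fin m → ℝ} (hG : GPos a b)
    {S : Finset (Fin m)} {x : Fin n → ℝ} (hx : Vert a b ∅ S x) :
    x ∈ Set.extremePoints ℝ (Pol a b ∅ S) := by
  refine ⟨hx.1, ?_⟩
  intro y hy z hz hxs
  apply eq_of_tight hG hx.2
  intro i hi
  have hi' := mem_tt.1 hi
  rw [Finset.empty_union] at hi'
  rw [hi'.2]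
  exact tight_open (mem_pol.1 hy i hi'.1) (mem_pol.1 hz i hi'.1) hi'.2 hxs

theorem segment_extreme {m n : ℕ} {a : Fin m → Fin n → ℝ} {b : Fin m → ℝ} (hG : GPos a b)
    {S : Finset (Fin m)} {x y : Fin n → ℝ} (hx : Vert a b ∅ S x) (hy : Vert a b ∅ S y)
    (hadj : Adj a b ∅ S x y) : IsExtreme ℝ (Pol a b ∅ S) (segment ℝ x y) := by
  obtain ⟨hne, hcard⟩ := hadj
  have hxc := hx.2
  have hyc := hy.2
  rw [Finset.empty_union] at hcard hxc hyc
  have hJn : (tt a b S x ∩ tt a b S y).card + 1 = n := by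
    have h1 : (tt a b S x ∩ tt a b S y).card ≤ n := by
      exact le_trans (Finset.card_le_card Finset.inter_subset_left) hxc.le
    have h2 : (tt a b S x ∩ tt a b S y).card ≠ n := by
      intro h3
      apply hne
      apply eq_of_tight hG h3
      intro i hi
      rw [Finset.mem_inter, mem_tt, mem_tt] at hi
      rw [hi.1.2, hi.2.2]
    omega
  obtain ⟨i, hi1, hi2⟩ : ∃ i, i ∈ tt a b S x ∧ i ∉ tt a b S y := by
    by_contra hcon
    push Not at hcon
    have : tt a b S x ∩ tt a b S y = tt a b S x := Finset.inter_eq_left.2 (fun i hi => hcon i hi)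
    rw [this] at hJn
    omega
  obtain ⟨i', hi'1, hi'2⟩ : ∃ i, i ∈ tt a b S y ∧ i ∉ tt a b S x := by
    by_contra hcon
    push Not at hcon
    have : tt a b S x ∩ tt a b S y = tt a b S y := Finset.inter_eq_right.2 (fun i hi => hcon i hi)
    rw [this] at hJn
    omega
  rw [mem_tt] at hi1 hi2 hi'1 hi'2
  have hyi : a i ⬝ᵥ y < b i :=
    lt_of_le_of_ne (mem_pol.1 hy.1 i hi1.1) (fun h => hi2 ⟨hi1.1, h⟩)
  have hxi' : a i' ⬝ᵥ x < b i' :=
    lt_of_le_of_ne (mem_pol.1 hx.1 i' hi'1.1) (fun h => hi'2 ⟨hi'1.1, h⟩)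
  constructor
  · exact (pol_convex a b S).segment_subset hx.1 hy.1
  · intro p hp q hq z hz hzo
    have hp' := mem_pol.1 hp
    have hq' := mem_pol.1 hq
    obtain ⟨c, hc⟩ := line_of_tight hG hJn (u := y - x) (w := p - x)
      (sub_ne_zero.2 hne.symm) (by
        intro j hj
        rw [Finset.mem_inter, mem_tt, mem_tt] at hj
        rw [dotProduct_sub, hj.1.2, hj.2.2, sub_self]) (by
        intro j hj
        rw [Finset.mem_inter, mem_tt, mem_tt] at hj
        have h1 : a j ⬝ᵥ z = b j := tight_seg hj.1.2 hj.2.2 hz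
        rw [dotProduct_sub, hj.1.2, tight_open (hp' j hj.1.1) (hq' j hj.1.1) h1 hzo, sub_self])
    have hpe : p = x + c • (y - x) := by rw [← hc]; simp
    have e1 := hp' i hi1.1
    have e2 := hp' i' hi'1.1
    rw [hpe, dotProduct_add, dotProduct_smul, dotProduct_sub, smul_eq_mul] at e1 e2
    rw [hi1.2] at e1
    rw [hi'1.2] at e2
    have hc0 : 0 ≤ c := by
      by_contra h
      push Not at h
      have : 0 < c * (a i ⬝ᵥ y - b i) := mul_pos_of_neg_of_neg h (by linarith)
      linarith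
    have hc1 : c ≤ 1 := by
      by_contra h
      push Not at h
      have : 0 < (c - 1) * (b i' - a i' ⬝ᵥ x) := mul_pos (by linarith) (by linarith)
      nlinarith
    refine ⟨1 - c, c, by linarith, hc0, by ring, ?_⟩
    rw [hpe]
    ext k
    simp only [Pi.add_apply, Pi.smul_apply, Pi.sub_apply, smul_eq_mul]
    ring

theorem dm_le {m n : ℕ} {a : Fin m → Fin n → ℝ} {b : Fin m → ℝ} (hG : GPos a b)
    (S : Finset (Fin m)) : dm (Pol a b ∅ S) ≤ (KB n S.card : ℕ∞) := by
  have hvert : ∀ u ∈ Set.extremePoints ℝ (Pol a b ∅ S), Vert a b ∅ S u := by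
    intro u hu
    refine ⟨hu.1, ?_⟩
    rw [Finset.empty_union]
    apply le_antisymm _ (extreme_tight hu)
    refine le_trans (Finset.card_le_card ?_) (hG.al u)
    intro i hi
    rw [mem_tt] at hi ⊢
    exact ⟨Finset.mem_univ _, hi.2⟩
  have hwalk : ∀ r : ℕ, ∀ u v : Fin n → ℝ, Reach a b ∅ S r u v →
      ∀ (hu : u ∈ Set.extremePoints ℝ (Pol a b ∅ S)) (hv : v ∈ Set.extremePoints ℝ (Pol a b ∅ S)),
      ((SimpleGraph.fromRel (fun u v : Fin n → ℝ =>
        IsExtreme ℝ (Pol a b ∅ S) (segment ℝ u v))).induce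
        (Set.extremePoints ℝ (Pol a b ∅ S))).edist ⟨u, hu⟩ ⟨v, hv⟩ ≤ (r : ℕ∞) := by
    intro r
    induction r with
    | zero =>
      rintro u v ⟨-, rfl⟩ hu hv
      simp
    | succ r ih =>
      rintro u v ⟨z, h1, h2, h3⟩ hu hv
      have hzv := reach_vert h1
      have hz := vert_extreme hG hzv
      refine le_trans (SimpleGraph.edist_triangle (v := ⟨z, hz⟩)) ?_
      push_cast
      apply add_le_add (ih u z h1 hu hz)
      rcases h3 with rfl | h3
      · rw [SimpleGraph.edist_self]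
        exact zero_le_one
      · apply le_of_eq
        rw [SimpleGraph.edist_eq_one_iff_adj]
        rw [SimpleGraph.induce_adj, SimpleGraph.fromRel_adj]
        exact ⟨h3.1, Or.inl (segment_extreme hG hzv h2 h3)⟩
  unfold dm
  rw [SimpleGraph.ediam_le_iff]
  rintro ⟨u, hu⟩ ⟨v, hv⟩
  apply hwalk
  exact kalai_kleitman hG n S.card ∅ S (by simp) (Finset.disjoint_empty_left S) le_rfl u v
    (hvert u hu) (hvert v hv)

theorem dm_zero {m n : ℕ} (a : Fin m → Fin n → ℝ) (b : Fin m → ℝ) (h : m < n ∨ n = 0) :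
    dm (Pol a b ∅ Finset.univ) = 0 := by
  unfold dm
  have : Subsingleton (Set.extremePoints ℝ (Pol a b ∅ (Finset.univ : Finset (Fin m)))) := by
    rcases h with h | h
    · constructor
      rintro ⟨u, hu⟩
      exfalso
      have h1 := extreme_tight hu
      have h2 : (tt a b Finset.univ u).card ≤ m := by
        refine le_trans (Finset.card_le_univ _) ?_
        rw [Fintype.card_fin]
      omega
    · subst h
      infer_instance
  exact SimpleGraph.ediam_eq_zero_of_subsingleton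

end Pool.Agent.Lib.SHirsch
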