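import Pool.Agent.Lib.SHirsch.KStay
import Pool.Agent.Lib.SHirsch.KConn

/-!
# KKl: the Kalai-Kleitman recursion (180 lines)

Induction on `d`, inside strong induction on `s`.
Case `d = 0`: `T.card = n`, both `u`, `v` satisfy all equations of `T`, so `u = v` (`eq_of_tight`), `Reach 0`.
Case `d ≥ 1`, `s = 0`: `S = ∅`, a vertex would have `n ≤ T.card = n - d` tight rows: contradiction.
Case `d + 1`, `s + 1`: `h = (s+1)/2 ≤ s`, `r0 = KB (d+1) h + 1`. For a vertex `v` let `F v = {j ∈ S | ∃ w, Reach r0 v w ∧ a j w = b j}` (classical filter).
 Claim: if `(F v).card ≤ h` then every vertex `u` has `Reach (r0 - 1) v u`. Proof: `v` is a vertex of `Pol T (F v)` (its tight rows in `S` are in `F v`). Let `w_0 = v, ..`: by `conn` there is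
 some `r` with `Reach T S r v u`; we show by induction on `r`, for all `w`, `Reach T S r v w → Reach T S (r0 - 1) v w`: for `r + 1`: `z` with `Reach (r0-1) v z` (induction) and `w = z` or `Adj z w`, so
 `Reach T S r0 v w`; so all tight rows of `w` in `S` are in `F v`, so `w` is a vertex of `Pol T (F v)`; by the outer induction hypothesis (`(F v).card ≤ h ≤ s`, same `d+1`) `Reach T (F v) (KB (d+1) h) v w`, and by
 `stay` `Reach T S (KB (d+1) h) v w`.
 If `(F v).card ≤ h` or `(F u).card ≤ h` we are done by the claim (`reach_symm`) and `KB_step`. Otherwise `(F u).card + (F v).card > 2 h`, in fact `≥ 2 (h+1) > s + 1 ≥ S.card`, so the two subsets of `S` meet: `i ∈ S` tight at `w` with `Reach r0 u w`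
 and at `w'` with `Reach r0 v w'`. By `vert_face` both are vertices of `Pol (insert i T) (S.erase i)`, `(insert i T).card + d = n`, `(S.erase i).card ≤ s`: the induction hypothesis for `d` gives `Reach (KB d s) w w'` there; `reach_face`,
 `reach_trans`, `reach_symm`, `reach_mono` and `KB_step`: `r0 + KB d s + r0 = KB d s + 2 KB (d+1) h + 2 ≤ KB (d+1) (s+1)`.
-/

set_option autoImplicit false

namespace Pool.Agent.Lib.SHirsch

theorem kalai_kleitman {m n : ℕ} {a : Fin m → Fin n → ℝ} {b : Fin m → ℝ} (hG : GPos a b)
    (d s : ℕ) (T S : Finset (Fin m)) (hT : T.card + d = n) (hTS : Disjoint T S)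
    (hS : S.card ≤ s) (u v : Fin n → ℝ) (hu : Vert a b T S u) (hv : Vert a b T S v) :
    Reach a b T S (KB d s) u v := by
  classical
  induction d generalizing s T S u v with
  | zero =>
    have huv : u = v := by
      refine eq_of_tight hG (I := T) (by omega) (fun i hi => ?_)
      rw [hu.1.1 i hi, hv.1.1 i hi]
    have h0 : Reach a b T S 0 u v := ⟨hu, huv⟩
    exact reach_mono (Nat.zero_le _) h0
  | succ d ihd =>
    induction s using Nat.strong_induction_on generalizing T S u v with
    | _ s ihs =>
    rcases s with _ | s
    · exfalso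
      have hS0 : S = ∅ := Finset.card_eq_zero.1 (by omega)
      have h1 : (tt a b (T ∪ S) u).card ≤ T.card := by
        refine Finset.card_le_card (fun j hj => ?_)
        have := (mem_tt.1 hj).1
        rw [hS0, Finset.union_empty] at this
        exact this
      have h2 := hu.2
      omega
    · set K := KB (d + 1) ((s + 1) / 2) with hK
      have hstep : KB d s + 2 * K + 2 ≤ KB (d + 1) (s + 1) := KB_step d s
      let F : (Fin n → ℝ) → Finset (Fin m) := fun x =>
        S.filter (fun j => ∃ w, Reach a b T S (K + 1) x w ∧ a j ⬝ᵥ w = b j)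
      have hFS : ∀ x, F x ⊆ S := fun x => Finset.filter_subset _ _
      have hFmem : ∀ x j, j ∈ S → ∀ w, Reach a b T S (K + 1) x w → a j ⬝ᵥ w = b j → j ∈ F x := by
        intro x j hj w hw ht
        exact Finset.mem_filter.2 ⟨hj, w, hw, ht⟩
      have hvert : ∀ x w, Reach a b T S (K + 1) x w → Vert a b T (F x) w := by
        intro x w hw
        have hwV := reach_vert hw
        have hP : w ∈ Pol a b T (F x) := ⟨hwV.1.1, fun i hi => hwV.1.2 i (hFS x hi)⟩
        refine (vert_of_subset hG hP (I := tt a b (T ∪ S) w) ?_ (le_of_eq hwV.2.symm)).1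
        intro j hj
        obtain ⟨hj1, hj2⟩ := mem_tt.1 hj
        rcases Finset.mem_union.1 hj1 with h | h
        · exact mem_tt.2 ⟨Finset.mem_union_left _ h, hj2⟩
        · exact mem_tt.2 ⟨Finset.mem_union_right _ (hFmem x j h w hw hj2), hj2⟩
      have claim : ∀ x, Vert a b T S x → (F x).card ≤ (s + 1) / 2 →
          ∀ r w, Reach a b T S r x w → Reach a b T S K x w := by
        intro x hx hcard r
        have hxF : Vert a b T (F x) x := hvert x x (reach_mono (Nat.zero_le _)
          (show Reach a b T S 0 x x from ⟨hx, rfl⟩))
        induction r with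
        | zero =>
          intro w hw
          exact reach_mono (Nat.zero_le _) hw
        | succ r ih =>
          intro w hw
          obtain ⟨z, hz, hwv, hor⟩ := hw
          have h1 : Reach a b T S (K + 1) x w := ⟨z, ih z hz, hwv, hor⟩
          have h2 := ihs ((s + 1) / 2) (by omega) T (F x) hT
            (Finset.disjoint_of_subset_right (hFS x) hTS) hcard x w hxF (hvert x w h1)
          exact stay hG (hFS x) (fun j hj w' hw' ht => hFmem x j hj w' hw' ht) hx K
            (Nat.le_succ K) w h2
      by_cases hFv : (F v).card ≤ (s + 1) / 2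
      · obtain ⟨r, hr⟩ := conn hG hv hu
        exact reach_mono (by omega) (reach_symm (claim v hv hFv r u hr))
      · by_cases hFu : (F u).card ≤ (s + 1) / 2
        · obtain ⟨r, hr⟩ := conn hG hu hv
          exact reach_mono (by omega) (claim u hu hFu r v hr)
        · have hnd : ¬ Disjoint (F u) (F v) := by
            intro hd
            have h1 : (F u ∪ F v).card ≤ S.card :=
              Finset.card_le_card (Finset.union_subset (hFS u) (hFS v))
            rw [Finset.card_union_of_disjoint hd] at h1
            omega
          obtain ⟨i, hiu, hiv⟩ := Finset.not_disjoint_iff.1 hnd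
          obtain ⟨hiS, w, hw, hwt⟩ := Finset.mem_filter.1 hiu
          obtain ⟨_, w', hw', hwt'⟩ := Finset.mem_filter.1 hiv
          have hiT : i ∉ T := fun h => Finset.disjoint_left.1 hTS h hiS
          have hface := ihd s (insert i T) (S.erase i)
            (by rw [Finset.card_insert_of_notMem hiT]; omega)
            (by
              rw [Finset.disjoint_insert_left]
              exact ⟨Finset.notMem_erase i S,
                Finset.disjoint_of_subset_right (Finset.erase_subset i S) hTS⟩)
            (by rw [Finset.card_erase_of_mem hiS]; omega)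
            w w' (vert_face (reach_vert hw) hiS hwt) (vert_face (reach_vert hw') hiS hwt')
          have h1 := reach_trans (reach_trans hw (reach_face hiS hface)) (reach_symm hw')
          exact reach_mono (by omega) h1

end Pool.Agent.Lib.SHirsch
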