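import Pool.Agent.Lib.SHirsch.KExit
import Pool.Agent.Lib.SHirsch.KBas

/-!
# KStay: walks in the larger polyhedron stay in the smaller one (200 lines)

`adj_ray`: let `I`, `I'` be the tight rows of `w`, `w'` (`n` each). `|I ∩ I'| ≥ n - 1`, and `I = I'` is impossible (`eq_of_tight` would give `w = w'`), so
`I = (I ∩ I') ∪ {i}`, `i ∉ I'`, `i ∉ T` (rows of `T` are tight at both). Let `r` be the direction of `dir_exists` for `i ∈ I`. Put
`τ = b i - a i w' > 0` (`i ∈ S`, not tight at `w'`). Then `w' - w` and `τ r` have the same products with all `a j`, `j ∈ I`; `eq_of_tight`.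

`stay`: induction on `r`. `r = 0`: `w = v`. Step: `Reach T F' (r+1) v w` gives `z` with `Reach T F' r v z` and `z = w` or `Adj z w`; by induction
`Reach T S r v z`; in the first case use `reach_mono`. Otherwise `z` is a vertex of `Pol T S`, and `tt (T ∪ F') z ⊆ tt (T ∪ S) z`, both of cardinality `n`, so
they are equal. If `w ∈ Pol T S` then `w` is a vertex of `Pol T S` (`vert_of_subset`, `tt (T ∪ F') w ⊆ tt (T ∪ S) w`) and `Adj T S z w`. If not:
`adj_ray` for `(T, F')` gives `i, ρ, τ` with `w = z + τ ρ`; the exit lemma for `(T,S)` at `z` gives `0 < s < τ`, the vertex `z' = z + s ρ` of `Pol T S`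
adjacent to `z`, and `j ∈ S`, not tight at `z`, tight at `z'`. So `Reach T S (r+1) v z'`, hence `Reach T S r0 v z'`, so `j ∈ F'` by `hF`. But `a j z < b j`, `a j w ≤ b j`
(`w ∈ Pol T F'`), and `z'` is strictly between, so `a j z' < b j`: contradiction.
-/

set_option autoImplicit false

namespace Pool.Agent.Lib.SHirsch

theorem adj_ray {m n : ℕ} {a : Fin m → Fin n → ℝ} {b : Fin m → ℝ} (hG : GPos a b)
    {T S : Finset (Fin m)} {w w' : Fin n → ℝ} (hw : Vert a b T S w) (hw' : Vert a b T S w')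
    (hadj : Adj a b T S w w') :
    ∃ i ∈ tt a b (T ∪ S) w, i ∉ T ∧ ∃ r : Fin n → ℝ, a i ⬝ᵥ r = -1 ∧
      (∀ j ∈ tt a b (T ∪ S) w, j ≠ i → a j ⬝ᵥ r = 0) ∧ ∃ τ : ℝ, 0 < τ ∧ w' = w + τ • r := by
  obtain ⟨hne, hcard⟩ := hadj
  have hI := hw.2
  have hI' := hw'.2
  have hnot : ¬ (tt a b (T ∪ S) w ⊆ tt a b (T ∪ S) w') := by
    intro hsub
    apply hne
    refine eq_of_tight hG hI (fun i hi => ?_)
    rw [(mem_tt.1 hi).2, (mem_tt.1 (hsub hi)).2]
  have hsd : (tt a b (T ∪ S) w \ tt a b (T ∪ S) w').card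
      + (tt a b (T ∪ S) w ∩ tt a b (T ∪ S) w').card = n := by
    rw [Finset.card_sdiff_add_card_inter, hI]
  have hpos : 0 < (tt a b (T ∪ S) w \ tt a b (T ∪ S) w').card := by
    rw [Finset.card_pos, Finset.sdiff_nonempty]
    exact hnot
  have hone : (tt a b (T ∪ S) w \ tt a b (T ∪ S) w').card = 1 := by omega
  obtain ⟨i, hi⟩ := Finset.card_eq_one.1 hone
  have hmem : i ∈ tt a b (T ∪ S) w \ tt a b (T ∪ S) w' := by
    rw [hi]; exact Finset.mem_singleton_self i
  have hiI := (Finset.mem_sdiff.1 hmem).1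
  have hiI' := (Finset.mem_sdiff.1 hmem).2
  have hoth : ∀ j ∈ tt a b (T ∪ S) w, j ≠ i → j ∈ tt a b (T ∪ S) w' := by
    intro j hj hji
    by_contra hc
    have : j ∈ tt a b (T ∪ S) w \ tt a b (T ∪ S) w' := Finset.mem_sdiff.2 ⟨hj, hc⟩
    rw [hi, Finset.mem_singleton] at this
    exact hji this
  have hiT : i ∉ T := by
    intro hT
    exact hiI' (mem_tt.2 ⟨Finset.mem_union_left _ hT, hw'.1.1 i hT⟩)
  have hiS : i ∈ S := by
    rcases Finset.mem_union.1 (mem_tt.1 hiI).1 with h | h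
    · exact absurd h hiT
    · exact h
  obtain ⟨r, hr1, hr0⟩ := dir_exists hG hI hiI
  refine ⟨i, hiI, hiT, r, hr1, hr0, b i - a i ⬝ᵥ w', ?_, ?_⟩
  · have h1 : a i ⬝ᵥ w' ≤ b i := hw'.1.2 i hiS
    have h2 : a i ⬝ᵥ w' ≠ b i := fun h => hiI' (mem_tt.2 ⟨(mem_tt.1 hiI).1, h⟩)
    have h3 : a i ⬝ᵥ w' < b i := lt_of_le_of_ne h1 h2
    linarith
  · refine eq_of_tight hG hI (fun j hj => ?_)
    rw [dotProduct_add, dotProduct_smul, (mem_tt.1 hj).2]
    by_cases hji : j = i
    · subst hji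
      rw [hr1, smul_eq_mul]
      ring
    · rw [hr0 j hj hji, (mem_tt.1 (hoth j hj hji)).2]
      simp

theorem stay {m n : ℕ} {a : Fin m → Fin n → ℝ} {b : Fin m → ℝ} (hG : GPos a b)
    {T S F' : Finset (Fin m)} (hF' : F' ⊆ S) {v : Fin n → ℝ} {r0 : ℕ}
    (hF : ∀ j ∈ S, ∀ w, Reach a b T S r0 v w → a j ⬝ᵥ w = b j → j ∈ F')
    (hv : Vert a b T S v) :
    ∀ r ≤ r0, ∀ w, Reach a b T F' r v w → Reach a b T S r v w := by
  have hTF : T ∪ F' ⊆ T ∪ S := Finset.union_subset_union_right hF'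
  have httsub : ∀ x, tt a b (T ∪ F') x ⊆ tt a b (T ∪ S) x := by
    intro x j hj
    exact mem_tt.2 ⟨hTF (mem_tt.1 hj).1, (mem_tt.1 hj).2⟩
  intro r
  induction r with
  | zero =>
    intro _ w h
    obtain ⟨_, h2⟩ := h
    exact ⟨hv, h2⟩
  | succ r ih =>
    intro hr w h
    obtain ⟨z, hz, hwv, hor⟩ := h
    have hzS := ih (by omega) z hz
    rcases hor with heq | hadj
    · subst heq
      exact reach_mono (Nat.le_succ r) hzS
    · have hzV : Vert a b T S z := reach_vert hzS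
      have hzF : Vert a b T F' z := reach_vert hz
      have hzeq : tt a b (T ∪ S) z = tt a b (T ∪ F') z := by
        have hle : (tt a b (T ∪ S) z).card ≤ (tt a b (T ∪ F') z).card := by
          rw [hzV.2, hzF.2]
        exact (Finset.eq_of_subset_of_card_le (httsub z) hle).symm
      by_cases hwP : w ∈ Pol a b T S
      · have hw2 := vert_of_subset hG hwP (httsub w) (le_of_eq hwv.2.symm)
        refine ⟨z, hzS, hw2.1, Or.inr ⟨hadj.1, ?_⟩⟩
        rw [hzeq, hw2.2]
        exact hadj.2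
      · exfalso
        obtain ⟨i, hiI, hiT, ρ, hρ1, hρ0, τ, hτ, hw⟩ := adj_ray hG hzF hwv hadj
        rw [← hzeq] at hiI hρ0
        obtain ⟨s, hs0, hsτ, hVz', hAz', j, hjS, hjn, hjt⟩ :=
          exit_lemma hG hzV hiI hiT hρ1 hρ0 hτ (by rw [← hw]; exact hwP)
        have hreach : Reach a b T S (r + 1) v (z + s • ρ) := ⟨z, hzS, hVz', Or.inr hAz'⟩
        have hjF : j ∈ F' := hF j hjS _ (reach_mono hr hreach) hjt
        have hjz : a j ⬝ᵥ z < b j := by
          have h1 : a j ⬝ᵥ z ≤ b j := hzV.1.2 j hjS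
          have h2 : a j ⬝ᵥ z ≠ b j :=
            fun h => hjn (mem_tt.2 ⟨Finset.mem_union_right _ hjS, h⟩)
          exact lt_of_le_of_ne h1 h2
        have hjw : a j ⬝ᵥ w ≤ b j := hwv.1.2 j hjF
        rw [hw, dotProduct_add, dotProduct_smul, smul_eq_mul] at hjw
        rw [dotProduct_add, dotProduct_smul, smul_eq_mul] at hjt
        have hρj : 0 < a j ⬝ᵥ ρ := by
          by_contra hc
          push Not at hc
          have : s * (a j ⬝ᵥ ρ) ≤ 0 := mul_nonpos_of_nonneg_of_nonpos hs0.le hc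
          linarith
        have : s * (a j ⬝ᵥ ρ) < τ * (a j ⬝ᵥ ρ) := mul_lt_mul_of_pos_right hsτ hρj
        linarith

end Pool.Agent.Lib.SHirsch
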