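import Pool.Agent.Lib.SHirsch.PProd
import Pool.Agent.Lib.SHirsch.PSel

/-!
# PDel: deleting light rows (120 lines)

Lemma 7 of the paper. Let `B` be as in `select n K`. For every `α`: `μ (B α ∩ {∀ i ∈ K, ω i ⬝ᵥ ray ω α ≤ 0}) ≥ (1/10)^K.card * μ (B α)`: `prod_lemma` with `T = Kᶜ`, `R = K`, `f` = indicator of `B α` (depends only on `Kᶜ`), `h i ω v` = indicator of `v ⬝ᵥ ray ω α ≤ 0` (for `ω ∈ B α`, `RayIn K α ω`, so `α` uses only
rows of `Kᶜ`; if `α` uses a row of `K` then `B α` is empty and there is nothing to prove; `ray_congr`), and `LightLaw.half` (`ray ω α ≠ 0` on `B α`). These sets are disjoint and contained in `{Fea univ}`: `ray ω α` is in the cone of `Kᶜ` and of `K`. Sum over `α` and use `fea_sum`.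
(`Fea univ` need not be measurable: `Σ μ(disjoint measurable pieces) = μ (⋃) ≤ μ {Fea univ}`.)
-/

set_option autoImplicit false

open MeasureTheory

namespace Pool.Agent.Lib.SHirsch

private theorem pdel_ray_measurable {ι : Type} [Fintype ι] {n : ℕ} (α : (Fin n → ι) × Bool) :
    Measurable (fun ω : ι → Fin (n + 1) → ℝ => ray ω α) := by
  unfold ray
  exact (cv_measurable α.1).const_smul (if α.2 then (1 : ℝ) else (-1 : ℝ))

private theorem pdel_dot_measurable {X : Type} [MeasurableSpace X] {d : ℕ}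
    {f g : X → Fin d → ℝ} (hf : Measurable f) (hg : Measurable g) :
    Measurable (fun x => f x ⬝ᵥ g x) := by
  unfold dotProduct
  refine Finset.measurable_sum _ fun i _ => ?_
  exact ((measurable_pi_apply i).comp hf).mul ((measurable_pi_apply i).comp hg)

private theorem pdel_ray_congr {ι : Type} [Fintype ι] [DecidableEq ι] {n : ℕ} {K : Finset ι}
    {α : (Fin n → ι) × Bool} (hα : ∀ k, α.1 k ∉ K) {ω ω' : ι → Fin (n + 1) → ℝ}
    (h : ∀ i ∈ Kᶜ, ω i = ω' i) : ray ω α = ray ω' α := by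
  unfold ray
  have h1 : (fun k => ω (α.1 k)) = fun k => ω' (α.1 k) := by
    funext k
    exact h _ (Finset.mem_compl.2 (hα k))
  rw [h1]

private theorem pdel_piece {ι : Type} [Fintype ι] [DecidableEq ι] {n : ℕ}
    (ν : ι → Measure (Fin (n + 1) → ℝ)) [∀ i, IsProbabilityMeasure (ν i)] (L K : Finset ι)
    (hL : ∀ i ∈ L, LightLaw (ν i)) (hKL : K ⊆ L) (α : (Fin n → ι) × Bool)
    (B : Set (ι → Fin (n + 1) → ℝ)) (hBm : MeasurableSet B) (hBR : ∀ ω ∈ B, RayIn K α ω)
    (hBc : ∀ ω ω' : ι → Fin (n + 1) → ℝ, (∀ i ∈ Kᶜ, ω i = ω' i) → (ω ∈ B ↔ ω' ∈ B)) :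
    ENNReal.ofReal (1 / 10) ^ K.card * (Measure.pi ν) B ≤
      (Measure.pi ν) (B ∩ {ω | ∀ i ∈ K, ω i ⬝ᵥ ray ω α ≤ 0}) := by
  classical
  by_cases hα : ∀ k, α.1 k ∉ K
  · have hray := pdel_ray_measurable (ι := ι) α
    have hset : MeasurableSet {p : (ι → Fin (n + 1) → ℝ) × (Fin (n + 1) → ℝ) |
        p.2 ⬝ᵥ ray p.1 α ≤ 0} :=
      measurableSet_le (pdel_dot_measurable measurable_snd (hray.comp measurable_fst))
        measurable_const
    have key := prod_lemma ν Kᶜ K (Finset.disjoint_left.2 fun i hi hi' =>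
        (Finset.mem_compl.1 hi) hi')
      (B.indicator fun _ => 1) (measurable_const.indicator hBm)
      (fun ω ω' hω => by
        by_cases hm : ω ∈ B
        · rw [Set.indicator_of_mem hm, Set.indicator_of_mem ((hBc ω ω' hω).1 hm)]
        · rw [Set.indicator_of_notMem hm,
            Set.indicator_of_notMem fun h => hm ((hBc ω ω' hω).2 h)])
      (fun _ ω v => {p : (ι → Fin (n + 1) → ℝ) × (Fin (n + 1) → ℝ) |
        p.2 ⬝ᵥ ray p.1 α ≤ 0}.indicator (fun _ => (1 : ENNReal)) (ω, v))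
      (fun _ => measurable_const.indicator hset)
      (fun _ v ω ω' hω => by
        have h1 := pdel_ray_congr hα hω
        simp only [Set.indicator_apply, Set.mem_ofPred_eq, h1])
    have hcK : MeasurableSet {ω : ι → Fin (n + 1) → ℝ | ∀ i ∈ K, ω i ⬝ᵥ ray ω α ≤ 0} := by
      have h1 : {ω : ι → Fin (n + 1) → ℝ | ∀ i ∈ K, ω i ⬝ᵥ ray ω α ≤ 0} =
          ⋂ i ∈ K, {ω | ω i ⬝ᵥ ray ω α ≤ 0} := by
        ext ω; simp
      rw [h1]
      exact Finset.measurableSet_biInter _ fun i _ =>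
        measurableSet_le (pdel_dot_measurable (measurable_pi_apply i) hray) measurable_const
    have hR : (Measure.pi ν) (B ∩ {ω | ∀ i ∈ K, ω i ⬝ᵥ ray ω α ≤ 0}) =
        ∫⁻ ω, (B.indicator (fun _ => (1 : ENNReal)) ω) * ∏ i ∈ K,
          {p : (ι → Fin (n + 1) → ℝ) × (Fin (n + 1) → ℝ) |
            p.2 ⬝ᵥ ray p.1 α ≤ 0}.indicator (fun _ => (1 : ENNReal)) (ω, ω i)
          ∂(Measure.pi ν) := by
      rw [← lintegral_indicator_one (hBm.inter hcK)]
      refine lintegral_congr fun ω => ?_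
      by_cases hm : ω ∈ B
      · rw [Set.indicator_of_mem hm, one_mul]
        by_cases hk : ∀ i ∈ K, ω i ⬝ᵥ ray ω α ≤ 0
        · have hmem : ω ∈ B ∩ {ω | ∀ i ∈ K, ω i ⬝ᵥ ray ω α ≤ 0} := ⟨hm, hk⟩
          rw [Set.indicator_of_mem hmem]
          symm
          simp only [Pi.one_apply]
          exact Finset.prod_eq_one fun i hi => by
            rw [Set.indicator_of_mem]
            exact hk i hi
        · rw [Set.indicator_of_notMem fun h => hk h.2]
          push Not at hk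
          obtain ⟨i, hi, hlt⟩ := hk
          symm
          refine Finset.prod_eq_zero hi ?_
          rw [Set.indicator_of_notMem]
          intro h
          exact absurd h (not_le.2 hlt)
      · rw [Set.indicator_of_notMem hm, zero_mul, Set.indicator_of_notMem fun h => hm h.1]
    rw [hR, key]
    have h2 : ENNReal.ofReal (1 / 10) ^ K.card * (Measure.pi ν) B =
        ∫⁻ ω, ENNReal.ofReal (1 / 10) ^ K.card * (B.indicator (fun _ => (1 : ENNReal)) ω)
          ∂(Measure.pi ν) := by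
      rw [lintegral_const_mul _ (measurable_const.indicator hBm)]
      congr 1
      exact (lintegral_indicator_one hBm).symm
    rw [h2]
    refine lintegral_mono fun ω => ?_
    by_cases hm : ω ∈ B
    · simp only [Set.indicator_of_mem hm, mul_one, one_mul]
      rw [← Finset.prod_const]
      refine Finset.prod_le_prod' fun i hi => ?_
      have hne : ray ω α ≠ 0 := (hBR ω hm).2.1
      have h3 := (hL i (hKL hi)).half (ray ω α) hne
      refine h3.trans (le_of_eq ?_)
      have hms : MeasurableSet {v : Fin (n + 1) → ℝ | v ⬝ᵥ ray ω α ≤ 0} :=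
        measurableSet_le (pdel_dot_measurable measurable_id measurable_const) measurable_const
      rw [← lintegral_indicator_one hms]
      refine lintegral_congr fun v => ?_
      simp only [Set.indicator_apply, Set.mem_ofPred_eq, Pi.one_apply]
    · simp only [Set.indicator_of_notMem hm, mul_zero, zero_mul, le_refl]
  · push Not at hα
    obtain ⟨k, hk⟩ := hα
    have hB0 : B = ∅ := by
      refine Set.eq_empty_iff_forall_notMem.2 fun ω hω => ?_
      exact (hBR ω hω).1 k hk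
    simp [hB0]

theorem deletion {ι : Type} [Fintype ι] [DecidableEq ι] {n : ℕ}
    (ν : ι → Measure (Fin (n + 1) → ℝ)) [∀ i, IsProbabilityMeasure (ν i)] (L K : Finset ι)
    (hL : ∀ i ∈ L, LightLaw (ν i)) (hKL : K ⊆ L) (hK : n + 1 ≤ Kᶜ.card)
    (hGP : ∀ᵐ ω ∂(Measure.pi ν), GPc ω) :
    (Measure.pi ν) {ω | Fea Kᶜ ω} ≤
      10 ^ K.card * (Measure.pi ν) {ω | Fea (Finset.univ : Finset ι) ω} := by
  classical
  obtain ⟨B, hBm, hBR, hBd, hBu, hBc⟩ := select (ι := ι) n K
  rw [← fea_sum ν hK hGP hBm hBd hBu]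
  have hDm : ∀ α, MeasurableSet (B α ∩ {ω | ∀ i ∈ K, ω i ⬝ᵥ ray ω α ≤ 0}) := by
    intro α
    refine (hBm α).inter ?_
    have h1 : {ω : ι → Fin (n + 1) → ℝ | ∀ i ∈ K, ω i ⬝ᵥ ray ω α ≤ 0} =
        ⋂ i ∈ K, {ω | ω i ⬝ᵥ ray ω α ≤ 0} := by
      ext ω; simp
    rw [h1]
    exact Finset.measurableSet_biInter _ fun i _ =>
      measurableSet_le (pdel_dot_measurable (measurable_pi_apply i) (pdel_ray_measurable α))
        measurable_const
  have hsum : ∑ α, (Measure.pi ν) (B α ∩ {ω | ∀ i ∈ K, ω i ⬝ᵥ ray ω α ≤ 0}) ≤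
      (Measure.pi ν) {ω | Fea (Finset.univ : Finset ι) ω} := by
    have h1 : (Measure.pi ν) (⋃ α ∈ (Finset.univ : Finset ((Fin n → ι) × Bool)),
        (B α ∩ {ω | ∀ i ∈ K, ω i ⬝ᵥ ray ω α ≤ 0})) =
        ∑ α, (Measure.pi ν) (B α ∩ {ω | ∀ i ∈ K, ω i ⬝ᵥ ray ω α ≤ 0}) := by
      refine measure_biUnion_finset ?_ fun α _ => hDm α
      intro α _ β _ hab
      exact (hBd α β hab).mono Set.inter_subset_left Set.inter_subset_left
    rw [← h1]
    refine measure_mono ?_
    intro ω hω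
    simp only [Finset.mem_univ, Set.iUnion_true, Set.mem_iUnion] at hω
    obtain ⟨α, hα, hk⟩ := hω
    have hr := hBR α ω hα
    refine ⟨ray ω α, ?_, hr.2.1⟩
    intro i _
    by_cases hi : i ∈ K
    · exact hk i hi
    · exact hr.2.2 i (Finset.mem_compl.2 hi)
  refine le_trans ?_ (mul_le_mul_right hsum _)
  rw [Finset.mul_sum]
  refine Finset.sum_le_sum fun α _ => ?_
  have h1 := pdel_piece ν L K hL hKL α (B α) (hBm α) (hBR α) (hBc α)
  have h10 : (10 : ENNReal) ^ K.card * ENNReal.ofReal (1 / 10) ^ K.card = 1 := by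
    rw [← mul_pow]
    have h2 : (10 : ENNReal) * ENNReal.ofReal (1 / 10) = 1 := by
      have h3 : (10 : ENNReal) = ENNReal.ofReal 10 := by norm_num
      rw [h3, ← ENNReal.ofReal_mul (by norm_num)]
      norm_num
    rw [h2, one_pow]
  calc (Measure.pi ν) (B α) = 10 ^ K.card * (ENNReal.ofReal (1 / 10) ^ K.card *
        (Measure.pi ν) (B α)) := by
        rw [← mul_assoc, h10, one_mul]
    _ ≤ _ := by gcongr

end Pool.Agent.Lib.SHirsch
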