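import Pool.Agent.Lib.SHirsch.PProd
import Pool.Agent.Lib.SHirsch.RCv

/-!
# PTwo: two far rays are both present with small probability (250 lines)

Lemma 6 of the paper. If `α` or `β` uses a row of `K` the left side is `0`. `T` = rows used by `α` and `β` (`T.card ≤ 2 n`), `R = Kᶜ \ T`. `f` = indicator of `{ray α ≠ 0, ray β ≠ 0, ω i ⬝ᵥ ray α ≤ 0 for i ∈ T ∩ Kᶜ = T, θ ≤ chd (ray α) (ray β)}`: measurable (`ray_measurable`, continuity
of `⬝ᵥ`, `nrm` measurable, `chd` measurable), depends only on `ω` restricted to `T` (`ray_congr`). `h i ω v` = indicator of `{v ⬝ᵥ ray ω α ≤ 0 ∧ v ⬝ᵥ ray ω β ≤ 0}`. The event is contained in `{f ω * ∏ i ∈ R, h i ω (ω i) = 1}`, so its measure is at most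
`∫ f ∏ h = ∫ f ∏ (∫ h dν)` (`prod_lemma`). On `{f = 1}`: for `i ∈ R ∩ L`: `∫ h i ω v dν_i ≤ ofReal (1 - θ/10000) * ν_i {v ⬝ᵥ ray ω α ≤ 0}` by `LightLaw.two` and `chd ≥ θ`; for other `i ∈ R` simply `≤ ν_i {v ⬝ᵥ ray ω α ≤ 0}`. The product of the factors is
`≤ ofReal(1 - θ/10000)^(R ∩ L).card ≤ ofReal(1 - θ/10000)^((L \ K).card - 2 n)` since `ofReal (1 - θ/10000) ≤ 1` and `(R ∩ L).card ≥ (L \ K).card - T.card`. Finally `∫ f ∏_{i ∈ R} ν_i {v ⬝ᵥ ray ω α ≤ 0} = ∫ f ∏ indicator(ω i ⬝ᵥ ray ω α ≤ 0)` (`prod_lemma` again) `≤ μ {RayIn K α}`.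
-/

set_option autoImplicit false

open MeasureTheory

namespace Pool.Agent.Lib.SHirsch

private theorem dot_meas {Ω : Type} [MeasurableSpace Ω] {d : ℕ} {u w : Ω → Fin d → ℝ}
    (hu : Measurable u) (hw : Measurable w) : Measurable (fun ω => u ω ⬝ᵥ w ω) := by
  simp only [dotProduct]
  exact Finset.measurable_sum _ (fun i _ =>
    ((measurable_pi_apply i).comp hu).mul ((measurable_pi_apply i).comp hw))

private theorem nrm_meas {Ω : Type} [MeasurableSpace Ω] {d : ℕ} {u : Ω → Fin d → ℝ}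
    (hu : Measurable u) : Measurable (fun ω => nrm (u ω)) := by
  unfold nrm
  exact (dot_meas hu hu).sqrt

theorem chd_measurable {Ω : Type} [MeasurableSpace Ω] {d : ℕ} {u w : Ω → Fin d → ℝ}
    (hu : Measurable u) (hw : Measurable w) : Measurable (fun ω => chd (u ω) (w ω)) := by
  unfold chd
  apply nrm_meas
  exact ((nrm_meas hu).inv.smul hu).sub ((nrm_meas hw).inv.smul hw)

theorem two_rays {ι : Type} [Fintype ι] [DecidableEq ι] {n : ℕ}
    (ν : ι → Measure (Fin (n + 1) → ℝ)) [∀ i, IsProbabilityMeasure (ν i)] (L K : Finset ι)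
    (hL : ∀ i ∈ L, LightLaw (ν i)) (α β : (Fin n → ι) × Bool) (θ : ℝ) (hθ : 0 ≤ θ) :
    (Measure.pi ν) {ω | RayIn K α ω ∧ RayIn K β ω ∧ θ ≤ chd (ray ω α) (ray ω β)} ≤
      ENNReal.ofReal (1 - θ / 10000) ^ ((L \ K).card - 2 * n) *
        (Measure.pi ν) {ω | RayIn K α ω} := by
  classical
  set μ := Measure.pi ν with hμ
  by_cases hαK : ∀ k, α.1 k ∉ K
  swap
  · have h0 : {ω | RayIn K α ω ∧ RayIn K β ω ∧ θ ≤ chd (ray ω α) (ray ω β)} = ∅ := by
      ext ω
      simp only [Set.mem_ofPred_eq, Set.mem_empty_iff_false, iff_false]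
      rintro ⟨h1, _⟩
      exact hαK h1.1
    rw [h0, measure_empty]
    exact zero_le
  by_cases hβK : ∀ k, β.1 k ∉ K
  swap
  · have h0 : {ω | RayIn K α ω ∧ RayIn K β ω ∧ θ ≤ chd (ray ω α) (ray ω β)} = ∅ := by
      ext ω
      simp only [Set.mem_ofPred_eq, Set.mem_empty_iff_false, iff_false]
      rintro ⟨_, h1, _⟩
      exact hβK h1.1
    rw [h0, measure_empty]
    exact zero_le
  set T : Finset ι := Finset.univ.image α.1 ∪ Finset.univ.image β.1 with hT
  have hTα : ∀ k, α.1 k ∈ T := by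
    intro k
    rw [hT, Finset.mem_union]
    exact Or.inl (Finset.mem_image_of_mem _ (Finset.mem_univ k))
  have hTβ : ∀ k, β.1 k ∈ T := by
    intro k
    rw [hT, Finset.mem_union]
    exact Or.inr (Finset.mem_image_of_mem _ (Finset.mem_univ k))
  have hTK : ∀ i ∈ T, i ∉ K := by
    intro i hi
    rw [hT, Finset.mem_union, Finset.mem_image, Finset.mem_image] at hi
    rcases hi with ⟨k, _, rfl⟩ | ⟨k, _, rfl⟩
    · exact hαK k
    · exact hβK k
  have hTcard : T.card ≤ 2 * n := by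
    rw [hT]
    refine (Finset.card_union_le _ _).trans ?_
    have h1 := Finset.card_image_le (s := (Finset.univ : Finset (Fin n))) (f := α.1)
    have h2 := Finset.card_image_le (s := (Finset.univ : Finset (Fin n))) (f := β.1)
    rw [Finset.card_univ, Fintype.card_fin] at h1 h2
    omega
  set R : Finset ι := Kᶜ \ T with hR
  have hTR : Disjoint T R := by
    rw [hR]
    exact Finset.disjoint_sdiff
  have hrα : ∀ ω ω' : ι → Fin (n + 1) → ℝ, (∀ i ∈ T, ω i = ω' i) → ray ω α = ray ω' α :=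
    fun ω ω' h => ray_congr α (fun k => h _ (hTα k))
  have hrβ : ∀ ω ω' : ι → Fin (n + 1) → ℝ, (∀ i ∈ T, ω i = ω' i) → ray ω β = ray ω' β :=
    fun ω ω' h => ray_congr β (fun k => h _ (hTβ k))
  set E : Set (ι → Fin (n + 1) → ℝ) := {ω | ray ω α ≠ 0 ∧ ray ω β ≠ 0 ∧
    (∀ i ∈ T, ω i ⬝ᵥ ray ω α ≤ 0) ∧ θ ≤ chd (ray ω α) (ray ω β)} with hE
  have hma := ray_measurable (n := n) α
  have hmb := ray_measurable (n := n) β
  have hEm : MeasurableSet E := by
    have h1 : MeasurableSet {ω : ι → Fin (n + 1) → ℝ | ray ω α ≠ 0} :=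
      (hma (measurableSet_singleton 0)).compl
    have h2 : MeasurableSet {ω : ι → Fin (n + 1) → ℝ | ray ω β ≠ 0} :=
      (hmb (measurableSet_singleton 0)).compl
    have h3 : MeasurableSet {ω : ι → Fin (n + 1) → ℝ | ∀ i ∈ T, ω i ⬝ᵥ ray ω α ≤ 0} := by
      have h4 : {ω : ι → Fin (n + 1) → ℝ | ∀ i ∈ T, ω i ⬝ᵥ ray ω α ≤ 0} =
          ⋂ i ∈ T, {ω : ι → Fin (n + 1) → ℝ | ω i ⬝ᵥ ray ω α ≤ 0} := by
        ext ω
        simp only [Set.mem_ofPred_eq, Set.mem_iInter]
      rw [h4]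
      exact Finset.measurableSet_biInter _ (fun i _ =>
        measurableSet_le (dot_meas (measurable_pi_apply i) hma) measurable_const)
    have h5 : MeasurableSet {ω : ι → Fin (n + 1) → ℝ | θ ≤ chd (ray ω α) (ray ω β)} :=
      measurableSet_le measurable_const (chd_measurable hma hmb)
    exact h1.inter (h2.inter (h3.inter h5))
  have hET : ∀ ω ω' : ι → Fin (n + 1) → ℝ, (∀ i ∈ T, ω i = ω' i) → (ω ∈ E ↔ ω' ∈ E) := by
    intro ω ω' h
    simp only [hE, Set.mem_ofPred_eq]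
    rw [hrα ω ω' h, hrβ ω ω' h]
    have h1 : (∀ i ∈ T, ω i ⬝ᵥ ray ω' α ≤ 0) ↔ (∀ i ∈ T, ω' i ⬝ᵥ ray ω' α ≤ 0) := by
      constructor
      · intro h2 i hi
        rw [← h i hi]
        exact h2 i hi
      · intro h2 i hi
        rw [h i hi]
        exact h2 i hi
    rw [h1]
  set f : (ι → Fin (n + 1) → ℝ) → ENNReal := E.indicator 1 with hf
  have hfm : Measurable f := measurable_one.indicator hEm
  have hfT : ∀ ω ω' : ι → Fin (n + 1) → ℝ, (∀ i ∈ T, ω i = ω' i) → f ω = f ω' := by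
    intro ω ω' h
    simp only [hf, Set.indicator_apply, hET ω ω' h]
    rfl
  -- the two families of indicators
  set P : Set ((ι → Fin (n + 1) → ℝ) × (Fin (n + 1) → ℝ)) := {p | p.2 ⬝ᵥ ray p.1 α ≤ 0} with hP
  set P' : Set ((ι → Fin (n + 1) → ℝ) × (Fin (n + 1) → ℝ)) :=
    {p | p.2 ⬝ᵥ ray p.1 α ≤ 0 ∧ p.2 ⬝ᵥ ray p.1 β ≤ 0} with hP'
  have hPm : MeasurableSet P :=
    measurableSet_le (dot_meas measurable_snd (hma.comp measurable_fst)) measurable_const
  have hP'm : MeasurableSet P' :=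
    hPm.inter (measurableSet_le (dot_meas measurable_snd (hmb.comp measurable_fst))
      measurable_const)
  set h : ι → (ι → Fin (n + 1) → ℝ) → (Fin (n + 1) → ℝ) → ENNReal :=
    fun _ ω v => P'.indicator 1 (ω, v) with hh
  set g : ι → (ι → Fin (n + 1) → ℝ) → (Fin (n + 1) → ℝ) → ENNReal :=
    fun _ ω v => P.indicator 1 (ω, v) with hg
  have hhm : ∀ i, Measurable (fun p : (ι → Fin (n + 1) → ℝ) × (Fin (n + 1) → ℝ) =>
      h i p.1 p.2) := fun i => measurable_one.indicator hP'm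
  have hgm : ∀ i, Measurable (fun p : (ι → Fin (n + 1) → ℝ) × (Fin (n + 1) → ℝ) =>
      g i p.1 p.2) := fun i => measurable_one.indicator hPm
  have hhT : ∀ i v, ∀ ω ω' : ι → Fin (n + 1) → ℝ, (∀ j ∈ T, ω j = ω' j) → h i ω v = h i ω' v := by
    intro i v ω ω' hω
    simp only [hh, hP', Set.indicator_apply, Set.mem_ofPred_eq, hrα ω ω' hω, hrβ ω ω' hω]
    rfl
  have hgT : ∀ i v, ∀ ω ω' : ι → Fin (n + 1) → ℝ, (∀ j ∈ T, ω j = ω' j) → g i ω v = g i ω' v := by
    intro i v ω ω' hω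
    simp only [hg, hP, Set.indicator_apply, Set.mem_ofPred_eq, hrα ω ω' hω]
    rfl
  have hp1 := prod_lemma ν T R hTR f hfm hfT h hhm hhT
  have hp2 := prod_lemma ν T R hTR f hfm hfT g hgm hgT
  -- integrals of the indicators
  have hhi : ∀ i ω, ∫⁻ v, h i ω v ∂(ν i) =
      ν i {v | v ⬝ᵥ ray ω α ≤ 0 ∧ v ⬝ᵥ ray ω β ≤ 0} := by
    intro i ω
    have h1 : MeasurableSet {v : Fin (n + 1) → ℝ | v ⬝ᵥ ray ω α ≤ 0 ∧ v ⬝ᵥ ray ω β ≤ 0} :=
      (measurableSet_le (dot_meas measurable_id measurable_const) measurable_const).inter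
        (measurableSet_le (dot_meas measurable_id measurable_const) measurable_const)
    rw [← lintegral_indicator_one h1]
    apply lintegral_congr
    intro v
    simp only [hh, hP', Set.indicator_apply, Set.mem_ofPred_eq]
    rfl
  have hgi : ∀ i ω, ∫⁻ v, g i ω v ∂(ν i) = ν i {v | v ⬝ᵥ ray ω α ≤ 0} := by
    intro i ω
    have h1 : MeasurableSet {v : Fin (n + 1) → ℝ | v ⬝ᵥ ray ω α ≤ 0} :=
      measurableSet_le (dot_meas measurable_id measurable_const) measurable_const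
    rw [← lintegral_indicator_one h1]
    apply lintegral_congr
    intro v
    simp only [hg, hP, Set.indicator_apply, Set.mem_ofPred_eq]
    rfl
  -- upper bound of the left side
  have hup : μ {ω | RayIn K α ω ∧ RayIn K β ω ∧ θ ≤ chd (ray ω α) (ray ω β)} ≤
      ∫⁻ ω, f ω * ∏ i ∈ R, h i ω (ω i) ∂μ := by
    have hFm : Measurable (fun ω : ι → Fin (n + 1) → ℝ => f ω * ∏ i ∈ R, h i ω (ω i)) := by
      apply hfm.mul
      apply Finset.measurable_prod
      intro i _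
      exact (hhm i).comp (measurable_id.prodMk (measurable_pi_apply i))
    have h1 := mul_meas_ge_le_lintegral (μ := μ) hFm 1
    rw [one_mul] at h1
    refine le_trans (measure_mono ?_) h1
    rintro ω ⟨hA, hB, hθ'⟩
    rw [Set.mem_ofPred_eq]
    have hfe : f ω = 1 := by
      rw [hf, Set.indicator_of_mem]
      · rfl
      · refine ⟨hA.2.1, hB.2.1, ?_, hθ'⟩
        intro i hi
        exact hA.2.2 i (Finset.mem_compl.mpr (hTK i hi))
    have hhe : ∏ i ∈ R, h i ω (ω i) = 1 := by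
      apply Finset.prod_eq_one
      intro i hi
      have hiK : i ∈ Kᶜ := (Finset.mem_sdiff.mp hi).1
      simp only [hh]
      rw [Set.indicator_of_mem]
      · rfl
      · exact ⟨hA.2.2 i hiK, hB.2.2 i hiK⟩
    rw [hfe, hhe, one_mul]
  -- the second integral
  have hlow : ∫⁻ ω, f ω * ∏ i ∈ R, g i ω (ω i) ∂μ ≤ μ {ω | RayIn K α ω} := by
    refine le_trans (lintegral_mono (g := fun ω => {ω | RayIn K α ω}.indicator 1 ω) ?_)
      (lintegral_indicator_one_le _)
    intro ω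
    by_cases hω : ω ∈ E
    · by_cases hω2 : ∀ i ∈ R, ω i ⬝ᵥ ray ω α ≤ 0
      · have hmem : ω ∈ {ω | RayIn K α ω} := by
          refine ⟨hαK, hω.1, ?_⟩
          intro i hi
          by_cases hiT : i ∈ T
          · exact hω.2.2.1 i hiT
          · exact hω2 i (Finset.mem_sdiff.mpr ⟨hi, hiT⟩)
        simp only
        rw [Set.indicator_of_mem hmem]
        have h1 : f ω = 1 := by
          rw [hf, Set.indicator_of_mem hω]
          rfl
        have h2 : ∏ i ∈ R, g i ω (ω i) = 1 := by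
          apply Finset.prod_eq_one
          intro i hi
          simp only [hg]
          rw [Set.indicator_of_mem]
          · rfl
          · exact hω2 i hi
        rw [h1, h2, one_mul]
        exact le_rfl
      · push Not at hω2
        obtain ⟨i, hi, hi2⟩ := hω2
        have h2 : ∏ i ∈ R, g i ω (ω i) = 0 := by
          apply Finset.prod_eq_zero hi
          simp only [hg]
          rw [Set.indicator_of_notMem]
          intro h3
          exact absurd h3 (not_le.mpr hi2)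
        simp only
        rw [h2, mul_zero]
        exact zero_le
    · have h1 : f ω = 0 := by
        rw [hf, Set.indicator_of_notMem hω]
      simp only
      rw [h1, zero_mul]
      exact zero_le
  -- comparison
  set q : ENNReal := ENNReal.ofReal (1 - θ / 10000) with hq
  have hq1 : q ≤ 1 := by
    rw [hq]
    exact ENNReal.ofReal_le_one.mpr (by linarith [div_nonneg hθ (by norm_num : (0:ℝ) ≤ 10000)])
  have hqt : q ^ ((L \ K).card - 2 * n) ≠ ⊤ :=
    ENNReal.pow_ne_top (ne_top_of_le_ne_top ENNReal.one_ne_top hq1)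
  have hcard : (L \ K).card - 2 * n ≤ (R.filter (fun i => i ∈ L)).card := by
    have h1 : (L \ K) \ T ⊆ R.filter (fun i => i ∈ L) := by
      intro i hi
      rw [Finset.mem_sdiff, Finset.mem_sdiff] at hi
      rw [Finset.mem_filter, hR, Finset.mem_sdiff, Finset.mem_compl]
      exact ⟨⟨hi.1.2, hi.2⟩, hi.1.1⟩
    have h2 := Finset.card_le_card h1
    have h3 := Finset.le_card_sdiff T (L \ K)
    omega
  have hcmp : ∀ ω, f ω * ∏ i ∈ R, (∫⁻ v, h i ω v ∂(ν i)) ≤
      q ^ ((L \ K).card - 2 * n) * (f ω * ∏ i ∈ R, (∫⁻ v, g i ω v ∂(ν i))) := by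
    intro ω
    by_cases hω : ω ∈ E
    swap
    · have h1 : f ω = 0 := by
        rw [hf, Set.indicator_of_notMem hω]
      rw [h1, zero_mul]
      exact zero_le
    have hone : ∀ i ∈ R, (∫⁻ v, h i ω v ∂(ν i)) ≤
        (if i ∈ L then q else 1) * ∫⁻ v, g i ω v ∂(ν i) := by
      intro i hi
      rw [hhi, hgi]
      split_ifs with hiL
      · refine le_trans ((hL i hiL).two _ _ hω.1 hω.2.1) ?_
        apply mul_le_mul_left
        rw [hq]
        apply ENNReal.ofReal_le_ofReal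
        have := hω.2.2.2
        linarith [div_le_div_of_nonneg_right this (by norm_num : (0:ℝ) ≤ 10000)]
      · rw [one_mul]
        exact measure_mono (fun v hv => hv.1)
    have h1 : ∏ i ∈ R, (∫⁻ v, h i ω v ∂(ν i)) ≤
        q ^ ((L \ K).card - 2 * n) * ∏ i ∈ R, (∫⁻ v, g i ω v ∂(ν i)) := by
      refine le_trans (Finset.prod_le_prod' hone) ?_
      rw [Finset.prod_mul_distrib]
      apply mul_le_mul_left
      rw [Finset.prod_ite, Finset.prod_const_one, mul_one, Finset.prod_const]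
      exact pow_le_pow_right_of_le_one' hq1 hcard
    calc f ω * ∏ i ∈ R, (∫⁻ v, h i ω v ∂(ν i))
        ≤ f ω * (q ^ ((L \ K).card - 2 * n) * ∏ i ∈ R, (∫⁻ v, g i ω v ∂(ν i))) :=
          mul_le_mul_right h1 _
      _ = q ^ ((L \ K).card - 2 * n) * (f ω * ∏ i ∈ R, (∫⁻ v, g i ω v ∂(ν i))) := by ring
  calc μ {ω | RayIn K α ω ∧ RayIn K β ω ∧ θ ≤ chd (ray ω α) (ray ω β)}
      ≤ ∫⁻ ω, f ω * ∏ i ∈ R, h i ω (ω i) ∂μ := hup
    _ = ∫⁻ ω, f ω * ∏ i ∈ R, (∫⁻ v, h i ω v ∂(ν i)) ∂μ := hp1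
    _ ≤ ∫⁻ ω, q ^ ((L \ K).card - 2 * n) * (f ω * ∏ i ∈ R, (∫⁻ v, g i ω v ∂(ν i))) ∂μ :=
        lintegral_mono hcmp
    _ = q ^ ((L \ K).card - 2 * n) * ∫⁻ ω, f ω * ∏ i ∈ R, (∫⁻ v, g i ω v ∂(ν i)) ∂μ :=
        lintegral_const_mul' _ _ hqt
    _ = q ^ ((L \ K).card - 2 * n) * ∫⁻ ω, f ω * ∏ i ∈ R, g i ω (ω i) ∂μ := by
        rw [← hp2]
    _ ≤ q ^ ((L \ K).card - 2 * n) * μ {ω | RayIn K α ω} := mul_le_mul_right hlow _

end Pool.Agent.Lib.SHirsch
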