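import Pool.Agent.Lib.SHirsch.GTr
import Pool.Agent.Lib.SHirsch.PayTail

/-!
# One product measure for rows and coins (smoothed Hirsch, MP_4a5c02)

`pi_uncurry`: a product of products is a product over pairs.
`pi_sum`: two products are one product over the sum type.
`law`: the rows `Gr` and independent coins on one index type `(Fin m × Fin (n + 1)) ⊕ K`.
`rows_back`: the map from one product measure back to the noise of the problem.
-/

set_option autoImplicit false

open MeasureTheory ProbabilityTheory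
open scoped ENNReal NNReal

namespace Pool.Agent.Lib.SHirsch.Pay

open Pool.Agent.Lib.SHirsch

/-- A product of products is a product over pairs. -/
theorem pi_uncurry {α β X : Type*} [Fintype α] [Fintype β] [MeasurableSpace X]
    (μ : α → β → Measure X) [∀ i j, SigmaFinite (μ i j)] :
    MeasurePreserving (fun (x : α → β → X) (p : α × β) => x p.1 p.2)
      (Measure.pi fun i => Measure.pi fun j => μ i j) (Measure.pi fun p => μ p.1 p.2) := by
  have hm : Measurable (fun (x : α → β → X) (p : α × β) => x p.1 p.2) := by fun_prop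
  refine ⟨hm, ?_⟩
  symm
  refine Measure.pi_eq fun s hs => ?_
  rw [Measure.map_apply hm (MeasurableSet.univ_pi hs)]
  have h1 : (fun (x : α → β → X) (p : α × β) => x p.1 p.2) ⁻¹' (Set.univ.pi s) =
      Set.univ.pi fun i => Set.univ.pi fun j => s (i, j) := by
    ext x
    simp [Set.mem_pi]
  rw [h1, Measure.pi_pi]
  simp only [Measure.pi_pi]
  rw [Fintype.prod_prod_type]

/-- Two products are one product over the sum type. -/
theorem pi_sum {α β X : Type*} [Fintype α] [Fintype β] [MeasurableSpace X]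
    (μ : α → Measure X) (ν : β → Measure X) [∀ i, SigmaFinite (μ i)] [∀ i, SigmaFinite (ν i)] :
    MeasurePreserving (fun q : (α → X) × (β → X) => (Sum.elim q.1 q.2 : α ⊕ β → X))
      ((Measure.pi μ).prod (Measure.pi ν)) (Measure.pi (Sum.elim μ ν)) := by
  have hm : Measurable (fun q : (α → X) × (β → X) => (Sum.elim q.1 q.2 : α ⊕ β → X)) := by
    refine measurable_pi_lambda _ fun i => ?_
    cases i with
    | inl i => exact (measurable_pi_apply i).comp measurable_fst
    | inr i => exact (measurable_pi_apply i).comp measurable_snd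
  have : ∀ i, SigmaFinite (Sum.elim μ ν i) := by
    intro i
    cases i with
    | inl i => exact inferInstanceAs (SigmaFinite (μ i))
    | inr i => exact inferInstanceAs (SigmaFinite (ν i))
  refine ⟨hm, ?_⟩
  symm
  refine Measure.pi_eq fun s hs => ?_
  rw [Measure.map_apply hm (MeasurableSet.univ_pi hs)]
  have h1 : (fun q : (α → X) × (β → X) => (Sum.elim q.1 q.2 : α ⊕ β → X)) ⁻¹' (Set.univ.pi s) =
      (Set.univ.pi fun i => s (Sum.inl i)) ×ˢ (Set.univ.pi fun i => s (Sum.inr i)) := by
    ext q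
    simp [Set.mem_pi]
  rw [h1, Measure.prod_prod, Measure.pi_pi, Measure.pi_pi, Fintype.prod_sum_type]
  rfl

/-- The centres of all coordinates: rows `Gr` and coins. -/
noncomputable def cen {m n : ℕ} {K : Type*} (Abar : Fin m → Fin n → ℝ) (bbar : Fin m → ℝ)
    (cK : K → ℝ) : (Fin m × Fin (n + 1)) ⊕ K → ℝ :=
  Sum.elim (fun p => (Fin.cons (-(bbar p.1)) (Abar p.1) : Fin (n + 1) → ℝ) p.2) cK

/-- The variances of all coordinates. -/
noncomputable def var {m n : ℕ} {K : Type*} (σ : ℝ) (vK : K → ℝ≥0) :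
    (Fin m × Fin (n + 1)) ⊕ K → ℝ≥0 :=
  Sum.elim (fun _ => (σ ^ 2).toNNReal) vK

/-- The law of all coordinates. -/
noncomputable def mea {m n : ℕ} {K : Type*} [Fintype K] (Abar : Fin m → Fin n → ℝ)
    (bbar : Fin m → ℝ) (σ : ℝ) (cK : K → ℝ) (vK : K → ℝ≥0) :
    Measure ((Fin m × Fin (n + 1)) ⊕ K → ℝ) :=
  Measure.pi fun i => gaussianReal (cen Abar bbar cK i) (var (m := m) (n := n) σ vK i)

instance {m n : ℕ} {K : Type*} [Fintype K] (Abar : Fin m → Fin n → ℝ)
    (bbar : Fin m → ℝ) (σ : ℝ) (cK : K → ℝ) (vK : K → ℝ≥0) :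
    IsProbabilityMeasure (mea Abar bbar σ cK vK) := by
  unfold mea; infer_instance

/-- The system `(a, b)` read off from all coordinates. -/
def sysA {m n : ℕ} {K : Type*} (ω : (Fin m × Fin (n + 1)) ⊕ K → ℝ) : Fin m → Fin n → ℝ :=
  fun i j => ω (Sum.inl (i, j.succ))

def sysB {m n : ℕ} {K : Type*} (ω : (Fin m × Fin (n + 1)) ⊕ K → ℝ) : Fin m → ℝ :=
  fun i => -ω (Sum.inl (i, 0))

/-- From one product measure back to the noise of the problem. -/
theorem rows_back {m n : ℕ} {K : Type*} [Fintype K] (Abar : Fin m → Fin n → ℝ)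
    (bbar : Fin m → ℝ) (σ : ℝ) (cK : K → ℝ) (vK : K → ℝ≥0) :
    MeasurePreserving
      (fun ω : (Fin m × Fin (n + 1)) ⊕ K → ℝ =>
        ((fun i j => sysA ω i j - Abar i j : Fin m → Fin n → ℝ),
          (fun i => sysB ω i - bbar i : Fin m → ℝ)))
      (mea Abar bbar σ cK vK) (noise m n σ) := by
  set v := (σ ^ 2).toNNReal with hv
  set back : ((Fin m × Fin (n + 1)) ⊕ K → ℝ) → (Fin m → Fin n → ℝ) × (Fin m → ℝ) := fun ω =>
        ((fun i j => sysA ω i j - Abar i j : Fin m → Fin n → ℝ),
          (fun i => sysB ω i - bbar i : Fin m → ℝ)) with hback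
  have hm : Measurable back := by
    simp only [hback]
    unfold sysA sysB
    fun_prop
  let flat : ((Fin m → Fin n → ℝ) × (Fin m → ℝ)) → ((Fin m × Fin n) ⊕ Fin m → ℝ) := fun q =>
    Sum.elim (fun p => q.1 p.1 p.2) q.2
  let unflat : ((Fin m × Fin n) ⊕ Fin m → ℝ) → ((Fin m → Fin n → ℝ) × (Fin m → ℝ)) := fun x =>
    ((fun i j => x (Sum.inl (i, j))), (fun i => x (Sum.inr i)))
  have hflat : Measurable flat := by
    refine measurable_pi_lambda _ fun i => ?_
    cases i with
    | inl p =>
      change Measurable fun q : (Fin m → Fin n → ℝ) × (Fin m → ℝ) => q.1 p.1 p.2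
      fun_prop
    | inr i =>
      change Measurable fun q : (Fin m → Fin n → ℝ) × (Fin m → ℝ) => q.2 i
      fun_prop
  have hunflat : Measurable unflat := by
    change Measurable fun x : ((Fin m × Fin n) ⊕ Fin m → ℝ) =>
      ((fun i j => x (Sum.inl (i, j)) : Fin m → Fin n → ℝ), (fun i => x (Sum.inr i) : Fin m → ℝ))
    fun_prop
  have hid : unflat ∘ flat = id := by
    funext q
    rfl
  -- the noise, flattened
  have e1 : (noise m n σ).map flat = Measure.pi (fun _ : (Fin m × Fin n) ⊕ Fin m =>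
      gaussianReal 0 v) := by
    have h1 := pi_uncurry (fun (_ : Fin m) (_ : Fin n) => gaussianReal 0 v)
    have h2 := pi_sum (fun _ : Fin m × Fin n => gaussianReal 0 v)
      (fun _ : Fin m => gaussianReal 0 v)
    have h3 := h2.comp (h1.prod (MeasurePreserving.id (Measure.pi fun _ : Fin m =>
      gaussianReal 0 v)))
    have h4 := h3.map_eq
    have h5 : (Sum.elim (fun _ : Fin m × Fin n => gaussianReal 0 v)
        (fun _ : Fin m => gaussianReal 0 v) : (Fin m × Fin n) ⊕ Fin m → Measure ℝ) =
        fun _ => gaussianReal 0 v := by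
      funext i
      cases i <;> rfl
    rw [h5] at h4
    exact h4
  have e2 : ((mea Abar bbar σ cK vK).map back).map flat =
      Measure.pi (fun _ : (Fin m × Fin n) ⊕ Fin m => gaussianReal 0 v) := by
    rw [Measure.map_map hflat hm]
    symm
    refine Measure.pi_eq fun s hs => ?_
    rw [Measure.map_apply (hflat.comp hm) (MeasurableSet.univ_pi hs)]
    have h1 : (flat ∘ back) ⁻¹' (Set.univ.pi s) =
        Set.univ.pi (Sum.elim (fun p : Fin m × Fin (n + 1) =>
          Fin.cases (motive := fun _ => Set ℝ) ((fun x => -x - bbar p.1) ⁻¹' s (Sum.inr p.1))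
            (fun j => (fun x => x - Abar p.1 j) ⁻¹' s (Sum.inl (p.1, j))) p.2)
            (fun _ => Set.univ)) := by
      ext ω
      simp only [Set.mem_preimage, Set.mem_univ_pi]
      constructor
      · intro h i
        cases i with
        | inl p =>
          obtain ⟨i, j⟩ := p
          refine Fin.cases ?_ (fun j => ?_) j
          · exact h (Sum.inr i)
          · exact h (Sum.inl (i, j))
        | inr k => trivial
      · intro h i
        cases i with
        | inl p => exact h (Sum.inl (p.1, p.2.succ))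
        | inr i => exact h (Sum.inl (i, 0))
    rw [h1]
    unfold mea
    rw [Measure.pi_pi, Fintype.prod_sum_type]
    have h2 : ∏ k : K, (gaussianReal (cen Abar bbar cK (Sum.inr k))
        (var (m := m) (n := n) σ vK (Sum.inr k)))
        (Sum.elim (fun p : Fin m × Fin (n + 1) =>
          Fin.cases (motive := fun _ => Set ℝ) ((fun x => -x - bbar p.1) ⁻¹' s (Sum.inr p.1))
            (fun j => (fun x => x - Abar p.1 j) ⁻¹' s (Sum.inl (p.1, j))) p.2)
            (fun _ => Set.univ) (Sum.inr k)) = 1 := by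
      refine Finset.prod_eq_one fun k _ => ?_
      simp only [Sum.elim_inr]
      exact measure_univ
    rw [h2, mul_one, Fintype.prod_prod_type, Fintype.prod_sum_type, Fintype.prod_prod_type,
      ← Finset.prod_mul_distrib]
    refine Finset.prod_congr rfl fun i _ => ?_
    rw [Fin.prod_univ_succ, mul_comm]
    congr 1
    · refine Finset.prod_congr rfl fun j _ => ?_
      change gaussianReal (Abar i j) v ((fun x => x - Abar i j) ⁻¹' s (Sum.inl (i, j))) =
        gaussianReal 0 v (s (Sum.inl (i, j)))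
      rw [← Measure.map_apply (by fun_prop) (hs _), gaussianReal_map_sub_const, sub_self]
    · change gaussianReal (-(bbar i)) v ((fun x => -x - bbar i) ⁻¹' s (Sum.inr i)) =
        gaussianReal 0 v (s (Sum.inr i))
      have h3 : (fun x : ℝ => -x - bbar i) = (fun x => x - bbar i) ∘ (fun x => -x) := rfl
      rw [h3, Set.preimage_comp, ← Measure.map_apply (by fun_prop) ((hs _).preimage (by fun_prop)),
        gaussianReal_map_neg, neg_neg, ← Measure.map_apply (by fun_prop) (hs _),
        gaussianReal_map_sub_const, sub_self]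
  refine ⟨hm, ?_⟩
  have e3 : ((mea Abar bbar σ cK vK).map back).map (unflat ∘ flat) =
      (noise m n σ).map (unflat ∘ flat) := by
    rw [← Measure.map_map hunflat hflat, ← Measure.map_map hunflat hflat, e1, e2]
  rwa [hid, Measure.map_id, Measure.map_id] at e3

/-- The feasible systems, in the coordinates of the product measure. -/
def fea {m n : ℕ} {K : Type*} : Set ((Fin m × Fin (n + 1)) ⊕ K → ℝ) :=
  {ω | ∃ x : Fin n → ℝ, ∀ i, (fun j => sysA ω i j) ⬝ᵥ x ≤ sysB ω i}

/-- Feasibility has at least the probability `7^(-m) exp (-1/σ²)`. -/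
theorem fea_lower {m n : ℕ} {K : Type*} [Fintype K] (Abar : Fin m → Fin n → ℝ)
    (bbar : Fin m → ℝ) {σ : ℝ} (hσ : 0 < σ) (hb : ∑ i, bbar i ^ 2 ≤ 1) (cK : K → ℝ)
    (vK : K → ℝ≥0) :
    ENNReal.ofReal ((1 / 7) ^ m * Real.exp (-(1 / σ ^ 2))) ≤
      mea Abar bbar σ cK vK (fea (m := m) (n := n) (K := K)) := by
  classical
  let e : Fin m ↪ (Fin m × Fin (n + 1)) ⊕ K :=
    ⟨fun i => Sum.inl (i, 0), fun i j h => by simpa using h⟩
  have h1 := pi_half_lower_sub_neg hσ (cen Abar bbar cK) (var (m := m) (n := n) σ vK)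
    (Finset.univ.map e) (fun i hi => by
      obtain ⟨k, -, rfl⟩ := Finset.mem_map.1 hi
      rfl) (by
      rw [Finset.sum_map]
      refine le_trans (le_of_eq ?_) hb
      refine Finset.sum_congr rfl fun i _ => ?_
      change (-(bbar i)) ^ 2 = _
      rw [neg_sq])
  rw [Finset.card_map, Finset.card_univ, Fintype.card_fin] at h1
  refine h1.trans (measure_mono fun ω hω => ?_)
  refine ⟨0, fun i => ?_⟩
  rw [dotProduct_zero]
  have := hω (e i) (Finset.mem_map.2 ⟨i, Finset.mem_univ i, rfl⟩)
  change 0 ≤ -ω (Sum.inl (i, 0))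
  change ω (Sum.inl (i, 0)) ≤ 0 at this
  linarith

/-- **Sizes.** All coordinates are within `R i` of their centres, outside an event of probability
`exp (-H)` relative to feasibility. -/
theorem sizes {m n : ℕ} {K : Type*} [Fintype K] (Abar : Fin m → Fin n → ℝ)
    (bbar : Fin m → ℝ) {σ : ℝ} (hσ : 0 < σ) (hb : ∑ i, bbar i ^ 2 ≤ 1) (cK : K → ℝ)
    (vK : K → ℝ≥0) (R : (Fin m × Fin (n + 1)) ⊕ K → ℝ) (hR : ∀ i, 0 ≤ R i) (H : ℝ)
    (hH : ∀ i, H + 2 * (Fintype.card ((Fin m × Fin (n + 1)) ⊕ K) : ℝ) + 2 * (m : ℝ) + 1 / σ ^ 2 ≤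
      R i ^ 2 / (2 * var (m := m) (n := n) σ vK i)) :
    mea Abar bbar σ cK vK {ω | ∃ i, R i ≤ |ω i - cen Abar bbar cK i|} ≤
      ENNReal.ofReal (Real.exp (-H)) *
        mea Abar bbar σ cK vK (fea (m := m) (n := n) (K := K)) :=
  sizes_of_lower (σ := σ) (cen Abar bbar cK) (var σ vK) m _ (fea_lower Abar bbar hσ hb cK vK)
    R hR H hH

end Pool.Agent.Lib.SHirsch.Pay
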