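import Mathlib

/-!
# Scaling reduction: it is enough to treat `σ ≤ 1` (smoothed Hirsch, MP_4a5c02)
-/

set_option autoImplicit false

open MeasureTheory ProbabilityTheory
open scoped ENNReal NNReal

namespace Pool.Agent.Lib.SHirsch.Pay

/-- The noise of the frozen statement. -/
noncomputable def nz (m n : ℕ) (σ : ℝ) : Measure ((Fin m → Fin n → ℝ) × (Fin m → ℝ)) :=
  (Measure.pi fun _ : Fin m => Measure.pi fun _ : Fin n => gaussianReal 0 (σ ^ 2).toNNReal).prod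
    (Measure.pi fun _ : Fin m => gaussianReal 0 (σ ^ 2).toNNReal)

private lemma gauss_scale {σ : ℝ} (_hσ : 0 < σ) :
    (gaussianReal 0 ((1 : ℝ) ^ 2).toNNReal).map (fun x => σ * x) =
      gaussianReal 0 (σ ^ 2).toNNReal := by
  rw [gaussianReal_map_const_mul, mul_zero]
  congr 1
  ext
  simp [Real.coe_toNNReal _ (sq_nonneg σ)]

private lemma nz_map (m n : ℕ) {σ : ℝ} (hσ : 0 < σ) :
    (nz m n 1).map (fun ω => ((fun i j => σ * ω.1 i j), (fun i => σ * ω.2 i))) = nz m n σ := by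
  unfold nz
  have hm1 : Measurable (fun x : ℝ => σ * x) := measurable_const_mul σ
  have h1 : (Measure.pi fun _ : Fin n => gaussianReal 0 ((1 : ℝ) ^ 2).toNNReal).map
      (fun x i => σ * x i) = Measure.pi fun _ : Fin n => gaussianReal 0 (σ ^ 2).toNNReal := by
    have := Measure.pi_map_pi (μ := fun _ : Fin n => gaussianReal 0 ((1 : ℝ) ^ 2).toNNReal)
      (f := fun _ x => σ * x) (fun _ => hm1.aemeasurable)
    rw [this]
    simp only [gauss_scale hσ]
  have h2 : (Measure.pi fun _ : Fin m => gaussianReal 0 ((1 : ℝ) ^ 2).toNNReal).map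
      (fun x i => σ * x i) = Measure.pi fun _ : Fin m => gaussianReal 0 (σ ^ 2).toNNReal := by
    have := Measure.pi_map_pi (μ := fun _ : Fin m => gaussianReal 0 ((1 : ℝ) ^ 2).toNNReal)
      (f := fun _ x => σ * x) (fun _ => hm1.aemeasurable)
    rw [this]
    simp only [gauss_scale hσ]
  have hm2 : Measurable (fun (x : Fin n → ℝ) i => σ * x i) := by fun_prop
  have h3 : (Measure.pi fun _ : Fin m => Measure.pi fun _ : Fin n =>
      gaussianReal 0 ((1 : ℝ) ^ 2).toNNReal).map (fun x i j => σ * x i j) =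
      Measure.pi fun _ : Fin m => Measure.pi fun _ : Fin n => gaussianReal 0 (σ ^ 2).toNNReal := by
    have := Measure.pi_map_pi (μ := fun _ : Fin m => Measure.pi fun _ : Fin n =>
      gaussianReal 0 ((1 : ℝ) ^ 2).toNNReal)
      (f := fun _ (x : Fin n → ℝ) i => σ * x i) (fun _ => hm2.aemeasurable)
    rw [this]
    simp only [h1]
  have h4 := Measure.map_prod_map (Measure.pi fun _ : Fin m => Measure.pi fun _ : Fin n =>
      gaussianReal 0 ((1 : ℝ) ^ 2).toNNReal) (Measure.pi fun _ : Fin m =>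
      gaussianReal 0 ((1 : ℝ) ^ 2).toNNReal) (f := fun (x : Fin m → Fin n → ℝ) i j => σ * x i j)
      (g := fun (x : Fin m → ℝ) i => σ * x i) (by fun_prop) (by fun_prop)
  rw [h3, h2] at h4
  rw [h4]
  rfl

/-- The scaling equivalence. -/
private noncomputable def sc (m n : ℕ) {σ : ℝ} (hσ : 0 < σ) :
    ((Fin m → Fin n → ℝ) × (Fin m → ℝ)) ≃ᵐ ((Fin m → Fin n → ℝ) × (Fin m → ℝ)) where
  toFun ω := ((fun i j => σ * ω.1 i j), (fun i => σ * ω.2 i))
  invFun ω := ((fun i j => σ⁻¹ * ω.1 i j), (fun i => σ⁻¹ * ω.2 i))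
  left_inv ω := by
    ext <;> simp [← mul_assoc, inv_mul_cancel₀ hσ.ne']
  right_inv ω := by
    ext <;> simp [← mul_assoc, mul_inv_cancel₀ hσ.ne']
  measurable_toFun := by
    change Measurable (fun ω : (Fin m → Fin n → ℝ) × (Fin m → ℝ) =>
      ((fun i j => σ * ω.1 i j : Fin m → Fin n → ℝ), (fun i => σ * ω.2 i : Fin m → ℝ)))
    fun_prop
  measurable_invFun := by
    change Measurable (fun ω : (Fin m → Fin n → ℝ) × (Fin m → ℝ) =>
      ((fun i j => σ⁻¹ * ω.1 i j : Fin m → Fin n → ℝ), (fun i => σ⁻¹ * ω.2 i : Fin m → ℝ)))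
    fun_prop

/-- The integral for `σ` is the integral for `1` with scaled centres. -/
theorem lintegral_scale (m n : ℕ) {σ : ℝ} (hσ : 0 < σ)
    (Φ : (Fin m → Fin n → ℝ) → (Fin m → ℝ) → ℝ≥0∞)
    (hΦ : ∀ A b, Φ (fun i j => σ * A i j) (fun i => σ * b i) = Φ A b)
    (Abar : Fin m → Fin n → ℝ) (bbar : Fin m → ℝ) :
    ∫⁻ ω, Φ (fun i j => Abar i j + ω.1 i j) (fun i => bbar i + ω.2 i) ∂(nz m n σ) =
      ∫⁻ ω, Φ (fun i j => Abar i j / σ + ω.1 i j) (fun i => bbar i / σ + ω.2 i)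
        ∂(nz m n 1) := by
  rw [← nz_map m n hσ]
  have h := lintegral_map_equiv
    (fun ω => Φ (fun i j => Abar i j + ω.1 i j) (fun i => bbar i + ω.2 i)) (sc m n hσ)
    (μ := nz m n 1)
  refine Eq.trans h (lintegral_congr fun ω => ?_)
  rw [← hΦ (fun i j => Abar i j / σ + ω.1 i j)]
  have e1 : (fun i j => Abar i j + ((sc m n hσ) ω).1 i j) =
      (fun i j => σ * (Abar i j / σ + ω.1 i j)) := by
    funext i j
    change Abar i j + σ * ω.1 i j = _
    field_simp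
  have e2 : (fun i => bbar i + ((sc m n hσ) ω).2 i) = (fun i => σ * (bbar i / σ + ω.2 i)) := by
    funext i
    change bbar i + σ * ω.2 i = _
    field_simp
  rw [e1, e2]

/-- The measure of an event for `σ` is that for `1` with scaled centres. -/
theorem measure_scale (m n : ℕ) {σ : ℝ} (hσ : 0 < σ)
    (Q : (Fin m → Fin n → ℝ) → (Fin m → ℝ) → Prop)
    (hQ : ∀ A b, Q (fun i j => σ * A i j) (fun i => σ * b i) ↔ Q A b)
    (Abar : Fin m → Fin n → ℝ) (bbar : Fin m → ℝ) :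
    (nz m n σ) {ω | Q (fun i j => Abar i j + ω.1 i j) (fun i => bbar i + ω.2 i)} =
      (nz m n 1) {ω | Q (fun i j => Abar i j / σ + ω.1 i j) (fun i => bbar i / σ + ω.2 i)} := by
  rw [← nz_map m n hσ]
  have h := MeasurableEquiv.map_apply (μ := nz m n 1) (sc m n hσ)
    {ω | Q (fun i j => Abar i j + ω.1 i j) (fun i => bbar i + ω.2 i)}
  refine Eq.trans h ?_
  congr 1
  ext ω
  change Q (fun i j => Abar i j + σ * ω.1 i j) (fun i => bbar i + σ * ω.2 i) ↔ _
  have e1 : (fun i j => Abar i j + σ * ω.1 i j) =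
      (fun i j => σ * (Abar i j / σ + ω.1 i j)) := by
    funext i j
    field_simp
  have e2 : (fun i => bbar i + σ * ω.2 i) = (fun i => σ * (bbar i / σ + ω.2 i)) := by
    funext i
    field_simp
  rw [e1, e2]
  exact hQ _ _

/-- The polyhedron of the frozen statement. -/
def pol {m n : ℕ} (A : Fin m → Fin n → ℝ) (b : Fin m → ℝ) : Set (Fin n → ℝ) :=
  {x : Fin n → ℝ | ∀ i, ∑ j, A i j * x j ≤ b i}

/-- The integrand of the frozen statement. -/
noncomputable def dia {m n : ℕ} (A : Fin m → Fin n → ℝ) (b : Fin m → ℝ) : ℝ≥0∞ :=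
  ENat.toENNReal
    (((SimpleGraph.fromRel (fun u v : Fin n → ℝ =>
      IsExtreme ℝ (pol A b) (segment ℝ u v))).induce (Set.extremePoints ℝ (pol A b))).ediam)

theorem pol_scale {m n : ℕ} {σ : ℝ} (hσ : 0 < σ) (A : Fin m → Fin n → ℝ) (b : Fin m → ℝ) :
    pol (fun i j => σ * A i j) (fun i => σ * b i) = pol A b := by
  unfold pol
  ext x
  simp only [Set.mem_ofPred_eq]
  refine forall_congr' fun i => ?_
  have : ∑ j, σ * A i j * x j = σ * ∑ j, A i j * x j := by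
    rw [Finset.mul_sum]
    refine Finset.sum_congr rfl fun j _ => ?_
    ring
  rw [this]
  exact mul_le_mul_iff_right₀ hσ

/-- **Scaling reduction.** It is enough to prove the frozen statement for `σ ≤ 1`. -/
theorem reduce_le_one
    (H : ∃ C : ℝ, ∃ k : ℕ, ∀ m n : ℕ, ∀ σ : ℝ, 0 < σ → σ ≤ 1 →
      ∀ Abar : Fin m → Fin n → ℝ, ∀ bbar : Fin m → ℝ,
        ∑ i, ∑ j, Abar i j ^ 2 ≤ 1 → ∑ i, bbar i ^ 2 ≤ 1 →
        ∫⁻ ω, dia (fun i j => Abar i j + ω.1 i j) (fun i => bbar i + ω.2 i) ∂(nz m n σ)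
        ≤ ENNReal.ofReal (C * (1 + (m : ℝ) + (n : ℝ) + 1 / σ) ^ k) *
          (nz m n σ) {ω | (pol (fun i j => Abar i j + ω.1 i j)
            (fun i => bbar i + ω.2 i)).Nonempty}) :
    ∃ C : ℝ, ∃ k : ℕ, ∀ m n : ℕ, ∀ σ : ℝ, 0 < σ →
    ∀ Abar : Fin m → Fin n → ℝ, ∀ bbar : Fin m → ℝ,
      ∑ i, ∑ j, Abar i j ^ 2 ≤ 1 → ∑ i, bbar i ^ 2 ≤ 1 →
      ∫⁻ ω : (Fin m → Fin n → ℝ) × (Fin m → ℝ),
          ENat.toENNReal
            (((SimpleGraph.fromRel (fun u v : Fin n → ℝ =>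
                IsExtreme ℝ
                  {x : Fin n → ℝ | ∀ i, ∑ j, (Abar i j + ω.1 i j) * x j ≤ bbar i + ω.2 i}
                  (segment ℝ u v))).induce
              (Set.extremePoints ℝ
                {x : Fin n → ℝ | ∀ i, ∑ j, (Abar i j + ω.1 i j) * x j ≤ bbar i + ω.2 i})).ediam)
        ∂((Measure.pi fun _ : Fin m => Measure.pi fun _ : Fin n => gaussianReal 0 (σ ^ 2).toNNReal).prod
            (Measure.pi fun _ : Fin m => gaussianReal 0 (σ ^ 2).toNNReal))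
      ≤ ENNReal.ofReal (C * (1 + (m : ℝ) + (n : ℝ) + 1 / σ) ^ k) *
        ((Measure.pi fun _ : Fin m => Measure.pi fun _ : Fin n => gaussianReal 0 (σ ^ 2).toNNReal).prod
            (Measure.pi fun _ : Fin m => gaussianReal 0 (σ ^ 2).toNNReal))
          {ω : (Fin m → Fin n → ℝ) × (Fin m → ℝ) |
            ∃ x : Fin n → ℝ, ∀ i, ∑ j, (Abar i j + ω.1 i j) * x j ≤ bbar i + ω.2 i} := by
  obtain ⟨C, k, H⟩ := H
  refine ⟨|C| * 2 ^ k, k, fun m n σ hσ Abar bbar hA hb => ?_⟩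
  change ∫⁻ ω, dia (fun i j => Abar i j + ω.1 i j) (fun i => bbar i + ω.2 i) ∂(nz m n σ) ≤
    ENNReal.ofReal (|C| * 2 ^ k * (1 + (m : ℝ) + (n : ℝ) + 1 / σ) ^ k) *
      (nz m n σ) {ω | (pol (fun i j => Abar i j + ω.1 i j) (fun i => bbar i + ω.2 i)).Nonempty}
  have hm : (0 : ℝ) ≤ m := Nat.cast_nonneg m
  have hn : (0 : ℝ) ≤ n := Nat.cast_nonneg n
  rcases le_or_gt σ 1 with h1 | h1
  · refine (H m n σ hσ h1 Abar bbar hA hb).trans ?_
    refine mul_le_mul_left (ENNReal.ofReal_le_ofReal ?_) _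
    have hp : 0 ≤ (1 + (m : ℝ) + (n : ℝ) + 1 / σ) ^ k := by positivity
    refine mul_le_mul_of_nonneg_right ?_ hp
    have h2 : (1 : ℝ) ≤ 2 ^ k := one_le_pow₀ (by norm_num)
    nlinarith [le_abs_self C, abs_nonneg C]
  · rw [lintegral_scale m n hσ dia (fun A b => by unfold dia; rw [pol_scale hσ]) Abar bbar,
      measure_scale m n hσ (fun A b => (pol A b).Nonempty)
        (fun A b => by rw [pol_scale hσ]) Abar bbar]
    have hs : 1 ≤ σ ^ 2 := by nlinarith
    have hA' : ∑ i, ∑ j, (Abar i j / σ) ^ 2 ≤ 1 := by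
      have : ∑ i, ∑ j, (Abar i j / σ) ^ 2 = (∑ i, ∑ j, Abar i j ^ 2) / σ ^ 2 := by
        simp_rw [div_pow, Finset.sum_div]
      rw [this]
      exact (div_le_self (Finset.sum_nonneg fun i _ => Finset.sum_nonneg fun j _ =>
        sq_nonneg _) hs).trans hA
    have hb' : ∑ i, (bbar i / σ) ^ 2 ≤ 1 := by
      have : ∑ i, (bbar i / σ) ^ 2 = (∑ i, bbar i ^ 2) / σ ^ 2 := by
        simp_rw [div_pow, Finset.sum_div]
      rw [this]
      exact (div_le_self (Finset.sum_nonneg fun i _ => sq_nonneg _) hs).trans hb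
    refine (H m n 1 one_pos le_rfl (fun i j => Abar i j / σ) (fun i => bbar i / σ) hA' hb').trans ?_
    refine mul_le_mul_left (ENNReal.ofReal_le_ofReal ?_) _
    have h3 : (1 + (m : ℝ) + (n : ℝ) + 1 / 1) ≤ 2 * (1 + (m : ℝ) + (n : ℝ) + 1 / σ) := by
      have : 0 ≤ 1 / σ := by positivity
      linarith
    calc C * (1 + (m : ℝ) + (n : ℝ) + 1 / 1) ^ k
        ≤ |C| * (1 + (m : ℝ) + (n : ℝ) + 1 / 1) ^ k :=
          mul_le_mul_of_nonneg_right (le_abs_self C) (by positivity)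
      _ ≤ |C| * (2 * (1 + (m : ℝ) + (n : ℝ) + 1 / σ)) ^ k := by
          gcongr
      _ = |C| * 2 ^ k * (1 + (m : ℝ) + (n : ℝ) + 1 / σ) ^ k := by
          rw [mul_pow]; ring

end Pool.Agent.Lib.SHirsch.Pay
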