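import Pool.Agent.Lib.SHirsch.RCv

/-!
# RRay: pointed cones have extreme rays on the right side (250 lines)

Lemma 1 of the paper. `V = Fin (n+1) → ℝ`.
(1) Spanning: there is an injective `J : Fin (n+1) → ι` with values in `S` (`n + 1 ≤ S.card`), and `det ≠ 0` by `GPc`, so `ω (J k) ⬝ᵥ y = 0` for all `k` forces `y = 0`
   (`Matrix.eq_zero_of_mulVec_eq_zero`).
(2) `l = - Σ_{i ∈ S} ω i`. On `Cn ω S`: `l ⬝ᵥ y ≥ 0`, and `= 0` only if all `ω i ⬝ᵥ y = 0`, i.e. `y = 0`.
(3) `Q = {y ∈ Cn ω S | l ⬝ᵥ y = 1}` is convex, closed and bounded: on the compact set `Cn ω S ∩ sphere 0 1` (closed subset of the sphere; nonempty because `z ≠ 0`) the continuous function `l ⬝ᵥ ·` is positive, so it is `≥ δ > 0`,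
   hence `‖y‖ ≤ 1/δ` for `y ∈ Q`. `z' = (l ⬝ᵥ z)⁻¹ • z ∈ Q`, `w ⬝ᵥ z' ≤ 0`.
(4) `f y = w ⬝ᵥ y` is a continuous linear functional; `E = {y ∈ Q | f y ≤ f y' for all y' ∈ Q}` is a nonempty compact exposed face (`IsCompact.exists_isMinOn`), it has an extreme point `q` (`IsCompact.extremePoints_nonempty`), and
   `q` is an extreme point of `Q` (`IsExposed.isExtreme`, `IsExtreme.extremePoints_subset_extremePoints`, or directly from the definition). `f q ≤ f z' ≤ 0`. `q ≠ 0` as `l ⬝ᵥ q = 1`.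
(5) `T = {i ∈ S | ω i ⬝ᵥ q = 0}`. Claim: there are `n` linearly independent vectors among `ω i`, `i ∈ T`. Otherwise the span `W` of `{ω i : i ∈ T}` has finrank `≤ n - 1`, so span of `W` and `l` has finrank `≤ n < n + 1` and there is `u ≠ 0` orthogonal to
   all `ω i`, `i ∈ T`, and to `l`. For small `ε`, `q ± ε u ∈ Q` (rows outside `T` are strict at `q`), contradiction with extremality. [Alternative without spans: take a MAXIMAL tuple; or: by `GPc` any `n` different rows are linearly independent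
   (extend to `n+1` rows inside `S`), so it is enough that `T.card ≥ n`; if `T.card < n` then the `≤ n` functionals `ω i` (`i ∈ T`), `l` have a common zero `u ≠ 0` by dimension count. This is the easy way.]
(6) Choose an injective `I : Fin n → ι` with values in `T`; `g k = ω (I k)` is linearly independent (extend `I` by one more element of `S` to an injective `J : Fin (n+1) → ι`, `GPc`, rows of an invertible matrix are independent, subfamily), so `cv g ≠ 0` and
   `q = c • cv g` (`cv_line`), `c ≠ 0` as `q ≠ 0`. Take the sign `α.2 = decide (0 < c)`: `ray ω α = |c|⁻¹ • q`.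
-/

set_option autoImplicit false

open Topology

namespace Pool.Agent.Lib.SHirsch

private theorem rr_span {ι : Type} [DecidableEq ι] {n : ℕ} {ω : ι → Fin (n + 1) → ℝ}
    (hω : GPc ω) {S : Finset ι} (hS : n + 1 ≤ S.card) {y : Fin (n + 1) → ℝ}
    (hy : ∀ i ∈ S, ω i ⬝ᵥ y = 0) : y = 0 := by
  have hc : Fintype.card (Fin (n + 1)) ≤ Fintype.card S := by simpa using hS
  obtain ⟨J⟩ := Function.Embedding.nonempty_of_card_le hc
  have hdet := hω (fun k => (J k : ι)) (fun a b hab => J.injective (Subtype.ext hab))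
  refine Matrix.eq_zero_of_mulVec_eq_zero hdet ?_
  funext k
  simp only [Matrix.mulVec, Matrix.of_apply, Pi.zero_apply]
  exact hy _ (J k).2

private theorem rr_li {ι : Type} [DecidableEq ι] {n : ℕ} {ω : ι → Fin (n + 1) → ℝ}
    (hω : GPc ω) {S : Finset ι} (hS : n + 1 ≤ S.card) {I : Fin n → ι} (hI : Function.Injective I) :
    LinearIndependent ℝ (fun k => ω (I k)) := by
  have : ∃ i0 ∈ S, i0 ∉ Finset.univ.image I := by
    by_contra hcon
    push Not at hcon
    have h1 : S ⊆ Finset.univ.image I := hcon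
    have h2 := Finset.card_le_card h1
    have h3 : (Finset.univ.image I).card ≤ n := by
      refine Finset.card_image_le.trans ?_
      simp
    omega
  obtain ⟨i0, -, hi0⟩ := this
  have hJ : Function.Injective (Fin.cons i0 I : Fin (n + 1) → ι) := by
    rw [Fin.cons_injective_iff]
    refine ⟨?_, hI⟩
    rintro ⟨k, hk⟩
    exact hi0 (Finset.mem_image.2 ⟨k, Finset.mem_univ _, hk⟩)
  have hdet := hω _ hJ
  have hli := Matrix.linearIndependent_rows_of_det_ne_zero hdet
  have h := hli.comp (Fin.succ : Fin n → Fin (n + 1)) (Fin.succ_injective n)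
  exact h

private theorem rr_ker {ι : Type} [DecidableEq ι] {n : ℕ} (ω : ι → Fin (n + 1) → ℝ)
    (T : Finset ι) (hT : T.card < n) (l : Fin (n + 1) → ℝ) :
    ∃ u : Fin (n + 1) → ℝ, u ≠ 0 ∧ (∀ i ∈ T, ω i ⬝ᵥ u = 0) ∧ l ⬝ᵥ u = 0 := by
  let f : (Fin (n + 1) → ℝ) →ₗ[ℝ] (T → ℝ) × ℝ :=
    { toFun := fun y => (fun i => ω i ⬝ᵥ y, l ⬝ᵥ y)
      map_add' := by
        intro x y
        ext <;> simp [dotProduct_add]
      map_smul' := by
        intro c x
        ext <;> simp [dotProduct_smul] }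
  have hfr : Module.finrank ℝ ((T → ℝ) × ℝ) < Module.finrank ℝ (Fin (n + 1) → ℝ) := by
    simp
    omega
  have hk := LinearMap.ker_ne_bot_of_finrank_lt (f := f) hfr
  obtain ⟨u, hu, hu0⟩ := (Submodule.ne_bot_iff _).1 hk
  rw [LinearMap.mem_ker] at hu
  refine ⟨u, hu0, ?_, ?_⟩
  · intro i hi
    have := congrFun (congrArg Prod.fst hu) ⟨i, hi⟩
    exact this
  · exact congrArg Prod.snd hu

private theorem rr_cont {n : ℕ} (v : Fin (n + 1) → ℝ) :
    Continuous (fun y : Fin (n + 1) → ℝ => v ⬝ᵥ y) := by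
  unfold dotProduct
  fun_prop

private theorem rr_closed {ι : Type} {n : ℕ} (ω : ι → Fin (n + 1) → ℝ) (S : Finset ι) :
    IsClosed (Cn ω S) := by
  have : Cn ω S = ⋂ i ∈ S, {y | ω i ⬝ᵥ y ≤ 0} := by
    ext y; simp [Cn]
  rw [this]
  exact isClosed_biInter fun i _ => isClosed_le (rr_cont _) continuous_const

theorem exists_ray {ι : Type} [Fintype ι] [DecidableEq ι] {n : ℕ} {ω : ι → Fin (n + 1) → ℝ}
    (hω : GPc ω) {S : Finset ι} (hS : n + 1 ≤ S.card) {z : Fin (n + 1) → ℝ} (hz : z ∈ Cn ω S)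
    (hz0 : z ≠ 0) {w : Fin (n + 1) → ℝ} (hw : w ⬝ᵥ z ≤ 0) :
    ∃ α : (Fin n → ι) × Bool, (∀ k, α.1 k ∈ S) ∧ ray ω α ≠ 0 ∧ ray ω α ∈ Cn ω S ∧
      w ⬝ᵥ ray ω α ≤ 0 := by
  classical
  -- the functional `l`
  set l : Fin (n + 1) → ℝ := -∑ i ∈ S, ω i with hl
  have hlv : ∀ y, l ⬝ᵥ y = ∑ i ∈ S, -(ω i ⬝ᵥ y) := by
    intro y
    rw [hl, neg_dotProduct, Finset.sum_neg_distrib, sum_dotProduct]
  have hl0 : ∀ y ∈ Cn ω S, 0 ≤ l ⬝ᵥ y := by
    intro y hy
    rw [hlv]
    exact Finset.sum_nonneg fun i hi => neg_nonneg.2 (hy i hi)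
  have hlpos : ∀ y ∈ Cn ω S, y ≠ 0 → 0 < l ⬝ᵥ y := by
    intro y hy hy0
    refine lt_of_le_of_ne (hl0 y hy) ?_
    intro h
    apply hy0
    apply rr_span hω hS
    intro i hi
    rw [hlv] at h
    have := (Finset.sum_eq_zero_iff_of_nonneg
      (fun i hi => neg_nonneg.2 (hy i hi))).1 h.symm i hi
    linarith
  have hscale : ∀ y ∈ Cn ω S, ∀ r : ℝ, 0 ≤ r → r • y ∈ Cn ω S := by
    intro y hy r hr i hi
    rw [dotProduct_smul, smul_eq_mul]
    exact mul_nonpos_of_nonneg_of_nonpos hr (hy i hi)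
  -- the slice
  set Q : Set (Fin (n + 1) → ℝ) := {y | y ∈ Cn ω S ∧ l ⬝ᵥ y = 1} with hQ
  have hQclosed : IsClosed Q :=
    (rr_closed ω S).inter (isClosed_eq (rr_cont l) continuous_const)
  have hKc : IsCompact (Cn ω S ∩ Metric.sphere (0 : Fin (n + 1) → ℝ) 1) :=
    (isCompact_sphere _ _).inter_left (rr_closed ω S)
  have hnormz : 0 < ‖z‖ := norm_pos_iff.2 hz0
  have hKn : (Cn ω S ∩ Metric.sphere (0 : Fin (n + 1) → ℝ) 1).Nonempty := by
    refine ⟨‖z‖⁻¹ • z, hscale z hz _ (by positivity), ?_⟩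
    rw [mem_sphere_zero_iff_norm, norm_smul, norm_inv, norm_norm, inv_mul_cancel₀ hnormz.ne']
  obtain ⟨y0, hy0, hmin⟩ := hKc.exists_isMinOn hKn (rr_cont l).continuousOn
  have hy00 : y0 ≠ 0 := by
    intro h
    have := hy0.2
    rw [h, mem_sphere_zero_iff_norm, norm_zero] at this
    exact zero_ne_one this
  have hδ : 0 < l ⬝ᵥ y0 := hlpos y0 hy0.1 hy00
  have hQb : Q ⊆ Metric.closedBall 0 (1 / (l ⬝ᵥ y0)) := by
    intro y hy
    rw [mem_closedBall_zero_iff]
    have hyne : y ≠ 0 := by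
      intro h
      have := hy.2
      rw [h, dotProduct_zero] at this
      exact zero_ne_one this
    have hn : 0 < ‖y‖ := norm_pos_iff.2 hyne
    have hmem : ‖y‖⁻¹ • y ∈ Cn ω S ∩ Metric.sphere (0 : Fin (n + 1) → ℝ) 1 := by
      refine ⟨hscale y hy.1 _ (by positivity), ?_⟩
      rw [mem_sphere_zero_iff_norm, norm_smul, norm_inv, norm_norm, inv_mul_cancel₀ hn.ne']
    have h1 : l ⬝ᵥ y0 ≤ l ⬝ᵥ (‖y‖⁻¹ • y) := hmin hmem
    rw [dotProduct_smul, hy.2, smul_eq_mul, mul_one] at h1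
    rw [le_div_iff₀ hδ]
    calc ‖y‖ * (l ⬝ᵥ y0) ≤ ‖y‖ * ‖y‖⁻¹ := mul_le_mul_of_nonneg_left h1 hn.le
      _ = 1 := mul_inv_cancel₀ hn.ne'
  have hQc : IsCompact Q :=
    (isCompact_closedBall (0 : Fin (n + 1) → ℝ) _).of_isClosed_subset hQclosed hQb
  have hlz : 0 < l ⬝ᵥ z := hlpos z hz hz0
  have hz' : (l ⬝ᵥ z)⁻¹ • z ∈ Q := by
    refine ⟨hscale z hz _ (by positivity), ?_⟩
    rw [dotProduct_smul, smul_eq_mul, inv_mul_cancel₀ hlz.ne']
  have hwz' : w ⬝ᵥ ((l ⬝ᵥ z)⁻¹ • z) ≤ 0 := by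
    rw [dotProduct_smul, smul_eq_mul]
    exact mul_nonpos_of_nonneg_of_nonpos (by positivity) hw
  -- the minimal face
  obtain ⟨q0, hq0, hq0min⟩ := hQc.exists_isMinOn ⟨_, hz'⟩ (rr_cont w).continuousOn
  have hq0le : w ⬝ᵥ q0 ≤ 0 := le_trans (hq0min hz') hwz'
  set E : Set (Fin (n + 1) → ℝ) := Q ∩ {y | w ⬝ᵥ y = w ⬝ᵥ q0} with hE
  have hEc : IsCompact E := hQc.inter_right (isClosed_eq (rr_cont w) continuous_const)
  obtain ⟨q, hqE⟩ := hEc.extremePoints_nonempty ⟨q0, hq0, rfl⟩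
  have hqQ : q ∈ Q := hqE.1.1
  have hqw : w ⬝ᵥ q = w ⬝ᵥ q0 := hqE.1.2
  have hqne : q ≠ 0 := by
    intro h
    have := hqQ.2
    rw [h, dotProduct_zero] at this
    exact zero_ne_one this
  -- tight rows
  set T : Finset ι := S.filter (fun i => ω i ⬝ᵥ q = 0) with hT
  have hTn : n ≤ T.card := by
    by_contra hlt
    push Not at hlt
    obtain ⟨u, hu0, huT, hul⟩ := rr_ker ω T hlt l
    have hev : ∀ᶠ e : ℝ in 𝓝 0, ∀ i ∈ S \ T, ω i ⬝ᵥ q + e * (ω i ⬝ᵥ u) < 0 := by
      rw [Filter.eventually_all_finset]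
      intro i hi
      have hneg : ω i ⬝ᵥ q + 0 * (ω i ⬝ᵥ u) < 0 := by
        rw [zero_mul, add_zero]
        rw [Finset.mem_sdiff, hT, Finset.mem_filter] at hi
        exact lt_of_le_of_ne (hqQ.1 i hi.1) (fun h => hi.2 ⟨hi.1, h⟩)
      have hc : Continuous (fun e : ℝ => ω i ⬝ᵥ q + e * (ω i ⬝ᵥ u)) := by fun_prop
      exact hc.continuousAt.eventually (gt_mem_nhds hneg)
    rw [Metric.eventually_nhds_iff] at hev
    obtain ⟨ε, hε, hball⟩ := hev
    have hmemQ : ∀ e : ℝ, |e| < ε → q + e • u ∈ Q := by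
      intro e he
      refine ⟨?_, ?_⟩
      · intro i hi
        rw [dotProduct_add, dotProduct_smul, smul_eq_mul]
        by_cases hiT : i ∈ T
        · rw [huT i hiT, mul_zero, add_zero]
          exact hqQ.1 i hi
        · have := hball (y := e) (by simpa [Real.dist_eq] using he) i
            (Finset.mem_sdiff.2 ⟨hi, hiT⟩)
          exact this.le
      · rw [dotProduct_add, dotProduct_smul, hul, smul_zero, add_zero]
        exact hqQ.2
    set e : ℝ := ε / 2 with he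
    have hepos : 0 < e := by positivity
    have he1 : |e| < ε := by rw [abs_of_pos hepos]; linarith
    have he2 : |(-e)| < ε := by rw [abs_neg]; exact he1
    have hp := hmemQ e he1
    have hm := hmemQ (-e) he2
    -- the values of `w` agree
    have hwp : w ⬝ᵥ q0 ≤ w ⬝ᵥ (q + e • u) := hq0min hp
    have hwm : w ⬝ᵥ q0 ≤ w ⬝ᵥ (q + (-e) • u) := hq0min hm
    rw [dotProduct_add, dotProduct_smul, smul_eq_mul, hqw] at hwp hwm
    have hwu : e * (w ⬝ᵥ u) = 0 := by linarith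
    have hpE : q + e • u ∈ E := by
      refine ⟨hp, ?_⟩
      change w ⬝ᵥ (q + e • u) = w ⬝ᵥ q0
      rw [dotProduct_add, dotProduct_smul, smul_eq_mul, hwu, add_zero, hqw]
    have hmE : q + (-e) • u ∈ E := by
      refine ⟨hm, ?_⟩
      change w ⬝ᵥ (q + (-e) • u) = w ⬝ᵥ q0
      rw [dotProduct_add, dotProduct_smul, smul_eq_mul, hqw]
      linarith
    have hseg : q ∈ openSegment ℝ (q + e • u) (q + (-e) • u) := by
      refine ⟨1 / 2, 1 / 2, by norm_num, by norm_num, by norm_num, ?_⟩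
      funext j
      simp only [Pi.add_apply, Pi.smul_apply, smul_eq_mul]
      ring
    have hcontr := hqE.2 hpE hmE hseg
    have : e • u = 0 := by
      have h3 : q + e • u = q := hcontr
      simpa using h3
    rw [smul_eq_zero] at this
    rcases this with h | h
    · exact hepos.ne' h
    · exact hu0 h
  -- choose rows
  have hc : Fintype.card (Fin n) ≤ Fintype.card T := by simpa using hTn
  obtain ⟨I⟩ := Function.Embedding.nonempty_of_card_le hc
  have hIinj : Function.Injective (fun k => (I k : ι)) := fun a b hab =>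
    I.injective (Subtype.ext hab)
  have hli := rr_li hω hS hIinj
  have hIT : ∀ k, (I k : ι) ∈ T := fun k => (I k).2
  have hIS : ∀ k, (I k : ι) ∈ S := fun k => (Finset.mem_filter.1 (hIT k)).1
  obtain ⟨c, hc⟩ := cv_line hli (q := q) (fun k => (Finset.mem_filter.1 (hIT k)).2)
  have hc0 : c ≠ 0 := by
    intro h
    rw [h, zero_smul] at hc
    exact hqne hc
  have hray : ∃ r : ℝ, 0 < r ∧
      ray ω ((fun k => (I k : ι)), decide (0 < c)) = r • q := by
    by_cases hcp : 0 < c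
    · refine ⟨c⁻¹, by positivity, ?_⟩
      unfold ray
      simp only [hcp, decide_true, if_true, one_smul]
      rw [hc, smul_smul, inv_mul_cancel₀ hc0, one_smul]
    · have hcn : c < 0 := lt_of_le_of_ne (not_lt.1 hcp) hc0
      refine ⟨(-c)⁻¹, by
        have : 0 < -c := by linarith
        positivity, ?_⟩
      unfold ray
      simp only [hcp, decide_false, Bool.false_eq_true, if_false]
      rw [hc, smul_smul]
      congr 1
      field_simp
  obtain ⟨r, hr, hrq⟩ := hray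
  refine ⟨((fun k => (I k : ι)), decide (0 < c)), hIS, ?_, ?_, ?_⟩
  · rw [hrq]
    exact smul_ne_zero hr.ne' hqne
  · rw [hrq]
    exact hscale q hqQ.1 r hr.le
  · rw [hrq, dotProduct_smul, smul_eq_mul, hqw]
    exact mul_nonpos_of_nonneg_of_nonpos hr.le hq0le

end Pool.Agent.Lib.SHirsch
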