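import Pool.Agent.Lib.SHirsch.Pay

/-!
# The thin part of the smoothed Hirsch problem (MP_4a5c02_co): definitions and measurability

Paper: /team-store/MP_4a5c02_thin98.md.  Rows are `ω (r, ·) ∈ ℝ^(n+1)`; the cone is
`{X | X 0 ≥ 0, ∀ r, ev ω r X ≤ 0}`.
-/

set_option autoImplicit false

open MeasureTheory ProbabilityTheory
open scoped ENNReal NNReal

namespace Pool.Agent.Lib.SHirsch.Thin

/-- The value of row `r` at `X`. -/
def ev {m n : ℕ} (ω : Fin m × Fin (n + 1) → ℝ) (r : Fin m) (X : Fin (n + 1) → ℝ) : ℝ :=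
  ∑ k, ω (r, k) * X k

/-- The half box. -/
def Box (n : ℕ) : Set (Fin (n + 1) → ℝ) := {X | (∀ j, |X j| ≤ 1) ∧ 0 ≤ X 0}

/-- The margin of the rows of `R` is at most `ρ`. -/
def ThinOn {m n : ℕ} (ρ : ℝ) (R : Finset (Fin m)) (ω : Fin m × Fin (n + 1) → ℝ) : Prop :=
  ∀ X ∈ Box n, ∃ r ∈ R, -ρ ≤ ev ω r X

/-- The cone is not zero. -/
def Fz {m n : ℕ} (ω : Fin m × Fin (n + 1) → ℝ) : Prop :=
  ∃ X : Fin (n + 1) → ℝ, X ≠ 0 ∧ 0 ≤ X 0 ∧ ∀ r, ev ω r X ≤ 0

/-- The thin event with labels: the rows of `D` vanish at a common point of the cone, and the other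
rows are thin. -/
def ET {m n : ℕ} (D : Finset (Fin m)) (j : Fin (n + 1)) (e ρ : ℝ)
    (ω : Fin m × Fin (n + 1) → ℝ) : Prop :=
  ThinOn ρ Dᶜ ω ∧ ∃ X ∈ Box n, e * X j = 1 ∧ (∀ r ∈ D, ev ω r X = 0) ∧ ∀ r, ev ω r X ≤ 0

theorem ev_continuous {m n : ℕ} (r : Fin m) :
    Continuous (fun p : (Fin m × Fin (n + 1) → ℝ) × (Fin (n + 1) → ℝ) => ev p.1 r p.2) := by
  unfold ev
  fun_prop

theorem ev_continuous_left {m n : ℕ} (r : Fin m) (X : Fin (n + 1) → ℝ) :
    Continuous (fun ω : Fin m × Fin (n + 1) → ℝ => ev ω r X) := by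
  unfold ev
  fun_prop

theorem box_compact (n : ℕ) : IsCompact (Box n) := by
  have h1 : Box n = Set.pi Set.univ (fun _ : Fin (n + 1) => Set.Icc (-1 : ℝ) 1) ∩ {X | 0 ≤ X 0} := by
    ext X
    simp only [Box, Set.mem_ofPred_eq, Set.mem_inter_iff, Set.mem_univ_pi, Set.mem_Icc, abs_le]
  rw [h1]
  refine (isCompact_univ_pi fun _ => isCompact_Icc).inter_right ?_
  exact isClosed_le continuous_const (continuous_apply 0)

theorem thinOn_closed {m n : ℕ} (ρ : ℝ) (R : Finset (Fin m)) :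
    IsClosed {ω : Fin m × Fin (n + 1) → ℝ | ThinOn ρ R ω} := by
  have h1 : {ω : Fin m × Fin (n + 1) → ℝ | ThinOn ρ R ω} =
      ⋂ X ∈ Box n, ⋃ r ∈ R, {ω | -ρ ≤ ev ω r X} := by
    ext ω
    simp [ThinOn]
  rw [h1]
  refine isClosed_biInter fun X _ => ?_
  refine R.finite_toSet.isClosed_biUnion fun r _ => ?_
  exact isClosed_le continuous_const (ev_continuous_left r X)

/-- The projection along a compact set of a closed set is closed. -/
theorem proj_closed {Ω K : Type*} [TopologicalSpace Ω] [TopologicalSpace K] {B : Set K}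
    (hB : IsCompact B) {C : Set (Ω × K)} (hC : IsClosed C) :
    IsClosed {ω : Ω | ∃ X ∈ B, (ω, X) ∈ C} := by
  have : CompactSpace B := isCompact_iff_compactSpace.mp hB
  have h1 : IsClosedMap (Prod.fst : Ω × B → Ω) := isClosedMap_fst_of_compactSpace
  have h2 : IsClosed {p : Ω × B | (p.1, (p.2 : K)) ∈ C} :=
    hC.preimage (by fun_prop)
  have h3 := h1 _ h2
  convert h3 using 1
  ext ω
  constructor
  · rintro ⟨X, hX, h⟩
    exact ⟨(ω, ⟨X, hX⟩), h, rfl⟩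
  · rintro ⟨⟨ω', X⟩, h, rfl⟩
    exact ⟨X.1, X.2, h⟩

theorem et_closed {m n : ℕ} (D : Finset (Fin m)) (j : Fin (n + 1)) (e ρ : ℝ) :
    IsClosed {ω : Fin m × Fin (n + 1) → ℝ | ET D j e ρ ω} := by
  have h1 := thinOn_closed (n := n) ρ Dᶜ
  have h2 : IsClosed {p : (Fin m × Fin (n + 1) → ℝ) × (Fin (n + 1) → ℝ) |
      e * p.2 j = 1 ∧ (∀ r ∈ D, ev p.1 r p.2 = 0) ∧ ∀ r, ev p.1 r p.2 ≤ 0} := by
    refine IsClosed.inter (isClosed_eq (by fun_prop) continuous_const) (IsClosed.inter ?_ ?_)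
    · have : {p : (Fin m × Fin (n + 1) → ℝ) × (Fin (n + 1) → ℝ) | ∀ r ∈ D, ev p.1 r p.2 = 0} =
          ⋂ r ∈ D, {p | ev p.1 r p.2 = 0} := by
        ext p; simp
      change IsClosed {p : (Fin m × Fin (n + 1) → ℝ) × (Fin (n + 1) → ℝ) |
        ∀ r ∈ D, ev p.1 r p.2 = 0}
      rw [this]
      exact isClosed_biInter fun r _ => isClosed_eq (ev_continuous r) continuous_const
    · have : {p : (Fin m × Fin (n + 1) → ℝ) × (Fin (n + 1) → ℝ) | ∀ r, ev p.1 r p.2 ≤ 0} =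
          ⋂ r, {p | ev p.1 r p.2 ≤ 0} := by
        ext p; simp
      change IsClosed {p : (Fin m × Fin (n + 1) → ℝ) × (Fin (n + 1) → ℝ) |
        ∀ r, ev p.1 r p.2 ≤ 0}
      rw [this]
      exact isClosed_iInter fun r => isClosed_le (ev_continuous r) continuous_const
  exact h1.inter (proj_closed (box_compact n) h2)

/-- `Fz` in normalised form. -/
theorem fz_iff {m n : ℕ} (ω : Fin m × Fin (n + 1) → ℝ) :
    Fz ω ↔ ∃ j : Fin (n + 1), ∃ X ∈ Box n, |X j| = 1 ∧ ∀ r, ev ω r X ≤ 0 := by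
  constructor
  · rintro ⟨X, hX, h0, hr⟩
    obtain ⟨j, -, hj⟩ := Finset.exists_max_image Finset.univ (fun j => |X j|)
      ⟨(0 : Fin (n + 1)), Finset.mem_univ _⟩
    have hpos : 0 < |X j| := by
      obtain ⟨k, hk⟩ : ∃ k, X k ≠ 0 := by
        by_contra hc
        push Not at hc
        exact hX (funext hc)
      exact (abs_pos.mpr hk).trans_le (hj k (Finset.mem_univ _))
    refine ⟨j, |X j|⁻¹ • X, ⟨fun k => ?_, ?_⟩, ?_, fun r => ?_⟩
    · rw [Pi.smul_apply, smul_eq_mul, abs_mul, abs_inv, abs_abs, inv_mul_le_iff₀ hpos, mul_one]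
      exact hj k (Finset.mem_univ _)
    · rw [Pi.smul_apply, smul_eq_mul]
      positivity
    · rw [Pi.smul_apply, smul_eq_mul, abs_mul, abs_inv, abs_abs, inv_mul_cancel₀ hpos.ne']
    · have : ev ω r (|X j|⁻¹ • X) = |X j|⁻¹ * ev ω r X := by
        unfold ev
        rw [Finset.mul_sum]
        refine Finset.sum_congr rfl fun k _ => ?_
        rw [Pi.smul_apply, smul_eq_mul]; ring
      rw [this]
      exact mul_nonpos_of_nonneg_of_nonpos (by positivity) (hr r)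
  · rintro ⟨j, X, ⟨hb, h0⟩, hj, hr⟩
    refine ⟨X, ?_, h0, hr⟩
    rintro rfl
    simp at hj

theorem fz_closed {m n : ℕ} : IsClosed {ω : Fin m × Fin (n + 1) → ℝ | Fz ω} := by
  have h1 : {ω : Fin m × Fin (n + 1) → ℝ | Fz ω} =
      ⋃ j : Fin (n + 1), {ω | ∃ X ∈ Box n, (ω, X) ∈
        {p : (Fin m × Fin (n + 1) → ℝ) × (Fin (n + 1) → ℝ) |
          |p.2 j| = 1 ∧ ∀ r, ev p.1 r p.2 ≤ 0}} := by
    ext ω
    simp only [Set.mem_iUnion, Set.mem_ofPred_eq]
    exact fz_iff ω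
  rw [h1]
  refine isClosed_iUnion_of_finite fun j => proj_closed (box_compact n) ?_
  refine IsClosed.inter (isClosed_eq (by fun_prop) continuous_const) ?_
  have : {p : (Fin m × Fin (n + 1) → ℝ) × (Fin (n + 1) → ℝ) | ∀ r, ev p.1 r p.2 ≤ 0} =
      ⋂ r, {p | ev p.1 r p.2 ≤ 0} := by
    ext p; simp
  change IsClosed {p : (Fin m × Fin (n + 1) → ℝ) × (Fin (n + 1) → ℝ) | ∀ r, ev p.1 r p.2 ≤ 0}
  rw [this]
  exact isClosed_iInter fun r => isClosed_le (ev_continuous r) continuous_const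

end Pool.Agent.Lib.SHirsch.Thin
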