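import Pool.Agent.Lib.SHirsch.TLaw
import Pool.Agent.Lib.SHirsch.TDet
import Pool.Agent.Lib.S3.Assemble

/-!
# TLaw2: the law of the rows, in the form used by the thin part

`rw_mp`: the rows of the noisy system have a Gaussian product law.
`tail_MM`: the tail beyond `MM ^ 2`, with the factor `MM ^ (log₂ n + 5)`, is less probable than
feasibility.
`fz_noise`: the cone version of feasibility is not more probable than feasibility.
-/

set_option autoImplicit false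

open MeasureTheory ProbabilityTheory
open scoped ENNReal NNReal

namespace Pool.Agent.Lib.SHirsch.Thin

open Pool.Agent.Lib.SHirsch Pool.Agent.Lib.SHirsch.Pay Pool.Agent.Lib.S3

theorem rw_mp {m n : ℕ} (Abar : Fin m → Fin n → ℝ) (bbar : Fin m → ℝ) (σ : ℝ) :
    MeasurePreserving (fun w : (Fin m → Fin n → ℝ) × (Fin m → ℝ) =>
        rw' (fun i j => Abar i j + w.1 i j) (fun i => bbar i + w.2 i)) (noise m n σ)
      (Measure.pi fun i : Fin m × Fin (n + 1) =>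
        gaussianReal ((Fin.cons (-(bbar i.1)) (Abar i.1) : Fin (n + 1) → ℝ) i.2)
          (σ ^ 2).toNNReal) := by
  have h := (eqv_mp Abar bbar σ).symm (eqv Abar bbar)
  exact h

theorem feas_eq {m n : ℕ} (Abar : Fin m → Fin n → ℝ) (bbar : Fin m → ℝ) (σ : ℝ) :
    noise m n σ (feas Abar bbar) = mu Abar bbar σ (feaR (m := m) (n := n)) :=
  feaR_noise Abar bbar σ

theorem fz_noise {m n : ℕ} (hmn : n ≤ m) (Abar : Fin m → Fin n → ℝ) (bbar : Fin m → ℝ) {σ : ℝ}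
    (hσ : 0 < σ) :
    noise m n σ {w | Fz (rw' (fun i j => Abar i j + w.1 i j) (fun i => bbar i + w.2 i))} ≤
      noise m n σ (feas Abar bbar) := by
  rw [feas_eq]
  refine le_trans ?_ (fz_le hmn Abar bbar hσ)
  have h := rw_mp Abar bbar σ
  have h1 : mu Abar bbar σ {ω | Fz ω} = (noise m n σ).map
      (fun w : (Fin m → Fin n → ℝ) × (Fin m → ℝ) =>
        rw' (fun i j => Abar i j + w.1 i j) (fun i => bbar i + w.2 i)) {ω | Fz ω} := by
    rw [h.map_eq]
    rfl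
  rw [h1]
  exact Measure.le_map_apply h.measurable.aemeasurable _

private theorem num2 {M m n s l : ℝ} (hM : 5 ≤ M) (hm : 0 ≤ m) (hn : 0 ≤ n) (hs : 0 ≤ s)
    (hmn : m + n ≤ M) (hsM : s ≤ M) (hl : l ≤ (M + 1) * M) :
    l + 2 * (m * (n + 1)) + 2 * m + s ^ 2 ≤ (M ^ 2) ^ 2 / 2 := by
  have h1 : 4 * (m * n) ≤ M * M := by
    have h2 : 4 * (m * n) ≤ (m + n) * (m + n) := by nlinarith [sq_nonneg (m - n)]
    have h3 : (m + n) * (m + n) ≤ M * M := mul_le_mul hmn hmn (by linarith) (by linarith)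
    linarith
  have h4 : s ^ 2 ≤ M * M := by
    have h5 : s ^ 2 = s * s := by ring
    rw [h5]
    exact mul_le_mul hsM hsM hs (by linarith)
  have h6 : 5 * M ≤ M * M := mul_le_mul_of_nonneg_right hM (by linarith)
  have h7 : (M ^ 2) ^ 2 / 2 = (M * M) * (M * M) / 2 := by ring
  have h8 : 25 * (M * M) ≤ (M * M) * (M * M) := by
    refine mul_le_mul_of_nonneg_right ?_ (mul_self_nonneg M)
    linarith
  have h9 : (M + 1) * M = M * M + M := by ring
  have h10 : 2 * (m * (n + 1)) = 2 * (m * n) + 2 * m := by ring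
  rw [h7, h10]
  rw [h9] at hl
  have hmM : m ≤ M := by linarith
  linarith

theorem tail_MM {m n : ℕ} (hn : 1 ≤ n) (hmn : n ≤ m) (Abar : Fin m → Fin n → ℝ)
    (bbar : Fin m → ℝ) {σ : ℝ} (hσ : 0 < σ) (hσ1 : σ ≤ 1) (hb : ∑ i, bbar i ^ 2 ≤ 1) :
    (MM m n σ : ℝ≥0∞) ^ (Nat.log 2 n + 5) *
      (Measure.pi fun i : Fin m × Fin (n + 1) =>
        gaussianReal ((Fin.cons (-(bbar i.1)) (Abar i.1) : Fin (n + 1) → ℝ) i.2)
          (σ ^ 2).toNNReal)
        {x | ∃ i : Fin m × Fin (n + 1), (MM m n σ : ℝ) ^ 2 <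
          |x i - (Fin.cons (-(bbar i.1)) (Abar i.1) : Fin (n + 1) → ℝ) i.2|} ≤
      noise m n σ (feas Abar bbar) := by
  rw [feas_eq]
  have hm : 1 ≤ m := hn.trans hmn
  have hnr : (1 : ℝ) ≤ n := by exact_mod_cast hn
  have hmr : (1 : ℝ) ≤ m := by exact_mod_cast hm
  have hs1 : 1 ≤ 1 / σ := by rw [le_div_iff₀ hσ]; linarith
  set M : ℝ := (MM m n σ : ℝ) with hM
  have hMe : M = 2 + m + n + (⌈1 / σ⌉₊ : ℝ) := by
    rw [hM]
    unfold MM
    push_cast
    ring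
  have hce : 1 / σ ≤ (⌈1 / σ⌉₊ : ℝ) := Nat.le_ceil _
  have hM5 : 5 ≤ M := by rw [hMe]; linarith
  have hMpos : 0 < M := by linarith
  have hlog : ((Nat.log 2 n + 5 : ℕ) : ℝ) * Real.log M ≤ (M + 1) * M := by
    have h1 : Real.log M ≤ M := by
      have := Real.log_le_sub_one_of_pos hMpos
      linarith
    have h2 : ((Nat.log 2 n : ℕ) : ℝ) ≤ n := by
      exact_mod_cast Nat.log_le_self 2 n
    have h3 : ((Nat.log 2 n + 5 : ℕ) : ℝ) ≤ M + 1 := by
      push_cast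
      rw [hMe]
      linarith
    have h4 : 0 ≤ Real.log M := Real.log_nonneg (by linarith)
    exact mul_le_mul h3 h1 h4 (by linarith)
  have hK : ∀ i : Fin m × Fin (n + 1),
      ((Nat.log 2 n + 5 : ℕ) : ℝ) * Real.log M +
        2 * (Fintype.card (Fin m × Fin (n + 1)) : ℝ) + 2 * (m : ℝ) + 1 / σ ^ 2 ≤
      (M ^ 2) ^ 2 / (2 * ((σ ^ 2).toNNReal : ℝ)) := by
    intro i
    rw [Real.coe_toNNReal _ (sq_nonneg σ), Fintype.card_prod, Fintype.card_fin, Fintype.card_fin]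
    push_cast
    have h6 : (1 / σ ^ 2 : ℝ) = (1 / σ) ^ 2 := by rw [one_div_pow]
    rw [h6]
    have h7 : (M ^ 2) ^ 2 / 2 ≤ (M ^ 2) ^ 2 / (2 * σ ^ 2) := by
      have h8 : σ ^ 2 ≤ 1 := by nlinarith
      have h9 : 0 < 2 * σ ^ 2 := by positivity
      exact div_le_div_of_nonneg_left (by positivity) h9 (by linarith)
    refine le_trans ?_ h7
    refine num2 hM5 (by linarith) (by linarith) (by linarith) ?_ ?_ ?_
    · rw [hMe]; linarith
    · rw [hMe]; linarith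
    · push_cast at hlog
      exact hlog
  have h := sizes_of_lower (σ := σ) (cenR Abar bbar) (fun _ => (σ ^ 2).toNNReal) m
    (feaR (m := m) (n := n)) (feaR_lower Abar bbar hσ hb) (fun _ => M ^ 2)
    (fun _ => by positivity) (((Nat.log 2 n + 5 : ℕ) : ℝ) * Real.log M) hK
  have h13 : ENNReal.ofReal (Real.exp (-(((Nat.log 2 n + 5 : ℕ) : ℝ) * Real.log M))) =
      ((MM m n σ : ℝ≥0∞) ^ (Nat.log 2 n + 5))⁻¹ := by
    rw [Real.exp_neg, Real.exp_nat_mul, Real.exp_log hMpos,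
      ENNReal.ofReal_inv_of_pos (by positivity), ENNReal.ofReal_pow hMpos.le, hM,
      ENNReal.ofReal_natCast]
  rw [h13] at h
  have hM0 : ((MM m n σ : ℝ≥0∞) ^ (Nat.log 2 n + 5)) ≠ 0 := by
    refine pow_ne_zero _ ?_
    have : MM m n σ ≠ 0 := by unfold MM; omega
    exact_mod_cast this
  have hMt : ((MM m n σ : ℝ≥0∞) ^ (Nat.log 2 n + 5)) ≠ ⊤ :=
    ENNReal.pow_ne_top (ENNReal.natCast_ne_top _)
  have hsub : {x : Fin m × Fin (n + 1) → ℝ | ∃ i : Fin m × Fin (n + 1), M ^ 2 <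
      |x i - (Fin.cons (-(bbar i.1)) (Abar i.1) : Fin (n + 1) → ℝ) i.2|} ⊆
      {ω | ∃ i, M ^ 2 ≤ |ω i - cenR Abar bbar i|} := by
    rintro x ⟨i, hi⟩
    exact ⟨i, hi.le⟩
  calc (MM m n σ : ℝ≥0∞) ^ (Nat.log 2 n + 5) * _
      ≤ (MM m n σ : ℝ≥0∞) ^ (Nat.log 2 n + 5) *
        (((MM m n σ : ℝ≥0∞) ^ (Nat.log 2 n + 5))⁻¹ * mu Abar bbar σ (feaR (m := m) (n := n))) :=
        mul_le_mul_right ((measure_mono hsub).trans h) _
    _ = mu Abar bbar σ (feaR (m := m) (n := n)) := by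
        rw [← mul_assoc, ENNReal.mul_inv_cancel hM0 hMt, one_mul]

end Pool.Agent.Lib.SHirsch.Thin
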