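import Pool.Agent.Lib.SHirsch.TMain
import Pool.Agent.Lib.SHirsch.TLaw2

/-!
# The thin part of the smoothed Hirsch problem (MP_4a5c02_co)

`thin_H`: for `σ ≤ 1` there is a set `B` with `MM ^ (log₂ n + 5) * noise B ≤ 2 * noise (feas)` such
that almost every `ω` outside `B` whose rows have margin at most `MM ^ (-30)` has diameter at most
`MM ^ 15`.
-/

set_option autoImplicit false

open MeasureTheory ProbabilityTheory
open scoped ENNReal NNReal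

namespace Pool.Agent.Lib.SHirsch.Thin

open Pool.Agent.Lib.SHirsch Pool.Agent.Lib.S3

/-- The thin part. -/
theorem thin_H {m n : ℕ} (hn : 1 ≤ n) (hmn : n ≤ m) {σ : ℝ} (hσ : 0 < σ) (hσ1 : σ ≤ 1)
    (Abar : Fin m → Fin n → ℝ) (bbar : Fin m → ℝ)
    (hA : ∑ i, ∑ j, Abar i j ^ 2 ≤ 1) (hb : ∑ i, bbar i ^ 2 ≤ 1) :
    ∃ B : Set ((Fin m → Fin n → ℝ) × (Fin m → ℝ)),
      (∀ᵐ ω ∂(noise m n σ), ω ∉ B →
        ThinOn ((((MM m n σ : ℕ) : ℝ) ^ 30)⁻¹) Finset.univ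
          (rw' (fun i j => Abar i j + ω.1 i j) (fun i => bbar i + ω.2 i)) →
        dm (Pol (fun i j => Abar i j + ω.1 i j) (fun i => bbar i + ω.2 i) ∅ Finset.univ) ≤
          ((MM m n σ ^ 15 : ℕ) : ℕ∞)) ∧
      ((MM m n σ : ℕ) : ℝ≥0∞) ^ (Nat.log 2 n + 5) * noise m n σ B ≤
        2 * noise m n σ (feas Abar bbar) :=
  thin_core hn hmn hσ hσ1 Abar bbar hA hb (rw_mp Abar bbar σ)
    (tail_MM hn hmn Abar bbar hσ hσ1 hb) (fz_noise hmn Abar bbar hσ)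

end Pool.Agent.Lib.SHirsch.Thin
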