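import Pool.Agent.Lib.SHirsch.PayLaw
import Pool.Agent.Lib.SHirsch.FPt
import Pool.Agent.Lib.SHirsch.FInt
import Pool.Agent.Lib.SHirsch.FNum
import Pool.Agent.Lib.SHirsch.TDefs

/-!
# TLaw: the law of the rows on `Fin m × Fin (n + 1) → ℝ`

`mu Abar bbar σ` is the law of the rows `(-(b), a)` of the system without coins. `eqv` is the
measurable equivalence with the noise of the problem, `lint_mu` and `meas_mu` transfer integrals
(of arbitrary functions) and measures (of arbitrary sets).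
-/

set_option autoImplicit false

open MeasureTheory ProbabilityTheory
open scoped ENNReal NNReal

namespace Pool.Agent.Lib.SHirsch.Thin

open Pool.Agent.Lib.SHirsch Pool.Agent.Lib.SHirsch.Pay

/-- The centres of the rows. -/
def cenR {m n : ℕ} (Abar : Fin m → Fin n → ℝ) (bbar : Fin m → ℝ) : Fin m × Fin (n + 1) → ℝ :=
  fun p => (Fin.cons (-(bbar p.1)) (Abar p.1) : Fin (n + 1) → ℝ) p.2

/-- The law of the rows. -/
noncomputable def mu {m n : ℕ} (Abar : Fin m → Fin n → ℝ) (bbar : Fin m → ℝ) (σ : ℝ) :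
    Measure (Fin m × Fin (n + 1) → ℝ) :=
  Measure.pi fun i => gaussianReal (cenR Abar bbar i) (σ ^ 2).toNNReal

instance {m n : ℕ} (Abar : Fin m → Fin n → ℝ) (bbar : Fin m → ℝ) (σ : ℝ) :
    IsProbabilityMeasure (mu Abar bbar σ) := by
  unfold mu; infer_instance

/-- The matrix read off from the rows. -/
def rA {m n : ℕ} (ω : Fin m × Fin (n + 1) → ℝ) : Fin m → Fin n → ℝ := fun i j => ω (i, j.succ)

/-- The right-hand side read off from the rows. -/
def rB {m n : ℕ} (ω : Fin m × Fin (n + 1) → ℝ) : Fin m → ℝ := fun i => -ω (i, 0)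

/-- The equivalence of the two sample spaces. -/
def eqv {m n : ℕ} (Abar : Fin m → Fin n → ℝ) (bbar : Fin m → ℝ) :
    (Fin m × Fin (n + 1) → ℝ) ≃ᵐ (Fin m → Fin n → ℝ) × (Fin m → ℝ) where
  toFun ω := ((fun i j => rA ω i j - Abar i j), (fun i => rB ω i - bbar i))
  invFun p := fun q => (Fin.cons (-(bbar q.1 + p.2 q.1))
    (fun j => Abar q.1 j + p.1 q.1 j) : Fin (n + 1) → ℝ) q.2
  left_inv ω := by
    funext q
    obtain ⟨i, j⟩ := q
    refine Fin.cases ?_ (fun j => ?_) j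
    · show (-(bbar i + (-ω (i, 0) - bbar i)) : ℝ) = ω (i, 0)
      ring
    · show (Abar i j + (ω (i, j.succ) - Abar i j) : ℝ) = ω (i, j.succ)
      ring
  right_inv p := by
    refine Prod.ext ?_ ?_
    · funext i j
      show (Abar i j + p.1 i j) - Abar i j = p.1 i j
      ring
    · funext i
      show (-(-(bbar i + p.2 i)) - bbar i : ℝ) = p.2 i
      ring
  measurable_toFun := by
    refine Measurable.prodMk ?_ ?_
    · refine measurable_pi_lambda _ fun i => measurable_pi_lambda _ fun j => ?_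
      exact (measurable_pi_apply (i, j.succ)).sub measurable_const
    · refine measurable_pi_lambda _ fun i => ?_
      exact (measurable_pi_apply (i, (0 : Fin (n + 1)))).neg.sub measurable_const
  measurable_invFun := by
    refine measurable_pi_lambda _ fun q => ?_
    obtain ⟨i, j⟩ := q
    refine Fin.cases ?_ (fun j => ?_) j
    · change Measurable fun p : (Fin m → Fin n → ℝ) × (Fin m → ℝ) => -(bbar i + p.2 i)
      fun_prop
    · change Measurable fun p : (Fin m → Fin n → ℝ) × (Fin m → ℝ) => Abar i j + p.1 i j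
      fun_prop

theorem eqv_mp {m n : ℕ} (Abar : Fin m → Fin n → ℝ) (bbar : Fin m → ℝ) (σ : ℝ) :
    MeasurePreserving (eqv Abar bbar) (mu Abar bbar σ) (noise m n σ) := by
  have h1 := rows_back (K := Empty) Abar bbar σ Empty.elim Empty.elim
  -- adding no coins
  have h2 : MeasurePreserving
      (fun ω : Fin m × Fin (n + 1) → ℝ => (Sum.elim ω Empty.elim : _ ⊕ Empty → ℝ))
      (mu Abar bbar σ) (mea Abar bbar σ (K := Empty) Empty.elim Empty.elim) := by
    have hm : Measurable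
        (fun ω : Fin m × Fin (n + 1) → ℝ => (Sum.elim ω Empty.elim : _ ⊕ Empty → ℝ)) := by
      refine measurable_pi_lambda _ fun i => ?_
      cases i with
      | inl i => exact measurable_pi_apply i
      | inr i => exact i.elim
    refine ⟨hm, ?_⟩
    symm
    unfold mea
    refine Measure.pi_eq fun s hs => ?_
    rw [Measure.map_apply hm (MeasurableSet.univ_pi hs)]
    have h3 : (fun ω : Fin m × Fin (n + 1) → ℝ => (Sum.elim ω Empty.elim : _ ⊕ Empty → ℝ)) ⁻¹'
        (Set.univ.pi s) = Set.univ.pi fun i => s (Sum.inl i) := by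
      ext ω
      simp [Set.mem_pi]
    rw [h3, mu, Measure.pi_pi, Fintype.prod_sum_type]
    simp [cen, var, cenR]
  exact h1.comp h2

/-- Transfer of integrals. -/
theorem lint_mu {m n : ℕ} (Abar : Fin m → Fin n → ℝ) (bbar : Fin m → ℝ) (σ : ℝ)
    (F : (Fin m → Fin n → ℝ) → (Fin m → ℝ) → ℝ≥0∞) :
    ∫⁻ ω, F (fun i j => Abar i j + ω.1 i j) (fun i => bbar i + ω.2 i) ∂(noise m n σ) =
      ∫⁻ ω, F (rA ω) (rB ω) ∂(mu Abar bbar σ) := by
  have h := (eqv_mp Abar bbar σ).lintegral_comp_emb (eqv Abar bbar).measurableEmbedding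
    (fun ω => F (fun i j => Abar i j + ω.1 i j) (fun i => bbar i + ω.2 i))
  rw [← h]
  refine lintegral_congr fun ω => ?_
  have e1 : (fun i j => Abar i j + ((eqv Abar bbar) ω).1 i j) = rA ω := by
    funext i j
    show Abar i j + (rA ω i j - Abar i j) = _
    ring
  have e2 : (fun i => bbar i + ((eqv Abar bbar) ω).2 i) = rB ω := by
    funext i
    show bbar i + (rB ω i - bbar i) = _
    ring
  rw [e1, e2]

/-- Transfer of measures. -/
theorem meas_mu {m n : ℕ} (Abar : Fin m → Fin n → ℝ) (bbar : Fin m → ℝ) (σ : ℝ)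
    (Q : (Fin m → Fin n → ℝ) → (Fin m → ℝ) → Prop) :
    noise m n σ {ω | Q (fun i j => Abar i j + ω.1 i j) (fun i => bbar i + ω.2 i)} =
      mu Abar bbar σ {ω | Q (rA ω) (rB ω)} := by
  have h := (eqv_mp Abar bbar σ).measure_preimage_emb (eqv Abar bbar).measurableEmbedding
    {ω | Q (fun i j => Abar i j + ω.1 i j) (fun i => bbar i + ω.2 i)}
  rw [← h]
  congr 1
  ext ω
  have e1 : (fun i j => Abar i j + ((eqv Abar bbar) ω).1 i j) = rA ω := by
    funext i j
    show Abar i j + (rA ω i j - Abar i j) = _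
    ring
  have e2 : (fun i => bbar i + ((eqv Abar bbar) ω).2 i) = rB ω := by
    funext i
    show bbar i + (rB ω i - bbar i) = _
    ring
  show Q _ _ ↔ Q _ _
  rw [e1, e2]

/-- The feasible systems. -/
def feaR {m n : ℕ} : Set (Fin m × Fin (n + 1) → ℝ) :=
  {ω | ∃ x : Fin n → ℝ, ∀ i, rA ω i ⬝ᵥ x ≤ rB ω i}

theorem feaR_noise {m n : ℕ} (Abar : Fin m → Fin n → ℝ) (bbar : Fin m → ℝ) (σ : ℝ) :
    noise m n σ {ω | ∃ x : Fin n → ℝ, ∀ i,
        (fun j => Abar i j + ω.1 i j) ⬝ᵥ x ≤ bbar i + ω.2 i} =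
      mu Abar bbar σ (feaR (m := m) (n := n)) :=
  meas_mu Abar bbar σ (fun A b => ∃ x : Fin n → ℝ, ∀ i, A i ⬝ᵥ x ≤ b i)

/-- Feasibility has at least the probability `7^(-m) exp (-1/σ²)`. -/
theorem feaR_lower {m n : ℕ} (Abar : Fin m → Fin n → ℝ) (bbar : Fin m → ℝ) {σ : ℝ} (hσ : 0 < σ)
    (hb : ∑ i, bbar i ^ 2 ≤ 1) :
    ENNReal.ofReal ((1 / 7) ^ m * Real.exp (-(1 / σ ^ 2))) ≤
      mu Abar bbar σ (feaR (m := m) (n := n)) := by
  classical
  let e : Fin m ↪ Fin m × Fin (n + 1) :=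
    ⟨fun i => (i, 0), fun i j h => by simpa using h⟩
  have h1 := pi_half_lower_sub_neg hσ (cenR Abar bbar) (fun _ => (σ ^ 2).toNNReal)
    (Finset.univ.map e) (fun i hi => rfl) (by
      rw [Finset.sum_map]
      refine le_trans (le_of_eq ?_) hb
      refine Finset.sum_congr rfl fun i _ => ?_
      show (-(bbar i)) ^ 2 = bbar i ^ 2
      ring)
  rw [Finset.card_map, Finset.card_univ, Fintype.card_fin] at h1
  refine h1.trans (measure_mono ?_)
  intro ω hω
  refine ⟨0, fun i => ?_⟩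
  rw [dotProduct_zero]
  have h2 : ω (e i) ≤ 0 := hω (e i) (Finset.mem_map_of_mem _ (Finset.mem_univ i))
  show 0 ≤ -ω (i, 0)
  have h3 : e i = (i, 0) := rfl
  rw [h3] at h2
  linarith

/-- The cone version of feasibility is not more probable. -/
theorem fz_le {m n : ℕ} (hmn : n ≤ m) (Abar : Fin m → Fin n → ℝ) (bbar : Fin m → ℝ) {σ : ℝ}
    (hσ : 0 < σ) :
    mu Abar bbar σ {ω | Fz ω} ≤ mu Abar bbar σ (feaR (m := m) (n := n)) := by
  have h1 := meas_mu Abar bbar σ
    (fun A b => Fea (Finset.univ : Finset (Option (Fin m))) (Gr A b))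
  have h2 : {ω : Fin m × Fin (n + 1) → ℝ | Fz ω} =
      {ω | Fea (Finset.univ : Finset (Option (Fin m))) (Gr (rA ω) (rB ω))} := by
    ext ω
    have hrow : ∀ (r : Fin m) (X : Fin (n + 1) → ℝ),
        Gr (rA ω) (rB ω) (some r) ⬝ᵥ X = ev ω r X := by
      intro r X
      unfold ev dotProduct
      rw [Fin.sum_univ_succ, Fin.sum_univ_succ]
      simp [Gr, rA, rB]
    have hnone : ∀ X : Fin (n + 1) → ℝ, Gr (rA ω) (rB ω) none ⬝ᵥ X = -X 0 := by
      intro X
      simp [Gr, dotProduct, Fin.sum_univ_succ]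
    constructor
    · rintro ⟨X, hX0, hX1, hX⟩
      refine ⟨X, fun o _ => ?_, hX0⟩
      cases o with
      | none => rw [hnone]; linarith
      | some r => rw [hrow]; exact hX r
    · rintro ⟨X, hX, hX0⟩
      refine ⟨X, hX0, ?_, fun r => ?_⟩
      · have := hX none (Finset.mem_univ _)
        rw [hnone] at this
        linarith
      · have := hX (some r) (Finset.mem_univ _)
        rwa [hrow] at this
  rw [h2, ← h1, ← feaR_noise]
  refine le_trans ?_ (fea_measure hmn Abar bbar hσ)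
  have h3 := rows_law Abar bbar σ
  rw [← h3.map_eq]
  exact Measure.le_map_apply h3.measurable.aemeasurable _

private theorem clog_small (n : ℕ) : Nat.clog 2 (4 * n) ≤ 3 + n := by
  apply Nat.clog_le_of_le_pow
  have h1 : n < 2 ^ n := Nat.lt_two_pow_self
  have h2 : 2 ^ (3 + n) = 8 * 2 ^ n := by rw [pow_add]; norm_num
  omega

private theorem num_aux {X m n s l : ℝ} (hX : 4 ≤ X) (hm : m ≤ X) (hn : n ≤ X)
    (h7 : n * m ≤ X * X) (h8 : s ^ 2 ≤ X * X) (hl : l ≤ 4 * n + (3 + n) * m) :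
    l + 2 * (m * (n + 1)) + 2 * m + s ^ 2 ≤ X ^ 6 / 2 := by
  have h9 : 16 * (X * X) ≤ X ^ 6 / 2 := by
    have h10 : (4 : ℝ) ^ 4 ≤ X ^ 4 := pow_le_pow_left₀ (by norm_num) hX 4
    have h11 : X ^ 6 / 2 = X ^ 4 * (X * X) / 2 := by ring
    have h12 : (4 : ℝ) ^ 4 * (X * X) ≤ X ^ 4 * (X * X) :=
      mul_le_mul_of_nonneg_right h10 (mul_self_nonneg X)
    have h13 := mul_self_nonneg X
    rw [h11]
    linarith
  have h12 : 4 * X ≤ X * X := mul_le_mul_of_nonneg_right hX (by linarith)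
  have h14 : 2 * (m * (n + 1)) = 2 * (n * m) + 2 * m := by ring
  have h15 : (3 + n) * m = 3 * m + n * m := by ring
  rw [h15] at hl
  rw [h14]
  linarith

/-- The tail of the rows against feasibility. -/
theorem tailR {m n : ℕ} (hn : 1 ≤ n) (hmn : n ≤ m) (Abar : Fin m → Fin n → ℝ)
    (bbar : Fin m → ℝ) {σ : ℝ} (hσ : 0 < σ) (hσ1 : σ ≤ 1) (hb : ∑ i, bbar i ^ 2 ≤ 1) :
    ((4 * n * m ^ Nat.clog 2 (4 * n) : ℕ) : ℝ≥0∞) *
      mu Abar bbar σ {ω | ∃ i, σ * (1 + m + n + 1 / σ) ^ 3 ≤ |ω i - cenR Abar bbar i|} ≤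
      mu Abar bbar σ (feaR (m := m) (n := n)) := by
  set X : ℝ := 1 + m + n + 1 / σ with hX
  have hm : 1 ≤ m := hn.trans hmn
  have hnr : (1 : ℝ) ≤ n := by exact_mod_cast hn
  have hmr : (1 : ℝ) ≤ m := by exact_mod_cast hm
  have hs1 : 1 ≤ 1 / σ := by rw [le_div_iff₀ hσ]; linarith
  have hX4 : 4 ≤ X := by rw [hX]; linarith
  set N : ℕ := 4 * n * m ^ Nat.clog 2 (4 * n) with hN
  have hNpos : 1 ≤ N := by
    rw [hN]
    exact Nat.one_le_iff_ne_zero.mpr (by positivity)
  have hNr : (0 : ℝ) < N := by exact_mod_cast hNpos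
  have hlog : Real.log N ≤ 4 * n + (3 + n) * m := by
    rw [hN]
    push_cast
    rw [Real.log_mul (by positivity) (by positivity), Real.log_pow]
    have h1 : Real.log (4 * (n : ℝ)) ≤ 4 * n := by
      have := Real.log_le_sub_one_of_pos (show (0 : ℝ) < 4 * n by positivity)
      linarith
    have h2 : Real.log (m : ℝ) ≤ m := by
      have := Real.log_le_sub_one_of_pos (show (0 : ℝ) < m by positivity)
      linarith
    have h3 : ((Nat.clog 2 (4 * n) : ℕ) : ℝ) ≤ 3 + n := by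
      exact_mod_cast clog_small n
    have h4 : 0 ≤ Real.log (m : ℝ) := Real.log_nonneg hmr
    have h5 : ((Nat.clog 2 (4 * n) : ℕ) : ℝ) * Real.log m ≤ (3 + n) * m := by
      gcongr
    linarith
  have hK : ∀ i : Fin m × Fin (n + 1),
      Real.log N + 2 * (Fintype.card (Fin m × Fin (n + 1)) : ℝ) + 2 * (m : ℝ) + 1 / σ ^ 2 ≤
      (σ * X ^ 3) ^ 2 / (2 * ((σ ^ 2).toNNReal : ℝ)) := by
    intro i
    rw [Real.coe_toNNReal _ (sq_nonneg σ), Fintype.card_prod, Fintype.card_fin, Fintype.card_fin]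
    have e1 : (σ * X ^ 3) ^ 2 / (2 * σ ^ 2) = X ^ 6 / 2 := by
      field_simp
    rw [e1]
    push_cast
    have h6 : (1 / σ ^ 2 : ℝ) = (1 / σ) ^ 2 := by rw [one_div_pow]
    rw [h6]
    set s : ℝ := 1 / σ with hs
    have hmX : (m : ℝ) ≤ X := by rw [hX]; linarith
    have hnX : (n : ℝ) ≤ X := by rw [hX]; linarith
    have hsX : s ≤ X := by rw [hX]; linarith
    have h7 : (n : ℝ) * m ≤ X * X := by gcongr
    have h8 : s ^ 2 ≤ X * X := by
      have : s ^ 2 = s * s := by ring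
      rw [this]
      gcongr
    exact num_aux hX4 hmX hnX h7 h8 hlog
  have h := sizes_of_lower (σ := σ) (cenR Abar bbar) (fun _ => (σ ^ 2).toNNReal) m
    (feaR (m := m) (n := n)) (feaR_lower Abar bbar hσ hb) (fun _ => σ * X ^ 3)
    (fun _ => by positivity) (Real.log N) hK
  have h13 : ENNReal.ofReal (Real.exp (-Real.log N)) = ((N : ℕ) : ℝ≥0∞)⁻¹ := by
    rw [Real.exp_neg, Real.exp_log hNr, ENNReal.ofReal_inv_of_pos hNr, ENNReal.ofReal_natCast]
  rw [h13] at h
  have hN0 : ((N : ℕ) : ℝ≥0∞) ≠ 0 := by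
    have : N ≠ 0 := by omega
    exact_mod_cast this
  calc ((N : ℕ) : ℝ≥0∞) *
      mu Abar bbar σ {ω | ∃ i, σ * X ^ 3 ≤ |ω i - cenR Abar bbar i|}
      ≤ ((N : ℕ) : ℝ≥0∞) * (((N : ℕ) : ℝ≥0∞)⁻¹ * mu Abar bbar σ (feaR (m := m) (n := n))) :=
        mul_le_mul_right h _
    _ = mu Abar bbar σ (feaR (m := m) (n := n)) := by
        rw [← mul_assoc, ENNReal.mul_inv_cancel hN0 (ENNReal.natCast_ne_top N), one_mul]

end Pool.Agent.Lib.SHirsch.Thin
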