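import Pool.Agent.Lib.SHirsch.TDefs

/-!
# Lemma T of the thin part (MP_4a5c02_co)

`lemmaT`: for a set `D` of rows, the probability that the rows of `D` vanish at a common point of
the cone while the other rows have margin at most `ρ` is at most
`exp 2 * (2 √(2ρ) / t₀) ^ |D|` times the probability that the cone is nonzero.
-/

set_option autoImplicit false

open MeasureTheory ProbabilityTheory
open scoped ENNReal NNReal

namespace Pool.Agent.Lib.SHirsch.Thin

open Classical in
/-- Extension by zero. -/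
noncomputable def ex {m : ℕ} (D : Finset (Fin m)) (s : D → ℝ) (r : Fin m) : ℝ :=
  if h : r ∈ D then s ⟨r, h⟩ else 0

theorem ex_measurable {m : ℕ} (D : Finset (Fin m)) (r : Fin m) :
    Measurable (fun s : D → ℝ => ex D s r) := by
  unfold ex
  by_cases h : r ∈ D
  · simp only [h, dite_true]
    exact measurable_pi_apply _
  · simp only [h, dite_false]
    exact measurable_const

open Classical in
/-- The second shift. -/
noncomputable def phA {m n : ℕ} (D : Finset (Fin m)) (s : Fin m → ℝ)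
    (ω : Fin m × Fin (n + 1) → ℝ) (i : Fin m × Fin (n + 1)) : ℝ :=
  if i.1 ∈ D then 0 else -∑ r ∈ D, s r * ω (r, i.2)

open Classical in
/-- The first shift. -/
noncomputable def phB {m n : ℕ} (D : Finset (Fin m)) (j : Fin (n + 1)) (e : ℝ) (s : Fin m → ℝ)
    (_ω : Fin m × Fin (n + 1) → ℝ) (i : Fin m × Fin (n + 1)) : ℝ :=
  if i.1 ∈ D ∧ i.2 = j then s i.1 * e else 0

/-- The composed map. -/
noncomputable def SS {m n : ℕ} (D : Finset (Fin m)) (j : Fin (n + 1)) (e : ℝ) (s : D → ℝ)
    (ω : Fin m × Fin (n + 1) → ℝ) : Fin m × Fin (n + 1) → ℝ :=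
  (ω + phB D j e (ex D s) ω) + phA D (ex D s) (ω + phB D j e (ex D s) ω)

theorem SS_measurable {m n : ℕ} (D : Finset (Fin m)) (j : Fin (n + 1)) (e : ℝ) :
    Measurable (fun p : (D → ℝ) × (Fin m × Fin (n + 1) → ℝ) => SS D j e p.1 p.2) := by
  have hB : ∀ i : Fin m × Fin (n + 1),
      Measurable (fun p : (D → ℝ) × (Fin m × Fin (n + 1) → ℝ) =>
        p.2 i + phB D j e (ex D p.1) p.2 i) := by
    intro i
    unfold phB
    by_cases h : i.1 ∈ D ∧ i.2 = j
    · simp only [h, and_self, if_true]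
      exact ((measurable_pi_apply i).comp measurable_snd).add
        (((ex_measurable D i.1).comp measurable_fst).mul_const e)
    · simp only [h, if_false]
      exact ((measurable_pi_apply i).comp measurable_snd).add measurable_const
  refine measurable_pi_lambda _ fun i => ?_
  unfold SS phA
  simp only [Pi.add_apply]
  refine (hB i).add ?_
  by_cases h : i.1 ∈ D
  · simp only [h, if_true]
    exact measurable_const
  · simp only [h, if_false]
    refine (Finset.measurable_sum _ fun r _ => ?_).neg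
    exact ((ex_measurable D r).comp measurable_fst).mul (hB (r, i.2))

theorem ev_add {m n : ℕ} (ω φ : Fin m × Fin (n + 1) → ℝ) (r : Fin m) (X : Fin (n + 1) → ℝ) :
    ev (ω + φ) r X = ev ω r X + ev φ r X := by
  unfold ev
  rw [← Finset.sum_add_distrib]
  exact Finset.sum_congr rfl fun k _ => by rw [Pi.add_apply]; ring

theorem ev_phB_mem {m n : ℕ} {D : Finset (Fin m)} {j : Fin (n + 1)} {e : ℝ} {s : Fin m → ℝ}
    {ω : Fin m × Fin (n + 1) → ℝ} {r : Fin m} (hr : r ∈ D) (X : Fin (n + 1) → ℝ) :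
    ev (phB D j e s ω) r X = s r * (e * X j) := by
  unfold ev phB
  simp only [hr, true_and]
  rw [Finset.sum_eq_single j]
  · simp; ring
  · intro k _ hk; simp [hk]
  · simp

theorem ev_phB_not {m n : ℕ} {D : Finset (Fin m)} {j : Fin (n + 1)} {e : ℝ} {s : Fin m → ℝ}
    {ω : Fin m × Fin (n + 1) → ℝ} {r : Fin m} (hr : r ∉ D) (X : Fin (n + 1) → ℝ) :
    ev (phB D j e s ω) r X = 0 := by
  unfold ev phB
  simp [hr]

theorem ev_phA_mem {m n : ℕ} {D : Finset (Fin m)} {s : Fin m → ℝ}
    {ω : Fin m × Fin (n + 1) → ℝ} {r : Fin m} (hr : r ∈ D) (X : Fin (n + 1) → ℝ) :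
    ev (phA D s ω) r X = 0 := by
  unfold ev phA
  simp [hr]

theorem ev_phA_not {m n : ℕ} {D : Finset (Fin m)} {s : Fin m → ℝ}
    {ω : Fin m × Fin (n + 1) → ℝ} {q : Fin m} (hq : q ∉ D) (X : Fin (n + 1) → ℝ) :
    ev (phA D s ω) q X = -∑ r ∈ D, s r * ev ω r X := by
  unfold ev phA
  simp only [hq, if_false]
  simp_rw [neg_mul, Finset.sum_mul]
  rw [Finset.sum_neg_distrib, Finset.sum_comm]
  congr 1
  refine Finset.sum_congr rfl fun r _ => ?_
  rw [Finset.mul_sum]
  exact Finset.sum_congr rfl fun k _ => by ring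

theorem ev_SS_mem {m n : ℕ} {D : Finset (Fin m)} {j : Fin (n + 1)} {e : ℝ} {s : D → ℝ}
    {ω : Fin m × Fin (n + 1) → ℝ} {r : Fin m} (hr : r ∈ D) {X : Fin (n + 1) → ℝ}
    (hX : e * X j = 1) : ev (SS D j e s ω) r X = ev ω r X + ex D s r := by
  unfold SS
  rw [ev_add, ev_add, ev_phB_mem hr, ev_phA_mem hr, hX]
  ring

theorem ev_SS_not {m n : ℕ} {D : Finset (Fin m)} {j : Fin (n + 1)} {e : ℝ} {s : D → ℝ}
    {ω : Fin m × Fin (n + 1) → ℝ} {q : Fin m} (hq : q ∉ D) {X : Fin (n + 1) → ℝ}
    (hX : e * X j = 1) :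
    ev (SS D j e s ω) q X = ev ω q X - ∑ r ∈ D, ex D s r * (ev ω r X + ex D s r) := by
  unfold SS
  rw [ev_add, ev_add, ev_phB_not hq, ev_phA_not hq, add_zero, ← sub_eq_add_neg]
  congr 1
  refine Finset.sum_congr rfl fun r hr => ?_
  rw [ev_add, ev_phB_mem hr, hX, mul_one]

/-- The point of `ET` for the shifted rows. -/
theorem et_point {m n : ℕ} {D : Finset (Fin m)} {j : Fin (n + 1)} {e ρ : ℝ} {s : D → ℝ}
    {ω : Fin m × Fin (n + 1) → ℝ} (h : ET D j e ρ (SS D j e s ω)) :
    ThinOn ρ Dᶜ (SS D j e s ω) ∧ ∃ X ∈ Box n, e * X j = 1 ∧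
      (∀ r ∈ D, ev ω r X = -ex D s r) ∧ ∀ q ∉ D, ev ω q X ≤ 0 := by
  obtain ⟨h1, X, hX, hj, h0, hle⟩ := h
  have h0' : ∀ r ∈ D, ev ω r X = -ex D s r := by
    intro r hr
    have := h0 r hr
    rw [ev_SS_mem hr hj] at this
    linarith
  refine ⟨h1, X, hX, hj, h0', fun q hq => ?_⟩
  have := hle q
  rw [ev_SS_not hq hj] at this
  have h2 : ∑ r ∈ D, ex D s r * (ev ω r X + ex D s r) = 0 :=
    Finset.sum_eq_zero fun r hr => by rw [h0' r hr]; ring
  rw [h2, sub_zero] at this
  exact this

/-- The monotonicity inequality. -/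
theorem et_mono {m n : ℕ} {D : Finset (Fin m)} {j : Fin (n + 1)} {e ρ : ℝ} {s s' : D → ℝ}
    {ω : Fin m × Fin (n + 1) → ℝ} (h : ET D j e ρ (SS D j e s ω))
    (h' : ET D j e ρ (SS D j e s' ω)) :
    ∑ r ∈ D, (ex D s r - ex D s' r) ^ 2 ≤ 2 * ρ := by
  obtain ⟨h1, X, hX, hj, h0, hle⟩ := et_point h
  obtain ⟨h1', X', hX', hj', h0', hle'⟩ := et_point h'
  have k1 : -ρ ≤ -∑ r ∈ D, ex D s r * (ex D s r - ex D s' r) := by
    obtain ⟨q, hq, hρ⟩ := h1 X' hX'
    have hq' : q ∉ D := by simpa using hq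
    rw [ev_SS_not hq' hj'] at hρ
    have : ∑ r ∈ D, ex D s r * (ev ω r X' + ex D s r) =
        ∑ r ∈ D, ex D s r * (ex D s r - ex D s' r) :=
      Finset.sum_congr rfl fun r hr => by rw [h0' r hr]; ring
    rw [this] at hρ
    linarith [hle' q hq']
  have k2 : -ρ ≤ -∑ r ∈ D, ex D s' r * (ex D s' r - ex D s r) := by
    obtain ⟨q, hq, hρ⟩ := h1' X hX
    have hq' : q ∉ D := by simpa using hq
    rw [ev_SS_not hq' hj] at hρ
    have : ∑ r ∈ D, ex D s' r * (ev ω r X + ex D s' r) =
        ∑ r ∈ D, ex D s' r * (ex D s' r - ex D s r) :=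
      Finset.sum_congr rfl fun r hr => by rw [h0 r hr]; ring
    rw [this] at hρ
    linarith [hle q hq']
  have k3 : ∑ r ∈ D, (ex D s r - ex D s' r) ^ 2 =
      ∑ r ∈ D, ex D s r * (ex D s r - ex D s' r) +
        ∑ r ∈ D, ex D s' r * (ex D s' r - ex D s r) := by
    rw [← Finset.sum_add_distrib]
    exact Finset.sum_congr rfl fun r _ => by ring
  linarith

theorem ex_coe {m : ℕ} {D : Finset (Fin m)} (s : D → ℝ) (r : D) : ex D s r = s r := by
  unfold ex
  simp

theorem et_coord {m n : ℕ} {D : Finset (Fin m)} {j : Fin (n + 1)} {e ρ : ℝ} {s s' : D → ℝ}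
    {ω : Fin m × Fin (n + 1) → ℝ} (h : ET D j e ρ (SS D j e s ω))
    (h' : ET D j e ρ (SS D j e s' ω)) (r : D) : |s r - s' r| ≤ Real.sqrt (2 * ρ) := by
  have h1 := et_mono h h'
  have h2 : (ex D s r - ex D s' r) ^ 2 ≤ ∑ r ∈ D, (ex D s r - ex D s' r) ^ 2 :=
    Finset.single_le_sum (f := fun r => (ex D s r - ex D s' r) ^ 2)
      (fun _ _ => sq_nonneg _) r.2
  rw [ex_coe, ex_coe] at h2
  exact Real.abs_le_sqrt (h2.trans h1)

/-- LEMMA T. -/
theorem lemmaT {m n : ℕ} (hm : 1 ≤ m) (c : Fin m × Fin (n + 1) → ℝ) (hc : ∀ i, |c i| ≤ 1)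
    {v : ℝ≥0} (hv : v ≠ 0) (D : Finset (Fin m)) (j : Fin (n + 1)) {e : ℝ} (he : |e| = 1)
    {ρ : ℝ} {R t0 : ℝ} (hR : 0 ≤ R) (ht0 : 0 < t0)
    (hκ : (m : ℝ) * (n + 1) * (m * t0 * (R + 1)) * (2 * R + m * t0 * (R + 1)) ≤ 2 * v) :
    Measure.pi (fun i => gaussianReal (c i) v)
        {ω : Fin m × Fin (n + 1) → ℝ | ET D j e ρ ω ∧ ∀ i, |ω i - c i| ≤ R} ≤
      ENNReal.ofReal (Real.exp 2 * (2 * Real.sqrt (2 * ρ) / t0) ^ D.card) *
        Measure.pi (fun i => gaussianReal (c i) v) {ω | Fz ω} := by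
  classical
  set μ := Measure.pi (fun i : Fin m × Fin (n + 1) => gaussianReal (c i) v) with hμ
  set E : Set (Fin m × Fin (n + 1) → ℝ) := {ω | ET D j e ρ ω ∧ ∀ i, |ω i - c i| ≤ R} with hE
  have hEm : MeasurableSet E := by
    have h1 : IsClosed {ω : Fin m × Fin (n + 1) → ℝ | ∀ i, |ω i - c i| ≤ R} := by
      have : {ω : Fin m × Fin (n + 1) → ℝ | ∀ i, |ω i - c i| ≤ R} =
          ⋂ i, {ω | |ω i - c i| ≤ R} := by ext ω; simp
      rw [this]
      exact isClosed_iInter fun i => isClosed_le (by fun_prop) continuous_const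
    exact ((et_closed D j e ρ).inter h1).measurableSet
  have hvpos : (0 : ℝ) < v := by
    have := pos_iff_ne_zero.mpr hv
    exact_mod_cast this
  have hmr : (1 : ℝ) ≤ m := by exact_mod_cast hm
  set a : ℝ := m * t0 * (R + 1) with ha
  have ha0 : 0 ≤ a := by positivity
  have hta : t0 ≤ a := by
    rw [ha]
    have : (1 : ℝ) * t0 * 1 ≤ m * t0 * (R + 1) := by
      gcongr
      linarith
    linarith
  -- the bound of the exponents
  have hsum : ∀ f : Fin m × Fin (n + 1) → ℝ, (∀ i, |f i| ≤ a) →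
      ∑ i, |f i| * (2 * R + |f i|) / (2 * (v : ℝ)) ≤ 1 := by
    intro f hf
    calc ∑ i, |f i| * (2 * R + |f i|) / (2 * (v : ℝ))
        ≤ ∑ _i : Fin m × Fin (n + 1), a * (2 * R + a) / (2 * (v : ℝ)) := by
          refine Finset.sum_le_sum fun i _ => ?_
          have := hf i
          gcongr
      _ = (m : ℝ) * (n + 1) * a * (2 * R + a) / (2 * v) := by
          rw [Finset.sum_const, Finset.card_univ, Fintype.card_prod, Fintype.card_fin,
            Fintype.card_fin, nsmul_eq_mul]
          push_cast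
          ring
      _ ≤ 1 := by
          rw [div_le_one (by positivity)]
          exact hκ
  have hcR : ∀ ω : Fin m × Fin (n + 1) → ℝ, ∀ i, |ω i - c i| ≤ R → |ω i| ≤ R + 1 := by
    intro ω i h
    have h1 : |ω i| ≤ |ω i - c i| + |c i| := by
      have := abs_add_le (ω i - c i) (c i)
      rwa [sub_add_cancel] at this
    linarith [hc i]
  set B : Set (D → ℝ) := Set.Icc (fun _ => 0) (fun _ => t0) with hB
  have hexB : ∀ s ∈ B, ∀ r, 0 ≤ ex D s r ∧ ex D s r ≤ t0 := by
    intro s hs r
    unfold ex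
    split_ifs with h
    · exact ⟨hs.1 ⟨r, h⟩, hs.2 ⟨r, h⟩⟩
    · exact ⟨le_rfl, ht0.le⟩
  -- one step of the payment
  have hq : ∀ s ∈ B, μ E ≤ ENNReal.ofReal (Real.exp 2) *
      μ ((fun ω => SS D j e s ω) ⁻¹' E) := by
    intro s hs
    set sx := ex D s with hsx
    have hsx0 := hexB s hs
    -- first map
    have hφA : Measurable (phA (n := n) D sx) := by
      refine measurable_pi_lambda _ fun i => ?_
      unfold phA
      by_cases h : i.1 ∈ D
      · simp only [h, if_true]; exact measurable_const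
      · simp only [h, if_false]
        exact (Finset.measurable_sum _ fun r _ =>
          (measurable_pi_apply ((r, i.2) : Fin m × Fin (n + 1))).const_mul _).neg
    have hboundA : ∀ ω : Fin m × Fin (n + 1) → ℝ, ω + phA D sx ω ∈ E →
        ∀ i, |phA D sx ω i| ≤ a := by
      intro ω hω i
      unfold phA
      split_ifs with h
      · simpa using ha0
      · rw [abs_neg]
        calc |∑ r ∈ D, sx r * ω (r, i.2)| ≤ ∑ r ∈ D, |sx r * ω (r, i.2)| :=
              Finset.abs_sum_le_sum_abs _ _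
          _ ≤ ∑ _r ∈ D, t0 * (R + 1) := by
              refine Finset.sum_le_sum fun r hr => ?_
              rw [abs_mul]
              have h1 : |sx r| ≤ t0 := by
                rw [abs_of_nonneg (hsx0 r).1]; exact (hsx0 r).2
              have h2 : |ω (r, i.2)| ≤ R + 1 := by
                have h3 := hcR _ (r, i.2) (hω.2 (r, i.2))
                rw [Pi.add_apply] at h3
                have h4 : phA D sx ω (r, i.2) = 0 := by unfold phA; simp [hr]
                rwa [h4, add_zero] at h3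
              gcongr
          _ = D.card * (t0 * (R + 1)) := by rw [Finset.sum_const, nsmul_eq_mul]
          _ ≤ m * (t0 * (R + 1)) := by
              have : (D.card : ℝ) ≤ m := by
                have := Finset.card_le_univ D
                rw [Fintype.card_fin] at this
                exact_mod_cast this
              gcongr
          _ = a := by rw [ha]; ring
    have s1 := Pay.gauss_quasi c (fun _ => v) (fun _ => hv) (fun i => i.1 ∉ D)
      (phA (n := n) D sx) hφA
      (by
        intro ω ω' hdep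
        funext i
        unfold phA
        split_ifs with h
        · rfl
        · congr 1
          refine Finset.sum_congr rfl fun r hr => ?_
          rw [hdep (r, i.2) (by simpa using hr)])
      (by
        intro ω i hi
        unfold phA
        have : i.1 ∈ D := by simpa using hi
        simp [this])
      E hEm (fun _ => R) 1
      (fun ω hω i _ => by
        have := hω.2 i
        rwa [Pi.add_apply] at this)
      (fun ω hω => hsum _ (hboundA ω hω))
    -- second map
    set E2 : Set (Fin m × Fin (n + 1) → ℝ) := {ω | ω + phA D sx ω ∈ E} with hE2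
    have hE2m : MeasurableSet E2 := (measurable_id.add hφA) hEm
    have s2 := Pay.gauss_quasi c (fun _ => v) (fun _ => hv) (fun i => i.1 ∈ D)
      (phB (n := n) D j e sx)
      (by
        refine measurable_pi_lambda _ fun i => ?_
        unfold phB
        exact measurable_const)
      (by intro ω ω' _; rfl)
      (by
        intro ω i hi
        unfold phB
        simp [hi])
      E2 hE2m (fun _ => R) 1
      (by
        intro ω hω i hi
        have hiD : i.1 ∈ D := by
          by_contra hc'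
          exact hi (by unfold phB; simp [hc'])
        have h1 : ω + phB D j e sx ω ∈ E2 := hω
        have h2 := h1.2 i
        rw [Pi.add_apply] at h2
        have h4 : phA D sx (ω + phB D j e sx ω) i = 0 := by unfold phA; simp [hiD]
        rw [h4, add_zero, Pi.add_apply] at h2
        exact h2)
      (fun ω _ => hsum _ fun i => by
        unfold phB
        split_ifs with h
        · rw [abs_mul, he, mul_one, abs_of_nonneg (hsx0 _).1]
          exact (hsx0 _).2.trans hta
        · simpa using ha0)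
    have s3 : {ω | ω + phB D j e sx ω ∈ E2} = (fun ω => SS D j e s ω) ⁻¹' E := rfl
    calc μ E ≤ ENNReal.ofReal (Real.exp 1) * μ E2 := s1
      _ ≤ ENNReal.ofReal (Real.exp 1) * (ENNReal.ofReal (Real.exp 1) *
            μ {ω | ω + phB D j e sx ω ∈ E2}) := by gcongr
      _ = ENNReal.ofReal (Real.exp 2) * μ ((fun ω => SS D j e s ω) ⁻¹' E) := by
          rw [s3, ← mul_assoc, ← ENNReal.ofReal_mul (Real.exp_nonneg _), ← Real.exp_add]
          norm_num
  have hpay := Pay.pay μ (volume : Measure (D → ℝ)) (fun s ω => SS D j e s ω) E {ω | Fz ω} B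
    measurableSet_Icc fz_closed.measurableSet
    ((SS_measurable D j e) hEm)
    (Real.exp 2).toNNReal ((∏ _r : D, (2 * Real.sqrt (2 * ρ))).toNNReal)
    (fun s hs => hq s hs)
    (by
      intro s hs ω hω
      obtain ⟨-, X, hX, hj, h0, hle⟩ := et_point hω.1
      refine ⟨X, ?_, hX.2, fun r => ?_⟩
      · rintro rfl
        simp at hj
      · by_cases hr : r ∈ D
        · rw [h0 r hr]
          linarith [(hexB s hs r).1]
        · exact hle r hr)
    (by
      intro ω _
      refine Pay.box_slice _ (fun _ => Real.sqrt (2 * ρ)) ?_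
      intro s hs s' hs' r
      exact et_coord hs.2.1 hs'.2.1 r)
  have hvolB : volume B = ENNReal.ofReal (t0 ^ D.card) := by
    rw [hB, Real.volume_Icc_pi]
    simp only [sub_zero, Finset.prod_const, Finset.card_univ, Fintype.card_coe]
    rw [ENNReal.ofReal_pow ht0.le]
  rw [hvolB, Finset.prod_const, Finset.card_univ, Fintype.card_coe] at hpay
  have hpos : (0 : ℝ) < t0 ^ D.card := by positivity
  have h1 : ENNReal.ofReal (Real.exp 2 * (2 * Real.sqrt (2 * ρ) / t0) ^ D.card) =
      (ENNReal.ofReal (t0 ^ D.card))⁻¹ *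
        (ENNReal.ofReal (Real.exp 2) * ENNReal.ofReal ((2 * Real.sqrt (2 * ρ)) ^ D.card)) := by
    rw [← ENNReal.ofReal_inv_of_pos hpos, ← ENNReal.ofReal_mul (Real.exp_nonneg _),
      ← ENNReal.ofReal_mul (by positivity)]
    congr 1
    rw [div_pow]
    field_simp
  rw [h1, mul_assoc (ENNReal.ofReal (t0 ^ D.card))⁻¹]
  have h2 : ENNReal.ofReal (t0 ^ D.card) ≠ 0 := by
    rw [Ne, ENNReal.ofReal_eq_zero, not_le]; exact hpos
  calc μ E = (ENNReal.ofReal (t0 ^ D.card))⁻¹ * (ENNReal.ofReal (t0 ^ D.card) * μ E) := by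
        rw [← mul_assoc, ENNReal.inv_mul_cancel h2 ENNReal.ofReal_ne_top, one_mul]
    _ ≤ _ := mul_le_mul_right hpay _

end Pool.Agent.Lib.SHirsch.Thin
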