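import Pool.Agent.Lib.SHirsch.TLem
import Pool.Agent.Lib.SHirsch.TDet

/-!
# The thin part: assembly (MP_4a5c02_co)

`thin_core`: outside a small bad set the diameter is polynomial on the event that the margin of the
rows is at most `MM ^ (-30)`.
-/

set_option autoImplicit false

open MeasureTheory ProbabilityTheory
open scoped ENNReal NNReal

namespace Pool.Agent.Lib.SHirsch.Thin

open Pool.Agent.Lib.SHirsch Pool.Agent.Lib.S3

/-- The centres of the rows `(-b, a)`. -/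
def ce {m n : ℕ} (Abar : Fin m → Fin n → ℝ) (bbar : Fin m → ℝ) (i : Fin m × Fin (n + 1)) : ℝ :=
  (Fin.cons (-(bbar i.1)) (Abar i.1) : Fin (n + 1) → ℝ) i.2

/-- The rows of a noise. -/
def rws {m n : ℕ} (Abar : Fin m → Fin n → ℝ) (bbar : Fin m → ℝ)
    (ω : (Fin m → Fin n → ℝ) × (Fin m → ℝ)) : Fin m × Fin (n + 1) → ℝ :=
  rw' (fun i j => Abar i j + ω.1 i j) (fun i => bbar i + ω.2 i)

theorem ce_le {m n : ℕ} {Abar : Fin m → Fin n → ℝ} {bbar : Fin m → ℝ}
    (hA : ∑ i, ∑ j, Abar i j ^ 2 ≤ 1) (hb : ∑ i, bbar i ^ 2 ≤ 1) (i : Fin m × Fin (n + 1)) :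
    |ce Abar bbar i| ≤ 1 := by
  obtain ⟨r, k⟩ := i
  have hsq : ∀ x : ℝ, x ^ 2 ≤ 1 → |x| ≤ 1 := fun x hx => by
    rw [← sq_abs] at hx
    nlinarith [abs_nonneg x]
  refine Fin.cases ?_ (fun k => ?_) k
  · unfold ce
    rw [Fin.cons_zero, abs_neg]
    apply hsq
    exact (Finset.single_le_sum (f := fun i => bbar i ^ 2) (fun _ _ => sq_nonneg _)
      (Finset.mem_univ r)).trans hb
  · unfold ce
    rw [Fin.cons_succ]
    apply hsq
    refine le_trans ?_ hA
    refine le_trans ?_ (Finset.single_le_sum (f := fun i => ∑ j, Abar i j ^ 2)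
      (fun _ _ => Finset.sum_nonneg fun _ _ => sq_nonneg _) (Finset.mem_univ r))
    exact Finset.single_le_sum (f := fun j => Abar r j ^ 2) (fun _ _ => sq_nonneg _)
      (Finset.mem_univ k)

/-- The numerical inequality of the union bound. -/
theorem num_thin {M : ℝ} (hM : 5 ≤ M) {m' n' : ℝ} (hm0 : 0 ≤ m') (hm : m' ≤ M) (hn0 : 0 ≤ n')
    (hn : n' ≤ M) {p : ℕ} (hp : 5 ≤ p) :
    M ^ p * (m' ^ p * (n' * (2 * (Real.exp 2 *
      (2 * Real.sqrt (2 * (M ^ 30)⁻¹) / (M ^ 11)⁻¹) ^ p)))) ≤ 1 := by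
  have hM0 : 0 < M := by linarith
  have e1 : Real.sqrt (2 * (M ^ 30)⁻¹) = Real.sqrt 2 * (M ^ 15)⁻¹ := by
    rw [Real.sqrt_mul (by norm_num), Real.sqrt_inv]
    congr 2
    rw [show M ^ 30 = (M ^ 15) ^ 2 by ring]
    exact Real.sqrt_sq (by positivity)
  have hs2 : Real.sqrt 2 ≤ 2 := by
    rw [Real.sqrt_le_left (by norm_num)]
    norm_num
  set x : ℝ := 2 * Real.sqrt (2 * (M ^ 30)⁻¹) / (M ^ 11)⁻¹ with hx
  have hx0 : 0 ≤ x := by positivity
  have hx1 : x ≤ (M ^ 3)⁻¹ := by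
    have : x = 2 * Real.sqrt 2 * (M ^ 4)⁻¹ := by
      rw [hx, e1]
      field_simp
    rw [this]
    have h4 : (M ^ 3)⁻¹ = M * (M ^ 4)⁻¹ := by field_simp
    rw [h4]
    have : 2 * Real.sqrt 2 ≤ M := by linarith
    gcongr
  have hexp : Real.exp 2 ≤ 8 := by
    have h1 : Real.exp 1 < 2.7182818286 := Real.exp_one_lt_d9
    have h2 : Real.exp 2 = Real.exp 1 * Real.exp 1 := by
      rw [← Real.exp_add]; norm_num
    have h3 : 0 < Real.exp 1 := Real.exp_pos 1
    rw [h2]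
    nlinarith
  have key : (M * (m' * x)) ^ p ≤ (M⁻¹) ^ p := by
    refine pow_le_pow_left₀ (by positivity) ?_ p
    calc M * (m' * x) ≤ M * (M * (M ^ 3)⁻¹) := by gcongr
      _ = M⁻¹ := by field_simp
  have key2 : (M⁻¹) ^ p ≤ (M⁻¹) ^ 5 :=
    pow_le_pow_of_le_one (by positivity) (inv_le_one_of_one_le₀ (by linarith)) hp
  calc M ^ p * (m' ^ p * (n' * (2 * (Real.exp 2 * x ^ p))))
      = (M * (m' * x)) ^ p * (2 * n' * Real.exp 2) := by
        rw [mul_pow, mul_pow]; ring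
    _ ≤ (M⁻¹) ^ 5 * (2 * M * 8) := by
        gcongr
        exact key.trans key2
    _ = 16 * (M⁻¹) ^ 4 := by field_simp; ring
    _ ≤ 1 := by
        have h5 : M⁻¹ ≤ 5⁻¹ := inv_anti₀ (by norm_num) hM
        have h6 : (M⁻¹) ^ 4 ≤ (5⁻¹) ^ 4 := pow_le_pow_left₀ (by positivity) h5 4
        norm_num at h6 ⊢
        linarith

theorem num_kappa {M m' n' σ : ℝ} (hM : 5 ≤ M) (hm0 : 0 ≤ m') (hm : m' ≤ M) (hn0 : 0 ≤ n')
    (hn : n' ≤ M) (hσ0 : 0 < σ) (hσ : 1 / σ ≤ M) :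
    m' * n' * (m' * (M ^ 11)⁻¹ * (M ^ 2 + 1)) * (2 * M ^ 2 + m' * (M ^ 11)⁻¹ * (M ^ 2 + 1)) ≤
      2 * σ ^ 2 := by
  have hM0 : 0 < M := by linarith
  have h1 : M ^ 2 + 1 ≤ M ^ 3 := by nlinarith [sq_nonneg M]
  have h2 : m' * (M ^ 11)⁻¹ * (M ^ 2 + 1) ≤ (M ^ 7)⁻¹ := by
    calc m' * (M ^ 11)⁻¹ * (M ^ 2 + 1) ≤ M * (M ^ 11)⁻¹ * M ^ 3 := by gcongr
      _ = (M ^ 7)⁻¹ := by field_simp
  have h3 : (M ^ 7)⁻¹ ≤ 1 := inv_le_one_of_one_le₀ (one_le_pow₀ (by linarith))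
  have h4 : 2 * M ^ 2 + m' * (M ^ 11)⁻¹ * (M ^ 2 + 1) ≤ M ^ 3 := by
    have : 2 * M ^ 2 + 1 ≤ M ^ 3 := by nlinarith [sq_nonneg M]
    linarith
  have hσM : (M ^ 2)⁻¹ ≤ σ ^ 2 := by
    have : M⁻¹ ≤ σ := by
      rw [one_div] at hσ
      exact inv_le_of_inv_le₀ hσ0 hσ
    calc (M ^ 2)⁻¹ = (M⁻¹) ^ 2 := by rw [inv_pow]
      _ ≤ σ ^ 2 := pow_le_pow_left₀ (by positivity) this 2
  calc m' * n' * (m' * (M ^ 11)⁻¹ * (M ^ 2 + 1)) * (2 * M ^ 2 + m' * (M ^ 11)⁻¹ * (M ^ 2 + 1))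
      ≤ M * M * (M ^ 7)⁻¹ * M ^ 3 := by gcongr
    _ = (M ^ 2)⁻¹ := by field_simp
    _ ≤ σ ^ 2 := hσM
    _ ≤ 2 * σ ^ 2 := by nlinarith [sq_nonneg σ]

theorem mm_ge {m n : ℕ} (hn : 1 ≤ n) (hmn : n ≤ m) {σ : ℝ} (hσ : 0 < σ) : 5 ≤ MM m n σ := by
  unfold MM
  have : 0 < ⌈1 / σ⌉₊ := Nat.ceil_pos.mpr (by positivity)
  omega

/-- The thin part from the three facts on the law. -/
theorem thin_core {m n : ℕ} (hn : 1 ≤ n) (hmn : n ≤ m) {σ : ℝ} (hσ : 0 < σ) (_hσ1 : σ ≤ 1)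
    (Abar : Fin m → Fin n → ℝ) (bbar : Fin m → ℝ)
    (hA : ∑ i, ∑ j, Abar i j ^ 2 ≤ 1) (hb : ∑ i, bbar i ^ 2 ≤ 1)
    (L1 : MeasurePreserving (rws Abar bbar) (noise m n σ)
      (Measure.pi fun i => gaussianReal (ce Abar bbar i) (σ ^ 2).toNNReal))
    (L2 : ((MM m n σ : ℕ) : ℝ≥0∞) ^ (Nat.log 2 n + 5) *
      (Measure.pi fun i => gaussianReal (ce Abar bbar i) (σ ^ 2).toNNReal)
        {x | ∃ i, ((MM m n σ : ℕ) : ℝ) ^ 2 < |x i - ce Abar bbar i|} ≤
      noise m n σ (feas Abar bbar))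
    (L3 : noise m n σ {ω | Fz (rws Abar bbar ω)} ≤ noise m n σ (feas Abar bbar)) :
    ∃ B : Set ((Fin m → Fin n → ℝ) × (Fin m → ℝ)),
      (∀ᵐ ω ∂(noise m n σ), ω ∉ B →
        ThinOn ((((MM m n σ : ℕ) : ℝ) ^ 30)⁻¹) Finset.univ (rws Abar bbar ω) →
        dm (Pol (fun i j => Abar i j + ω.1 i j) (fun i => bbar i + ω.2 i) ∅ Finset.univ) ≤
          ((MM m n σ ^ 15 : ℕ) : ℕ∞)) ∧
      ((MM m n σ : ℕ) : ℝ≥0∞) ^ (Nat.log 2 n + 5) * noise m n σ B ≤
        2 * noise m n σ (feas Abar bbar) := by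
  classical
  set M := MM m n σ with hMdef
  have hM5 : 5 ≤ M := mm_ge hn hmn hσ
  have hMr : (5 : ℝ) ≤ (M : ℝ) := by exact_mod_cast hM5
  have hmM : (m : ℝ) ≤ (M : ℝ) := by
    have : m ≤ M := by rw [hMdef]; unfold MM; omega
    exact_mod_cast this
  have hnM : ((n : ℝ) + 1) ≤ (M : ℝ) := by
    have : n + 1 ≤ M := by rw [hMdef]; unfold MM; omega
    exact_mod_cast this
  have hσM : 1 / σ ≤ (M : ℝ) := by
    refine (Nat.le_ceil (1 / σ)).trans ?_
    have : ⌈1 / σ⌉₊ ≤ M := by rw [hMdef]; unfold MM; omega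
    exact_mod_cast this
  set p := Nat.log 2 n + 5 with hp
  set μ := Measure.pi fun i => gaussianReal (ce Abar bbar i) (σ ^ 2).toNNReal with hμ
  set R : ℝ := (M : ℝ) ^ 2 with hR
  set ρ : ℝ := ((M : ℝ) ^ 30)⁻¹ with hρ
  set t0 : ℝ := ((M : ℝ) ^ 11)⁻¹ with ht0
  set F := noise m n σ (feas Abar bbar) with hF
  have hv : (σ ^ 2).toNNReal ≠ 0 := by
    simp only [ne_eq, Real.toNNReal_eq_zero, not_le]
    positivity
  -- the pieces
  set EE : Finset (Fin m) → Fin (n + 1) → ℝ → Set (Fin m × Fin (n + 1) → ℝ) :=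
    fun D j e => {x | ET D j e ρ x ∧ ∀ i, |x i - ce Abar bbar i| ≤ R} with hEE
  set TT : Set (Fin m × Fin (n + 1) → ℝ) := {x | ∃ i, R < |x i - ce Abar bbar i|} with hTT
  set U : Set (Fin m × Fin (n + 1) → ℝ) :=
    (⋃ D ∈ (Finset.univ : Finset (Fin m)).powersetCard p, ⋃ j ∈ (Finset.univ : Finset (Fin (n + 1))),
      ⋃ e ∈ ({1, -1} : Finset ℝ), EE D j e) with hU
  have hEEm : ∀ D j e, MeasurableSet (EE D j e) := by
    intro D j e
    have h1 : IsClosed {ω : Fin m × Fin (n + 1) → ℝ | ∀ i, |ω i - ce Abar bbar i| ≤ R} := by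
      have : {ω : Fin m × Fin (n + 1) → ℝ | ∀ i, |ω i - ce Abar bbar i| ≤ R} =
          ⋂ i, {ω | |ω i - ce Abar bbar i| ≤ R} := by ext ω; simp
      rw [this]
      exact isClosed_iInter fun i => isClosed_le (by fun_prop) continuous_const
    exact ((et_closed D j e ρ).inter h1).measurableSet
  have hUm : MeasurableSet U :=
    Finset.measurableSet_biUnion _ fun D _ => Finset.measurableSet_biUnion _ fun j _ =>
      Finset.measurableSet_biUnion _ fun e _ => hEEm D j e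
  have hTTm : MeasurableSet TT := by
    have : TT = ⋃ i, {x | R < |x i - ce Abar bbar i|} := by ext x; simp [hTT]
    rw [this]
    exact MeasurableSet.iUnion fun i => measurableSet_lt measurable_const (by fun_prop)
  have hFz : μ {x | Fz x} ≤ F := by
    rw [← L1.measure_preimage fz_closed.measurableSet.nullMeasurableSet]
    exact L3
  have hpiece : ∀ D ∈ (Finset.univ : Finset (Fin m)).powersetCard p, ∀ j,
      ∀ e ∈ ({1, -1} : Finset ℝ), μ (EE D j e) ≤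
        ENNReal.ofReal (Real.exp 2 * (2 * Real.sqrt (2 * ρ) / t0) ^ p) * F := by
    intro D hD j e he
    have hDc : D.card = p := (Finset.mem_powersetCard.mp hD).2
    have habs : |e| = 1 := by
      simp only [Finset.mem_insert, Finset.mem_singleton] at he
      rcases he with rfl | rfl <;> simp
    have := lemmaT (by omega) (ce Abar bbar) (ce_le hA hb) hv D j habs (ρ := ρ) (R := R)
      (t0 := t0) (by positivity) (by positivity) (by
        rw [Real.coe_toNNReal _ (by positivity)]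
        exact num_kappa hMr (by positivity) hmM (by positivity) hnM hσ hσM)
    rw [hDc] at this
    exact this.trans (mul_le_mul_right hFz _)
  have hUle : μ U ≤ ENNReal.ofReal ((m : ℝ) ^ p * (((n : ℝ) + 1) * (2 * (Real.exp 2 *
      (2 * Real.sqrt (2 * ρ) / t0) ^ p)))) * F := by
    calc μ U ≤ ∑ D ∈ (Finset.univ : Finset (Fin m)).powersetCard p,
          ∑ _j ∈ (Finset.univ : Finset (Fin (n + 1))), ∑ _e ∈ ({1, -1} : Finset ℝ),
            ENNReal.ofReal (Real.exp 2 * (2 * Real.sqrt (2 * ρ) / t0) ^ p) * F := by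
          refine (measure_biUnion_finset_le _ _).trans (Finset.sum_le_sum fun D hD => ?_)
          refine (measure_biUnion_finset_le _ _).trans (Finset.sum_le_sum fun j _ => ?_)
          refine (measure_biUnion_finset_le _ _).trans (Finset.sum_le_sum fun e he => ?_)
          exact hpiece D hD j e he
      _ = ((Nat.choose m p * ((n + 1) * 2) : ℕ) : ℝ≥0∞) *
            (ENNReal.ofReal (Real.exp 2 * (2 * Real.sqrt (2 * ρ) / t0) ^ p) * F) := by
          have h2 : ({1, -1} : Finset ℝ).card = 2 := by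
            rw [Finset.card_pair (by norm_num)]
          simp only [Finset.sum_const, Finset.card_powersetCard, Finset.card_univ,
            Fintype.card_fin, h2, nsmul_eq_mul]
          push_cast
          ring
      _ ≤ _ := by
          rw [← mul_assoc, ← ENNReal.ofReal_natCast, ← ENNReal.ofReal_mul (by positivity)]
          refine mul_le_mul_left (ENNReal.ofReal_le_ofReal ?_) _
          push_cast
          have h3 : ((Nat.choose m p : ℕ) : ℝ) ≤ (m : ℝ) ^ p := by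
            exact_mod_cast Nat.choose_le_pow m p
          have h4 : 0 ≤ Real.exp 2 * (2 * Real.sqrt (2 * ρ) / t0) ^ p := by positivity
          calc (Nat.choose m p : ℝ) * (((n : ℝ) + 1) * 2) *
                (Real.exp 2 * (2 * Real.sqrt (2 * ρ) / t0) ^ p)
              ≤ (m : ℝ) ^ p * (((n : ℝ) + 1) * 2) *
                (Real.exp 2 * (2 * Real.sqrt (2 * ρ) / t0) ^ p) := by gcongr
            _ = _ := by ring
  have hUfin : ((M : ℕ) : ℝ≥0∞) ^ p * μ U ≤ F := by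
    calc ((M : ℕ) : ℝ≥0∞) ^ p * μ U ≤ ((M : ℕ) : ℝ≥0∞) ^ p *
          (ENNReal.ofReal ((m : ℝ) ^ p * (((n : ℝ) + 1) * (2 * (Real.exp 2 *
            (2 * Real.sqrt (2 * ρ) / t0) ^ p)))) * F) := by gcongr
      _ = ENNReal.ofReal ((M : ℝ) ^ p * ((m : ℝ) ^ p * (((n : ℝ) + 1) * (2 * (Real.exp 2 *
            (2 * Real.sqrt (2 * ρ) / t0) ^ p))))) * F := by
          have hY : ∀ Y : ℝ, ((M : ℕ) : ℝ≥0∞) ^ p * ENNReal.ofReal Y =
              ENNReal.ofReal ((M : ℝ) ^ p * Y) := by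
            intro Y
            rw [ENNReal.ofReal_mul (by positivity), ENNReal.ofReal_pow (by positivity),
              ENNReal.ofReal_natCast]
          rw [← mul_assoc, hY]
      _ ≤ 1 * F := by
          gcongr
          rw [ENNReal.ofReal_le_one]
          exact num_thin hMr (by positivity) hmM (by positivity) hnM (by omega)
      _ = F := one_mul F
  refine ⟨rws Abar bbar ⁻¹' (U ∪ TT), ?_, ?_⟩
  · filter_upwards [gpos_noise hmn Abar bbar hσ] with ω hG hnot hthin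
    have hbox : ∀ i, |rws Abar bbar ω i - ce Abar bbar i| ≤ R := by
      intro i
      by_contra hc
      rw [not_le] at hc
      exact hnot (Or.inr ⟨i, hc⟩)
    have hno : ∀ D : Finset (Fin m), D.card = p → ∀ j : Fin (n + 1), ∀ e : ℝ, |e| = 1 →
        ¬ ET D j e ρ (rw' (fun i j => Abar i j + ω.1 i j) (fun i => bbar i + ω.2 i)) := by
      intro D hD j e he hET
      apply hnot
      left
      rw [hU]
      simp only [Set.mem_iUnion]
      refine ⟨D, Finset.mem_powersetCard.mpr ⟨Finset.subset_univ _, hD⟩, j, Finset.mem_univ _,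
        e, ?_, hET, hbox⟩
      simp only [Finset.mem_insert, Finset.mem_singleton]
      rcases (abs_eq (by norm_num : (0 : ℝ) ≤ 1)).mp he with h | h
      · exact Or.inl h
      · exact Or.inr h
    have hfin := det_thin hG (p := p) (by omega) hthin hno
    refine hfin.trans ?_
    have hnum : 4 ^ (2 * p) * m ≤ M ^ 15 := by
      have h1 : 2 ^ Nat.log 2 n ≤ n := Nat.pow_log_le_self 2 (by omega)
      have h2 : 4 ^ (2 * p) = (2 ^ Nat.log 2 n) ^ 4 * 4 ^ 10 := by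
        rw [hp, show (4 : ℕ) = 2 ^ 2 by norm_num, ← pow_mul, ← pow_mul, ← pow_mul, ← pow_add]
        congr 1
        ring
      have hnM' : n ≤ M := by rw [hMdef]; unfold MM; omega
      have hmM' : m ≤ M := by rw [hMdef]; unfold MM; omega
      rw [h2]
      calc (2 ^ Nat.log 2 n) ^ 4 * 4 ^ 10 * m ≤ M ^ 4 * M ^ 10 * M := by
            gcongr
            · exact h1.trans hnM'
            · omega
        _ = M ^ 15 := by ring
    exact_mod_cast hnum
  · rw [L1.measure_preimage (hUm.union hTTm).nullMeasurableSet]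
    calc ((M : ℕ) : ℝ≥0∞) ^ p * μ (U ∪ TT) ≤ ((M : ℕ) : ℝ≥0∞) ^ p * (μ U + μ TT) := by
          gcongr
          exact measure_union_le _ _
      _ = ((M : ℕ) : ℝ≥0∞) ^ p * μ U + ((M : ℕ) : ℝ≥0∞) ^ p * μ TT := mul_add _ _ _
      _ ≤ F + F := add_le_add hUfin L2
      _ = 2 * F := by ring

end Pool.Agent.Lib.SHirsch.Thin
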